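import Mathlib

set_option linter.unusedSectionVars false
set_option linter.unnecessarySimpa false

namespace MP4845

open MeasureTheory Module Set Filter Topology
open scoped ENNReal NNReal

section

variable {E F : Type*} [NormedAddCommGroup E] [NormedSpace ℝ E] [FiniteDimensional ℝ E]
  [MeasurableSpace E] [BorelSpace E]
  [NormedAddCommGroup F] [NormedSpace ℝ F] [FiniteDimensional ℝ F]
  [MeasurableSpace F] [BorelSpace F]

/-- linear change of variables up to a positive constant -/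
lemma haar_map (L : E ≃L[ℝ] F) (μ : Measure E) [μ.IsAddHaarMeasure] (ν : Measure F)
    [ν.IsAddHaarMeasure] :
    ∃ c : ℝ, 0 < c ∧ ∀ h : F → ℝ, (Integrable h ν ↔ Integrable (fun x => h (L x)) μ) ∧
      ∫ y, h y ∂ν = c * ∫ x, h (L x) ∂μ := by
  have : (μ.map L).IsAddHaarMeasure := L.isAddHaarMeasure_map μ
  have h1 := Measure.isAddLeftInvariant_eq_smul ν (μ.map L)
  set c := Measure.addHaarScalarFactor ν (μ.map L) with hc
  have hcpos : 0 < c := by
    rw [hc]
    exact Measure.addHaarScalarFactor_pos_of_isAddHaarMeasure ν (μ.map L)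
  refine ⟨(c : ℝ), by exact_mod_cast hcpos, ?_⟩
  intro h
  have hemb : MeasurableEmbedding L := L.toHomeomorph.measurableEmbedding
  constructor
  · rw [h1]
    have h2 : (c • Measure.map L μ) = ((c : ℝ≥0∞) • Measure.map L μ) := rfl
    rw [h2, integrable_smul_measure (by exact_mod_cast hcpos.ne') ENNReal.coe_ne_top]
    exact hemb.integrable_map_iff
  · rw [h1]
    rw [integral_smul_nnreal_measure, hemb.integral_map]
    rfl

/-- radial integrability -/
lemma integrable_radial [Nontrivial E] (μ : Measure E) [μ.IsAddHaarMeasure] {c s : ℝ} (hc : 0 < c)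
    (hs : -(finrank ℝ E : ℝ) < s) : Integrable (fun x : E => ‖x‖ ^ s * Real.exp (-c * ‖x‖ ^ 2)) μ := by
  have h1 := (integrable_fun_norm_addHaar μ
    (f := fun ρ : ℝ => ρ ^ s * Real.exp (-c * ρ ^ 2))).mpr
  apply h1
  have hN : 0 < finrank ℝ E := finrank_pos
  have h2 : IntegrableOn (fun ρ : ℝ => ρ ^ (s + ((finrank ℝ E : ℝ) - 1)) *
      Real.exp (-c * ρ ^ 2)) (Ioi 0) := by
    apply integrableOn_rpow_mul_exp_neg_mul_sq hc
    linarith
  refine h2.congr_fun ?_ measurableSet_Ioi
  intro ρ hρ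
  have hρ0 : (0:ℝ) < ρ := hρ
  simp only [smul_eq_mul]
  have h3 : ρ ^ (finrank ℝ E - 1) = ρ ^ ((finrank ℝ E : ℝ) - 1) := by
    rw [← Real.rpow_natCast, Nat.cast_sub hN]
    simp
  rw [h3, Real.rpow_add hρ0]
  ring

lemma integrable_gauss [Nontrivial E] (μ : Measure E) [μ.IsAddHaarMeasure] {c : ℝ} (hc : 0 < c) :
    Integrable (fun x : E => Real.exp (-c * ‖x‖ ^ 2)) μ := by
  have h := integrable_radial μ (s := 0) hc (by
    have : 0 < finrank ℝ E := finrank_pos
    simpa using this)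
  simpa using h

end

section

variable {E F : Type*} [NormedAddCommGroup E] [NormedSpace ℝ E] [FiniteDimensional ℝ E]
  [MeasurableSpace E] [BorelSpace E]
  [NormedAddCommGroup F] [NormedSpace ℝ F]

/-- Gaussian of an injective linear image -/
lemma integrable_gauss_inj [Nontrivial E] (μ : Measure E) [μ.IsAddHaarMeasure] (J : E →ₗ[ℝ] F)
    (hJ : Function.Injective J) (b0 : E) {c : ℝ} (hc : 0 < c) :
    Integrable (fun b : E => Real.exp (-c * ‖J (b - b0)‖ ^ 2)) μ := by
  obtain ⟨K, hK, hKJ⟩ := J.exists_antilipschitzWith (LinearMap.ker_eq_bot.mpr hJ)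
  have h1 : ∀ b, ‖b‖ ≤ K * ‖J b‖ := by
    intro b
    have := hKJ.le_mul_dist b 0
    simpa using this
  have hJc : Continuous J := J.continuous_of_finiteDimensional
  have hK' : (0:ℝ) < K := by exact_mod_cast hK
  have h2 : Integrable (fun b : E => Real.exp (-(c / K ^ 2) * ‖b‖ ^ 2)) μ :=
    integrable_gauss μ (by positivity)
  have h3 : Integrable (fun b : E => Real.exp (-c * ‖J b‖ ^ 2)) μ := by
    refine h2.mono' ?_ ?_
    · exact (Real.continuous_exp.comp (continuous_const.mul (hJc.norm.pow 2))).aestronglyMeasurable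
    · filter_upwards with b
      rw [Real.norm_of_nonneg (Real.exp_pos _).le]
      apply Real.exp_le_exp.mpr
      have h4 : ‖b‖ ^ 2 ≤ (K * ‖J b‖) ^ 2 := pow_le_pow_left₀ (norm_nonneg _) (h1 b) 2
      have h5 : c / K ^ 2 * ‖b‖ ^ 2 ≤ c * ‖J b‖ ^ 2 := by
        calc c / K ^ 2 * ‖b‖ ^ 2 ≤ c / K ^ 2 * (K * ‖J b‖) ^ 2 := by gcongr
          _ = c * ‖J b‖ ^ 2 := by field_simp
      linarith
  exact h3.comp_sub_right b0

end

end MP4845
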