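import Mathlib

set_option linter.unusedSectionVars false
set_option linter.unnecessarySimpa false

namespace MP4845

open MeasureTheory Module Set Filter Topology
open scoped InnerProductSpace

section

variable {V : Type*} [NormedAddCommGroup V] [InnerProductSpace ℝ V] [FiniteDimensional ℝ V]
  [MeasurableSpace V] [BorelSpace V]

lemma isometry_preserving (ν : Measure V) [ν.IsAddHaarMeasure] (f : V ≃ₗᵢ[ℝ] V) :
    MeasurePreserving f ν ν := by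
  have h := Measure.isAddLeftInvariant_eq_smul ν (volume : Measure V)
  rw [h]
  exact (f.measurePreserving).smul_measure _

lemma integral_inner_sq_eq (ν : Measure V) [ν.IsAddHaarMeasure] (ψ : ℝ → ℝ) {e e' : V}
    (h : ‖e‖ = ‖e'‖) :
    ∫ v, ψ ‖v‖ * ⟪e', v⟫_ℝ ^ 2 ∂ν = ∫ v, ψ ‖v‖ * ⟪e, v⟫_ℝ ^ 2 ∂ν := by
  let f : V ≃ₗᵢ[ℝ] V := Submodule.reflection (ℝ ∙ (e - e'))ᗮ
  have hf : f e = e' := Submodule.reflection_sub h
  have hmp := isometry_preserving ν f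
  have := hmp.integral_comp (f.toHomeomorph.measurableEmbedding)
    (fun v => ψ ‖v‖ * ⟪e', v⟫_ℝ ^ 2)
  rw [← this]
  congr 1
  ext v
  rw [f.norm_map, ← hf, f.inner_map_map]

lemma integral_inner_sq (ν : Measure V) [ν.IsAddHaarMeasure] {ψ : ℝ → ℝ} (hψm : Measurable ψ)
    (hint : Integrable (fun v => ψ ‖v‖ * ‖v‖ ^ 2) ν) {e : V} (he : ‖e‖ = 1) :
    (finrank ℝ V : ℝ) * ∫ v, ψ ‖v‖ * ⟪e, v⟫_ℝ ^ 2 ∂ν = ∫ v, ψ ‖v‖ * ‖v‖ ^ 2 ∂ν := by
  let b := stdOrthonormalBasis ℝ V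
  have h1 : ∀ i, ∫ v, ψ ‖v‖ * ⟪b i, v⟫_ℝ ^ 2 ∂ν = ∫ v, ψ ‖v‖ * ⟪e, v⟫_ℝ ^ 2 ∂ν := by
    intro i
    apply integral_inner_sq_eq
    rw [he, b.norm_eq_one]
  have hi : ∀ i, Integrable (fun v => ψ ‖v‖ * ⟪b i, v⟫_ℝ ^ 2) ν := by
    intro i
    refine hint.mono ?_ ?_
    · apply Measurable.aestronglyMeasurable
      exact (hψm.comp measurable_norm).mul ((by fun_prop : Measurable fun v => ⟪b i, v⟫_ℝ).pow_const 2)
    · filter_upwards with v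
      rw [norm_mul, norm_mul]
      apply mul_le_mul_of_nonneg_left _ (norm_nonneg _)
      rw [Real.norm_of_nonneg (sq_nonneg _), Real.norm_of_nonneg (sq_nonneg _)]
      have := abs_real_inner_le_norm (b i) v
      rw [b.norm_eq_one, one_mul] at this
      rw [← sq_abs]
      exact pow_le_pow_left₀ (abs_nonneg _) this 2
  have h2 : ∀ v : V, ψ ‖v‖ * ‖v‖ ^ 2 = ∑ i, ψ ‖v‖ * ⟪b i, v⟫_ℝ ^ 2 := by
    intro v
    rw [← Finset.mul_sum]
    congr 1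
    have := b.sum_sq_norm_inner_right v
    rw [← this]
    apply Finset.sum_congr rfl
    intro i _
    rw [Real.norm_eq_abs, sq_abs]
  simp_rw [h2]
  rw [integral_finsetSum _ (fun i _ => hi i)]
  simp_rw [h1]
  simp

/-- averaging: a nonzero linear map has, on radial average, at least a fixed fraction of the
squared norm -/
lemma exists_average {E : Type*} [NormedAddCommGroup E] [InnerProductSpace ℝ E]
    (ν : Measure V) [ν.IsAddHaarMeasure] (C : V →L[ℝ] E) (hC : C ≠ 0) :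
    ∃ c3 : ℝ, 0 < c3 ∧ ∀ ψ : ℝ → ℝ, Measurable ψ → (∀ x, 0 ≤ ψ x) →
      Integrable (fun v => ψ ‖v‖ * ‖v‖ ^ 2) ν → 
      c3 * ∫ v, ψ ‖v‖ * ‖v‖ ^ 2 ∂ν ≤ ∫ v, ψ ‖v‖ * ‖C v‖ ^ 2 ∂ν := by
  obtain ⟨v0, hv0⟩ : ∃ v0, C v0 ≠ 0 := by
    by_contra hcon
    push Not at hcon
    exact hC (ContinuousLinearMap.ext hcon)
  set x := C v0 with hx
  have hxpos : 0 < ‖x‖ := norm_pos_iff.mpr hv0
  let ℓ : V →L[ℝ] ℝ := (innerSL ℝ x).comp C
  let u : V := (InnerProductSpace.toDual ℝ V).symm ℓ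
  have hu : ∀ v, ⟪u, v⟫_ℝ = ⟪x, C v⟫_ℝ := by
    intro v
    have := InnerProductSpace.toDual_symm_apply (𝕜 := ℝ) (x := v) (y := ℓ)
    rw [this]
    rfl
  have hu0 : u ≠ 0 := by
    intro h
    have h1 := hu v0
    rw [h, inner_zero_left, ← hx, real_inner_self_eq_norm_sq] at h1
    have : 0 < ‖x‖ ^ 2 := by positivity
    linarith
  have hupos : 0 < ‖u‖ := norm_pos_iff.mpr hu0
  have hne : Nontrivial V := ⟨u, 0, hu0⟩
  have hm : 0 < finrank ℝ V := finrank_pos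
  have hm' : (0:ℝ) < finrank ℝ V := by exact_mod_cast hm
  let e : V := (‖u‖⁻¹ : ℝ) • u
  have he : ‖e‖ = 1 := by
    simp only [e]
    rw [norm_smul, norm_inv, norm_norm, inv_mul_cancel₀ hupos.ne']
  have hkey : ∀ v, ‖u‖ ^ 2 / ‖x‖ ^ 2 * ⟪e, v⟫_ℝ ^ 2 ≤ ‖C v‖ ^ 2 := by
    intro v
    have h1 : ⟪e, v⟫_ℝ = ‖u‖⁻¹ * ⟪x, C v⟫_ℝ := by
      simp only [e]
      rw [real_inner_smul_left, hu]
    have h2 := abs_real_inner_le_norm x (C v)
    have h3 : ⟪x, C v⟫_ℝ ^ 2 ≤ ‖x‖ ^ 2 * ‖C v‖ ^ 2 := by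
      rw [← sq_abs, ← mul_pow]
      exact pow_le_pow_left₀ (abs_nonneg _) h2 2
    rw [h1]
    have h4 : ‖u‖ ^ 2 / ‖x‖ ^ 2 * (‖u‖⁻¹ * ⟪x, C v⟫_ℝ) ^ 2 = ⟪x, C v⟫_ℝ ^ 2 / ‖x‖ ^ 2 := by
      field_simp
    rw [h4, div_le_iff₀ (by positivity)]
    linarith
  refine ⟨‖u‖ ^ 2 / ‖x‖ ^ 2 / finrank ℝ V, by positivity, ?_⟩
  intro ψ hψm hψ hint
  have hCint : Integrable (fun v => ψ ‖v‖ * ‖C v‖ ^ 2) ν := by
    refine (hint.const_mul (‖C‖ ^ 2)).mono' ?_ ?_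
    · apply Measurable.aestronglyMeasurable
      exact (hψm.comp measurable_norm).mul ((C.continuous.norm.measurable).pow_const 2)
    · filter_upwards with v
      rw [Real.norm_of_nonneg (mul_nonneg (hψ _) (sq_nonneg _))]
      have h1 := C.le_opNorm v
      have h2 : ‖C v‖ ^ 2 ≤ (‖C‖ * ‖v‖) ^ 2 := pow_le_pow_left₀ (norm_nonneg _) h1 2
      calc ψ ‖v‖ * ‖C v‖ ^ 2 ≤ ψ ‖v‖ * (‖C‖ * ‖v‖) ^ 2 :=
            mul_le_mul_of_nonneg_left h2 (hψ _)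
        _ = ‖C‖ ^ 2 * (ψ ‖v‖ * ‖v‖ ^ 2) := by ring
  rw [← integral_inner_sq ν hψm hint he]
  have heint : Integrable (fun v => ψ ‖v‖ * ⟪e, v⟫_ℝ ^ 2) ν := by
    refine hint.mono ?_ ?_
    · apply Measurable.aestronglyMeasurable
      exact (hψm.comp measurable_norm).mul ((by fun_prop : Measurable fun v => ⟪e, v⟫_ℝ).pow_const 2)
    · filter_upwards with v
      rw [norm_mul, norm_mul]
      apply mul_le_mul_of_nonneg_left _ (norm_nonneg _)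
      rw [Real.norm_of_nonneg (sq_nonneg _), Real.norm_of_nonneg (sq_nonneg _)]
      have := abs_real_inner_le_norm e v
      rw [he, one_mul] at this
      rw [← sq_abs]
      exact pow_le_pow_left₀ (abs_nonneg _) this 2
  have h5 : ‖u‖ ^ 2 / ‖x‖ ^ 2 / finrank ℝ V * (finrank ℝ V * ∫ v, ψ ‖v‖ * ⟪e, v⟫_ℝ ^ 2 ∂ν) =
      ∫ v, ‖u‖ ^ 2 / ‖x‖ ^ 2 * (ψ ‖v‖ * ⟪e, v⟫_ℝ ^ 2) ∂ν := by
    rw [integral_const_mul]
    field_simp
  rw [h5]
  apply integral_mono (heint.const_mul _) hCint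
  intro v
  have := mul_le_mul_of_nonneg_left (hkey v) (hψ ‖v‖)
  simp only
  linarith

end

end MP4845
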