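import Mathlib

set_option linter.unusedSectionVars false
set_option linter.unnecessarySimpa false

namespace MP4845

open MeasureTheory Module
open scoped ENNReal

section

variable {V : Type*} [NormedAddCommGroup V] [NormedSpace ℝ V] [FiniteDimensional ℝ V]
  [MeasurableSpace V] [BorelSpace V]

/-- scaling for lower integrals -/
lemma lintegral_scale (μ : Measure V) [μ.IsAddHaarMeasure] {c : ℝ} (hc : 0 < c)
    {f : V → ℝ≥0∞} (hf : Measurable f) :
    ∫⁻ x, f x ∂μ = ENNReal.ofReal (c ^ finrank ℝ V) * ∫⁻ x, f (c • x) ∂μ := by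
  have h1 : ∫⁻ x, f (c • x) ∂μ = ∫⁻ x, f x ∂(Measure.map (c • ·) μ) := by
    rw [lintegral_map hf (measurable_const_smul c)]
  rw [h1, Measure.map_addHaar_smul μ hc.ne', lintegral_smul_measure, smul_eq_mul, ← mul_assoc,
    abs_of_nonneg (by positivity), ← ENNReal.ofReal_mul (by positivity),
    mul_inv_cancel₀ (by positivity)]
  simp

end

/-- the scale factor `(1+|z|^2)^{-1/2}` -/
noncomputable def lam {R : Type*} [Norm R] (z : R) : ℝ := (Real.sqrt (1 + ‖z‖ ^ 2))⁻¹

section

variable {R V : Type*} [NormedAddCommGroup R] [NormedSpace ℝ R] [FiniteDimensional ℝ R]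
  [MeasurableSpace R] [BorelSpace R]
  [NormedAddCommGroup V] [NormedSpace ℝ V] [FiniteDimensional ℝ V]
  [MeasurableSpace V] [BorelSpace V]

lemma lam_pos (z : R) : 0 < lam z := by unfold lam; positivity

lemma lam_sq (z : R) : lam z ^ 2 = (1 + ‖z‖ ^ 2)⁻¹ := by
  unfold lam
  rw [inv_pow, Real.sq_sqrt (by positivity)]

lemma measurable_lam : Measurable (lam : R → ℝ) := by
  unfold lam
  fun_prop

/-- the change of variables -/
noncomputable def theta (w : R × V) : R × V := ((lam w.1 * ‖w.2‖) • w.1, lam w.1 • w.2)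

/-- its Jacobian -/
noncomputable def jac (w : R × V) : ℝ :=
  lam w.1 ^ finrank ℝ V * (lam w.1 * ‖w.2‖) ^ finrank ℝ R

lemma measurable_theta : Measurable (theta : R × V → R × V) := by
  unfold theta
  have h1 : Measurable (fun w : R × V => lam w.1) := measurable_lam.comp measurable_fst
  exact ((h1.mul (measurable_norm.comp measurable_snd)).smul measurable_fst).prodMk
    (h1.smul measurable_snd)

lemma measurable_jac : Measurable (jac : R × V → ℝ) := by
  unfold jac
  have h1 : Measurable (fun w : R × V => lam w.1) := measurable_lam.comp measurable_fst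
  exact (h1.pow_const _).mul ((h1.mul (measurable_norm.comp measurable_snd)).pow_const _)

lemma jac_nonneg (w : R × V) : 0 ≤ jac w := by
  unfold jac
  have := (lam_pos w.1).le
  positivity

lemma lintegral_theta [Nontrivial V] (μ : Measure R) [μ.IsAddHaarMeasure] (ν : Measure V)
    [ν.IsAddHaarMeasure] {F : R × V → ℝ≥0∞} (hF : Measurable F) :
    ∫⁻ x, F x ∂(μ.prod ν) = ∫⁻ w, ENNReal.ofReal (jac w) * F (theta w) ∂(μ.prod ν) := by
  have hnz : ∀ᵐ g ∂ν, g ≠ 0 := by
    have : ν {0} = 0 := measure_singleton 0
    rw [ae_iff]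
    simpa using this
  calc ∫⁻ x, F x ∂(μ.prod ν) = ∫⁻ g, ∫⁻ r, F (r, g) ∂μ ∂ν := lintegral_prod_symm' F hF
    _ = ∫⁻ g, ∫⁻ z, ENNReal.ofReal (‖g‖ ^ finrank ℝ R) * F (‖g‖ • z, g) ∂μ ∂ν := by
        apply lintegral_congr_ae
        filter_upwards [hnz] with g hg
        have hg' : 0 < ‖g‖ := norm_pos_iff.mpr hg
        have hm : Measurable (fun r => F (r, g)) := hF.comp (by fun_prop)
        rw [lintegral_scale μ hg' hm, lintegral_const_mul]
        exact hF.comp (by fun_prop)
    _ = ∫⁻ z, ∫⁻ g, ENNReal.ofReal (‖g‖ ^ finrank ℝ R) * F (‖g‖ • z, g) ∂ν ∂μ := by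
        rw [lintegral_lintegral_swap]
        apply Measurable.aemeasurable
        apply Measurable.mul
        · fun_prop
        · exact hF.comp (by fun_prop)
    _ = ∫⁻ z, ∫⁻ v, ENNReal.ofReal (jac (z, v)) * F (theta (z, v)) ∂ν ∂μ := by
        apply lintegral_congr
        intro z
        have hm : Measurable (fun g : V => ENNReal.ofReal (‖g‖ ^ finrank ℝ R) * F (‖g‖ • z, g)) := by
          apply Measurable.mul
          · fun_prop
          · exact hF.comp (by fun_prop)
        have hl := lam_pos z
        rw [lintegral_scale ν hl hm, ← lintegral_const_mul]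
        · apply lintegral_congr
          intro v
          have h1 : ‖lam z • v‖ = lam z * ‖v‖ := by
            rw [norm_smul, Real.norm_of_nonneg hl.le]
          rw [h1, ← mul_assoc, ← ENNReal.ofReal_mul (by positivity)]
          rfl
        · apply Measurable.mul
          · fun_prop
          · exact hF.comp (by fun_prop)
    _ = ∫⁻ w, ENNReal.ofReal (jac w) * F (theta w) ∂(μ.prod ν) := by
        rw [lintegral_prod]
        apply Measurable.aemeasurable
        exact (measurable_jac.ennreal_ofReal).mul (hF.comp measurable_theta)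

lemma map_theta [Nontrivial V] (μ : Measure R) [μ.IsAddHaarMeasure] (ν : Measure V)
    [ν.IsAddHaarMeasure] :
    ((μ.prod ν).withDensity (fun w => ENNReal.ofReal (jac w))).map theta = μ.prod ν := by
  apply Measure.ext_of_lintegral
  intro F hF
  rw [lintegral_map hF measurable_theta, lintegral_theta μ ν hF]
  exact lintegral_withDensity_eq_lintegral_mul (μ.prod ν) (measurable_jac.ennreal_ofReal)
      (hF.comp measurable_theta)

lemma integrable_theta [Nontrivial V] (μ : Measure R) [μ.IsAddHaarMeasure] (ν : Measure V)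
    [ν.IsAddHaarMeasure] {F : R × V → ℝ} (hF : Measurable F) :
    Integrable F (μ.prod ν) ↔ Integrable (fun w => jac w * F (theta w)) (μ.prod ν) := by
  conv_lhs => rw [← map_theta μ ν]
  rw [integrable_map_measure hF.aestronglyMeasurable measurable_theta.aemeasurable,
    integrable_withDensity_iff_integrable_smul' (measurable_jac.ennreal_ofReal)
      (Filter.Eventually.of_forall (fun _ => ENNReal.ofReal_lt_top))]
  apply integrable_congr
  filter_upwards with w
  rw [ENNReal.toReal_ofReal (jac_nonneg w)]
  rfl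

lemma integral_theta [Nontrivial V] (μ : Measure R) [μ.IsAddHaarMeasure] (ν : Measure V)
    [ν.IsAddHaarMeasure] {F : R × V → ℝ} (hF : Measurable F) :
    ∫ x, F x ∂(μ.prod ν) = ∫ w, jac w * F (theta w) ∂(μ.prod ν) := by
  conv_lhs => rw [← map_theta μ ν]
  rw [integral_map measurable_theta.aemeasurable hF.aestronglyMeasurable,
    integral_withDensity_eq_integral_toReal_smul (measurable_jac.ennreal_ofReal)
      (Filter.Eventually.of_forall (fun _ => ENNReal.ofReal_lt_top))]
  apply integral_congr_ae
  filter_upwards with w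
  rw [ENNReal.toReal_ofReal (jac_nonneg w)]
  rfl

end

end MP4845
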