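import Mathlib
import Pool.Agent.Lib.MP_4845bf_pr.Theta

set_option linter.unusedSectionVars false
set_option linter.unnecessarySimpa false

namespace MP4845

open MeasureTheory Module Set Filter Topology

/-- the ratio `s = |z|^2/(1+|z|^2)` -/
noncomputable def sz {R : Type*} [Norm R] (z : R) : ℝ := ‖z‖ ^ 2 / (1 + ‖z‖ ^ 2)

/-- the weight of `z` -/
noncomputable def wt {R : Type*} [Norm R] (p1 : ℝ) (M : ℕ) (z : R) : ℝ := sz z ^ p1 * lam z ^ M

/-- radial one dimensional identity -/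
lemma radial_beta {N m : ℕ} (hN : 0 < N) (hm : 0 < m) {p1 : ℝ} (hp1 : 0 ≤ p1)
    (hint : IntegrableOn (fun ρ : ℝ => ρ ^ (N - 1) * (wt p1 (N + m) ρ *
      ((p1 + N / 2 + m / 2) * sz ρ - (p1 + N / 2)))) (Ioi 0)) :
    ∫ ρ in Ioi (0:ℝ), ρ ^ (N - 1) * (wt p1 (N + m) ρ *
      ((p1 + N / 2 + m / 2) * sz ρ - (p1 + N / 2))) = 0 := by
  set p : ℝ := p1 + N / 2 with hp
  set γ : ℝ := p1 + N / 2 + m / 2 with hγ
  have hN' : (0:ℝ) < N := by exact_mod_cast hN
  have hm' : (0:ℝ) < m := by exact_mod_cast hm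
  have hppos : 0 < p := by positivity
  have hγpos : 0 < γ := by positivity
  let h : ℝ → ℝ := fun ρ => -(1/2) * (ρ ^ (2 * p) * (1 + ρ ^ 2) ^ (-γ))
  have key : ∀ ρ ∈ Ioi (0:ℝ), HasDerivAt h (ρ ^ (N - 1) * (wt p1 (N + m) ρ *
      (γ * sz ρ - p))) ρ := by
    intro ρ hρ
    have hρ0 : (0:ℝ) < ρ := hρ
    have h1 : HasDerivAt (fun ρ : ℝ => ρ ^ (2 * p)) (2 * p * ρ ^ (2 * p - 1)) ρ :=
      Real.hasDerivAt_rpow_const (Or.inl hρ0.ne')
    have h2 : HasDerivAt (fun ρ : ℝ => 1 + ρ ^ 2) (2 * ρ) ρ := by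
      have := (hasDerivAt_pow 2 ρ).const_add 1
      simpa using this
    have hpos : 0 < 1 + ρ ^ 2 := by positivity
    have h3 : HasDerivAt (fun ρ : ℝ => (1 + ρ ^ 2) ^ (-γ))
        (2 * ρ * (-γ) * (1 + ρ ^ 2) ^ (-γ - 1)) ρ := h2.rpow_const (Or.inl hpos.ne')
    have h4 := (h1.fun_mul h3).const_mul (-(1/2) : ℝ)
    refine h4.congr_deriv ?_
    have e1 : ρ ^ (2 * p) = ρ ^ (2 * p - 1) * ρ := by
      rw [Real.rpow_sub_one hρ0.ne']
      field_simp
    have e2 : (1 + ρ ^ 2) ^ (-γ - 1) = (1 + ρ ^ 2) ^ (-γ) * (1 + ρ ^ 2)⁻¹ := by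
      rw [Real.rpow_sub_one hpos.ne']
      rfl
    have e3 : ρ ^ (N - 1) * wt p1 (N + m) ρ = ρ ^ (2 * p - 1) * (1 + ρ ^ 2) ^ (-γ) := by
      unfold wt sz lam
      rw [Real.norm_of_nonneg hρ0.le]
      rw [Real.div_rpow (by positivity) (by positivity)]
      have a1 : (ρ ^ 2) ^ p1 = ρ ^ (2 * p1) := by
        rw [← Real.rpow_natCast ρ 2, ← Real.rpow_mul hρ0.le]
        norm_num
      have a2 : ((√(1 + ρ ^ 2))⁻¹) ^ (N + m) = (1 + ρ ^ 2) ^ (-((N + m : ℝ) / 2)) := by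
        rw [Real.sqrt_eq_rpow, ← Real.rpow_neg hpos.le, ← Real.rpow_natCast,
          ← Real.rpow_mul hpos.le]
        congr 1
        push_cast
        ring
      have a3 : ρ ^ (N - 1) = ρ ^ ((N : ℝ) - 1) := by
        rw [← Real.rpow_natCast, Nat.cast_sub hN]
        simp
      rw [a1, a2, a3]
      have a4 : ρ ^ (2 * p - 1) = ρ ^ ((N : ℝ) - 1) * ρ ^ (2 * p1) := by
        rw [← Real.rpow_add hρ0]
        congr 1
        rw [hp]
        ring
      have a5 : (1 + ρ ^ 2) ^ (-γ) = ((1 + ρ ^ 2) ^ p1)⁻¹ *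
          (1 + ρ ^ 2) ^ (-((N + m : ℝ) / 2)) := by
        rw [← Real.rpow_neg hpos.le, ← Real.rpow_add hpos]
        congr 1
        rw [hγ]
        ring
      rw [a4, a5]
      ring
    have e4 : ρ ^ (N - 1) * (wt p1 (N + m) ρ * (γ * sz ρ - p)) =
        (ρ ^ (2 * p - 1) * (1 + ρ ^ 2) ^ (-γ)) * (γ * sz ρ - p) := by
      rw [← e3]
      ring
    rw [e4, e1, e2]
    unfold sz
    rw [Real.norm_of_nonneg hρ0.le]
    field_simp
    ring
  have hcont : ContinuousWithinAt h (Ici 0) 0 := by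
    have h1 : ContinuousAt (fun ρ : ℝ => ρ ^ (2 * p)) 0 :=
      Real.continuousAt_rpow_const 0 (2 * p) (Or.inr (by positivity))
    have h2 : ContinuousAt (fun ρ : ℝ => (1 + ρ ^ 2) ^ (-γ)) 0 := by
      apply ContinuousAt.rpow_const
      · fun_prop
      · left; norm_num
    exact (continuousAt_const.mul (h1.mul h2)).continuousWithinAt
  have hlim : Tendsto h atTop (𝓝 0) := by
    have hb : ∀ ρ : ℝ, 0 < ρ → ρ ^ (2 * p) * (1 + ρ ^ 2) ^ (-γ) ≤ ρ ^ (-(m : ℝ)) := by
      intro ρ hρ0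
      have hpos : 0 < 1 + ρ ^ 2 := by positivity
      have h1 : (1 + ρ ^ 2) ^ (-γ) ≤ (ρ ^ 2) ^ (-γ) := by
        apply Real.rpow_le_rpow_of_nonpos (by positivity) (by linarith) (by linarith)
      have h2 : (ρ ^ 2) ^ (-γ) = ρ ^ (-(2 * γ)) := by
        rw [← Real.rpow_natCast ρ 2, ← Real.rpow_mul hρ0.le]
        congr 1
        push_cast
        ring
      calc ρ ^ (2 * p) * (1 + ρ ^ 2) ^ (-γ) ≤ ρ ^ (2 * p) * ρ ^ (-(2 * γ)) := by
            rw [← h2]
            exact mul_le_mul_of_nonneg_left h1 (by positivity)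
        _ = ρ ^ (-(m : ℝ)) := by
            rw [← Real.rpow_add hρ0]
            congr 1
            rw [hγ, hp]
            ring
    have h0 : Tendsto (fun ρ : ℝ => ρ ^ (2 * p) * (1 + ρ ^ 2) ^ (-γ)) atTop (𝓝 0) := by
      apply squeeze_zero' _ _ (tendsto_rpow_neg_atTop hm')
      · filter_upwards [eventually_gt_atTop 0] with ρ hρ
        positivity
      · filter_upwards [eventually_gt_atTop 0] with ρ hρ
        exact hb ρ hρ
    have h5 := h0.const_mul (-(1/2) : ℝ)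
    rwa [mul_zero] at h5
  rw [integral_Ioi_of_hasDerivAt_of_tendsto hcont key hint hlim]
  simp only [h]
  rw [Real.zero_rpow (by positivity)]
  simp

section

variable {R : Type*} [NormedAddCommGroup R] [NormedSpace ℝ R] [FiniteDimensional ℝ R]
  [MeasurableSpace R] [BorelSpace R]

lemma sz_nonneg (z : R) : 0 ≤ sz z := by unfold sz; positivity

lemma sz_lt_one (z : R) : sz z < 1 := by
  unfold sz
  rw [div_lt_one (by positivity)]
  linarith

lemma sz_pos {z : R} (hz : z ≠ 0) : 0 < sz z := by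
  have := norm_pos_iff.mpr hz
  unfold sz
  positivity

lemma sz_add_lam (z : R) : sz z + lam z ^ 2 = 1 := by
  rw [lam_sq, sz]
  field_simp
  ring

lemma continuous_sz : Continuous (sz : R → ℝ) := by
  unfold sz
  apply Continuous.div (by fun_prop) (by fun_prop)
  intro x
  positivity

lemma continuous_lam : Continuous (lam : R → ℝ) := by
  unfold lam
  apply Continuous.inv₀ (by fun_prop)
  intro x
  positivity

lemma measurable_wt (p1 : ℝ) (M : ℕ) : Measurable (wt p1 M : R → ℝ) := by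
  unfold wt
  exact (continuous_sz.measurable.pow_const _).mul (continuous_lam.measurable.pow_const _)

lemma wt_nonneg (p1 : ℝ) (M : ℕ) (z : R) : 0 ≤ wt p1 M z := by
  have h1 := sz_nonneg z
  have h2 := (lam_pos z).le
  unfold wt
  positivity

lemma wt_pos (p1 : ℝ) (M : ℕ) {z : R} (hz : z ≠ 0) : 0 < wt p1 M z := by
  have h1 := sz_pos hz
  have h2 := lam_pos z
  unfold wt
  positivity

lemma integrable_wt [Nontrivial R] (μ : Measure R) [μ.IsAddHaarMeasure] {p1 : ℝ} (hp1 : 0 ≤ p1)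
    {m : ℕ} (hm : 0 < m) : Integrable (wt p1 (finrank ℝ R + m) : R → ℝ) μ := by
  have h1 : Integrable (fun z : R => (1 + ‖z‖ ^ 2) ^ (-((finrank ℝ R + m : ℕ) : ℝ) / 2)) μ := by
    apply integrable_rpow_neg_one_add_norm_sq
    push_cast
    have : (0:ℝ) < m := by exact_mod_cast hm
    linarith
  refine h1.mono' (measurable_wt _ _).aestronglyMeasurable ?_
  filter_upwards with z
  rw [Real.norm_of_nonneg (wt_nonneg _ _ _)]
  have h2 : lam z ^ (finrank ℝ R + m) = (1 + ‖z‖ ^ 2) ^ (-((finrank ℝ R + m : ℕ) : ℝ) / 2) := by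
    unfold lam
    have hpos : 0 < 1 + ‖z‖ ^ 2 := by positivity
    rw [Real.sqrt_eq_rpow, ← Real.rpow_neg hpos.le, ← Real.rpow_natCast,
      ← Real.rpow_mul hpos.le]
    congr 1
    ring
  rw [← h2]
  unfold wt
  have h3 : sz z ^ p1 ≤ 1 := Real.rpow_le_one (sz_nonneg z) (sz_lt_one z).le hp1
  have h4 : 0 ≤ lam z ^ (finrank ℝ R + m) := by
    have := (lam_pos z).le
    positivity
  nlinarith

lemma integrable_wt_mul [Nontrivial R] (μ : Measure R) [μ.IsAddHaarMeasure] {p1 : ℝ}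
    (hp1 : 0 ≤ p1) {m : ℕ} (hm : 0 < m) {b : R → ℝ} (hb : Measurable b) {C : ℝ}
    (hbC : ∀ z, |b z| ≤ C) : Integrable (fun z => wt p1 (finrank ℝ R + m) z * b z) μ := by
  apply (integrable_wt μ hp1 hm).mul_bdd (c := C) hb.aestronglyMeasurable
  filter_upwards with z
  simpa using hbC z

lemma beta_identity [Nontrivial R] (μ : Measure R) [μ.IsAddHaarMeasure] {p1 : ℝ} (hp1 : 0 ≤ p1)
    {m : ℕ} (hm : 0 < m) :
    ∫ z : R, wt p1 (finrank ℝ R + m) z *
      ((p1 + finrank ℝ R / 2 + m / 2) * sz z - (p1 + finrank ℝ R / 2)) ∂μ = 0 := by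
  have hN : 0 < finrank ℝ R := finrank_pos
  let f : ℝ → ℝ := fun ρ => wt p1 (finrank ℝ R + m) ρ *
      ((p1 + finrank ℝ R / 2 + m / 2) * sz ρ - (p1 + finrank ℝ R / 2))
  have hf : ∀ z : R, f ‖z‖ = wt p1 (finrank ℝ R + m) z *
      ((p1 + finrank ℝ R / 2 + m / 2) * sz z - (p1 + finrank ℝ R / 2)) := by
    intro z
    simp only [f, wt, sz, lam, norm_norm]
  have hint : Integrable (fun z : R => f ‖z‖) μ := by
    simp only [hf]
    apply integrable_wt_mul μ hp1 hm (C := 2 * (p1 + finrank ℝ R / 2 + m / 2))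
    · exact ((continuous_const.mul continuous_sz).sub continuous_const).measurable
    · intro z
      have h1 := sz_nonneg z
      have h2 := (sz_lt_one z).le
      have h3 : (0:ℝ) ≤ finrank ℝ R := by positivity
      have h4 : (0:ℝ) ≤ m := by positivity
      have h5 : 0 ≤ p1 + finrank ℝ R / 2 + m / 2 := by positivity
      rw [abs_le]
      constructor
      · nlinarith [mul_nonneg h5 h1]
      · nlinarith [mul_nonneg h5 h1]
  have h2 := (integrable_fun_norm_addHaar μ (f := f)).mp hint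
  have h3 := integral_fun_norm_addHaar μ f
  simp only [smul_eq_mul] at h2 h3
  rw [radial_beta hN hm hp1 h2] at h3
  simp only [mul_zero, smul_zero] at h3
  simpa only [hf] using h3

end

end MP4845
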