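import Mathlib

namespace MP4845

open Set

/-- The pair sum of the two scale corrections at `v` and `-v`. -/
noncomputable def gfun (q P E x s : ℝ) : ℝ :=
  2 * q * s * (P + E * s) / ((P + E * s) ^ 2 - (1 - s) * x ^ 2)

lemma den_lower {P E x s : ℝ} (hx : x ^ 2 ≤ P ^ 2) (hs1 : s ≤ 1) :
    2 * P * E * s + E ^ 2 * s ^ 2 + s * P ^ 2 ≤ (P + E * s) ^ 2 - (1 - s) * x ^ 2 := by
  nlinarith [mul_le_mul_of_nonneg_left hx (sub_nonneg.mpr hs1)]

lemma den_pos {q P E x s : ℝ} (hq : 0 < q) (hP : 0 ≤ P) (hE : q ≤ E) (hx : x ^ 2 ≤ P ^ 2)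
    (hs : 0 < s) (hs1 : s ≤ 1) : 0 < (P + E * s) ^ 2 - (1 - s) * x ^ 2 := by
  have hE0 : 0 < E := lt_of_lt_of_le hq hE
  have h1 := den_lower (E := E) hx hs1
  have h2 : 0 < 2 * P * E * s + E ^ 2 * s ^ 2 + s * P ^ 2 := by positivity
  linarith

lemma gfun_nonneg {q P E x s : ℝ} (hq : 0 < q) (hP : 0 ≤ P) (hE : q ≤ E) (hx : x ^ 2 ≤ P ^ 2)
    (hs : 0 < s) (hs1 : s ≤ 1) : 0 ≤ gfun q P E x s := by
  have hE0 : 0 < E := lt_of_lt_of_le hq hE
  have := den_pos hq hP hE hx hs hs1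
  unfold gfun
  positivity

lemma gfun_le {q P E x s : ℝ} (hq : 0 < q) (hP : 0 ≤ P) (hE : q ≤ E) (hx : x ^ 2 ≤ P ^ 2)
    (hs : 0 < s) (hs1 : s ≤ 1) : gfun q P E x s ≤ 4 * q / (P + 2 * q) := by
  have hE0 : 0 < E := lt_of_lt_of_le hq hE
  have hD := den_pos hq hP hE hx hs hs1
  have h1 := den_lower (E := E) hx hs1
  unfold gfun
  rw [div_le_div_iff₀ hD (by positivity)]
  have key : (P + E * s) * (P + 2 * q) * s ≤ 2 * (2 * P * E * s + E ^ 2 * s ^ 2 + s * P ^ 2) := by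
    have hPE : 0 ≤ P * (E - q) := mul_nonneg hP (sub_nonneg.mpr hE)
    have hEE : 0 ≤ E * s * (E - q) := mul_nonneg (by positivity) (sub_nonneg.mpr hE)
    have hPEs : 0 ≤ P * E * (1 - s) := mul_nonneg (by positivity) (sub_nonneg.mpr hs1)
    have : (P + E * s) * (P + 2 * q) ≤ 2 * (2 * P * E + E ^ 2 * s + P ^ 2) := by
      nlinarith [mul_nonneg hP hE0.le, sq_nonneg P]
    nlinarith
  have key2 : (P + E * s) * (P + 2 * q) * s ≤ 2 * ((P + E * s) ^ 2 - (1 - s) * x ^ 2) := by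
    linarith
  nlinarith [mul_le_mul_of_nonneg_left key2 (by positivity : (0:ℝ) ≤ 2 * q)]

lemma hasDerivAt_gfun {q P E x s : ℝ} (hD : (P + E * s) ^ 2 - (1 - s) * x ^ 2 ≠ 0) :
    HasDerivAt (gfun q P E x)
      (2 * q * (P * (P + E * s) ^ 2 - x ^ 2 * (P + 2 * E * s - E * s ^ 2)) /
        ((P + E * s) ^ 2 - (1 - s) * x ^ 2) ^ 2) s := by
  have h1 : HasDerivAt (fun s : ℝ => 2 * q * s * (P + E * s))
      (2 * q * (P + E * s) + 2 * q * s * E) s := by
    have ha : HasDerivAt (fun s : ℝ => 2 * q * s) (2 * q) s := by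
      simpa using (hasDerivAt_id s).const_mul (2 * q)
    have hb : HasDerivAt (fun s : ℝ => P + E * s) E s := by
      simpa using ((hasDerivAt_id s).const_mul E).const_add P
    exact ha.fun_mul hb
  have h2 : HasDerivAt (fun s : ℝ => (P + E * s) ^ 2 - (1 - s) * x ^ 2)
      (2 * (P + E * s) * E + x ^ 2) s := by
    have hb : HasDerivAt (fun s : ℝ => P + E * s) E s := by
      simpa using ((hasDerivAt_id s).const_mul E).const_add P
    have hc : HasDerivAt (fun s : ℝ => (1 - s) * x ^ 2) (-(x ^ 2)) s := by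
      have := ((hasDerivAt_id s).const_sub 1).mul_const (x ^ 2)
      simpa using this
    have h3 := (hb.fun_pow 2).fun_sub hc
    refine h3.congr_deriv ?_
    norm_num
  have h4 := h1.fun_div h2 hD
  refine h4.congr_deriv ?_
  congr 1
  ring

lemma gfun_sub_mono {q P E x : ℝ} (hq : 0 < q) (hP : 0 ≤ P) (hE : q ≤ E) (hE2 : E ≤ 2 * q)
    (hx : x ^ 2 ≤ P ^ 2) :
    MonotoneOn (fun s => gfun q P E x s - (2 / 3 * (P * q ^ 2) / (P + 2 * q) ^ 3) * s ^ 3)
      (Ioo 0 1) := by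
  have hE0 : 0 < E := lt_of_lt_of_le hq hE
  set κ : ℝ := 2 / 3 * (P * q ^ 2) / (P + 2 * q) ^ 3 with hκ
  have hder : ∀ s ∈ Ioo (0:ℝ) 1,
      HasDerivAt (fun s => gfun q P E x s - κ * s ^ 3)
        (2 * q * (P * (P + E * s) ^ 2 - x ^ 2 * (P + 2 * E * s - E * s ^ 2)) /
        ((P + E * s) ^ 2 - (1 - s) * x ^ 2) ^ 2 - κ * (3 * s ^ 2)) s := by
    intro s hs
    have h1 := hasDerivAt_gfun (q := q) (den_pos hq hP hE hx hs.1 hs.2.le).ne'
    have h2 : HasDerivAt (fun s : ℝ => κ * s ^ 3) (κ * (3 * s ^ 2)) s := by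
      have := (hasDerivAt_pow 3 s).const_mul κ
      simpa using this
    exact h1.sub h2
  refine monotoneOn_of_deriv_nonneg (convex_Ioo 0 1) ?_ ?_ ?_
  · intro s hs
    exact (hder s hs).continuousAt.continuousWithinAt
  · rw [interior_Ioo]
    intro s hs
    exact (hder s hs).differentiableAt.differentiableWithinAt
  · rw [interior_Ioo]
    intro s hs
    rw [(hder s hs).deriv, sub_nonneg]
    obtain ⟨hs0, hs1⟩ := hs
    have hD := den_pos hq hP hE hx hs0 hs1.le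
    set D := (P + E * s) ^ 2 - (1 - s) * x ^ 2 with hDdef
    have hDle : D ≤ (P + E) ^ 2 := by
      have h3 : 0 ≤ (1 - s) * x ^ 2 := mul_nonneg (by linarith) (sq_nonneg x)
      have h4 : (P + E * s) ^ 2 ≤ (P + E) ^ 2 := by
        apply pow_le_pow_left₀ (by positivity)
        nlinarith
      linarith
    -- numerator lower bound
    have hnum : P * E * s ^ 2 * (E + P) ≤
        P * (P + E * s) ^ 2 - x ^ 2 * (P + 2 * E * s - E * s ^ 2) := by
      have h5 : 0 ≤ P + 2 * E * s - E * s ^ 2 := by nlinarith [mul_pos hE0 hs0]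
      nlinarith [mul_le_mul_of_nonneg_right hx h5]
    have hPE : 0 < P + E := by linarith
    -- lower bound of the quotient
    have h6 : 2 * q * (P * E * s ^ 2 * (E + P)) / (P + E) ^ 4 ≤
        2 * q * (P * (P + E * s) ^ 2 - x ^ 2 * (P + 2 * E * s - E * s ^ 2)) / D ^ 2 := by
      have hD2 : D ^ 2 ≤ (P + E) ^ 4 := by
        calc D ^ 2 ≤ ((P + E) ^ 2) ^ 2 := pow_le_pow_left₀ hD.le hDle 2
          _ = (P + E) ^ 4 := by ring
      apply div_le_div₀
      · have : 0 ≤ P * E * s ^ 2 * (E + P) := by positivity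
        have h7 := this.trans hnum
        positivity
      · exact mul_le_mul_of_nonneg_left hnum (by positivity)
      · positivity
      · exact hD2
    refine le_trans ?_ h6
    have h8 : 2 * q * (P * E * s ^ 2 * (E + P)) / (P + E) ^ 4 =
        2 * q * P * E * s ^ 2 / (P + E) ^ 3 := by
      field_simp
      ring
    rw [h8, hκ]
    have h9 : 2 / 3 * (P * q ^ 2) / (P + 2 * q) ^ 3 * (3 * s ^ 2) =
        2 * q * P * q * s ^ 2 / (P + 2 * q) ^ 3 := by ring
    rw [h9]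
    apply div_le_div₀ (by positivity) _ (by positivity) _
    · have : 0 ≤ 2 * q * P * s ^ 2 := by positivity
      nlinarith
    · exact pow_le_pow_left₀ hPE.le (by linarith) 3

end MP4845
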