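import Mathlib
import Pool.Agent.Lib.MP_4845bf_pr.Scalar
import Pool.Agent.Lib.MP_4845bf_pr.Theta
import Pool.Agent.Lib.MP_4845bf_pr.Beta

set_option linter.unusedSectionVars false
set_option linter.unnecessarySimpa false

namespace MP4845

open MeasureTheory Module Set Filter Topology

section

variable {R : Type*} [NormedAddCommGroup R] [NormedSpace ℝ R] [FiniteDimensional ℝ R]
  [MeasurableSpace R] [BorelSpace R]

lemma ae_ne_zero [Nontrivial R] (μ : Measure R) [μ.IsAddHaarMeasure] : ∀ᵐ z ∂μ, z ≠ 0 := by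
  have : μ {0} = 0 := measure_singleton 0
  rw [ae_iff]
  simpa using this

/-- covariance inequality: a nondecreasing function has nonnegative covariance with `s` -/
lemma wt_mono [Nontrivial R] (μ : Measure R) [μ.IsAddHaarMeasure] {p1 : ℝ} (hp1 : 0 ≤ p1)
    {m : ℕ} (hm : 0 < m) {p γ : ℝ} (hp : p = p1 + finrank ℝ R / 2)
    (hγ : γ = p1 + finrank ℝ R / 2 + m / 2) {h : ℝ → ℝ} (hmono : MonotoneOn h (Ioo 0 1))
    (hint : Integrable (fun z : R => wt p1 (finrank ℝ R + m) z * ((γ * sz z - p) * h (sz z))) μ) :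
    0 ≤ ∫ z : R, wt p1 (finrank ℝ R + m) z * ((γ * sz z - p) * h (sz z)) ∂μ := by
  have hN : 0 < finrank ℝ R := finrank_pos
  have hN' : (0:ℝ) < finrank ℝ R := by exact_mod_cast hN
  have hm' : (0:ℝ) < m := by exact_mod_cast hm
  have hppos : 0 < p := by rw [hp]; positivity
  have hγpos : 0 < γ := by rw [hγ]; positivity
  have hpγ : p < γ := by rw [hp, hγ]; linarith
  have hsb : p / γ ∈ Ioo (0:ℝ) 1 := ⟨by positivity, by rw [div_lt_one hγpos]; exact hpγ⟩
  have hbi := beta_identity μ hp1 hm
  have hbint : Integrable (fun z : R => wt p1 (finrank ℝ R + m) z * (γ * sz z - p)) μ := by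
    apply integrable_wt_mul μ hp1 hm (C := 2 * γ)
    · exact ((continuous_const.mul continuous_sz).sub continuous_const).measurable
    · intro z
      have h1 := sz_nonneg z
      have h2 := (sz_lt_one z).le
      rw [abs_le]
      constructor
      · nlinarith [mul_nonneg hγpos.le h1]
      · nlinarith [mul_nonneg hγpos.le h1]
  have h0 : ∫ z : R, wt p1 (finrank ℝ R + m) z * (γ * sz z - p) ∂μ = 0 := by
    rw [hp, hγ]; exact hbi
  have h1 : ∫ z : R, wt p1 (finrank ℝ R + m) z * ((γ * sz z - p) * h (sz z)) ∂μ =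
      ∫ z : R, (wt p1 (finrank ℝ R + m) z * ((γ * sz z - p) * h (sz z)) -
        h (p / γ) * (wt p1 (finrank ℝ R + m) z * (γ * sz z - p))) ∂μ := by
    rw [integral_sub hint (hbint.const_mul _), integral_const_mul, h0]
    ring
  rw [h1]
  apply integral_nonneg_of_ae
  filter_upwards [ae_ne_zero μ] with z hz
  have hs : sz z ∈ Ioo (0:ℝ) 1 := ⟨sz_pos hz, sz_lt_one z⟩
  have e : wt p1 (finrank ℝ R + m) z * ((γ * sz z - p) * h (sz z)) -
        h (p / γ) * (wt p1 (finrank ℝ R + m) z * (γ * sz z - p)) =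
      wt p1 (finrank ℝ R + m) z * (γ * ((sz z - p / γ) * (h (sz z) - h (p / γ)))) := by
    field_simp
  simp only [Pi.zero_apply]
  rw [e]
  have h2 : 0 ≤ (sz z - p / γ) * (h (sz z) - h (p / γ)) := by
    rcases le_total (sz z) (p / γ) with hle | hle
    · exact mul_nonneg_of_nonpos_of_nonpos (by linarith) (by linarith [hmono hs hsb hle])
    · exact mul_nonneg (by linarith) (by linarith [hmono hsb hs hle])
  have h3 := wt_nonneg p1 (finrank ℝ R + m) z
  positivity

/-- the strictly positive constant -/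
lemma v0_pos [Nontrivial R] (μ : Measure R) [μ.IsAddHaarMeasure] {p1 : ℝ} (hp1 : 0 ≤ p1)
    {m : ℕ} (hm : 0 < m) {p γ : ℝ} (hp : p = p1 + finrank ℝ R / 2)
    (hγ : γ = p1 + finrank ℝ R / 2 + m / 2) :
    0 < ∫ z : R, wt p1 (finrank ℝ R + m) z * ((γ * sz z - p) * sz z ^ 3) ∂μ := by
  have hN : 0 < finrank ℝ R := finrank_pos
  have hN' : (0:ℝ) < finrank ℝ R := by exact_mod_cast hN
  have hm' : (0:ℝ) < m := by exact_mod_cast hm
  have hppos : 0 < p := by rw [hp]; positivity
  have hγpos : 0 < γ := by rw [hγ]; positivity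
  have hpγ : p < γ := by rw [hp, hγ]; linarith
  have hbi := beta_identity μ hp1 hm
  have hbint : Integrable (fun z : R => wt p1 (finrank ℝ R + m) z * (γ * sz z - p)) μ := by
    apply integrable_wt_mul μ hp1 hm (C := 2 * γ)
    · exact ((continuous_const.mul continuous_sz).sub continuous_const).measurable
    · intro z
      have h1 := sz_nonneg z
      have h2 := (sz_lt_one z).le
      rw [abs_le]
      constructor
      · nlinarith [mul_nonneg hγpos.le h1]
      · nlinarith [mul_nonneg hγpos.le h1]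
  have hint : Integrable
      (fun z : R => wt p1 (finrank ℝ R + m) z * ((γ * sz z - p) * sz z ^ 3)) μ := by
    apply integrable_wt_mul μ hp1 hm (C := 2 * γ)
    · exact (((continuous_const.mul continuous_sz).sub continuous_const).mul
        (continuous_sz.pow 3)).measurable
    · intro z
      have h1 := sz_nonneg z
      have h2 := (sz_lt_one z).le
      rw [abs_mul]
      have h3 : |γ * sz z - p| ≤ 2 * γ := by
        rw [abs_le]
        constructor
        · nlinarith [mul_nonneg hγpos.le h1]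
        · nlinarith [mul_nonneg hγpos.le h1]
      have h4 : |sz z ^ 3| ≤ 1 := by
        rw [abs_of_nonneg (by positivity)]
        exact pow_le_one₀ h1 h2
      nlinarith [abs_nonneg (γ * sz z - p), abs_nonneg (sz z ^ 3)]
  have h0 : ∫ z : R, wt p1 (finrank ℝ R + m) z * (γ * sz z - p) ∂μ = 0 := by
    rw [hp, hγ]; exact hbi
  have h1 : ∫ z : R, wt p1 (finrank ℝ R + m) z * ((γ * sz z - p) * sz z ^ 3) ∂μ =
      ∫ z : R, (wt p1 (finrank ℝ R + m) z * ((γ * sz z - p) * sz z ^ 3) -
        (p / γ) ^ 3 * (wt p1 (finrank ℝ R + m) z * (γ * sz z - p))) ∂μ := by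
    rw [integral_sub hint (hbint.const_mul _), integral_const_mul, h0]
    ring
  have e : ∀ z : R, wt p1 (finrank ℝ R + m) z * ((γ * sz z - p) * sz z ^ 3) -
        (p / γ) ^ 3 * (wt p1 (finrank ℝ R + m) z * (γ * sz z - p)) =
      wt p1 (finrank ℝ R + m) z * (γ * ((sz z - p / γ) ^ 2 *
        (sz z ^ 2 + sz z * (p / γ) + (p / γ) ^ 2))) := by
    intro z
    field_simp
    ring
  rw [h1, integral_pos_iff_support_of_nonneg_ae]
  · -- the support contains a nonempty open set
    have hopen : IsOpen {z : R | z ≠ 0 ∧ sz z ≠ p / γ} := by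
      apply IsOpen.inter
      · exact isOpen_ne
      · exact isOpen_ne.preimage continuous_sz
    have hne : {z : R | z ≠ 0 ∧ sz z ≠ p / γ}.Nonempty := by
      obtain ⟨e0, he0⟩ := exists_norm_eq R (zero_le_one)
      have hn0 : e0 ≠ 0 := by
        intro h
        rw [h, norm_zero] at he0
        exact zero_ne_one he0
      by_cases hc : sz e0 = p / γ
      · refine ⟨(2:ℝ) • e0, smul_ne_zero two_ne_zero hn0, ?_⟩
        rw [← hc]
        unfold sz
        rw [norm_smul, he0]
        norm_num
      · exact ⟨e0, hn0, hc⟩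
    refine lt_of_lt_of_le (hopen.measure_pos μ hne) (measure_mono ?_)
    intro z hz
    rw [Function.mem_support, e]
    have h2 := wt_pos p1 (finrank ℝ R + m) hz.1
    have h3 : 0 < (sz z - p / γ) ^ 2 := by
      have := sub_ne_zero.mpr hz.2
      positivity
    have h4 := sz_nonneg z
    positivity
  · filter_upwards with z
    simp only [Pi.zero_apply]
    rw [e]
    have h2 := wt_nonneg p1 (finrank ℝ R + m) z
    have h4 := sz_nonneg z
    positivity
  · exact hint.sub (hbint.const_mul _)

end

end MP4845
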