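import Mathlib
import Pool.Agent.Lib.MP_4845bf_pr.Scalar
import Pool.Agent.Lib.MP_4845bf_pr.Theta
import Pool.Agent.Lib.MP_4845bf_pr.Beta
import Pool.Agent.Lib.MP_4845bf_pr.Mono
import Pool.Agent.Lib.MP_4845bf_pr.Average

set_option linter.unusedSectionVars false
set_option linter.unnecessarySimpa false

namespace MP4845

open MeasureTheory Module Set Filter Topology
open scoped InnerProductSpace

section

variable {R V E : Type*} [NormedAddCommGroup R] [NormedSpace ℝ R] [FiniteDimensional ℝ R]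
  [MeasurableSpace R] [BorelSpace R]
  [NormedAddCommGroup V] [InnerProductSpace ℝ V] [FiniteDimensional ℝ V]
  [MeasurableSpace V] [BorelSpace V]
  [NormedAddCommGroup E] [InnerProductSpace ℝ E]

/-- the scale correction as a function of `(r, g)` -/
noncomputable def ff (C : V →L[ℝ] E) (a : E) (x : R × V) : ℝ :=
  ‖x.1‖ ^ 2 / (2 * ‖x.1‖ ^ 2 + ‖a + C x.2‖ ^ 2)

/-- the share of the residual -/
noncomputable def ss (x : R × V) : ℝ := ‖x.1‖ ^ 2 / (‖x.1‖ ^ 2 + ‖x.2‖ ^ 2)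

/-- the scale correction in the coordinates `(z, v)` -/
noncomputable def fz (C : V →L[ℝ] E) (a : E) (z : R) (v : V) : ℝ :=
  ‖v‖ ^ 2 * sz z / (2 * (‖v‖ ^ 2 * sz z) + ‖a + lam z • C v‖ ^ 2)

lemma sz_eq (z : R) : sz z = lam z ^ 2 * ‖z‖ ^ 2 := by
  rw [lam_sq, sz]
  field_simp

lemma norm_theta_fst (w : R × V) : ‖(theta w).1‖ ^ 2 = ‖w.2‖ ^ 2 * sz w.1 := by
  unfold theta
  have h := (lam_pos w.1).le
  rw [sz_eq]
  simp only
  rw [norm_smul, norm_mul, norm_norm, Real.norm_of_nonneg h]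
  ring

lemma norm_theta_snd (w : R × V) : ‖(theta w).2‖ ^ 2 = ‖w.2‖ ^ 2 * lam w.1 ^ 2 := by
  unfold theta
  have h := (lam_pos w.1).le
  simp only
  rw [norm_smul, Real.norm_of_nonneg h]
  ring

lemma norm_theta_add (w : R × V) : ‖(theta w).1‖ ^ 2 + ‖(theta w).2‖ ^ 2 = ‖w.2‖ ^ 2 := by
  rw [norm_theta_fst, norm_theta_snd, ← mul_add, sz_add_lam, mul_one]

lemma ff_theta (C : V →L[ℝ] E) (a : E) (w : R × V) : ff C a (theta w) = fz C a w.1 w.2 := by
  unfold ff fz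
  rw [norm_theta_fst]
  simp [theta]

lemma ss_theta {w : R × V} (hw : w.2 ≠ 0) : ss (theta w) = sz w.1 := by
  unfold ss
  rw [norm_theta_add, norm_theta_fst]
  have := norm_pos_iff.mpr hw
  field_simp

lemma fz_nonneg (C : V →L[ℝ] E) (a : E) (z : R) (v : V) : 0 ≤ fz C a z v := by
  have := sz_nonneg z
  unfold fz
  positivity

lemma fz_le (C : V →L[ℝ] E) (a : E) (z : R) (v : V) : fz C a z v ≤ 1 / 2 := by
  have h1 := sz_nonneg z
  have h2 : 0 ≤ ‖v‖ ^ 2 * sz z := by positivity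
  unfold fz
  rcases h2.eq_or_lt with h3 | h3
  · rw [← h3]; simp
  · rw [div_le_iff₀ (by positivity)]
    nlinarith [sq_nonneg ‖a + lam z • C v‖]

lemma measurable_fz (C : V →L[ℝ] E) (a : E) :
    Measurable (fun w : R × V => fz C a w.1 w.2) := by
  unfold fz
  have h1 : Measurable (fun w : R × V => ‖w.2‖ ^ 2 * sz w.1) :=
    (((continuous_norm.comp continuous_snd).pow 2).mul
      (continuous_sz.comp continuous_fst)).measurable
  have h2 : Measurable (fun w : R × V => ‖a + lam w.1 • C w.2‖ ^ 2) :=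
    (((continuous_const.add ((continuous_lam.comp continuous_fst).smul
      (C.continuous.comp continuous_snd))).norm).pow 2).measurable
  exact h1.div ((h1.const_mul 2).add h2)

/-- the pair sum identity -/
lemma fz_pair (C : V →L[ℝ] E) (hC : ∀ v, ‖C v‖ ≤ ‖v‖) (a : E) {z : R} {v : V} (hz : z ≠ 0)
    (hv : v ≠ 0) : fz C a z v + fz C a z (-v) =
      gfun (‖v‖ ^ 2) (‖a‖ ^ 2 + ‖C v‖ ^ 2) (2 * ‖v‖ ^ 2 - ‖C v‖ ^ 2) (2 * ⟪a, C v⟫_ℝ) (sz z) := by
  have hs := sz_pos hz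
  have hs1 := sz_lt_one z
  have hl := lam_pos z
  have hl2 : lam z ^ 2 = 1 - sz z := by linarith [sz_add_lam z]
  have hq : 0 < ‖v‖ := norm_pos_iff.mpr hv
  have n1 : ‖a + lam z • C v‖ ^ 2 = ‖a‖ ^ 2 + lam z * (2 * ⟪a, C v⟫_ℝ) +
      (1 - sz z) * ‖C v‖ ^ 2 := by
    rw [norm_add_sq_real, real_inner_smul_right, norm_smul, mul_pow, Real.norm_eq_abs, sq_abs, hl2]
    ring
  have n2 : ‖a + lam z • C (-v)‖ ^ 2 = ‖a‖ ^ 2 - lam z * (2 * ⟪a, C v⟫_ℝ) +
      (1 - sz z) * ‖C v‖ ^ 2 := by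
    rw [map_neg, norm_add_sq_real, real_inner_smul_right, inner_neg_right, norm_smul, norm_neg,
      mul_pow, Real.norm_eq_abs, sq_abs, hl2]
    ring
  unfold fz gfun
  rw [norm_neg, n1, n2]
  set q := ‖v‖ ^ 2 with hqd
  set x := 2 * ⟪a, C v⟫_ℝ with hx
  set B := ‖C v‖ ^ 2 with hB
  set A := ‖a‖ ^ 2 with hA
  set s := sz z with hsd
  set l := lam z with hld
  have hq2 : 0 < q := by positivity
  have hBq : B ≤ q := pow_le_pow_left₀ (norm_nonneg _) (hC v) 2
  have hxP : x ^ 2 ≤ (A + B) ^ 2 := by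
    have h2 := abs_real_inner_le_norm a (C v)
    have h3 : ⟪a, C v⟫_ℝ ^ 2 ≤ A * B := by
      rw [← sq_abs, hA, hB, ← mul_pow]
      exact pow_le_pow_left₀ (abs_nonneg _) h2 2
    have h4 : x ^ 2 = 4 * ⟪a, C v⟫_ℝ ^ 2 := by rw [hx]; ring
    nlinarith [sq_nonneg (A - B)]
  have hA0 : 0 ≤ A := by positivity
  have hB0 : 0 ≤ B := by positivity
  have hD := den_pos (q := q) (P := A + B) (E := 2 * q - B) (x := x) (s := s) hq2 (by positivity)
    (by linarith) hxP hs hs1.le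
  have hfac : (A + B + (2 * q - B) * s) ^ 2 - (1 - s) * x ^ 2 =
      (2 * (q * s) + (A + l * x + (1 - s) * B)) * (2 * (q * s) + (A - l * x + (1 - s) * B)) := by
    rw [← hl2]
    have : (1 : ℝ) - s = l ^ 2 := hl2.symm
    have h5 : s = 1 - l ^ 2 := by linarith
    rw [h5]
    ring
  rw [hfac] at hD ⊢
  have h1 : 2 * (q * s) + (A + l * x + (1 - s) * B) ≠ 0 := left_ne_zero_of_mul hD.ne'
  have h2 : 2 * (q * s) + (A - l * x + (1 - s) * B) ≠ 0 := right_ne_zero_of_mul hD.ne'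
  rw [div_add_div _ _ h1 h2]
  congr 1
  ring

variable [Nontrivial R]

/-- lower bound of the inner integral -/
lemma inner_lower (μ : Measure R) [μ.IsAddHaarMeasure] {p1 : ℝ} (hp1 : 0 ≤ p1)
    {m : ℕ} (hm : 0 < m) {p γ : ℝ} (hp : p = p1 + finrank ℝ R / 2)
    (hγ : γ = p1 + finrank ℝ R / 2 + m / 2) (C : V →L[ℝ] E) (hC : ∀ v, ‖C v‖ ≤ ‖v‖) (a : E)
    {v : V} (hv : v ≠ 0) {ε : ℝ} (hε : 0 ≤ ε) :
    2 / 3 * ((‖a‖ ^ 2 + ‖C v‖ ^ 2) * (‖v‖ ^ 2) ^ 2) / (‖a‖ ^ 2 + ‖C v‖ ^ 2 + 2 * ‖v‖ ^ 2) ^ 3 *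
        (∫ z : R, wt p1 (finrank ℝ R + m) z * ((γ * sz z - p) * sz z ^ 3) ∂μ) -
      ε * p * (4 * ‖v‖ ^ 2 / (‖a‖ ^ 2 + ‖C v‖ ^ 2 + 2 * ‖v‖ ^ 2)) ^ 2 *
        (∫ z : R, wt p1 (finrank ℝ R + m) z ∂μ) ≤
    ∫ z : R, wt p1 (finrank ℝ R + m) z * ((γ * sz z - p) * (fz C a z v + fz C a z (-v)) -
      ε * p * (fz C a z v ^ 2 + fz C a z (-v) ^ 2)) ∂μ := by
  have hN : 0 < finrank ℝ R := finrank_pos
  have hN' : (0:ℝ) < finrank ℝ R := by exact_mod_cast hN
  have hm' : (0:ℝ) < m := by exact_mod_cast hm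
  have hppos : 0 < p := by rw [hp]; positivity
  have hγpos : 0 < γ := by rw [hγ]; positivity
  have hpγ : p < γ := by rw [hp, hγ]; linarith
  set q := ‖v‖ ^ 2 with hqd
  set x := 2 * ⟪a, C v⟫_ℝ with hx
  set P := ‖a‖ ^ 2 + ‖C v‖ ^ 2 with hP
  set F := 2 * q - ‖C v‖ ^ 2 with hF
  have hq2 : 0 < q := by have := norm_pos_iff.mpr hv; positivity
  have hP0 : 0 ≤ P := by positivity
  have hBq : ‖C v‖ ^ 2 ≤ q := pow_le_pow_left₀ (norm_nonneg _) (hC v) 2
  have hFq : q ≤ F := by linarith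
  have hFq2 : F ≤ 2 * q := by linarith [sq_nonneg ‖C v‖]
  have hxP : x ^ 2 ≤ P ^ 2 := by
    have h2 := abs_real_inner_le_norm a (C v)
    have h3 : ⟪a, C v⟫_ℝ ^ 2 ≤ ‖a‖ ^ 2 * ‖C v‖ ^ 2 := by
      rw [← sq_abs, ← mul_pow]
      exact pow_le_pow_left₀ (abs_nonneg _) h2 2
    have h4 : x ^ 2 = 4 * ⟪a, C v⟫_ℝ ^ 2 := by rw [hx]; ring
    nlinarith [sq_nonneg (‖a‖ ^ 2 - ‖C v‖ ^ 2)]
  set κ := 2 / 3 * (P * q ^ 2) / (P + 2 * q) ^ 3 with hκ
  have hmf : ∀ v : V, Measurable (fun z : R => fz C a z v) := by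
    intro v
    exact (measurable_fz C a).comp (measurable_id.prodMk measurable_const)
  have hsm : Measurable (sz : R → ℝ) := continuous_sz.measurable
  have hbs : ∀ z : R, |γ * sz z - p| ≤ 2 * γ := by
    intro z
    have h1 := sz_nonneg z
    have h2 := (sz_lt_one z).le
    rw [abs_le]
    constructor
    · nlinarith [mul_nonneg hγpos.le h1]
    · nlinarith [mul_nonneg hγpos.le h1]
  have hfb : ∀ (z : R) (v : V), |fz C a z v| ≤ 1 := by
    intro z v
    rw [abs_of_nonneg (fz_nonneg C a z v)]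
    linarith [fz_le C a z v]
  -- first order part
  have hi1 : Integrable (fun z : R => wt p1 (finrank ℝ R + m) z *
      ((γ * sz z - p) * (fz C a z v + fz C a z (-v)))) μ := by
    apply integrable_wt_mul μ hp1 hm (C := 2 * γ * 2)
    · exact ((hsm.const_mul γ).sub_const p).mul ((hmf v).add (hmf (-v)))
    · intro z
      rw [abs_mul]
      apply mul_le_mul (hbs z) _ (abs_nonneg _) (by positivity)
      have := abs_add_le (fz C a z v) (fz C a z (-v))
      linarith [hfb z v, hfb z (-v)]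
  have hi2 : Integrable (fun z : R => wt p1 (finrank ℝ R + m) z *
      (fz C a z v ^ 2 + fz C a z (-v) ^ 2)) μ := by
    apply integrable_wt_mul μ hp1 hm (C := 2)
    · exact ((hmf v).pow_const 2).add ((hmf (-v)).pow_const 2)
    · intro z
      have h1 : fz C a z v ^ 2 ≤ 1 := by
        have := fz_nonneg C a z v
        exact pow_le_one₀ this (by linarith [fz_le C a z v])
      have h2 : fz C a z (-v) ^ 2 ≤ 1 := by
        have := fz_nonneg C a z (-v)
        exact pow_le_one₀ this (by linarith [fz_le C a z (-v)])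
      rw [abs_of_nonneg (by positivity)]
      linarith
  have hi3 : Integrable
      (fun z : R => wt p1 (finrank ℝ R + m) z * ((γ * sz z - p) * sz z ^ 3)) μ := by
    apply integrable_wt_mul μ hp1 hm (C := 2 * γ)
    · exact ((hsm.const_mul γ).sub_const p).mul (hsm.pow_const 3)
    · intro z
      have h1 := sz_nonneg z
      have h2 := (sz_lt_one z).le
      rw [abs_mul]
      have h4 : |sz z ^ 3| ≤ 1 := by
        rw [abs_of_nonneg (by positivity)]
        exact pow_le_one₀ h1 h2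
      nlinarith [abs_nonneg (γ * sz z - p), abs_nonneg (sz z ^ 3), hbs z]
  have hmono := gfun_sub_mono hq2 hP0 hFq hFq2 hxP
  have e1 : ∀ᵐ z ∂μ, wt p1 (finrank ℝ R + m) z * ((γ * sz z - p) * (fz C a z v + fz C a z (-v))) -
      κ * (wt p1 (finrank ℝ R + m) z * ((γ * sz z - p) * sz z ^ 3)) =
      wt p1 (finrank ℝ R + m) z * ((γ * sz z - p) *
        ((fun s => gfun q P F x s - κ * s ^ 3) (sz z))) := by
    filter_upwards [ae_ne_zero μ] with z hz
    rw [fz_pair C hC a hz hv]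
    ring
  have hi4 := (hi1.sub (hi3.const_mul κ)).congr e1
  have h1 := wt_mono μ hp1 hm hp hγ hmono hi4
  rw [← integral_congr_ae e1, integral_sub hi1 (hi3.const_mul κ), integral_const_mul] at h1
  -- second order part
  have h2 : ∫ z : R, wt p1 (finrank ℝ R + m) z *
      (fz C a z v ^ 2 + fz C a z (-v) ^ 2) ∂μ ≤
      (4 * q / (P + 2 * q)) ^ 2 * ∫ z : R, wt p1 (finrank ℝ R + m) z ∂μ := by
    rw [← integral_const_mul]
    apply integral_mono_ae hi2 ((integrable_wt μ hp1 hm).const_mul _)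
    filter_upwards [ae_ne_zero μ] with z hz
    have h3 := gfun_le hq2 hP0 hFq hxP (sz_pos hz) (sz_lt_one z).le
    rw [← fz_pair C hC a hz hv] at h3
    have h4 := fz_nonneg C a z v
    have h5 := fz_nonneg C a z (-v)
    have h6 : (fz C a z v + fz C a z (-v)) ^ 2 ≤ (4 * q / (P + 2 * q)) ^ 2 :=
      pow_le_pow_left₀ (by positivity) h3 2
    have h7 : fz C a z v ^ 2 + fz C a z (-v) ^ 2 ≤ (4 * q / (P + 2 * q)) ^ 2 := by
      nlinarith [mul_nonneg h4 h5]
    have := mul_le_mul_of_nonneg_left h7 (wt_nonneg p1 (finrank ℝ R + m) z)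
    linarith
  have h3 : ∫ z : R, wt p1 (finrank ℝ R + m) z * ((γ * sz z - p) * (fz C a z v + fz C a z (-v)) -
      ε * p * (fz C a z v ^ 2 + fz C a z (-v) ^ 2)) ∂μ =
      (∫ z : R, wt p1 (finrank ℝ R + m) z *
        ((γ * sz z - p) * (fz C a z v + fz C a z (-v))) ∂μ) -
      ε * p * ∫ z : R, wt p1 (finrank ℝ R + m) z *
        (fz C a z v ^ 2 + fz C a z (-v) ^ 2) ∂μ := by
    rw [← integral_const_mul, ← integral_sub hi1 (hi2.const_mul _)]
    congr 1
    ext z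
    ring
  rw [h3]
  have h4 := mul_le_mul_of_nonneg_left h2 (mul_nonneg hε hppos.le)
  nlinarith

end

end MP4845
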