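import Mathlib
import Pool.Agent.Lib.MP_4845bf_pr.Core

set_option linter.unusedSectionVars false
set_option linter.unnecessarySimpa false

namespace MP4845

open MeasureTheory Module Set Filter Topology
open scoped InnerProductSpace

section

variable {R V E : Type*} [NormedAddCommGroup R] [NormedSpace ℝ R] [FiniteDimensional ℝ R]
  [MeasurableSpace R] [BorelSpace R]
  [NormedAddCommGroup V] [InnerProductSpace ℝ V] [FiniteDimensional ℝ V]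
  [MeasurableSpace V] [BorelSpace V]
  [NormedAddCommGroup E] [InnerProductSpace ℝ E]
  [Nontrivial R]

/-- the radial weight of `v` -/
noncomputable def phiw (N : ℕ) (p1 : ℝ) (Φ : ℝ → ℝ) (ρ : ℝ) : ℝ := Φ (ρ ^ 2) * (ρ ^ N * (ρ ^ 2) ^ p1)

lemma jac_mul_theta {p1 : ℝ} (Φ : ℝ → ℝ) (w : R × V) :
    jac w * (Φ (‖(theta w).1‖ ^ 2 + ‖(theta w).2‖ ^ 2) * (‖(theta w).1‖ ^ 2) ^ p1) =
      wt p1 (finrank ℝ R + finrank ℝ V) w.1 * phiw (finrank ℝ R) p1 Φ ‖w.2‖ := by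
  rw [norm_theta_add, norm_theta_fst, Real.mul_rpow (by positivity) (sz_nonneg _)]
  unfold jac wt phiw
  rw [mul_pow, pow_add]
  ring

/-- lower bound of the inner integral in a form ready for averaging -/
lemma inner_lower' (μ : Measure R) [μ.IsAddHaarMeasure] {p1 : ℝ} (hp1 : 0 ≤ p1)
    {m : ℕ} (hm : 0 < m) {p γ : ℝ} (hp : p = p1 + finrank ℝ R / 2)
    (hγ : γ = p1 + finrank ℝ R / 2 + m / 2) (C : V →L[ℝ] E) (hC : ∀ v, ‖C v‖ ≤ ‖v‖) (a : E)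
    {v : V} (hv : v ≠ 0) {ε : ℝ} (hε : 0 ≤ ε) :
    (‖v‖ ^ 2) ^ 2 / (‖a‖ ^ 2 + 3 * ‖v‖ ^ 2) ^ 3 *
      (2 / 3 * (∫ z : R, wt p1 (finrank ℝ R + m) z * ((γ * sz z - p) * sz z ^ 3) ∂μ) *
        (‖a‖ ^ 2 + ‖C v‖ ^ 2) -
      36 * ε * p * (∫ z : R, wt p1 (finrank ℝ R + m) z ∂μ) * (‖a‖ ^ 2 + 3 * ‖v‖ ^ 2)) ≤
    ∫ z : R, wt p1 (finrank ℝ R + m) z * ((γ * sz z - p) * (fz C a z v + fz C a z (-v)) -
      ε * p * (fz C a z v ^ 2 + fz C a z (-v) ^ 2)) ∂μ := by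
  refine le_trans ?_ (inner_lower μ hp1 hm hp hγ C hC a hv hε)
  have hv0 := v0_pos μ hp1 hm hp hγ
  have hw0 : 0 ≤ ∫ z : R, wt p1 (finrank ℝ R + m) z ∂μ :=
    integral_nonneg (fun z => wt_nonneg _ _ z)
  have hN' : (0:ℝ) ≤ finrank ℝ R := by positivity
  have hp0 : 0 ≤ p := by rw [hp]; positivity
  set v0 := ∫ z : R, wt p1 (finrank ℝ R + m) z * ((γ * sz z - p) * sz z ^ 3) ∂μ
  set w0 := ∫ z : R, wt p1 (finrank ℝ R + m) z ∂μ
  have hq : 0 < ‖v‖ ^ 2 := by have := norm_pos_iff.mpr hv; positivity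
  have hBq : ‖C v‖ ^ 2 ≤ ‖v‖ ^ 2 := pow_le_pow_left₀ (norm_nonneg _) (hC v) 2
  have hB0 : 0 ≤ ‖C v‖ ^ 2 := by positivity
  have hA0 : 0 ≤ ‖a‖ ^ 2 := by positivity
  set q := ‖v‖ ^ 2
  set B := ‖C v‖ ^ 2
  set A := ‖a‖ ^ 2
  have h1 : q ^ 2 / (A + 3 * q) ^ 3 * (2 / 3 * v0 * (A + B)) ≤
      2 / 3 * ((A + B) * q ^ 2) / (A + B + 2 * q) ^ 3 * v0 := by
    have h2 : (A + B + 2 * q) ^ 3 ≤ (A + 3 * q) ^ 3 :=
      pow_le_pow_left₀ (by positivity) (by linarith) 3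
    have h3 : 2 / 3 * ((A + B) * q ^ 2) / (A + 3 * q) ^ 3 ≤
        2 / 3 * ((A + B) * q ^ 2) / (A + B + 2 * q) ^ 3 :=
      div_le_div_of_nonneg_left (by positivity) (by positivity) h2
    have h4 := mul_le_mul_of_nonneg_right h3 hv0.le
    calc q ^ 2 / (A + 3 * q) ^ 3 * (2 / 3 * v0 * (A + B)) =
        2 / 3 * ((A + B) * q ^ 2) / (A + 3 * q) ^ 3 * v0 := by ring
      _ ≤ _ := h4
  have h5 : ε * p * (4 * q / (A + B + 2 * q)) ^ 2 * w0 ≤
      q ^ 2 / (A + 3 * q) ^ 3 * (36 * ε * p * w0 * (A + 3 * q)) := by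
    have h6 : 4 * q / (A + B + 2 * q) ≤ 6 * q / (A + 3 * q) := by
      rw [div_le_div_iff₀ (by positivity) (by positivity)]
      nlinarith [mul_nonneg hq.le hA0, mul_nonneg hq.le hB0]
    have h7 : (4 * q / (A + B + 2 * q)) ^ 2 ≤ (6 * q / (A + 3 * q)) ^ 2 :=
      pow_le_pow_left₀ (by positivity) h6 2
    calc ε * p * (4 * q / (A + B + 2 * q)) ^ 2 * w0 ≤ ε * p * (6 * q / (A + 3 * q)) ^ 2 * w0 := by
          gcongr
      _ = q ^ 2 / (A + 3 * q) ^ 3 * (36 * ε * p * w0 * (A + 3 * q)) := by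
          field_simp
          ring
  calc q ^ 2 / (A + 3 * q) ^ 3 * (2 / 3 * v0 * (A + B) - 36 * ε * p * w0 * (A + 3 * q)) =
      q ^ 2 / (A + 3 * q) ^ 3 * (2 / 3 * v0 * (A + B)) -
        q ^ 2 / (A + 3 * q) ^ 3 * (36 * ε * p * w0 * (A + 3 * q)) := by ring
    _ ≤ _ := by linarith

/-- The core positivity statement. -/
theorem core_pos [Nontrivial V] (μ : Measure R) [μ.IsAddHaarMeasure] (ν : Measure V)
    [ν.IsAddHaarMeasure] {p1 : ℝ} (hp1 : 0 ≤ p1) {p γ : ℝ} (hp : p = p1 + finrank ℝ R / 2)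
    (hγ : γ = p1 + finrank ℝ R / 2 + finrank ℝ V / 2) (C : V →L[ℝ] E) (hC : ∀ v, ‖C v‖ ≤ ‖v‖)
    (hC0 : C ≠ 0) :
    ∃ ε0 : ℝ, 0 < ε0 ∧ ε0 ≤ 1 ∧ ∀ ε : ℝ, 0 < ε → ε ≤ ε0 → ∀ (a : E) (Φ : ℝ → ℝ), Measurable Φ →
      (∀ x, 0 ≤ Φ x) → (∀ x, 0 < x → 0 < Φ x) →
      Integrable (fun v : V => phiw (finrank ℝ R) p1 Φ ‖v‖) ν →
      Integrable (fun x : R × V => Φ (‖x.1‖ ^ 2 + ‖x.2‖ ^ 2) * (‖x.1‖ ^ 2) ^ p1) (μ.prod ν) ∧
      0 < ∫ x : R × V, Φ (‖x.1‖ ^ 2 + ‖x.2‖ ^ 2) * (‖x.1‖ ^ 2) ^ p1 *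
        (ff C a x * (γ * ss x - p) - ε * p * ff C a x ^ 2) ∂(μ.prod ν) := by
  have hN : 0 < finrank ℝ R := finrank_pos
  have hN' : (0:ℝ) < finrank ℝ R := by exact_mod_cast hN
  have hm : 0 < finrank ℝ V := finrank_pos
  have hm' : (0:ℝ) < finrank ℝ V := by exact_mod_cast hm
  have hppos : 0 < p := by rw [hp]; positivity
  have hγpos : 0 < γ := by rw [hγ]; positivity
  have hpγ : p < γ := by rw [hp, hγ]; linarith
  obtain ⟨c3, hc3, hav⟩ := exists_average ν C hC0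
  have hv0 := v0_pos μ hp1 hm hp hγ
  have hw0 : 0 ≤ ∫ z : R, wt p1 (finrank ℝ R + finrank ℝ V) z ∂μ :=
    integral_nonneg (fun z => wt_nonneg _ _ z)
  set M := finrank ℝ R + finrank ℝ V with hM
  set v0 := ∫ z : R, wt p1 M z * ((γ * sz z - p) * sz z ^ 3) ∂μ with hv0d
  set w0 := ∫ z : R, wt p1 M z ∂μ with hw0d
  set ε0 : ℝ := min 1 (v0 * min 1 c3 / (324 * p * w0 + 1)) with hε0
  have hmin : 0 < min 1 c3 := lt_min one_pos hc3
  refine ⟨ε0, lt_min one_pos (by positivity), min_le_left _ _, ?_⟩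
  intro ε hε hεle a Φ hΦm hΦ0 hΦpos hφint
  have hε1 : ε ≤ 1 := hεle.trans (min_le_left _ _)
  have hsmall : 324 * ε * p * w0 ≤ v0 * min 1 c3 := by
    have h1 : ε ≤ v0 * min 1 c3 / (324 * p * w0 + 1) := hεle.trans (min_le_right _ _)
    rw [le_div_iff₀ (by positivity)] at h1
    nlinarith
  have hs1 : 324 * ε * p * w0 ≤ v0 := by
    refine hsmall.trans ?_
    have := min_le_left 1 c3
    nlinarith
  have hs2 : 324 * ε * p * w0 ≤ v0 * c3 := by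
    refine hsmall.trans ?_
    have := min_le_right 1 c3
    exact mul_le_mul_of_nonneg_left this hv0.le
  -- measurability of basic functions
  have hnm : Measurable (fun x : R × V => ‖x.1‖ ^ 2 + ‖x.2‖ ^ 2) := by fun_prop
  have hFm : Measurable (fun x : R × V => Φ (‖x.1‖ ^ 2 + ‖x.2‖ ^ 2) * (‖x.1‖ ^ 2) ^ p1) :=
    (hΦm.comp hnm).mul ((by fun_prop : Measurable fun x : R × V => ‖x.1‖ ^ 2).pow_const _)
  have hffm : Measurable (fun x : R × V => ff C a x) := by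
    unfold ff
    have h1 : Measurable (fun x : R × V => ‖x.1‖ ^ 2) := by fun_prop
    have h2 : Measurable (fun x : R × V => ‖a + C x.2‖ ^ 2) :=
      (((continuous_const.add (C.continuous.comp continuous_snd)).norm).pow 2).measurable
    exact h1.div ((h1.const_mul 2).add h2)
  have hssm : Measurable (fun x : R × V => ss x) := by
    unfold ss
    have h1 : Measurable (fun x : R × V => ‖x.1‖ ^ 2) := by fun_prop
    exact h1.div hnm
  have hbm : Measurable (fun x : R × V =>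
      ff C a x * (γ * ss x - p) - ε * p * ff C a x ^ 2) :=
    (hffm.mul ((hssm.const_mul γ).sub_const p)).sub ((hffm.pow_const 2).const_mul (ε * p))
  have hwφ : Integrable (fun w : R × V => wt p1 M w.1 * phiw (finrank ℝ R) p1 Φ ‖w.2‖)
      (μ.prod ν) := (integrable_wt μ hp1 hm).mul_prod hφint
  have hI0 : Integrable (fun x : R × V => Φ (‖x.1‖ ^ 2 + ‖x.2‖ ^ 2) * (‖x.1‖ ^ 2) ^ p1)
      (μ.prod ν) := by
    rw [integrable_theta μ ν hFm]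
    refine hwφ.congr ?_
    filter_upwards with w
    exact (jac_mul_theta Φ w).symm
  refine ⟨hI0, ?_⟩
  -- pass to the coordinates (z, v)
  have hv_ae : ∀ᵐ w : R × V ∂(μ.prod ν), w.2 ≠ 0 := by
    have h1 : ∀ᵐ v ∂ν, v ≠ 0 := ae_ne_zero ν
    exact Measure.quasiMeasurePreserving_snd.ae h1
  let b : R → V → ℝ := fun z v => fz C a z v * (γ * sz z - p) - ε * p * fz C a z v ^ 2
  have htheta : ∫ x : R × V, Φ (‖x.1‖ ^ 2 + ‖x.2‖ ^ 2) * (‖x.1‖ ^ 2) ^ p1 *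
        (ff C a x * (γ * ss x - p) - ε * p * ff C a x ^ 2) ∂(μ.prod ν) =
      ∫ w : R × V, wt p1 M w.1 * phiw (finrank ℝ R) p1 Φ ‖w.2‖ * b w.1 w.2 ∂(μ.prod ν) := by
    refine (integral_theta μ ν (hFm.mul hbm)).trans ?_
    apply integral_congr_ae
    filter_upwards [hv_ae] with w hw
    simp only [Pi.mul_apply]
    rw [← mul_assoc, jac_mul_theta, ff_theta, ss_theta hw]
  rw [htheta]
  have hbmz : Measurable (fun w : R × V => b w.1 w.2) := by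
    have h1 := measurable_fz (R := R) C a
    have h2 : Measurable (fun w : R × V => sz w.1) := (continuous_sz.comp continuous_fst).measurable
    exact (h1.mul ((h2.const_mul γ).sub_const p)).sub ((h1.pow_const 2).const_mul (ε * p))
  have hbb : ∀ z v, |b z v| ≤ 2 * γ + p := by
    intro z v
    have h1 := fz_nonneg C a z v
    have h2 := fz_le C a z v
    have h3 := sz_nonneg z
    have h4 := (sz_lt_one z).le
    have h5 : |γ * sz z - p| ≤ 2 * γ := by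
      rw [abs_le]
      constructor
      · nlinarith [mul_nonneg hγpos.le h3]
      · nlinarith [mul_nonneg hγpos.le h3]
    have h6 : |fz C a z v * (γ * sz z - p)| ≤ 2 * γ := by
      rw [abs_mul, abs_of_nonneg h1]
      nlinarith [abs_nonneg (γ * sz z - p)]
    have h7 : |ε * p * fz C a z v ^ 2| ≤ p := by
      rw [abs_of_nonneg (by positivity)]
      have h8 : fz C a z v ^ 2 ≤ 1 := pow_le_one₀ h1 (by linarith)
      have h9 : ε * p ≤ p := by nlinarith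
      have h10 : 0 ≤ ε * p := by positivity
      nlinarith
    calc |b z v| ≤ |fz C a z v * (γ * sz z - p)| + |ε * p * fz C a z v ^ 2| := abs_sub _ _
      _ ≤ _ := by linarith
  have hint1 : Integrable (fun w : R × V =>
      wt p1 M w.1 * phiw (finrank ℝ R) p1 Φ ‖w.2‖ * b w.1 w.2) (μ.prod ν) := by
    apply hwφ.mul_bdd (c := 2 * γ + p) hbmz.aestronglyMeasurable
    filter_upwards with w
    simpa using hbb w.1 w.2
  -- reflection v -> -v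
  have hnegmp : MeasurePreserving (fun w : R × V => (w.1, -w.2)) (μ.prod ν) (μ.prod ν) := by
    have h1 : MeasurePreserving (fun v : V => -v) ν ν := Measure.measurePreserving_neg ν
    exact (MeasurePreserving.id μ).prod h1
  have hnegemb : MeasurableEmbedding (fun w : R × V => (w.1, -w.2)) :=
    ((Homeomorph.refl R).prodCongr (Homeomorph.neg V)).measurableEmbedding
  have hint2 : Integrable (fun w : R × V =>
      wt p1 M w.1 * phiw (finrank ℝ R) p1 Φ ‖w.2‖ * b w.1 (-w.2)) (μ.prod ν) := by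
    have := (hnegmp.integrable_comp_emb hnegemb (g := fun w : R × V =>
      wt p1 M w.1 * phiw (finrank ℝ R) p1 Φ ‖w.2‖ * b w.1 w.2)).mpr hint1
    refine this.congr ?_
    filter_upwards with w
    simp [Function.comp]
  have hsymm : ∫ w : R × V, wt p1 M w.1 * phiw (finrank ℝ R) p1 Φ ‖w.2‖ * b w.1 (-w.2)
        ∂(μ.prod ν) =
      ∫ w : R × V, wt p1 M w.1 * phiw (finrank ℝ R) p1 Φ ‖w.2‖ * b w.1 w.2 ∂(μ.prod ν) := by
    have := hnegmp.integral_comp hnegemb (fun w : R × V =>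
      wt p1 M w.1 * phiw (finrank ℝ R) p1 Φ ‖w.2‖ * b w.1 w.2)
    rw [← this]
    congr 1
    ext w
    simp
  have hsum : 2 * ∫ w : R × V, wt p1 M w.1 * phiw (finrank ℝ R) p1 Φ ‖w.2‖ * b w.1 w.2
        ∂(μ.prod ν) =
      ∫ w : R × V, wt p1 M w.1 * phiw (finrank ℝ R) p1 Φ ‖w.2‖ * (b w.1 w.2 + b w.1 (-w.2))
        ∂(μ.prod ν) := by
    have h1 : ∫ w : R × V, wt p1 M w.1 * phiw (finrank ℝ R) p1 Φ ‖w.2‖ *
        (b w.1 w.2 + b w.1 (-w.2)) ∂(μ.prod ν) =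
        (∫ w : R × V, wt p1 M w.1 * phiw (finrank ℝ R) p1 Φ ‖w.2‖ * b w.1 w.2 ∂(μ.prod ν)) +
        ∫ w : R × V, wt p1 M w.1 * phiw (finrank ℝ R) p1 Φ ‖w.2‖ * b w.1 (-w.2)
          ∂(μ.prod ν) := by
      rw [← integral_add hint1 hint2]
      congr 1
      ext w
      ring
    rw [h1, hsymm]
    ring
  have hint3 : Integrable (fun w : R × V =>
      wt p1 M w.1 * phiw (finrank ℝ R) p1 Φ ‖w.2‖ * (b w.1 w.2 + b w.1 (-w.2))) (μ.prod ν) := by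
    refine (hint1.add hint2).congr ?_
    filter_upwards with w
    simp only [Pi.add_apply]
    ring
  -- iterated integral
  have hiter : ∫ w : R × V, wt p1 M w.1 * phiw (finrank ℝ R) p1 Φ ‖w.2‖ *
        (b w.1 w.2 + b w.1 (-w.2)) ∂(μ.prod ν) =
      ∫ v, phiw (finrank ℝ R) p1 Φ ‖v‖ * (∫ z : R, wt p1 M z *
        ((γ * sz z - p) * (fz C a z v + fz C a z (-v)) -
        ε * p * (fz C a z v ^ 2 + fz C a z (-v) ^ 2)) ∂μ) ∂ν := by
    rw [integral_prod_symm _ hint3]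
    congr 1
    ext v
    rw [← integral_const_mul]
    congr 1
    ext z
    simp only [b]
    ring
  have hint4 : Integrable (fun v => phiw (finrank ℝ R) p1 Φ ‖v‖ * (∫ z : R, wt p1 M z *
        ((γ * sz z - p) * (fz C a z v + fz C a z (-v)) -
        ε * p * (fz C a z v ^ 2 + fz C a z (-v) ^ 2)) ∂μ)) ν := by
    have := hint3.integral_prod_right
    refine this.congr ?_
    filter_upwards with v
    rw [← integral_const_mul]
    congr 1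
    ext z
    simp only [b]
    ring
  -- the radial weight
  have hA0 : 0 ≤ ‖a‖ ^ 2 := by positivity
  let ψ : ℝ → ℝ := fun ρ => phiw (finrank ℝ R) p1 Φ |ρ| * ((ρ ^ 2) ^ 2 / (‖a‖ ^ 2 + 3 * ρ ^ 2) ^ 3)
  have hφ0 : ∀ ρ : ℝ, 0 ≤ ρ → 0 ≤ phiw (finrank ℝ R) p1 Φ ρ := by
    intro ρ hρ
    unfold phiw
    have := hΦ0 (ρ ^ 2)
    positivity
  have hφm : Measurable (phiw (finrank ℝ R) p1 Φ) := by
    unfold phiw
    exact (hΦm.comp (by fun_prop)).mul ((by fun_prop : Measurable fun ρ : ℝ => ρ ^ finrank ℝ R).mul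
      ((by fun_prop : Measurable fun ρ : ℝ => ρ ^ 2).pow_const _))
  have hψm : Measurable ψ := by
    apply (hφm.comp (by fun_prop)).mul
    fun_prop
  have hψ0 : ∀ ρ, 0 ≤ ψ ρ := by
    intro ρ
    have := hφ0 |ρ| (abs_nonneg _)
    simp only [ψ]
    positivity
  have hψn : ∀ v : V, ψ ‖v‖ = phiw (finrank ℝ R) p1 Φ ‖v‖ *
      ((‖v‖ ^ 2) ^ 2 / (‖a‖ ^ 2 + 3 * ‖v‖ ^ 2) ^ 3) := by
    intro v
    simp only [ψ, abs_norm]
  -- ψ (A+3q) ≤ φ
  have hψb : ∀ v : V, ψ ‖v‖ * (‖a‖ ^ 2 + 3 * ‖v‖ ^ 2) ≤ phiw (finrank ℝ R) p1 Φ ‖v‖ := by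
    intro v
    rw [hψn]
    have h1 := hφ0 ‖v‖ (norm_nonneg _)
    rcases (norm_nonneg v).eq_or_lt with h2 | h2
    · rw [← h2] at h1 ⊢
      simpa using h1
    · have h3 : (‖v‖ ^ 2) ^ 2 / (‖a‖ ^ 2 + 3 * ‖v‖ ^ 2) ^ 3 * (‖a‖ ^ 2 + 3 * ‖v‖ ^ 2) ≤ 1 := by
        have h4 : (‖v‖ ^ 2) ^ 2 / (‖a‖ ^ 2 + 3 * ‖v‖ ^ 2) ^ 3 * (‖a‖ ^ 2 + 3 * ‖v‖ ^ 2) =
            (‖v‖ ^ 2) ^ 2 / (‖a‖ ^ 2 + 3 * ‖v‖ ^ 2) ^ 2 := by
          field_simp
        rw [h4, div_le_one (by positivity)]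
        apply pow_le_pow_left₀ (by positivity)
        nlinarith [sq_nonneg ‖v‖]
      rw [mul_assoc]
      nlinarith
  have hint5 : Integrable (fun v : V => ψ ‖v‖ * (‖a‖ ^ 2 + 3 * ‖v‖ ^ 2)) ν := by
    refine hφint.mono' ?_ ?_
    · exact ((hψm.comp measurable_norm).mul (by fun_prop)).aestronglyMeasurable
    · filter_upwards with v
      rw [Real.norm_of_nonneg (mul_nonneg (hψ0 _) (by positivity))]
      exact hψb v
  have hint6 : Integrable (fun v : V => ψ ‖v‖ * ‖v‖ ^ 2) ν := by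
    refine hint5.mono' ?_ ?_
    · exact ((hψm.comp measurable_norm).mul (by fun_prop)).aestronglyMeasurable
    · filter_upwards with v
      rw [Real.norm_of_nonneg (mul_nonneg (hψ0 _) (by positivity))]
      apply mul_le_mul_of_nonneg_left _ (hψ0 _)
      nlinarith [sq_nonneg ‖v‖]
  have hint7 : Integrable (fun v : V => ψ ‖v‖ * ‖a‖ ^ 2) ν := by
    refine hint5.mono' ?_ ?_
    · exact ((hψm.comp measurable_norm).mul_const _).aestronglyMeasurable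
    · filter_upwards with v
      rw [Real.norm_of_nonneg (mul_nonneg (hψ0 _) (by positivity))]
      apply mul_le_mul_of_nonneg_left _ (hψ0 _)
      nlinarith [sq_nonneg ‖v‖]
  have hint8 : Integrable (fun v : V => ψ ‖v‖ * ‖C v‖ ^ 2) ν := by
    refine hint6.mono' ?_ ?_
    · exact ((hψm.comp measurable_norm).mul
        ((C.continuous.norm.measurable).pow_const 2)).aestronglyMeasurable
    · filter_upwards with v
      rw [Real.norm_of_nonneg (mul_nonneg (hψ0 _) (by positivity))]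
      apply mul_le_mul_of_nonneg_left _ (hψ0 _)
      exact pow_le_pow_left₀ (norm_nonneg _) (hC v) 2
  have hint9 : Integrable (fun v : V => ψ ‖v‖ * ‖a‖ ^ 2 + ψ ‖v‖ * ‖C v‖ ^ 2) ν :=
    hint7.add hint8
  have hint10 : Integrable (fun v : V => 2 / 3 * v0 * (ψ ‖v‖ * ‖a‖ ^ 2 + ψ ‖v‖ * ‖C v‖ ^ 2)) ν :=
    hint9.const_mul _
  have hint11 : Integrable (fun v : V => 36 * ε * p * w0 *
      (ψ ‖v‖ * (‖a‖ ^ 2 + 3 * ‖v‖ ^ 2))) ν := hint5.const_mul _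
  have hint12 : Integrable (fun v : V => 2 / 3 * v0 * (ψ ‖v‖ * ‖a‖ ^ 2 + ψ ‖v‖ * ‖C v‖ ^ 2) -
      36 * ε * p * w0 * (ψ ‖v‖ * (‖a‖ ^ 2 + 3 * ‖v‖ ^ 2))) ν := hint10.sub hint11
  have hlow : ∫ v, (2 / 3 * v0 * (ψ ‖v‖ * ‖a‖ ^ 2 + ψ ‖v‖ * ‖C v‖ ^ 2) -
      36 * ε * p * w0 * (ψ ‖v‖ * (‖a‖ ^ 2 + 3 * ‖v‖ ^ 2))) ∂ν ≤
      ∫ v, phiw (finrank ℝ R) p1 Φ ‖v‖ * (∫ z : R, wt p1 M z *
        ((γ * sz z - p) * (fz C a z v + fz C a z (-v)) -
        ε * p * (fz C a z v ^ 2 + fz C a z (-v) ^ 2)) ∂μ) ∂ν := by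
    apply integral_mono_ae hint12 hint4
    filter_upwards [ae_ne_zero ν] with v hv
    have h1 := inner_lower' μ hp1 hm hp hγ C hC a hv hε.le
    rw [← hM, ← hv0d, ← hw0d] at h1
    have h2 := mul_le_mul_of_nonneg_left h1 (hφ0 ‖v‖ (norm_nonneg _))
    refine le_trans (le_of_eq ?_) h2
    rw [hψn]
    ring
  have hval : ∫ v, (2 / 3 * v0 * (ψ ‖v‖ * ‖a‖ ^ 2 + ψ ‖v‖ * ‖C v‖ ^ 2) -
      36 * ε * p * w0 * (ψ ‖v‖ * (‖a‖ ^ 2 + 3 * ‖v‖ ^ 2))) ∂ν =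
      2 / 3 * v0 * (∫ v, ψ ‖v‖ * ‖a‖ ^ 2 ∂ν) + 2 / 3 * v0 * (∫ v, ψ ‖v‖ * ‖C v‖ ^ 2 ∂ν) -
      36 * ε * p * w0 * ((∫ v, ψ ‖v‖ * ‖a‖ ^ 2 ∂ν) + 3 * ∫ v, ψ ‖v‖ * ‖v‖ ^ 2 ∂ν) := by
    rw [integral_sub hint10 hint11, integral_const_mul, integral_const_mul,
      integral_add hint7 hint8]
    have h3 : ∫ v, ψ ‖v‖ * (‖a‖ ^ 2 + 3 * ‖v‖ ^ 2) ∂ν =
        (∫ v, ψ ‖v‖ * ‖a‖ ^ 2 ∂ν) + 3 * ∫ v, ψ ‖v‖ * ‖v‖ ^ 2 ∂ν := by
      rw [← integral_const_mul, ← integral_add hint7 (hint6.const_mul 3)]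
      congr 1
      ext v
      ring
    rw [h3]
    ring
  have hav' := hav ψ hψm hψ0 hint6
  have hpos6 : 0 < ∫ v, ψ ‖v‖ * ‖v‖ ^ 2 ∂ν := by
    rw [integral_pos_iff_support_of_nonneg_ae _ hint6]
    · have hsupp : {v : V | v ≠ 0} ⊆ Function.support (fun v : V => ψ ‖v‖ * ‖v‖ ^ 2) := by
        intro v hv
        rw [Function.mem_support]
        have h1 : 0 < ‖v‖ := norm_pos_iff.mpr hv
        have h2 : 0 < phiw (finrank ℝ R) p1 Φ ‖v‖ := by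
          unfold phiw
          have := hΦpos (‖v‖ ^ 2) (by positivity)
          positivity
        rw [hψn]
        positivity
      have hopen : IsOpen {v : V | v ≠ 0} := isOpen_ne
      have hne : {v : V | v ≠ 0}.Nonempty := exists_ne 0
      exact lt_of_lt_of_le (hopen.measure_pos ν hne) (measure_mono hsupp)
    · filter_upwards with v
      exact mul_nonneg (hψ0 _) (by positivity)
  have hnn7 : 0 ≤ ∫ v, ψ ‖v‖ * ‖a‖ ^ 2 ∂ν :=
    integral_nonneg (fun v => mul_nonneg (hψ0 _) (by positivity))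
  have hfin : 0 < 2 * ∫ w : R × V, wt p1 M w.1 * phiw (finrank ℝ R) p1 Φ ‖w.2‖ * b w.1 w.2
        ∂(μ.prod ν) := by
    rw [hsum, hiter]
    refine lt_of_lt_of_le ?_ hlow
    rw [hval]
    have k1 := mul_le_mul_of_nonneg_left hav' (by positivity : (0:ℝ) ≤ 2 / 3 * v0)
    have k2 := mul_le_mul_of_nonneg_right hs1 hnn7
    have k3 := mul_le_mul_of_nonneg_right hs2 hpos6.le
    have k4 : 0 < v0 * c3 * ∫ v, ψ ‖v‖ * ‖v‖ ^ 2 ∂ν := by positivity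
    have k5 : 0 ≤ v0 * ∫ v, ψ ‖v‖ * ‖a‖ ^ 2 ∂ν := by positivity
    nlinarith
  linarith

end

end MP4845
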