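import Mathlib
import Pool.Agent.Lib.MP_4845bf_pr.Core2
import Pool.Agent.Lib.MP_4845bf_pr.Gauss

set_option linter.unusedSectionVars false
set_option linter.unnecessarySimpa false

namespace MP4845

open MeasureTheory Module Set Filter Topology

section

variable {P F R V E : Type*} [NormedAddCommGroup P] [NormedSpace ℝ P] [FiniteDimensional ℝ P]
  [MeasurableSpace P] [BorelSpace P] [Nontrivial P]
  [NormedAddCommGroup F] [NormedSpace ℝ F]
  [NormedAddCommGroup R] [NormedSpace ℝ R] [FiniteDimensional ℝ R]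
  [MeasurableSpace R] [BorelSpace R] [Nontrivial R]
  [NormedAddCommGroup V] [InnerProductSpace ℝ V] [FiniteDimensional ℝ V]
  [MeasurableSpace V] [BorelSpace V] [Nontrivial V]
  [NormedAddCommGroup E] [InnerProductSpace ℝ E]

/-- the radial profile -/
noncomputable def Phi (v δ x : ℝ) : ℝ := Real.exp (-x / (2 * v)) * x ^ (-δ)

lemma Phi_nonneg {v δ x : ℝ} (hx : 0 ≤ x) : 0 ≤ Phi v δ x := by
  unfold Phi
  positivity

lemma Phi_pos {v δ x : ℝ} (hx : 0 < x) : 0 < Phi v δ x := by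
  unfold Phi
  positivity

lemma measurable_Phi (v δ : ℝ) : Measurable (Phi v δ) := by
  unfold Phi
  apply Measurable.mul
  · fun_prop
  · exact measurable_id.pow_const _

lemma integrable_phiw (ν : Measure V) [ν.IsAddHaarMeasure] {N : ℕ} {p1 v δ γ : ℝ} (hv : 0 < v)
    (hγ : γ = p1 + N / 2 + finrank ℝ V / 2) (hδ : δ < γ) :
    Integrable (fun x : V => phiw N p1 (fun t => Phi v δ |t|) ‖x‖) ν := by
  have h1 : Integrable (fun x : V => ‖x‖ ^ ((N : ℝ) + 2 * p1 - 2 * δ) *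
      Real.exp (-(1 / (2 * v)) * ‖x‖ ^ 2)) ν := by
    apply integrable_radial ν (by positivity)
    rw [hγ] at hδ
    linarith
  refine h1.congr ?_
  filter_upwards [ae_ne_zero ν] with x hx
  have hx0 : 0 < ‖x‖ := norm_pos_iff.mpr hx
  unfold phiw Phi
  have e0 : |‖x‖ ^ 2| = ‖x‖ ^ 2 := abs_of_nonneg (by positivity)
  simp only
  rw [e0]
  have e1 : (‖x‖ ^ 2) ^ (-δ) = ‖x‖ ^ (-(2 * δ)) := by
    rw [← Real.rpow_natCast ‖x‖ 2, ← Real.rpow_mul hx0.le]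
    congr 1
    push_cast
    ring
  have e2 : (‖x‖ ^ 2) ^ p1 = ‖x‖ ^ (2 * p1) := by
    rw [← Real.rpow_natCast ‖x‖ 2, ← Real.rpow_mul hx0.le]
    congr 1
  have e3 : ‖x‖ ^ N = ‖x‖ ^ (N : ℝ) := (Real.rpow_natCast _ _).symm
  have e4 : ‖x‖ ^ ((N : ℝ) + 2 * p1 - 2 * δ) =
      ‖x‖ ^ (N : ℝ) * ‖x‖ ^ (2 * p1) * ‖x‖ ^ (-(2 * δ)) := by
    rw [← Real.rpow_add hx0, ← Real.rpow_add hx0]
    congr 1
  have e5 : -(1 / (2 * v)) * ‖x‖ ^ 2 = -‖x‖ ^ 2 / (2 * v) := by ring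
  rw [e1, e2, e3, e4, e5]
  ring

/-- the total positivity statement -/
theorem total_pos (κ : Measure P) [κ.IsAddHaarMeasure] (μ : Measure R) [μ.IsAddHaarMeasure]
    (ν : Measure V) [ν.IsAddHaarMeasure] {p1 : ℝ} (hp1 : 0 ≤ p1) {p γ δ : ℝ}
    (hp : p = p1 + finrank ℝ R / 2)
    (hγ : γ = p1 + finrank ℝ R / 2 + finrank ℝ V / 2) (hδ : δ < γ)
    (A : P → E) (hA : Continuous A) (J : P →ₗ[ℝ] F) (hJ : Function.Injective J)
    (C : V →L[ℝ] E) (hC : ∀ v, ‖C v‖ ≤ ‖v‖) (hC0 : C ≠ 0) :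
    ∃ ε0 : ℝ, 0 < ε0 ∧ ε0 ≤ 1 ∧ ∀ ε : ℝ, 0 < ε → ε ≤ ε0 → ∀ (β0 : P) (v : ℝ), 0 < v →
      Integrable (fun w : P × (R × V) => Real.exp (-‖J (w.1 - β0)‖ ^ 2 / (2 * v)) *
        (Phi v δ (‖w.2.1‖ ^ 2 + ‖w.2.2‖ ^ 2) * (‖w.2.1‖ ^ 2) ^ p1)) (κ.prod (μ.prod ν)) ∧
      0 < ∫ w : P × (R × V), Real.exp (-‖J (w.1 - β0)‖ ^ 2 / (2 * v)) *
        (Phi v δ (‖w.2.1‖ ^ 2 + ‖w.2.2‖ ^ 2) * (‖w.2.1‖ ^ 2) ^ p1) *
        (ff C (A w.1) w.2 * (γ * ss w.2 - p) - ε * p * ff C (A w.1) w.2 ^ 2)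
          ∂(κ.prod (μ.prod ν)) := by
  have hN : 0 < finrank ℝ R := finrank_pos
  have hN' : (0:ℝ) < finrank ℝ R := by exact_mod_cast hN
  have hm : 0 < finrank ℝ V := finrank_pos
  have hm' : (0:ℝ) < finrank ℝ V := by exact_mod_cast hm
  have hppos : 0 < p := by rw [hp]; positivity
  have hγpos : 0 < γ := by rw [hγ]; positivity
  have hpγ : p < γ := by rw [hp, hγ]; linarith
  obtain ⟨ε0, hε0, hε01, hcore⟩ := core_pos μ ν hp1 hp hγ C hC hC0
  refine ⟨ε0, hε0, hε01, ?_⟩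
  intro ε hε hεle β0 v hv
  have hε1 : ε ≤ 1 := hεle.trans hε01
  -- the profile with an absolute value, to be nonnegative everywhere
  let Φ : ℝ → ℝ := fun t => Phi v δ |t|
  have hΦm : Measurable Φ := (measurable_Phi v δ).comp (by fun_prop)
  have hΦ0 : ∀ x, 0 ≤ Φ x := fun x => Phi_nonneg (abs_nonneg x)
  have hΦpos : ∀ x, 0 < x → 0 < Φ x := fun x hx => Phi_pos (abs_pos.mpr hx.ne')
  have hΦe : ∀ x : R × V, Φ (‖x.1‖ ^ 2 + ‖x.2‖ ^ 2) = Phi v δ (‖x.1‖ ^ 2 + ‖x.2‖ ^ 2) := by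
    intro x
    simp only [Φ]
    rw [abs_of_nonneg (by positivity)]
  have hφint := integrable_phiw (V := V) ν (N := finrank ℝ R) (p1 := p1) hv hγ hδ
  have hc := fun a => hcore ε hε hεle a Φ hΦm hΦ0 hΦpos hφint
  simp only [hΦe] at hc
  have hI := (hc 0).1
  have he : Integrable (fun b : P => Real.exp (-‖J (b - β0)‖ ^ 2 / (2 * v))) κ := by
    have := integrable_gauss_inj κ J hJ β0 (c := 1 / (2 * v)) (by positivity)
    refine this.congr ?_
    filter_upwards with b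
    congr 1
    ring
  have hw : Integrable (fun w : P × (R × V) => Real.exp (-‖J (w.1 - β0)‖ ^ 2 / (2 * v)) *
        (Phi v δ (‖w.2.1‖ ^ 2 + ‖w.2.2‖ ^ 2) * (‖w.2.1‖ ^ 2) ^ p1)) (κ.prod (μ.prod ν)) :=
    he.mul_prod hI
  refine ⟨hw, ?_⟩
  -- the bounded factor
  let g : P × (R × V) → ℝ := fun w => ff C (A w.1) w.2 * (γ * ss w.2 - p) -
    ε * p * ff C (A w.1) w.2 ^ 2
  have hgm : Measurable g := by
    have hffm : Measurable (fun w : P × (R × V) => ff C (A w.1) w.2) := by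
      unfold ff
      have h1 : Measurable (fun w : P × (R × V) => ‖w.2.1‖ ^ 2) := by fun_prop
      have h2 : Measurable (fun w : P × (R × V) => ‖A w.1 + C w.2.2‖ ^ 2) :=
        ((((hA.comp continuous_fst).add
          (C.continuous.comp (continuous_snd.comp continuous_snd))).norm).pow 2).measurable
      exact h1.div ((h1.const_mul 2).add h2)
    have hssm : Measurable (fun w : P × (R × V) => ss w.2) := by
      unfold ss
      have h1 : Measurable (fun w : P × (R × V) => ‖w.2.1‖ ^ 2) := by fun_prop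
      have h2 : Measurable (fun w : P × (R × V) => ‖w.2.1‖ ^ 2 + ‖w.2.2‖ ^ 2) := by fun_prop
      exact h1.div h2
    exact (hffm.mul ((hssm.const_mul γ).sub_const p)).sub ((hffm.pow_const 2).const_mul (ε * p))
  have hgb : ∀ w, |g w| ≤ 2 * γ + p := by
    intro w
    have h1 : 0 ≤ ff C (A w.1) w.2 := by unfold ff; positivity
    have h2 : ff C (A w.1) w.2 ≤ 1 := by
      unfold ff
      apply div_le_one_of_le₀ _ (by positivity)
      nlinarith [sq_nonneg ‖w.2.1‖, sq_nonneg ‖A w.1 + C w.2.2‖]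
    have h3 : 0 ≤ ss w.2 := by unfold ss; positivity
    have h4 : ss w.2 ≤ 1 := by
      unfold ss
      apply div_le_one_of_le₀ _ (by positivity)
      nlinarith [sq_nonneg ‖w.2.2‖]
    have h5 : |γ * ss w.2 - p| ≤ 2 * γ := by
      rw [abs_le]
      constructor
      · nlinarith [mul_nonneg hγpos.le h3]
      · nlinarith [mul_nonneg hγpos.le h3]
    have h6 : |ff C (A w.1) w.2 * (γ * ss w.2 - p)| ≤ 2 * γ := by
      rw [abs_mul, abs_of_nonneg h1]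
      nlinarith [abs_nonneg (γ * ss w.2 - p)]
    have h7 : |ε * p * ff C (A w.1) w.2 ^ 2| ≤ p := by
      rw [abs_of_nonneg (by positivity)]
      have h8 : ff C (A w.1) w.2 ^ 2 ≤ 1 := pow_le_one₀ h1 h2
      have h9 : ε * p ≤ p := by nlinarith
      have h10 : 0 ≤ ε * p := by positivity
      nlinarith
    calc |g w| ≤ |ff C (A w.1) w.2 * (γ * ss w.2 - p)| + |ε * p * ff C (A w.1) w.2 ^ 2| :=
          abs_sub _ _
      _ ≤ _ := by linarith
  have hwg : Integrable (fun w : P × (R × V) => Real.exp (-‖J (w.1 - β0)‖ ^ 2 / (2 * v)) *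
        (Phi v δ (‖w.2.1‖ ^ 2 + ‖w.2.2‖ ^ 2) * (‖w.2.1‖ ^ 2) ^ p1) * g w)
        (κ.prod (μ.prod ν)) := by
    apply hw.mul_bdd (c := 2 * γ + p) hgm.aestronglyMeasurable
    filter_upwards with w
    simpa using hgb w
  have hfub := integral_prod _ hwg
  rw [show (∫ w : P × (R × V), Real.exp (-‖J (w.1 - β0)‖ ^ 2 / (2 * v)) *
        (Phi v δ (‖w.2.1‖ ^ 2 + ‖w.2.2‖ ^ 2) * (‖w.2.1‖ ^ 2) ^ p1) *
        (ff C (A w.1) w.2 * (γ * ss w.2 - p) - ε * p * ff C (A w.1) w.2 ^ 2)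
          ∂(κ.prod (μ.prod ν))) = _ from hfub]
  have hinner : ∀ b : P, ∫ x : R × V, Real.exp (-‖J ((b, x).1 - β0)‖ ^ 2 / (2 * v)) *
        (Phi v δ (‖(b, x).2.1‖ ^ 2 + ‖(b, x).2.2‖ ^ 2) * (‖(b, x).2.1‖ ^ 2) ^ p1) * g (b, x)
        ∂(μ.prod ν) =
      Real.exp (-‖J (b - β0)‖ ^ 2 / (2 * v)) * ∫ x : R × V,
        Phi v δ (‖x.1‖ ^ 2 + ‖x.2‖ ^ 2) * (‖x.1‖ ^ 2) ^ p1 *
        (ff C (A b) x * (γ * ss x - p) - ε * p * ff C (A b) x ^ 2) ∂(μ.prod ν) := by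
    intro b
    rw [← integral_const_mul]
    congr 1
    ext x
    simp only [g]
    ring
  have hpos : ∀ b : P, 0 < Real.exp (-‖J (b - β0)‖ ^ 2 / (2 * v)) * ∫ x : R × V,
        Phi v δ (‖x.1‖ ^ 2 + ‖x.2‖ ^ 2) * (‖x.1‖ ^ 2) ^ p1 *
        (ff C (A b) x * (γ * ss x - p) - ε * p * ff C (A b) x ^ 2) ∂(μ.prod ν) :=
    fun b => mul_pos (Real.exp_pos _) (hc (A b)).2
  have hint := hwg.integral_prod_left
  rw [integral_pos_iff_support_of_nonneg _ hint]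
  · have hs : Function.support (fun b => ∫ x : R × V,
        Real.exp (-‖J ((b, x).1 - β0)‖ ^ 2 / (2 * v)) *
        (Phi v δ (‖(b, x).2.1‖ ^ 2 + ‖(b, x).2.2‖ ^ 2) * (‖(b, x).2.1‖ ^ 2) ^ p1) * g (b, x)
        ∂(μ.prod ν)) = univ := by
      ext b
      simp only [Function.mem_support, mem_univ, iff_true]
      rw [hinner b]
      exact (hpos b).ne'
    rw [hs]
    exact isOpen_univ.measure_pos κ univ_nonempty
  · intro b
    simp only [Pi.zero_apply]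
    rw [hinner b]
    exact (hpos b).le

end

end MP4845
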