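import Mathlib
import Pool.Agent.Lib.MP_4845bf_pr.Total
import Pool.Agent.Lib.MP_4845bf_pr.Gauss

set_option linter.unusedSectionVars false
set_option linter.unnecessarySimpa false

namespace MP4845

open MeasureTheory Module Set Filter Topology

lemma log_one_sub_lower {η : ℝ} (h1 : η ≤ 1 / 2) :
    -η - 2 * η ^ 2 ≤ Real.log (1 - η) := by
  have hpos : 0 < 1 - η := by linarith
  have h2 := Real.one_sub_inv_le_log_of_pos hpos
  refine le_trans ?_ h2
  rw [← sub_nonneg]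
  have : 1 - (1 - η)⁻¹ - (-η - 2 * η ^ 2) = η ^ 2 * (1 - 2 * η) / (1 - η) := by
    field_simp
    ring
  rw [this]
  apply div_nonneg _ hpos.le
  apply mul_nonneg (sq_nonneg _)
  linarith

lemma psi_lower {η s p γ : ℝ} (h0 : 0 ≤ η) (h1 : η ≤ 1 / 2) (hs1 : s ≤ 1)
    (hp : 0 ≤ p) (hγ : 0 ≤ γ) :
    η * (γ * s - p) - 2 * p * η ^ 2 ≤ p * Real.log (1 - η) - γ * Real.log (1 - η * s) := by
  have h2 := log_one_sub_lower h1
  have hpos : 0 < 1 - η * s := by nlinarith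
  have h3 := Real.log_le_sub_one_of_pos hpos
  nlinarith [mul_le_mul_of_nonneg_left h2 hp, mul_le_mul_of_nonneg_left h3 hγ]

lemma psi_abs {η s p γ : ℝ} (h0 : 0 ≤ η) (h1 : η ≤ 1 / 2) (hs0 : 0 ≤ s) (hs1 : s ≤ 1)
    (hp : 0 ≤ p) (hγ : 0 ≤ γ) :
    |p * Real.log (1 - η) - γ * Real.log (1 - η * s)| ≤ p + γ := by
  have h2 := log_one_sub_lower h1
  have h2' : Real.log (1 - η) ≤ 0 := Real.log_nonpos (by linarith) (by linarith)
  have hes : η * s ≤ 1 / 2 := by nlinarith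
  have hes0 : 0 ≤ η * s := mul_nonneg h0 hs0
  have h3 := log_one_sub_lower hes
  have h3' : Real.log (1 - η * s) ≤ 0 := Real.log_nonpos (by linarith) (by linarith)
  have h4 : -1 ≤ Real.log (1 - η) := by nlinarith
  have h5 : -1 ≤ Real.log (1 - η * s) := by nlinarith
  rw [abs_le]
  constructor <;> nlinarith

section

variable {P F R V E Y Z : Type*} [NormedAddCommGroup P] [NormedSpace ℝ P] [FiniteDimensional ℝ P]
  [MeasurableSpace P] [BorelSpace P] [Nontrivial P]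
  [NormedAddCommGroup F] [NormedSpace ℝ F]
  [NormedAddCommGroup R] [NormedSpace ℝ R] [FiniteDimensional ℝ R]
  [MeasurableSpace R] [BorelSpace R] [Nontrivial R]
  [NormedAddCommGroup V] [InnerProductSpace ℝ V] [FiniteDimensional ℝ V]
  [MeasurableSpace V] [BorelSpace V] [Nontrivial V]
  [NormedAddCommGroup E] [InnerProductSpace ℝ E]
  [NormedAddCommGroup Y] [NormedSpace ℝ Y] [FiniteDimensional ℝ Y]
  [MeasurableSpace Y] [BorelSpace Y]
  [NormedAddCommGroup Z] [NormedSpace ℝ Z] [FiniteDimensional ℝ Z]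
  [MeasurableSpace Z] [BorelSpace Z]

/-- chart statement for the three fold product -/
lemma abs_chart (κ : Measure P) [κ.IsAddHaarMeasure] (μ : Measure R) [μ.IsAddHaarMeasure]
    (ν : Measure V) [ν.IsAddHaarMeasure] (υ : Measure Y) [υ.IsAddHaarMeasure] (ζ : Measure Z)
    [ζ.IsAddHaarMeasure] (L : (P × R × V) ≃L[ℝ] (Y × Z)) :
    ∃ c : ℝ, 0 < c ∧ ∀ h : Y × Z → ℝ,
      (Integrable h (υ.prod ζ) ↔ Integrable (fun w => h (L w)) (κ.prod (μ.prod ν))) ∧
      ∫ y, h y ∂(υ.prod ζ) = c * ∫ w, h (L w) ∂(κ.prod (μ.prod ν)) := by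
  have hR : ProperSpace R := FiniteDimensional.proper ℝ R
  have hV : ProperSpace V := FiniteDimensional.proper ℝ V
  have hP : ProperSpace P := FiniteDimensional.proper ℝ P
  have hY : ProperSpace Y := FiniteDimensional.proper ℝ Y
  have hZ : ProperSpace Z := FiniteDimensional.proper ℝ Z
  have h1 : (μ.prod ν).IsAddHaarMeasure := Measure.prod.instIsAddHaarMeasure μ ν
  have h2 : (κ.prod (μ.prod ν)).IsAddHaarMeasure := Measure.prod.instIsAddHaarMeasure κ (μ.prod ν)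
  have h3 : (υ.prod ζ).IsAddHaarMeasure := Measure.prod.instIsAddHaarMeasure υ ζ
  exact haar_map L (κ.prod (μ.prod ν)) (υ.prod ζ)

/-- shrinkage amount, abstract -/
noncomputable def etaA (S Q : Y → ℝ) (ε : ℝ) (y : Y) : ℝ := ε * (S y / (2 * S y + Q y))

/-- log ratio, abstract -/
noncomputable def PsiA (S Q : Y → ℝ) (T : Y × Z → ℝ) (p γ ε : ℝ) (z : Y × Z) : ℝ :=
  p * Real.log (1 - etaA S Q ε z.1) - γ * Real.log (1 - etaA S Q ε z.1 * (S z.1 / T z))

theorem abs_main (κ : Measure P) [κ.IsAddHaarMeasure] (μ : Measure R) [μ.IsAddHaarMeasure]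
    (ν : Measure V) [ν.IsAddHaarMeasure] (υ : Measure Y) [υ.IsAddHaarMeasure] (ζ : Measure Z)
    [ζ.IsAddHaarMeasure] (L : (P × R × V) ≃L[ℝ] (Y × Z))
    {p1 : ℝ} (hp1 : 0 ≤ p1) {p γ δ : ℝ}
    (hp : p = p1 + finrank ℝ R / 2)
    (hγ : γ = p1 + finrank ℝ R / 2 + finrank ℝ V / 2) (hδ : δ < γ)
    (A : P → E) (hA : Continuous A) (J : P →ₗ[ℝ] F) (hJ : Function.Injective J)
    (C : V →L[ℝ] E) (hC : ∀ v, ‖C v‖ ≤ ‖v‖) (hC0 : C ≠ 0)
    (S Q : Y → ℝ) (T : Y × Z → ℝ) (hSm : Measurable S) (hQm : Measurable Q) (hTm : Measurable T)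
    (hS : ∀ w, S (L w).1 = ‖w.2.1‖ ^ 2) (hQ : ∀ w, Q (L w).1 = ‖A w.1 + C w.2.2‖ ^ 2)
    (hT : ∀ w, T (L w) = ‖w.2.1‖ ^ 2 + ‖w.2.2‖ ^ 2) :
    ∃ ε : ℝ, 0 < ε ∧ ε ≤ 1 ∧ ∀ (β0 : P) (v cst : ℝ) (ω : Y × Z → ℝ), 0 < v → 0 < cst →
      (∀ w, ω (L w) = cst * (Real.exp (-‖J (w.1 - β0)‖ ^ 2 / (2 * v)) *
        (Phi v δ (‖w.2.1‖ ^ 2 + ‖w.2.2‖ ^ 2) * (‖w.2.1‖ ^ 2) ^ p1))) →
      Integrable ω (υ.prod ζ) ∧
      0 < ∫ z, ω z * PsiA S Q T p γ ε z ∂(υ.prod ζ) := by
  have hN : 0 < finrank ℝ R := finrank_pos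
  have hN' : (0:ℝ) < finrank ℝ R := by exact_mod_cast hN
  have hm : 0 < finrank ℝ V := finrank_pos
  have hm' : (0:ℝ) < finrank ℝ V := by exact_mod_cast hm
  have hppos : 0 < p := by rw [hp]; positivity
  have hγpos : 0 < γ := by rw [hγ]; positivity
  have hpγ : p < γ := by rw [hp, hγ]; linarith
  obtain ⟨ε0, hε0, hε01, htot⟩ := total_pos κ μ ν hp1 hp hγ hδ A hA J hJ C hC hC0
  obtain ⟨c, hc, hchart⟩ := abs_chart κ μ ν υ ζ L
  refine ⟨ε0 / 2, by positivity, by linarith, ?_⟩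
  intro β0 v cst ω hv hcst hω
  obtain ⟨hint, hpos⟩ := htot ε0 hε0 le_rfl β0 v hv
  have hωint : Integrable ω (υ.prod ζ) := by
    rw [(hchart _).1]
    refine (hint.const_mul cst).congr ?_
    filter_upwards with w
    rw [hω w]
  refine ⟨hωint, ?_⟩
  have hε2 : (0:ℝ) ≤ ε0 / 2 := by positivity
  have hε21 : ε0 / 2 ≤ 1 := by linarith
  -- everything holds at points of the form `L w`
  have hS0 : ∀ z : Y × Z, 0 ≤ S z.1 := by
    intro z
    obtain ⟨w, rfl⟩ := L.surjective z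
    rw [hS]
    positivity
  have hQ0 : ∀ z : Y × Z, 0 ≤ Q z.1 := by
    intro z
    obtain ⟨w, rfl⟩ := L.surjective z
    rw [hQ]
    positivity
  have hST : ∀ z : Y × Z, S z.1 ≤ T z := by
    intro z
    obtain ⟨w, rfl⟩ := L.surjective z
    rw [hS, hT]
    nlinarith [sq_nonneg ‖w.2.2‖]
  have hη0 : ∀ z : Y × Z, 0 ≤ etaA S Q (ε0 / 2) z.1 := by
    intro z
    have h1 := hS0 z
    have h2 := hQ0 z
    unfold etaA
    positivity
  have hη1 : ∀ z : Y × Z, etaA S Q (ε0 / 2) z.1 ≤ 1 / 2 := by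
    intro z
    have h1 := hS0 z
    have h2 := hQ0 z
    unfold etaA
    have h3 : S z.1 / (2 * S z.1 + Q z.1) ≤ 1 / 2 := by
      rcases h1.eq_or_lt with h4 | h4
      · rw [← h4]; simp
      · rw [div_le_iff₀ (by positivity)]
        linarith
    have h4 : 0 ≤ S z.1 / (2 * S z.1 + Q z.1) := by positivity
    nlinarith
  have hr0 : ∀ z : Y × Z, 0 ≤ S z.1 / T z := by
    intro z
    exact div_nonneg (hS0 z) ((hS0 z).trans (hST z))
  have hr1 : ∀ z : Y × Z, S z.1 / T z ≤ 1 := by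
    intro z
    exact div_le_one_of_le₀ (hST z) ((hS0 z).trans (hST z))
  have hηm : Measurable (fun z : Y × Z => etaA S Q (ε0 / 2) z.1) := by
    unfold etaA
    have h1 : Measurable (fun z : Y × Z => S z.1) := hSm.comp measurable_fst
    have h2 : Measurable (fun z : Y × Z => Q z.1) := hQm.comp measurable_fst
    exact (h1.div ((h1.const_mul 2).add h2)).const_mul (ε0 / 2)
  have hrm : Measurable (fun z : Y × Z => S z.1 / T z) :=
    (hSm.comp measurable_fst).div hTm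
  have hPsim : Measurable (PsiA S Q T p γ (ε0 / 2)) := by
    unfold PsiA
    exact ((measurable_const.sub hηm).log.const_mul _).sub
      ((measurable_const.sub (hηm.mul hrm)).log.const_mul _)
  have hPsiint : Integrable (fun z => ω z * PsiA S Q T p γ (ε0 / 2) z) (υ.prod ζ) := by
    apply hωint.mul_bdd (c := p + γ) hPsim.aestronglyMeasurable
    filter_upwards with z
    have := psi_abs (hη0 z) (hη1 z) (hr0 z) (hr1 z) hppos.le hγpos.le
    simpa [PsiA] using this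
  let low : Y × Z → ℝ := fun z =>
    etaA S Q (ε0 / 2) z.1 * (γ * (S z.1 / T z) - p) - 2 * p * etaA S Q (ε0 / 2) z.1 ^ 2
  have hlowm : Measurable low :=
    (hηm.mul ((hrm.const_mul γ).sub_const _)).sub ((hηm.pow_const 2).const_mul _)
  have hlowb : ∀ z, |low z| ≤ 2 * γ + 2 * p := by
    intro z
    have h1 := hη0 z
    have h2 := hη1 z
    have h3 := hr0 z
    have h4 := hr1 z
    have h5 : |γ * (S z.1 / T z) - p| ≤ 2 * γ := by
      rw [abs_le]
      constructor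
      · nlinarith [mul_nonneg hγpos.le h3]
      · nlinarith [mul_nonneg hγpos.le h3]
    have h6 : |etaA S Q (ε0 / 2) z.1 * (γ * (S z.1 / T z) - p)| ≤ 2 * γ := by
      rw [abs_mul, abs_of_nonneg h1]
      nlinarith [abs_nonneg (γ * (S z.1 / T z) - p)]
    have h7 : |2 * p * etaA S Q (ε0 / 2) z.1 ^ 2| ≤ 2 * p := by
      rw [abs_of_nonneg (by positivity)]
      have h8 : etaA S Q (ε0 / 2) z.1 ^ 2 ≤ 1 := pow_le_one₀ h1 (by linarith)
      nlinarith
    exact (abs_sub _ _).trans (by linarith)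
  have hlowint : Integrable (fun z => ω z * low z) (υ.prod ζ) := by
    apply hωint.mul_bdd (c := 2 * γ + 2 * p) hlowm.aestronglyMeasurable
    filter_upwards with z
    simpa using hlowb z
  have hωnn : ∀ z, 0 ≤ ω z := by
    intro z
    obtain ⟨w, rfl⟩ := L.surjective z
    rw [hω]
    have : 0 ≤ Phi v δ (‖w.2.1‖ ^ 2 + ‖w.2.2‖ ^ 2) := Phi_nonneg (by positivity)
    positivity
  have hle : ∫ z, ω z * low z ∂(υ.prod ζ) ≤
      ∫ z, ω z * PsiA S Q T p γ (ε0 / 2) z ∂(υ.prod ζ) := by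
    apply integral_mono hlowint hPsiint
    intro z
    apply mul_le_mul_of_nonneg_left _ (hωnn z)
    exact psi_lower (hη0 z) (hη1 z) (hr1 z) hppos.le hγpos.le
  refine lt_of_lt_of_le ?_ hle
  rw [(hchart _).2]
  apply mul_pos hc
  have heq : ∀ w : P × R × V, ω (L w) * low (L w) = (cst * (ε0 / 2)) *
      (Real.exp (-‖J (w.1 - β0)‖ ^ 2 / (2 * v)) *
        (Phi v δ (‖w.2.1‖ ^ 2 + ‖w.2.2‖ ^ 2) * (‖w.2.1‖ ^ 2) ^ p1) *
        (ff C (A w.1) w.2 * (γ * ss w.2 - p) - ε0 * p * ff C (A w.1) w.2 ^ 2)) := by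
    intro w
    have h1 : etaA S Q (ε0 / 2) (L w).1 = ε0 / 2 * ff C (A w.1) w.2 := by
      unfold etaA ff
      rw [hS, hQ]
    have h2 : S (L w).1 / T (L w) = ss w.2 := by
      unfold ss
      rw [hS, hT]
    simp only [low]
    rw [h1, h2, hω]
    ring
  simp_rw [heq]
  rw [integral_const_mul]
  exact mul_pos (by positivity) hpos

end

end MP4845
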