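import Mathlib

set_option linter.unusedSectionVars false
set_option linter.unnecessarySimpa false

namespace MP4845

open Module Set Filter Topology WithLp
open scoped InnerProductSpace

section

variable {P E1 E2 : Type*} [AddCommGroup P] [Module ℝ P] [FiniteDimensional ℝ P]
  [NormedAddCommGroup E1] [InnerProductSpace ℝ E1] [FiniteDimensional ℝ E1]
  [NormedAddCommGroup E2] [InnerProductSpace ℝ E2] [FiniteDimensional ℝ E2]
  (A : P →ₗ[ℝ] E1) (B : P →ₗ[ℝ] E2)

/-- `β ↦ (A β, B β)` -/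
noncomputable def iota : P →ₗ[ℝ] WithLp 2 (E1 × E2) :=
  (WithLp.linearEquiv 2 ℝ (E1 × E2)).symm.toLinearMap ∘ₗ (A.prod B)

variable (E1 E2) in
/-- `r ↦ (r, 0)` -/
noncomputable def inl2 : E1 →ₗ[ℝ] WithLp 2 (E1 × E2) :=
  (WithLp.linearEquiv 2 ℝ (E1 × E2)).symm.toLinearMap ∘ₗ (LinearMap.inl ℝ E1 E2)

lemma iota_fst (b : P) : (iota A B b).fst = A b := rfl
lemma iota_snd (b : P) : (iota A B b).snd = B b := rfl
lemma inl2_fst (r : E1) : (inl2 E1 E2 r).fst = r := rfl
lemma inl2_snd (r : E1) : (inl2 E1 E2 r).snd = 0 := rfl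

/-- the orthogonal complement of the two explicit pieces -/
noncomputable def GG : Submodule ℝ (WithLp 2 (E1 × E2)) :=
  (LinearMap.range (iota A B) ⊔ ((LinearMap.range A)ᗮ).map (inl2 E1 E2))ᗮ

instance : FiniteDimensional ℝ (WithLp 2 (E1 × E2)) :=
  Module.Finite.equiv (WithLp.linearEquiv 2 ℝ (E1 × E2)).symm

instance instCSGG : ContinuousSMul ℝ (GG A B) := IsBoundedSMul.continuousSMul

instance instCSK : ContinuousSMul ℝ ((LinearMap.range A)ᗮ : Submodule ℝ E1) :=
  IsBoundedSMul.continuousSMul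

/-- the coordinate map -/
noncomputable def LL : (P × ((LinearMap.range A)ᗮ : Submodule ℝ E1) × GG A B) →ₗ[ℝ]
    WithLp 2 (E1 × E2) :=
  (iota A B).coprod (((inl2 E1 E2) ∘ₗ ((LinearMap.range A)ᗮ).subtype).coprod (GG A B).subtype)

lemma LL_apply (x : P × ((LinearMap.range A)ᗮ : Submodule ℝ E1) × GG A B) :
    LL A B x = iota A B x.1 + (inl2 E1 E2 (x.2.1 : E1) + (x.2.2 : WithLp 2 (E1 × E2))) := rfl

lemma iota_inner_GG (b : P) (g : GG A B) : ⟪iota A B b, (g : WithLp 2 (E1 × E2))⟫_ℝ = 0 := by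
  have h := g.2
  exact (Submodule.mem_orthogonal _ _).mp h _
    (Submodule.mem_sup_left (LinearMap.mem_range_self _ b))

lemma inl2_inner_GG (r : ((LinearMap.range A)ᗮ : Submodule ℝ E1)) (g : GG A B) :
    ⟪inl2 E1 E2 (r : E1), (g : WithLp 2 (E1 × E2))⟫_ℝ = 0 := by
  have h := g.2
  exact (Submodule.mem_orthogonal _ _).mp h _
    (Submodule.mem_sup_right (Submodule.mem_map_of_mem r.2))

lemma iota_inner_inl2 (b : P) (r : ((LinearMap.range A)ᗮ : Submodule ℝ E1)) :
    ⟪iota A B b, inl2 E1 E2 (r : E1)⟫_ℝ = 0 := by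
  rw [WithLp.prod_inner_apply]
  have h := r.2
  rw [Submodule.mem_orthogonal] at h
  have h1 := h (A b) (LinearMap.mem_range_self _ b)
  change ⟪A b, (r : E1)⟫_ℝ + ⟪B b, (0 : E2)⟫_ℝ = 0
  rw [h1, inner_zero_right, add_zero]

lemma norm_inl2 (r : E1) : ‖inl2 E1 E2 r‖ = ‖r‖ := by
  have h : ‖inl2 E1 E2 r‖ ^ 2 = ‖r‖ ^ 2 := by
    rw [WithLp.prod_norm_sq_eq_of_L2, inl2_fst, inl2_snd]
    simp
  exact (sq_eq_sq₀ (norm_nonneg _) (norm_nonneg _)).mp h

/-- Pythagoras -/
lemma norm_LL (x : P × ((LinearMap.range A)ᗮ : Submodule ℝ E1) × GG A B) :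
    ‖LL A B x‖ ^ 2 = ‖iota A B x.1‖ ^ 2 + ‖x.2.1‖ ^ 2 + ‖x.2.2‖ ^ 2 := by
  rw [LL_apply, norm_add_sq_real, norm_add_sq_real, inner_add_right, iota_inner_inl2,
    iota_inner_GG, inl2_inner_GG, norm_inl2]
  simp only [Submodule.coe_norm]
  ring

lemma iota_injective (hA : Function.Injective A) : Function.Injective (iota A B) := by
  intro x y h
  apply hA
  have := congrArg (fun w : WithLp 2 (E1 × E2) => w.fst) h
  simpa [iota_fst] using this

lemma LL_injective (hA : Function.Injective A) : Function.Injective (LL A B) := by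
  rw [← LinearMap.ker_eq_bot, LinearMap.ker_eq_bot']
  intro x hx
  have h1 := norm_LL A B x
  rw [hx, norm_zero] at h1
  have h2 : ‖iota A B x.1‖ = 0 := by
    nlinarith [sq_nonneg ‖iota A B x.1‖, sq_nonneg ‖x.2.1‖, sq_nonneg ‖x.2.2‖]
  have h3 : ‖x.2.1‖ = 0 := by
    nlinarith [sq_nonneg ‖iota A B x.1‖, sq_nonneg ‖x.2.1‖, sq_nonneg ‖x.2.2‖]
  have h4 : ‖x.2.2‖ = 0 := by
    nlinarith [sq_nonneg ‖iota A B x.1‖, sq_nonneg ‖x.2.1‖, sq_nonneg ‖x.2.2‖]
  have h5 : x.1 = 0 := by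
    apply iota_injective A B hA
    rw [norm_eq_zero.mp h2, map_zero]
  exact Prod.ext h5 (Prod.ext (norm_eq_zero.mp h3) (norm_eq_zero.mp h4))

lemma LL_surjective : Function.Surjective (LL A B) := by
  intro h
  set W := LinearMap.range (iota A B) ⊔ ((LinearMap.range A)ᗮ).map (inl2 E1 E2) with hW
  have h1 : W.starProjection h ∈ W := Submodule.starProjection_apply_mem W h
  have h2 : h - W.starProjection h ∈ Wᗮ := Submodule.sub_starProjection_mem_orthogonal h
  obtain ⟨u, hu, w, hw, huw⟩ := Submodule.mem_sup.mp h1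
  obtain ⟨b, rfl⟩ := hu
  obtain ⟨r, hr, rfl⟩ := hw
  refine ⟨(b, ⟨r, hr⟩, ⟨h - W.starProjection h, h2⟩), ?_⟩
  rw [LL_apply]
  simp only
  rw [← add_assoc, huw]
  abel

/-- the coordinates as a linear equivalence -/
noncomputable def LLe (hA : Function.Injective A) :
    (P × ((LinearMap.range A)ᗮ : Submodule ℝ E1) × GG A B) ≃ₗ[ℝ] WithLp 2 (E1 × E2) :=
  LinearEquiv.ofBijective (LL A B) ⟨LL_injective A B hA, LL_surjective A B⟩

lemma finrank_GG (hA : Function.Injective A) : finrank ℝ (GG A B) = finrank ℝ E2 := by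
  have h1 := (LLe A B hA).finrank_eq
  have h2 : finrank ℝ (WithLp 2 (E1 × E2)) = finrank ℝ E1 + finrank ℝ E2 := by
    rw [(WithLp.linearEquiv 2 ℝ (E1 × E2)).finrank_eq, finrank_prod]
  have h3 : finrank ℝ (LinearMap.range A) = finrank ℝ P := LinearMap.finrank_range_of_inj hA
  have h4 := Submodule.finrank_add_finrank_orthogonal (LinearMap.range A)
  rw [finrank_prod, finrank_prod, h2] at h1
  omega

/-- first component on `GG` -/
noncomputable def CC : GG A B →L[ℝ] E1 := (WithLp.fstL 2 ℝ E1 E2).comp (GG A B).subtypeL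

lemma CC_apply (g : GG A B) : CC A B g = (g : WithLp 2 (E1 × E2)).fst := rfl

lemma CC_norm_le (g : GG A B) : ‖CC A B g‖ ≤ ‖g‖ := by
  rw [CC_apply, Submodule.coe_norm]
  have h := WithLp.prod_norm_sq_eq_of_L2 (g : WithLp 2 (E1 × E2))
  apply le_of_sq_le_sq _ (norm_nonneg _)
  rw [h]
  nlinarith [sq_nonneg ‖(g : WithLp 2 (E1 × E2)).snd‖]

lemma CC_mem (g : GG A B) : CC A B g ∈ LinearMap.range A := by
  rw [← Submodule.orthogonal_orthogonal (LinearMap.range A), Submodule.mem_orthogonal]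
  intro u hu
  have := inl2_inner_GG A B ⟨u, hu⟩ g
  rw [WithLp.prod_inner_apply] at this
  change ⟪u, (g : WithLp 2 (E1 × E2)).fst⟫_ℝ + ⟪(0 : E2), (g : WithLp 2 (E1 × E2)).snd⟫_ℝ = 0 at this
  rw [inner_zero_left, add_zero] at this
  exact this

lemma fst_LL (x : P × ((LinearMap.range A)ᗮ : Submodule ℝ E1) × GG A B) :
    (LL A B x).fst = A x.1 + CC A B x.2.2 + x.2.1 := by
  rw [LL_apply, WithLp.add_fst, WithLp.add_fst, iota_fst, inl2_fst, CC_apply]
  abel

lemma proj_fst_LL (x : P × ((LinearMap.range A)ᗮ : Submodule ℝ E1) × GG A B) :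
    (LinearMap.range A).starProjection (LL A B x).fst = A x.1 + CC A B x.2.2 := by
  apply Submodule.eq_starProjection_of_mem_orthogonal' (z := (x.2.1 : E1))
  · exact Submodule.add_mem _ (LinearMap.mem_range_self _ _) (CC_mem A B _)
  · exact x.2.1.2
  · exact fst_LL A B x

lemma CC_ne_zero (hA : Function.Injective A) (hB : B ≠ 0) : CC A B ≠ 0 := by
  intro hC
  apply hB
  ext b
  rw [LinearMap.zero_apply]
  -- decompose `(0, B b)`
  obtain ⟨x, hx⟩ := LL_surjective A B (WithLp.toLp 2 ((0 : E1), B b))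
  have h1 := fst_LL A B x
  rw [hx, hC] at h1
  have h1' : (0 : E1) = A x.1 + x.2.1 := by simpa using h1
  have h2 : A x.1 ∈ (LinearMap.range A)ᗮ := by
    have h3 : A x.1 = -(x.2.1 : E1) := by
      rw [eq_neg_iff_add_eq_zero, ← h1']
    rw [h3]
    exact Submodule.neg_mem _ x.2.1.2
  have h4 : A x.1 = 0 := by
    have h5 := (Submodule.mem_orthogonal _ _).mp h2 (A x.1) (LinearMap.mem_range_self _ _)
    exact inner_self_eq_zero.mp h5
  have h6 : x.1 = 0 := by
    apply hA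
    rw [h4, map_zero]
  have h7 : (x.2.1 : E1) = 0 := by
    rw [h4, zero_add] at h1'
    exact h1'.symm
  have h8 : (x.2.2 : WithLp 2 (E1 × E2)) = WithLp.toLp 2 ((0 : E1), B b) := by
    rw [← hx, LL_apply, h6, h7]
    simp
  have h9 := iota_inner_GG A B b x.2.2
  rw [h8, WithLp.prod_inner_apply] at h9
  change ⟪A b, (0 : E1)⟫_ℝ + ⟪B b, B b⟫_ℝ = 0 at h9
  rw [inner_zero_right, zero_add] at h9
  exact inner_self_eq_zero.mp h9

/-- the `GG` component as a linear function of the second component -/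
lemma snd_comp_injective (hA : Function.Injective A) (x : E2)
    (h : ((LLe A B hA).symm (WithLp.toLp 2 ((0 : E1), x))).2.2 = 0) : x = 0 := by
  set w := (LLe A B hA).symm (WithLp.toLp 2 ((0 : E1), x)) with hw
  have hx : LL A B w = WithLp.toLp 2 ((0 : E1), x) := (LLe A B hA).apply_symm_apply _
  have h1 := fst_LL A B w
  rw [hx, h] at h1
  have h1' : (0 : E1) = A w.1 + w.2.1 := by simpa using h1
  have h2 : A w.1 ∈ (LinearMap.range A)ᗮ := by
    have h3 : A w.1 = -(w.2.1 : E1) := by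
      rw [eq_neg_iff_add_eq_zero, ← h1']
    rw [h3]
    exact Submodule.neg_mem _ w.2.1.2
  have h4 : A w.1 = 0 := by
    have h5 := (Submodule.mem_orthogonal _ _).mp h2 (A w.1) (LinearMap.mem_range_self _ _)
    exact inner_self_eq_zero.mp h5
  have h6 : w.1 = 0 := by
    apply hA
    rw [h4, map_zero]
  have h7 : (w.2.1 : E1) = 0 := by
    rw [h4, zero_add] at h1'
    exact h1'.symm
  have h8 : WithLp.toLp 2 ((0 : E1), x) = 0 := by
    rw [← hx, LL_apply, h6, h7, h]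
    simp
  have := congrArg (fun w : WithLp 2 (E1 × E2) => w.snd) h8
  simpa using this

end

end MP4845
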