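import Mathlib
import Pool.Agent.Lib.MP_4845bf_pr.AbsMain
import Pool.Agent.Lib.MP_4845bf_pr.Geom

set_option linter.unusedSectionVars false
set_option linter.unnecessarySimpa false

namespace MP4845

open MeasureTheory Module Set Filter Topology WithLp
open scoped InnerProductSpace

section

variable {P E1 E2 Y Z : Type*} [NormedAddCommGroup P] [NormedSpace ℝ P] [FiniteDimensional ℝ P]
  [MeasurableSpace P] [BorelSpace P] [Nontrivial P]
  [NormedAddCommGroup E1] [InnerProductSpace ℝ E1] [FiniteDimensional ℝ E1]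
  [NormedAddCommGroup E2] [InnerProductSpace ℝ E2] [FiniteDimensional ℝ E2]
  [NormedAddCommGroup Y] [NormedSpace ℝ Y] [FiniteDimensional ℝ Y]
  [MeasurableSpace Y] [BorelSpace Y]
  [NormedAddCommGroup Z] [NormedSpace ℝ Z] [FiniteDimensional ℝ Z]
  [MeasurableSpace Z] [BorelSpace Z]
  (A : P →ₗ[ℝ] E1) (B : P →ₗ[ℝ] E2) (eY : Y ≃ₗ[ℝ] E1) (eZ : Z ≃ₗ[ℝ] E2)

/-- coordinates of a point of `Y × Z` -/
noncomputable def coA (hA : Function.Injective A) : (Y × Z) ≃ₗ[ℝ]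
    (P × ((LinearMap.range A)ᗮ : Submodule ℝ E1) × GG A B) :=
  ((LinearEquiv.prodCongr eY eZ).trans (WithLp.linearEquiv 2 ℝ (E1 × E2)).symm).trans
    (LLe A B hA).symm

theorem geo_main (υ : Measure Y) [υ.IsAddHaarMeasure] (ζ : Measure Z)
    [ζ.IsAddHaarMeasure] (κ : Measure P) [κ.IsAddHaarMeasure] (hA : Function.Injective A)
    (hB : B ≠ 0) (h1 : finrank ℝ P < finrank ℝ E1) (h2 : 0 < finrank ℝ E2)
    {p1 : ℝ} (hp1 : 0 ≤ p1) {p γ δ : ℝ}
    (hp : p = p1 + ((finrank ℝ E1 : ℝ) - finrank ℝ P) / 2)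
    (hγ : γ = p + (finrank ℝ E2 : ℝ) / 2) (hδ : δ < γ)
    (S Q : Y → ℝ) (T : Y × Z → ℝ) (hSm : Measurable S) (hQm : Measurable Q) (hTm : Measurable T)
    (hS : ∀ z, S z.1 = ‖(coA A B eY eZ hA z).2.1‖ ^ 2)
    (hQ : ∀ z, Q z.1 = ‖A (coA A B eY eZ hA z).1 + CC A B (coA A B eY eZ hA z).2.2‖ ^ 2)
    (hT : ∀ z, T z = ‖(coA A B eY eZ hA z).2.1‖ ^ 2 + ‖(coA A B eY eZ hA z).2.2‖ ^ 2) :
    ∃ ε : ℝ, 0 < ε ∧ ε ≤ 1 ∧ ∀ (β0 : P) (v cst : ℝ) (ω : Y × Z → ℝ), 0 < v → 0 < cst →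
      (∀ z, ω z = cst * (Real.exp (-‖iota A B ((coA A B eY eZ hA z).1 - β0)‖ ^ 2 / (2 * v)) *
        (Phi v δ (T z) * (S z.1) ^ p1))) →
      Integrable ω (υ.prod ζ) ∧
      0 < ∫ z, ω z * PsiA S Q T p γ ε z ∂(υ.prod ζ) := by
  have hfK : finrank ℝ ((LinearMap.range A)ᗮ : Submodule ℝ E1) = finrank ℝ E1 - finrank ℝ P := by
    have h3 : finrank ℝ (LinearMap.range A) = finrank ℝ P := LinearMap.finrank_range_of_inj hA
    have h4 := Submodule.finrank_add_finrank_orthogonal (LinearMap.range A)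
    omega
  have hfG : finrank ℝ (GG A B) = finrank ℝ E2 := finrank_GG A B hA
  have hntK : Nontrivial ((LinearMap.range A)ᗮ : Submodule ℝ E1) := by
    apply nontrivial_of_finrank_pos (R := ℝ)
    rw [hfK]
    omega
  have hntG : Nontrivial (GG A B) := by
    apply nontrivial_of_finrank_pos (R := ℝ)
    rw [hfG]
    exact h2
  letI : MeasurableSpace ((LinearMap.range A)ᗮ : Submodule ℝ E1) := borel _
  haveI : BorelSpace ((LinearMap.range A)ᗮ : Submodule ℝ E1) := ⟨rfl⟩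
  letI : MeasurableSpace (GG A B) := borel _
  haveI : BorelSpace (GG A B) := ⟨rfl⟩
  have hp' : p = p1 + (finrank ℝ ((LinearMap.range A)ᗮ : Submodule ℝ E1) : ℝ) / 2 := by
    rw [hfK, Nat.cast_sub h1.le, hp]
  have hγ' : γ = p1 + (finrank ℝ ((LinearMap.range A)ᗮ : Submodule ℝ E1) : ℝ) / 2 +
      (finrank ℝ (GG A B) : ℝ) / 2 := by
    rw [← hp', hfG, hγ]
  let L : (P × ((LinearMap.range A)ᗮ : Submodule ℝ E1) × GG A B) ≃L[ℝ] (Y × Z) :=
    (coA A B eY eZ hA).symm.toContinuousLinearEquiv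
  have hL : ∀ w, coA A B eY eZ hA (L w) = w := fun w => (coA A B eY eZ hA).apply_symm_apply w
  obtain ⟨ε, hε0, hε1, hmain⟩ := abs_main κ
    (Measure.addHaar : Measure ((LinearMap.range A)ᗮ : Submodule ℝ E1))
    (Measure.addHaar : Measure (GG A B)) υ ζ L
    hp1 hp' hγ' hδ (fun b => A b) A.continuous_of_finiteDimensional (iota A B)
    (iota_injective _ _ hA) (CC A B) (CC_norm_le _ _) (CC_ne_zero _ _ hA hB)
    S Q T hSm hQm hTm (fun w => by rw [hS, hL]) (fun w => by rw [hQ, hL])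
    (fun w => by rw [hT, hL])
  refine ⟨ε, hε0, hε1, ?_⟩
  intro β0 v cst ω hv hcst hω
  apply hmain β0 v cst ω hv hcst
  intro w
  rw [hω, hT, hS, hL]

end

end MP4845
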