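import Mathlib
import Pool.Agent.Lib.MP_4845bf_pr.GeoMain

set_option linter.unusedSectionVars false
set_option linter.unnecessarySimpa false
set_option linter.style.haveILetI false

namespace MP4845

open MeasureTheory Module Set Filter Topology WithLp
open scoped InnerProductSpace

lemma abs_log_le {x : ℝ} (hx : 0 ≤ x) : |Real.log x| ≤ x + 4 * x ^ (-(1/4) : ℝ) := by
  rcases hx.eq_or_lt with h | h
  · rw [← h]
    simp only [Real.log_zero, abs_zero, zero_add]
    positivity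
  · have h1 : Real.log x ≤ x := by linarith [Real.log_le_sub_one_of_pos h]
    have h2 : -Real.log x ≤ 4 * x ^ (-(1/4) : ℝ) := by
      have h3 : Real.log (x ^ (-(1/4) : ℝ)) = -(1/4) * Real.log x := Real.log_rpow h _
      have h4 : Real.log (x ^ (-(1/4) : ℝ)) ≤ x ^ (-(1/4) : ℝ) := by
        linarith [Real.log_le_sub_one_of_pos (Real.rpow_pos_of_pos h (-(1/4) : ℝ))]
      linarith
    have h5 : 0 ≤ x ^ (-(1/4) : ℝ) := by positivity
    rw [abs_le]
    constructor <;> linarith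

lemma mul_exp_le {u v : ℝ} (hv : 0 < v) : u * Real.exp (-u / (4 * v)) ≤ 4 * v := by
  have h1 := Real.add_one_le_exp (u / (4 * v))
  have h2 : u / (4 * v) ≤ Real.exp (u / (4 * v)) := by linarith
  have h3 : u ≤ 4 * v * Real.exp (u / (4 * v)) := by
    have := mul_le_mul_of_nonneg_left h2 (by positivity : (0:ℝ) ≤ 4 * v)
    calc u = 4 * v * (u / (4 * v)) := by field_simp
      _ ≤ _ := this
  have h4 : Real.exp (-u / (4 * v)) * Real.exp (u / (4 * v)) = 1 := by
    rw [← Real.exp_add]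
    have : -u / (4 * v) + u / (4 * v) = 0 := by ring
    rw [this, Real.exp_zero]
  calc u * Real.exp (-u / (4 * v)) ≤ (4 * v * Real.exp (u / (4 * v))) * Real.exp (-u / (4 * v)) :=
        mul_le_mul_of_nonneg_right h3 (Real.exp_pos _).le
    _ = 4 * v * (Real.exp (-u / (4 * v)) * Real.exp (u / (4 * v))) := by ring
    _ = 4 * v := by rw [h4, mul_one]

section

variable {P F R V : Type*} [NormedAddCommGroup P] [NormedSpace ℝ P] [FiniteDimensional ℝ P]
  [MeasurableSpace P] [BorelSpace P] [Nontrivial P]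
  [NormedAddCommGroup F] [NormedSpace ℝ F]
  [NormedAddCommGroup R] [NormedSpace ℝ R] [FiniteDimensional ℝ R]
  [MeasurableSpace R] [BorelSpace R] [Nontrivial R]
  [NormedAddCommGroup V] [NormedSpace ℝ V] [FiniteDimensional ℝ V]
  [MeasurableSpace V] [BorelSpace V] [Nontrivial V]

lemma abs_log_int (κ : Measure P) [κ.IsAddHaarMeasure] (μ : Measure R) [μ.IsAddHaarMeasure]
    (ν : Measure V) [ν.IsAddHaarMeasure] (J : P →ₗ[ℝ] F) (hJ : Function.Injective J)
    (β0 : P) {v c1 c2 c3 : ℝ} (hv : 0 < v) (hc1 : 0 ≤ c1) (hc2 : 0 ≤ c2) (hc3 : 0 ≤ c3) :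
    Integrable (fun w : P × R × V =>
      (c1 + c2 * (‖J (w.1 - β0)‖ ^ 2 + (‖w.2.1‖ ^ 2 + ‖w.2.2‖ ^ 2)) +
        c3 * |Real.log (‖w.2.1‖ ^ 2)|) *
      (Real.exp (-‖J (w.1 - β0)‖ ^ 2 / (2 * v)) *
        Real.exp (-(‖w.2.1‖ ^ 2 + ‖w.2.2‖ ^ 2) / (2 * v)))) (κ.prod (μ.prod ν)) := by
  have hN : 0 < finrank ℝ R := finrank_pos
  have hN' : (1:ℝ) ≤ finrank ℝ R := by exact_mod_cast hN
  have hJc : Continuous J := J.continuous_of_finiteDimensional
  have i1 : Integrable (fun b : P => Real.exp (-(1 / (4 * v)) * ‖J (b - β0)‖ ^ 2)) κ :=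
    integrable_gauss_inj κ J hJ β0 (by positivity)
  have i2 : Integrable (fun r : R => Real.exp (-(1 / (4 * v)) * ‖r‖ ^ 2)) μ :=
    integrable_gauss μ (by positivity)
  have i3 : Integrable (fun r : R => ‖r‖ ^ (-(1/2) : ℝ) * Real.exp (-(1 / (4 * v)) * ‖r‖ ^ 2)) μ :=
    integrable_radial μ (by positivity) (by linarith)
  have i4 : Integrable (fun g : V => Real.exp (-(1 / (4 * v)) * ‖g‖ ^ 2)) ν :=
    integrable_gauss ν (by positivity)
  have j1 := i1.mul_prod (i2.mul_prod i4)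
  have j2 := i1.mul_prod (i3.mul_prod i4)
  have j3 := (j1.const_mul (c1 + (c2 + c3) * (4 * v))).add (j2.const_mul (4 * c3))
  refine j3.mono' ?_ ?_
  · apply Measurable.aestronglyMeasurable
    have m1 : Measurable (fun w : P × R × V => ‖J (w.1 - β0)‖ ^ 2) :=
      ((hJc.comp (continuous_fst.sub continuous_const)).norm.pow 2).measurable
    have m2 : Measurable (fun w : P × R × V => ‖w.2.1‖ ^ 2 + ‖w.2.2‖ ^ 2) := by fun_prop
    have m3 : Measurable (fun w : P × R × V => |Real.log (‖w.2.1‖ ^ 2)|) := by fun_prop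
    exact ((measurable_const.add ((m1.add m2).const_mul c2)).add (m3.const_mul c3)).mul
      (((m1.neg.div_const _).exp).mul ((m2.neg.div_const _).exp))
  · filter_upwards with w
    set a := ‖J (w.1 - β0)‖ ^ 2 with ha
    set b := ‖w.2.1‖ ^ 2 with hb
    set g := ‖w.2.2‖ ^ 2 with hg
    have ha0 : 0 ≤ a := by positivity
    have hb0 : 0 ≤ b := by positivity
    have hg0 : 0 ≤ g := by positivity
    have e1 : Real.exp (-a / (2 * v)) * Real.exp (-(b + g) / (2 * v)) =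
        Real.exp (-(a + (b + g)) / (4 * v)) * Real.exp (-(a + (b + g)) / (4 * v)) := by
      rw [← Real.exp_add, ← Real.exp_add]
      congr 1
      field_simp
      ring
    have e2 : Real.exp (-(1 / (4 * v)) * a) * (Real.exp (-(1 / (4 * v)) * b) *
        Real.exp (-(1 / (4 * v)) * g)) = Real.exp (-(a + (b + g)) / (4 * v)) := by
      rw [← Real.exp_add, ← Real.exp_add]
      congr 1
      ring
    have h1 := abs_log_le hb0
    have e3 : b ^ (-(1/4) : ℝ) = ‖w.2.1‖ ^ (-(1/2) : ℝ) := by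
      rw [hb, ← Real.rpow_natCast ‖w.2.1‖ 2, ← Real.rpow_mul (norm_nonneg _)]
      congr 1
      norm_num
    have hE : 0 < Real.exp (-(a + (b + g)) / (4 * v)) := Real.exp_pos _
    have hE1 : Real.exp (-(a + (b + g)) / (4 * v)) ≤ 1 := by
      apply Real.exp_le_one_iff.mpr
      apply div_nonpos_of_nonpos_of_nonneg _ (by positivity)
      linarith
    have h2 := mul_exp_le (u := a + (b + g)) hv
    rw [Real.norm_of_nonneg (by positivity)]
    simp only [Pi.add_apply]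
    rw [e1]
    have e4 : Real.exp (-(1 / (4 * v)) * a) * ((‖w.2.1‖ ^ (-(1/2) : ℝ) *
        Real.exp (-(1 / (4 * v)) * b)) * Real.exp (-(1 / (4 * v)) * g)) =
        ‖w.2.1‖ ^ (-(1/2) : ℝ) * Real.exp (-(a + (b + g)) / (4 * v)) := by
      rw [← e2]
      ring
    rw [e2, e4]
    have hρ : 0 ≤ ‖w.2.1‖ ^ (-(1/2) : ℝ) := by positivity
    rw [e3] at h1
    set ρ := ‖w.2.1‖ ^ (-(1/2) : ℝ) with hρd
    set Ex := Real.exp (-(a + (b + g)) / (4 * v)) with hEx
    have h3 : c1 + c2 * (a + (b + g)) + c3 * |Real.log b| ≤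
        c1 + (c2 + c3) * (a + (b + g)) + 4 * c3 * ρ := by
      nlinarith [mul_le_mul_of_nonneg_left h1 hc3, mul_nonneg hc3 ha0, mul_nonneg hc3 hg0]
    calc (c1 + c2 * (a + (b + g)) + c3 * |Real.log b|) * (Ex * Ex)
        ≤ (c1 + (c2 + c3) * (a + (b + g)) + 4 * c3 * ρ) * (Ex * Ex) :=
          mul_le_mul_of_nonneg_right h3 (by positivity)
      _ = (c1 * Ex + (c2 + c3) * ((a + (b + g)) * Ex) + 4 * c3 * ρ * Ex) * Ex := by ring
      _ ≤ (c1 * 1 + (c2 + c3) * (4 * v) + 4 * c3 * ρ * 1) * Ex := by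
          apply mul_le_mul_of_nonneg_right _ hE.le
          have k1 : c1 * Ex ≤ c1 * 1 := mul_le_mul_of_nonneg_left hE1 hc1
          have k2 : (c2 + c3) * ((a + (b + g)) * Ex) ≤ (c2 + c3) * (4 * v) :=
            mul_le_mul_of_nonneg_left h2 (by positivity)
          have k3 : 4 * c3 * ρ * Ex ≤ 4 * c3 * ρ * 1 :=
            mul_le_mul_of_nonneg_left hE1 (by positivity)
          linarith
      _ = (c1 + (c2 + c3) * (4 * v)) * Ex + 4 * c3 * (ρ * Ex) := by ring

end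

section

variable {P E1 E2 Y Z : Type*} [NormedAddCommGroup P] [NormedSpace ℝ P] [FiniteDimensional ℝ P]
  [MeasurableSpace P] [BorelSpace P] [Nontrivial P]
  [NormedAddCommGroup E1] [InnerProductSpace ℝ E1] [FiniteDimensional ℝ E1]
  [NormedAddCommGroup E2] [InnerProductSpace ℝ E2] [FiniteDimensional ℝ E2]
  [NormedAddCommGroup Y] [NormedSpace ℝ Y] [FiniteDimensional ℝ Y]
  [MeasurableSpace Y] [BorelSpace Y]
  [NormedAddCommGroup Z] [NormedSpace ℝ Z] [FiniteDimensional ℝ Z]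
  [MeasurableSpace Z] [BorelSpace Z]
  (A : P →ₗ[ℝ] E1) (B : P →ₗ[ℝ] E2) (eY : Y ≃ₗ[ℝ] E1) (eZ : Z ≃ₗ[ℝ] E2)

theorem geo_log_int (υ : Measure Y) [υ.IsAddHaarMeasure] (ζ : Measure Z)
    [ζ.IsAddHaarMeasure] (κ : Measure P) [κ.IsAddHaarMeasure] (hA : Function.Injective A)
    (h1 : finrank ℝ P < finrank ℝ E1) (h2 : 0 < finrank ℝ E2)
    (S : Y → ℝ) (T : Y × Z → ℝ)
    (hS : ∀ z, S z.1 = ‖(coA A B eY eZ hA z).2.1‖ ^ 2)
    (hT : ∀ z, T z = ‖(coA A B eY eZ hA z).2.1‖ ^ 2 + ‖(coA A B eY eZ hA z).2.2‖ ^ 2)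
    (β0 : P) {v c1 c2 c3 : ℝ} (hv : 0 < v) (hc1 : 0 ≤ c1) (hc2 : 0 ≤ c2) (hc3 : 0 ≤ c3) :
    Integrable (fun z : Y × Z =>
      (c1 + c2 * (‖iota A B ((coA A B eY eZ hA z).1 - β0)‖ ^ 2 + T z) +
        c3 * |Real.log (S z.1)|) *
      (Real.exp (-‖iota A B ((coA A B eY eZ hA z).1 - β0)‖ ^ 2 / (2 * v)) *
        Real.exp (-(T z) / (2 * v)))) (υ.prod ζ) := by
  have hfK : finrank ℝ ((LinearMap.range A)ᗮ : Submodule ℝ E1) = finrank ℝ E1 - finrank ℝ P := by
    have h3 : finrank ℝ (LinearMap.range A) = finrank ℝ P := LinearMap.finrank_range_of_inj hA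
    have h4 := Submodule.finrank_add_finrank_orthogonal (LinearMap.range A)
    omega
  have hfG : finrank ℝ (GG A B) = finrank ℝ E2 := finrank_GG A B hA
  have hntK : Nontrivial ((LinearMap.range A)ᗮ : Submodule ℝ E1) := by
    apply nontrivial_of_finrank_pos (R := ℝ)
    rw [hfK]
    omega
  have hntG : Nontrivial (GG A B) := by
    apply nontrivial_of_finrank_pos (R := ℝ)
    rw [hfG]
    exact h2
  letI : MeasurableSpace ((LinearMap.range A)ᗮ : Submodule ℝ E1) := borel _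
  haveI : BorelSpace ((LinearMap.range A)ᗮ : Submodule ℝ E1) := ⟨rfl⟩
  letI : MeasurableSpace (GG A B) := borel _
  haveI : BorelSpace (GG A B) := ⟨rfl⟩
  let L : (P × ((LinearMap.range A)ᗮ : Submodule ℝ E1) × GG A B) ≃L[ℝ] (Y × Z) :=
    (coA A B eY eZ hA).symm.toContinuousLinearEquiv
  have hL : ∀ w, coA A B eY eZ hA (L w) = w := fun w => (coA A B eY eZ hA).apply_symm_apply w
  obtain ⟨c, hc, hchart⟩ := abs_chart κ
    (Measure.addHaar : Measure ((LinearMap.range A)ᗮ : Submodule ℝ E1))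
    (Measure.addHaar : Measure (GG A B)) υ ζ L
  rw [(hchart _).1]
  have h5 := abs_log_int κ (Measure.addHaar : Measure ((LinearMap.range A)ᗮ : Submodule ℝ E1))
    (Measure.addHaar : Measure (GG A B)) (iota A B) (iota_injective _ _ hA) β0 hv hc1 hc2 hc3
  refine h5.congr ?_
  filter_upwards with w
  rw [hT, hS, hL]

end

end MP4845
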