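import Mathlib

/-!
Definitions for the predictive density problem in the normal linear model.
-/

namespace MP4845

open MeasureTheory

/-- Density of the normal law `N_d(μ, v I_d)` at the point `x`. -/
noncomputable def normalPDF {d : ℕ} (μ : Fin d → ℝ) (v : ℝ) (x : Fin d → ℝ) : ℝ :=
  (2 * Real.pi * v) ^ (-(d : ℝ) / 2) * Real.exp (-(∑ i, (x i - μ i) ^ 2) / (2 * v))

/-- The function `f_α` of the problem: `-log z` for `α = -1`, and
`4/(1-α²) (1 - z^((1+α)/2))` otherwise. -/
noncomputable def fAlpha (α z : ℝ) : ℝ :=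
  if α = -1 then -Real.log z else 4 / (1 - α ^ 2) * (1 - z ^ ((1 + α) / 2))

/-- The `α`-divergence loss `D_α(q, p) = ∫ f_α(q/p) p`. -/
noncomputable def alphaLoss {m : ℕ} (α : ℝ) (q p : (Fin m → ℝ) → ℝ) : ℝ :=
  ∫ x, fAlpha α (q x / p x) * p x

variable {n k m : ℕ} (X : Matrix (Fin n) (Fin k) ℝ) (Xt : Matrix (Fin m) (Fin k) ℝ) (α : ℝ)

/-- The risk of the rule `q` at `ψ = (β, v)`, where `v` is the variance. -/
noncomputable def risk (q : (Fin n → ℝ) → (Fin m → ℝ) → ℝ) (β : Fin k → ℝ) (v : ℝ) : ℝ :=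
  ∫ y, alphaLoss α (q y) (normalPDF (Xt.mulVec β) v) * normalPDF (X.mulVec β) v y

/-- All integrals in the definition of the risk at `(β, v)` converge. -/
def FiniteRisk (q : (Fin n → ℝ) → (Fin m → ℝ) → ℝ) (β : Fin k → ℝ) (v : ℝ) : Prop :=
  (∀ᵐ y, Integrable (fun x => fAlpha α (q y x / normalPDF (Xt.mulVec β) v x) *
      normalPDF (Xt.mulVec β) v x)) ∧
    Integrable (fun y => alphaLoss α (q y) (normalPDF (Xt.mulVec β) v) *
      normalPDF (X.mulVec β) v y)

/-- `q` is a predictive density: jointly measurable, and `q y` is a probability density on `ℝ^m`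
for every `y`. -/
structure IsPredictiveDensity (q : (Fin n → ℝ) → (Fin m → ℝ) → ℝ) : Prop where
  measurable : Measurable (Function.uncurry q)
  nonneg : ∀ y x, 0 ≤ q y x
  integral_eq_one : ∀ y, ∫ x, q y x = 1

/-- `∫ p(x | ψ)^((1-α)/2) p(y | ψ) π(ψ) dψ`, the integral over the variance `v > 0` and `β`, for a
prior density `π β v`. -/
noncomputable def bayesKernel (π : (Fin k → ℝ) → ℝ → ℝ) (y : Fin n → ℝ) (x : Fin m → ℝ) : ℝ :=
  ∫ v in Set.Ioi (0 : ℝ), ∫ β : Fin k → ℝ,
    normalPDF (Xt.mulVec β) v x ^ ((1 - α) / 2) * (normalPDF (X.mulVec β) v y * π β v)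

/-- The generalized Bayes predictive density under `D_α` for the prior density `π`. -/
noncomputable def genBayes (π : (Fin k → ℝ) → ℝ → ℝ) (y : Fin n → ℝ) (x : Fin m → ℝ) : ℝ :=
  bayesKernel X Xt α π y x ^ (2 / (1 - α)) / ∫ z, bayesKernel X Xt α π y z ^ (2 / (1 - α))

/-- The best invariant predictive density: the prior density is `1 / v`. -/
noncomputable def bestInvariant : (Fin n → ℝ) → (Fin m → ℝ) → ℝ :=
  genBayes X Xt α (fun _ v => 1 / v)

end MP4845
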