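import Mathlib
import Pool.Agent.Lib.MP_4845bf_pr.Defs
import Pool.Agent.Lib.MP_4845bf_pr.Geom
import Pool.Agent.Lib.MP_4845bf_pr.Gauss

set_option linter.unusedSectionVars false
set_option linter.unnecessarySimpa false

namespace MP4845

open MeasureTheory Module Set Filter Topology WithLp
open scoped InnerProductSpace

section

variable {n k m : ℕ} (X : Matrix (Fin n) (Fin k) ℝ) (Xt : Matrix (Fin m) (Fin k) ℝ) (bp : ℝ)

/-- `β ↦ X β` into the Euclidean space -/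
noncomputable def AA : (Fin k → ℝ) →ₗ[ℝ] EuclideanSpace ℝ (Fin n) :=
  (WithLp.linearEquiv 2 ℝ (Fin n → ℝ)).symm.toLinearMap ∘ₗ X.mulVecLin

/-- `β ↦ √b' X̃ β` into the Euclidean space -/
noncomputable def BB : (Fin k → ℝ) →ₗ[ℝ] EuclideanSpace ℝ (Fin m) :=
  Real.sqrt bp • ((WithLp.linearEquiv 2 ℝ (Fin m → ℝ)).symm.toLinearMap ∘ₗ Xt.mulVecLin)

lemma AA_apply (β : Fin k → ℝ) : AA X β = WithLp.toLp 2 (X.mulVec β) := rfl

lemma BB_apply (β : Fin k → ℝ) : BB Xt bp β = Real.sqrt bp • WithLp.toLp 2 (Xt.mulVec β) := rfl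

/-- the point `(y, √b' x)` -/
noncomputable def pte (hbp : 0 < bp) : ((Fin n → ℝ) × (Fin m → ℝ)) ≃ₗ[ℝ]
    WithLp 2 (EuclideanSpace ℝ (Fin n) × EuclideanSpace ℝ (Fin m)) :=
  (LinearEquiv.prodCongr (WithLp.linearEquiv 2 ℝ (Fin n → ℝ)).symm
    ((WithLp.linearEquiv 2 ℝ (Fin m → ℝ)).symm.trans
      (LinearEquiv.smulOfNeZero ℝ (EuclideanSpace ℝ (Fin m)) (Real.sqrt bp)
        (Real.sqrt_pos.mpr hbp).ne'))).trans
    (WithLp.linearEquiv 2 ℝ (EuclideanSpace ℝ (Fin n) × EuclideanSpace ℝ (Fin m))).symm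

lemma pte_fst (hbp : 0 < bp) (z : (Fin n → ℝ) × (Fin m → ℝ)) :
    (pte bp hbp z).fst = WithLp.toLp 2 z.1 := rfl

lemma pte_snd (hbp : 0 < bp) (z : (Fin n → ℝ) × (Fin m → ℝ)) :
    (pte bp hbp z).snd = Real.sqrt bp • WithLp.toLp 2 z.2 := rfl

lemma norm_pte_sub (hbp : 0 < bp) (z : (Fin n → ℝ) × (Fin m → ℝ)) (β : Fin k → ℝ) :
    ‖pte bp hbp z - iota (AA X) (BB Xt bp) β‖ ^ 2 =
      (∑ i, (z.1 i - X.mulVec β i) ^ 2) + bp * ∑ j, (z.2 j - Xt.mulVec β j) ^ 2 := by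
  rw [WithLp.prod_norm_sq_eq_of_L2, WithLp.sub_fst, WithLp.sub_snd, pte_fst, pte_snd, iota_fst,
    iota_snd, AA_apply, BB_apply, ← smul_sub, norm_smul, mul_pow, Real.norm_eq_abs, sq_abs,
    Real.sq_sqrt hbp.le, EuclideanSpace.norm_sq_eq, EuclideanSpace.norm_sq_eq]
  congr 2
  · ext i
    simp
  · congr 1
    ext i
    simp

/-- the coordinates -/
noncomputable def coe' (hbp : 0 < bp) (hA : Function.Injective (AA X)) :
    ((Fin n → ℝ) × (Fin m → ℝ)) ≃ₗ[ℝ]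
      ((Fin k → ℝ) × ((LinearMap.range (AA X))ᗮ : Submodule ℝ (EuclideanSpace ℝ (Fin n))) ×
        GG (AA X) (BB Xt bp)) :=
  (pte bp hbp).trans (LLe (AA X) (BB Xt bp) hA).symm

lemma LL_coe' (hbp : 0 < bp) (hA : Function.Injective (AA X)) (z : (Fin n → ℝ) × (Fin m → ℝ)) :
    LL (AA X) (BB Xt bp) (coe' X Xt bp hbp hA z) = pte bp hbp z := by
  change LL (AA X) (BB Xt bp) ((LLe (AA X) (BB Xt bp) hA).symm (pte bp hbp z)) = pte bp hbp z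
  exact (LLe (AA X) (BB Xt bp) hA).apply_symm_apply _

/-- the exponent in coordinates -/
lemma sum_sq_eq (hbp : 0 < bp) (hA : Function.Injective (AA X)) (z : (Fin n → ℝ) × (Fin m → ℝ))
    (β : Fin k → ℝ) :
    (∑ i, (z.1 i - X.mulVec β i) ^ 2) + bp * ∑ j, (z.2 j - Xt.mulVec β j) ^ 2 =
      ‖iota (AA X) (BB Xt bp) ((coe' X Xt bp hbp hA z).1 - β)‖ ^ 2 +
        ‖(coe' X Xt bp hbp hA z).2.1‖ ^ 2 + ‖(coe' X Xt bp hbp hA z).2.2‖ ^ 2 := by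
  rw [← norm_pte_sub X Xt bp hbp z β, ← LL_coe' X Xt bp hbp hA z]
  set w := coe' X Xt bp hbp hA z with hw
  have h1 : LL (AA X) (BB Xt bp) w - iota (AA X) (BB Xt bp) β =
      LL (AA X) (BB Xt bp) (w.1 - β, w.2.1, w.2.2) := by
    rw [LL_apply, LL_apply, map_sub]
    abel
  rw [h1, norm_LL]

/-- the residual sum of squares, and the norm of the projection -/
noncomputable def SS (y : Fin n → ℝ) : ℝ :=
  ‖(WithLp.toLp 2 y : EuclideanSpace ℝ (Fin n)) -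
    (LinearMap.range (AA X)).starProjection (WithLp.toLp 2 y)‖ ^ 2

noncomputable def PP (y : Fin n → ℝ) : ℝ :=
  ‖(LinearMap.range (AA X)).starProjection (WithLp.toLp 2 y)‖ ^ 2

lemma SS_eq (hbp : 0 < bp) (hA : Function.Injective (AA X)) (z : (Fin n → ℝ) × (Fin m → ℝ)) :
    SS X z.1 = ‖(coe' X Xt bp hbp hA z).2.1‖ ^ 2 := by
  unfold SS
  have h1 : (WithLp.toLp 2 z.1 : EuclideanSpace ℝ (Fin n)) = (pte bp hbp z).fst := rfl
  rw [h1, ← LL_coe' X Xt bp hbp hA z, proj_fst_LL, fst_LL, add_sub_cancel_left]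
  rfl

lemma PP_eq (hbp : 0 < bp) (hA : Function.Injective (AA X)) (z : (Fin n → ℝ) × (Fin m → ℝ)) :
    PP X z.1 = ‖AA X (coe' X Xt bp hbp hA z).1 +
      CC (AA X) (BB Xt bp) (coe' X Xt bp hbp hA z).2.2‖ ^ 2 := by
  unfold PP
  have h1 : (WithLp.toLp 2 z.1 : EuclideanSpace ℝ (Fin n)) = (pte bp hbp z).fst := rfl
  rw [h1, ← LL_coe' X Xt bp hbp hA z, proj_fst_LL]

/-- total sum of squares `S + Q` -/
noncomputable def TT (hbp : 0 < bp) (hA : Function.Injective (AA X))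
    (z : (Fin n → ℝ) × (Fin m → ℝ)) : ℝ :=
  ‖(coe' X Xt bp hbp hA z).2.1‖ ^ 2 + ‖(coe' X Xt bp hbp hA z).2.2‖ ^ 2

end

end MP4845
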