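import Mathlib
import Pool.Agent.Lib.MP_4845bf_pr.Gauss

set_option linter.unusedSectionVars false
set_option linter.unnecessarySimpa false

namespace MP4845

open MeasureTheory Module Set Filter Topology

section

variable {Z V : Type*} [NormedAddCommGroup Z] [NormedSpace ℝ Z] [FiniteDimensional ℝ Z]
  [MeasurableSpace Z] [BorelSpace Z]
  [NormedAddCommGroup V] [NormedSpace ℝ V] [FiniteDimensional ℝ V]
  [MeasurableSpace V] [BorelSpace V]

lemma integrable_tbase (ζ : Measure Z) [ζ.IsAddHaarMeasure] (D : Z ≃L[ℝ] V) {γ : ℝ}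
    (hγ : (finrank ℝ Z : ℝ) < 2 * γ) : Integrable (fun x => (1 + ‖D x‖ ^ 2) ^ (-γ)) ζ := by
  obtain ⟨c, hc, h⟩ := haar_map D ζ (Measure.addHaar : Measure V)
  have h1 := (h (fun v => (1 + ‖v‖ ^ 2) ^ (-γ))).1
  rw [← h1]
  have h2 : Integrable (fun v : V => (1 + ‖v‖ ^ 2) ^ (-(2 * γ) / 2)) (Measure.addHaar : Measure V) := by
    apply integrable_rpow_neg_one_add_norm_sq
    rw [← D.toLinearEquiv.finrank_eq]
    exact hγ
  refine h2.congr ?_
  filter_upwards with v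
  congr 1
  ring

lemma tbase_pos (ζ : Measure Z) [ζ.IsAddHaarMeasure] (D : Z ≃L[ℝ] V) {γ : ℝ}
    (hγ : (finrank ℝ Z : ℝ) < 2 * γ) : 0 < ∫ x, (1 + ‖D x‖ ^ 2) ^ (-γ) ∂ζ := by
  have hp : ∀ x, 0 < (1 + ‖D x‖ ^ 2) ^ (-γ) := fun x => Real.rpow_pos_of_pos (by positivity) _
  rw [integral_pos_iff_support_of_nonneg (fun x => (hp x).le) (integrable_tbase ζ D hγ)]
  have hs : Function.support (fun x => (1 + ‖D x‖ ^ 2) ^ (-γ)) = univ := by
    ext x
    simp only [Function.mem_support, mem_univ, iff_true]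
    exact (hp x).ne'
  rw [hs]
  exact isOpen_univ.measure_pos ζ univ_nonempty

lemma tdens_integral (ζ : Measure Z) [ζ.IsAddHaarMeasure] (D : Z ≃L[ℝ] V) {γ : ℝ}
    (hγ : (finrank ℝ Z : ℝ) < 2 * γ) (g0 : V) {t : ℝ} (ht : 0 < t) :
    Integrable (fun x => (t + ‖g0 + D x‖ ^ 2) ^ (-γ)) ζ ∧
    ∫ x, (t + ‖g0 + D x‖ ^ 2) ^ (-γ) ∂ζ =
      t ^ ((finrank ℝ Z : ℝ) / 2 - γ) * ∫ x, (1 + ‖D x‖ ^ 2) ^ (-γ) ∂ζ := by
  have hst : 0 < Real.sqrt t := Real.sqrt_pos.mpr ht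
  -- translation
  obtain ⟨x0, hx0⟩ := D.surjective g0
  have e1 : ∀ x, (t + ‖g0 + D x‖ ^ 2) ^ (-γ) = (fun x => (t + ‖D x‖ ^ 2) ^ (-γ)) (x + x0) := by
    intro x
    simp only
    rw [← hx0, ← map_add, add_comm x0 x]
  have e2 : ∀ u, (fun x => (t + ‖D x‖ ^ 2) ^ (-γ)) (Real.sqrt t • u) =
      t ^ (-γ) * (1 + ‖D u‖ ^ 2) ^ (-γ) := by
    intro u
    simp only
    rw [map_smul, norm_smul, mul_pow, Real.norm_eq_abs, sq_abs, Real.sq_sqrt ht.le,
      ← Real.mul_rpow ht.le (by positivity)]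
    congr 1
    ring
  have hint0 := integrable_tbase ζ D hγ
  have hint1 : Integrable (fun x => (t + ‖D x‖ ^ 2) ^ (-γ)) ζ := by
    rw [← integrable_comp_smul_iff ζ (fun x => (t + ‖D x‖ ^ 2) ^ (-γ)) hst.ne']
    refine (hint0.const_mul (t ^ (-γ))).congr ?_
    filter_upwards with u
    exact (e2 u).symm
  constructor
  · simp_rw [e1]
    exact hint1.comp_add_right x0
  · simp_rw [e1]
    rw [integral_add_right_eq_self (fun x => (t + ‖D x‖ ^ 2) ^ (-γ)) x0]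
    have h3 := Measure.integral_comp_smul ζ (fun x => (t + ‖D x‖ ^ 2) ^ (-γ)) (Real.sqrt t)
    simp_rw [e2] at h3
    rw [integral_const_mul, abs_of_nonneg (by positivity), smul_eq_mul] at h3
    have h4 : ∫ x, (t + ‖D x‖ ^ 2) ^ (-γ) ∂ζ =
        (Real.sqrt t ^ finrank ℝ Z) * (t ^ (-γ) * ∫ x, (1 + ‖D x‖ ^ 2) ^ (-γ) ∂ζ) := by
      rw [h3]
      field_simp
    rw [h4]
    have h5 : Real.sqrt t ^ finrank ℝ Z = t ^ ((finrank ℝ Z : ℝ) / 2) := by
      rw [Real.sqrt_eq_rpow, ← Real.rpow_natCast, ← Real.rpow_mul ht.le]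
      congr 1
      ring
    rw [h5, ← mul_assoc, ← Real.rpow_add ht]
    congr 2

end

/-- the one dimensional integral -/
lemma integrableOn_invgamma {q : ℝ} (hq : 0 < q) :
    IntegrableOn (fun u : ℝ => u ^ (-q - 1) * Real.exp (-(1 / (2 * u)))) (Ioi 0) := by
  have h1 : IntegrableOn (fun x : ℝ => x ^ (q - 1) * Real.exp (-(1/2) * x ^ (1:ℝ))) (Ioi 0) :=
    integrableOn_rpow_mul_exp_neg_mul_rpow (by linarith) one_pos (by norm_num)
  rw [← integrableOn_Ioi_comp_rpow_iff' _ (show (-1:ℝ) ≠ 0 by norm_num)] at h1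
  refine h1.congr_fun ?_ measurableSet_Ioi
  intro u hu
  have hu0 : (0:ℝ) < u := hu
  simp only [smul_eq_mul]
  rw [Real.rpow_one, ← mul_assoc, ← Real.rpow_mul hu0.le, ← Real.rpow_add hu0]
  congr 1
  · congr 1
    ring
  · congr 1
    rw [Real.rpow_neg_one]
    field_simp

lemma invgamma_pos {q : ℝ} (hq : 0 < q) :
    0 < ∫ u in Ioi (0:ℝ), u ^ (-q - 1) * Real.exp (-(1 / (2 * u))) := by
  rw [setIntegral_pos_iff_support_of_nonneg_ae _ (integrableOn_invgamma hq)]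
  · have hs : (Ioi (0:ℝ)) ⊆ Function.support
        (fun u : ℝ => u ^ (-q - 1) * Real.exp (-(1 / (2 * u)))) ∩ Ioi 0 := by
      intro u hu
      have hu0 : (0:ℝ) < u := hu
      refine ⟨?_, hu⟩
      rw [Function.mem_support]
      positivity
    refine lt_of_lt_of_le ?_ (measure_mono hs)
    simp
  · filter_upwards [ae_restrict_mem measurableSet_Ioi] with u hu
    have hu0 : (0:ℝ) < u := hu
    simp only [Pi.zero_apply]
    positivity

lemma invgamma_scale {q T : ℝ} (hT : 0 < T) :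
    ∫ u in Ioi (0:ℝ), u ^ (-q - 1) * Real.exp (-(T / (2 * u))) =
      T ^ (-q) * ∫ u in Ioi (0:ℝ), u ^ (-q - 1) * Real.exp (-(1 / (2 * u))) := by
  have h1 := integral_comp_mul_left_Ioi
    (fun u : ℝ => u ^ (-q - 1) * Real.exp (-(T / (2 * u)))) 0 hT
  rw [mul_zero] at h1
  have h2 : ∫ x in Ioi (0:ℝ), (T * x) ^ (-q - 1) * Real.exp (-(T / (2 * (T * x)))) =
      T ^ (-q - 1) * ∫ u in Ioi (0:ℝ), u ^ (-q - 1) * Real.exp (-(1 / (2 * u))) := by
    rw [← integral_const_mul]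
    apply setIntegral_congr_fun measurableSet_Ioi
    intro x hx
    have hx0 : (0:ℝ) < x := hx
    simp only
    rw [Real.mul_rpow hT.le hx0.le]
    have : T / (2 * (T * x)) = 1 / (2 * x) := by field_simp
    rw [this]
    ring
  rw [h2, smul_eq_mul] at h1
  have h3 : ∫ u in Ioi (0:ℝ), u ^ (-q - 1) * Real.exp (-(T / (2 * u))) =
      T * (T ^ (-q - 1) * ∫ u in Ioi (0:ℝ), u ^ (-q - 1) * Real.exp (-(1 / (2 * u)))) := by
    rw [h1]
    field_simp
  rw [h3, Real.rpow_sub_one hT.ne']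
  field_simp

section

variable {P F : Type*} [NormedAddCommGroup P] [NormedSpace ℝ P] [FiniteDimensional ℝ P]
  [MeasurableSpace P] [BorelSpace P] [NormedAddCommGroup F] [NormedSpace ℝ F]

/-- the Gaussian integral over the regression parameter -/
lemma gauss_beta (κ : Measure P) [κ.IsAddHaarMeasure] (J : P →ₗ[ℝ] F) (b : P) {v : ℝ}
    (hv : 0 < v) : ∫ β, Real.exp (-‖J (b - β)‖ ^ 2 / (2 * v)) ∂κ =
      v ^ ((finrank ℝ P : ℝ) / 2) * ∫ β, Real.exp (-‖J β‖ ^ 2 / 2) ∂κ := by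
  have hsv : 0 < Real.sqrt v := Real.sqrt_pos.mpr hv
  rw [integral_sub_left_eq_self (fun β => Real.exp (-‖J β‖ ^ 2 / (2 * v))) κ b]
  have h1 := Measure.integral_comp_smul κ (fun β => Real.exp (-‖J β‖ ^ 2 / (2 * v)))
    (Real.sqrt v)
  have e2 : ∀ β, Real.exp (-‖J (Real.sqrt v • β)‖ ^ 2 / (2 * v)) =
      Real.exp (-‖J β‖ ^ 2 / 2) := by
    intro β
    congr 1
    rw [map_smul, norm_smul, mul_pow, Real.norm_eq_abs, sq_abs, Real.sq_sqrt hv.le]
    field_simp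
  simp_rw [e2] at h1
  rw [abs_of_nonneg (by positivity), smul_eq_mul] at h1
  have h4 : ∫ β, Real.exp (-‖J β‖ ^ 2 / (2 * v)) ∂κ =
      (Real.sqrt v ^ finrank ℝ P) * ∫ β, Real.exp (-‖J β‖ ^ 2 / 2) ∂κ := by
    rw [h1]
    field_simp
  have h5 : Real.sqrt v ^ finrank ℝ P = v ^ ((finrank ℝ P : ℝ) / 2) := by
    rw [Real.sqrt_eq_rpow, ← Real.rpow_natCast, ← Real.rpow_mul hv.le]
    congr 1
    ring
  rw [h4, h5]

end

end MP4845
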