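import Mathlib
import Pool.Agent.Lib.MP_4845bf_pr.Model
import Pool.Agent.Lib.MP_4845bf_pr.TDens

set_option linter.unusedSectionVars false
set_option linter.unnecessarySimpa false

namespace MP4845

open MeasureTheory Module Set Filter Topology WithLp
open scoped InnerProductSpace

section

variable {n k m : ℕ} (X : Matrix (Fin n) (Fin k) ℝ) (Xt : Matrix (Fin m) (Fin k) ℝ) (bp : ℝ)
  (hbp : 0 < bp) (hA : Function.Injective (AA X))

lemma normalPDF_pos {d : ℕ} (μ : Fin d → ℝ) {v : ℝ} (hv : 0 < v) (x : Fin d → ℝ) :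
    0 < normalPDF μ v x := by
  unfold normalPDF
  have := Real.pi_pos
  positivity

/-- the product of the two normal densities in coordinates -/
lemma weight_eq {v : ℝ} (hv : 0 < v) (β : Fin k → ℝ) (y : Fin n → ℝ) (x : Fin m → ℝ) :
    normalPDF (Xt.mulVec β) v x ^ bp * normalPDF (X.mulVec β) v y =
      (2 * Real.pi * v) ^ (-((n : ℝ) + m * bp) / 2) *
        (Real.exp (-‖iota (AA X) (BB Xt bp) ((coe' X Xt bp hbp hA (y, x)).1 - β)‖ ^ 2 / (2 * v)) *
          Real.exp (-(TT X Xt bp hbp hA (y, x)) / (2 * v))) := by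
  have hpi := Real.pi_pos
  have h1 := sum_sq_eq X Xt bp hbp hA (y, x) β
  simp only at h1
  have h2 : ‖iota (AA X) (BB Xt bp) ((coe' X Xt bp hbp hA (y, x)).1 - β)‖ ^ 2 +
      TT X Xt bp hbp hA (y, x) =
      (∑ i, (y i - X.mulVec β i) ^ 2) + bp * ∑ j, (x j - Xt.mulVec β j) ^ 2 := by
    rw [h1]
    unfold TT
    ring
  rw [← Real.exp_add]
  have h3 : -‖iota (AA X) (BB Xt bp) ((coe' X Xt bp hbp hA (y, x)).1 - β)‖ ^ 2 / (2 * v) +
      -(TT X Xt bp hbp hA (y, x)) / (2 * v) =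
      -(∑ i, (y i - X.mulVec β i) ^ 2) / (2 * v) +
        bp * (-(∑ j, (x j - Xt.mulVec β j) ^ 2) / (2 * v)) := by
    rw [← add_div, ← neg_add, h2]
    ring
  rw [h3, Real.exp_add]
  unfold normalPDF
  rw [Real.mul_rpow (by positivity) (Real.exp_pos _).le, ← Real.exp_mul,
    ← Real.rpow_mul (by positivity)]
  have h4 : (2 * Real.pi * v) ^ (-((n : ℝ) + m * bp) / 2) =
      (2 * Real.pi * v) ^ (-(m : ℝ) / 2 * bp) * (2 * Real.pi * v) ^ (-(n : ℝ) / 2) := by
    rw [← Real.rpow_add (by positivity)]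
    congr 1
    ring
  rw [h4]
  have h5 : -(∑ j, (x j - Xt.mulVec β j) ^ 2) / (2 * v) * bp =
      bp * (-(∑ j, (x j - Xt.mulVec β j) ^ 2) / (2 * v)) := by ring
  rw [h5]
  ring

lemma TT_nonneg (z : (Fin n → ℝ) × (Fin m → ℝ)) : 0 ≤ TT X Xt bp hbp hA z := by
  unfold TT
  positivity

include hbp hA in
/-- closed form of the Bayes integral for the right invariant prior -/
lemma bayesKernel_eq (hk : 0 < k) {α : ℝ} (hαbp : bp = (1 - α) / 2)
    (hq : 0 < ((n : ℝ) + m * bp - k) / 2) :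
    ∃ K0 : ℝ, 0 < K0 ∧ ∀ y x, 0 < TT X Xt bp hbp hA (y, x) →
      bayesKernel X Xt α (fun _ v => 1 / v) y x =
        K0 * TT X Xt bp hbp hA (y, x) ^ (-(((n : ℝ) + m * bp - k) / 2)) := by
  have hpi := Real.pi_pos
  set q : ℝ := ((n : ℝ) + m * bp - k) / 2 with hqd
  have : Nonempty (Fin k) := ⟨⟨0, hk⟩⟩
  have hnt : Nontrivial (Fin k → ℝ) := inferInstance
  set J := iota (AA X) (BB Xt bp) with hJ
  have hJinj : Function.Injective J := iota_injective _ _ hA
  set I0 := ∫ β : Fin k → ℝ, Real.exp (-‖J β‖ ^ 2 / 2) with hI0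
  have hI0int : Integrable (fun β : Fin k → ℝ => Real.exp (-‖J β‖ ^ 2 / 2)) := by
    have := integrable_gauss_inj (volume : Measure (Fin k → ℝ)) J hJinj 0 (c := 1 / 2)
      (by norm_num)
    refine this.congr ?_
    filter_upwards with β
    rw [sub_zero]
    congr 1
    ring
  have hI0pos : 0 < I0 := by
    rw [hI0, integral_pos_iff_support_of_nonneg (fun β => (Real.exp_pos _).le) hI0int]
    have hs : Function.support (fun β : Fin k → ℝ => Real.exp (-‖J β‖ ^ 2 / 2)) = univ := by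
      ext β
      simp only [Function.mem_support, mem_univ, iff_true]
      exact (Real.exp_pos _).ne'
    rw [hs]
    exact isOpen_univ.measure_pos _ univ_nonempty
  have hI1 := invgamma_pos hq
  set I1 := ∫ u in Ioi (0:ℝ), u ^ (-q - 1) * Real.exp (-(1 / (2 * u))) with hI1d
  refine ⟨(2 * Real.pi) ^ (-((n : ℝ) + m * bp) / 2) * I0 * I1, by positivity, ?_⟩
  intro y x hT
  set T := TT X Xt bp hbp hA (y, x) with hTd
  set b := (coe' X Xt bp hbp hA (y, x)).1 with hb
  unfold bayesKernel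
  have h1 : ∀ v ∈ Ioi (0:ℝ), ∫ β : Fin k → ℝ, normalPDF (Xt.mulVec β) v x ^ ((1 - α) / 2) *
      (normalPDF (X.mulVec β) v y * (1 / v)) =
      (2 * Real.pi) ^ (-((n : ℝ) + m * bp) / 2) * I0 *
        (v ^ (-q - 1) * Real.exp (-(T / (2 * v)))) := by
    intro v hv
    have hv0 : (0:ℝ) < v := hv
    have h2 : ∀ β : Fin k → ℝ, normalPDF (Xt.mulVec β) v x ^ ((1 - α) / 2) *
      (normalPDF (X.mulVec β) v y * (1 / v)) =
      ((2 * Real.pi * v) ^ (-((n : ℝ) + m * bp) / 2) * Real.exp (-T / (2 * v)) * (1 / v)) *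
        Real.exp (-‖J (b - β)‖ ^ 2 / (2 * v)) := by
      intro β
      rw [← hαbp, ← mul_assoc, weight_eq X Xt bp hbp hA hv0 β y x]
      ring
    simp_rw [h2]
    rw [integral_const_mul, gauss_beta volume J b hv0]
    have h3 : finrank ℝ (Fin k → ℝ) = k := by simp
    rw [h3, Real.mul_rpow (by positivity) hv0.le]
    have h4 : v ^ (-q - 1) = v ^ (-((n : ℝ) + m * bp) / 2) * (1 / v) * v ^ ((k : ℝ) / 2) := by
      rw [one_div, ← Real.rpow_neg_one, ← Real.rpow_add hv0, ← Real.rpow_add hv0]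
      congr 1
      rw [hqd]
      ring
    rw [h4]
    have h5 : -T / (2 * v) = -(T / (2 * v)) := by ring
    rw [h5]
    ring
  rw [setIntegral_congr_fun measurableSet_Ioi h1, integral_const_mul, invgamma_scale hT]
  ring

end

end MP4845
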