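import Mathlib
import Pool.Agent.Lib.MP_4845bf_pr.Bayes

set_option linter.unusedSectionVars false
set_option linter.unnecessarySimpa false

namespace MP4845

open MeasureTheory Module Set Filter Topology WithLp
open scoped InnerProductSpace

section

variable {n k m : ℕ} (X : Matrix (Fin n) (Fin k) ℝ) (Xt : Matrix (Fin m) (Fin k) ℝ) (bp : ℝ)
  (hbp : 0 < bp) (hA : Function.Injective (AA X))

/-- linear part of the third coordinate in `x` -/
noncomputable def Dlin : (Fin m → ℝ) →ₗ[ℝ] GG (AA X) (BB Xt bp) :=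
  (LinearMap.snd ℝ _ _ ∘ₗ LinearMap.snd ℝ _ _) ∘ₗ (coe' X Xt bp hbp hA).toLinearMap ∘ₗ
    LinearMap.inr ℝ (Fin n → ℝ) (Fin m → ℝ)

lemma Dlin_apply (x : Fin m → ℝ) :
    Dlin X Xt bp hbp hA x = (coe' X Xt bp hbp hA (0, x)).2.2 := rfl

lemma Dlin_injective : Function.Injective (Dlin X Xt bp hbp hA) := by
  rw [← LinearMap.ker_eq_bot, LinearMap.ker_eq_bot']
  intro x hx
  rw [Dlin_apply] at hx
  have h1 : Real.sqrt bp • (WithLp.toLp 2 x : EuclideanSpace ℝ (Fin m)) = 0 := by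
    apply snd_comp_injective (AA X) (BB Xt bp) hA
    exact hx
  have h2 : Real.sqrt bp ≠ 0 := (Real.sqrt_pos.mpr hbp).ne'
  have h3 := (smul_eq_zero.mp h1).resolve_left h2
  have h4 := congrArg WithLp.ofLp h3
  simpa using h4

/-- the same as a continuous linear equivalence -/
noncomputable def DD : (Fin m → ℝ) ≃L[ℝ] GG (AA X) (BB Xt bp) :=
  (LinearMap.linearEquivOfInjective (Dlin X Xt bp hbp hA) (Dlin_injective X Xt bp hbp hA) (by
    rw [finrank_GG (AA X) (BB Xt bp) hA]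
    simp)).toContinuousLinearEquiv

lemma DD_apply (x : Fin m → ℝ) :
    DD X Xt bp hbp hA x = (coe' X Xt bp hbp hA (0, x)).2.2 := rfl

/-- constant part of the third coordinate -/
noncomputable def g0 (y : Fin n → ℝ) : GG (AA X) (BB Xt bp) := (coe' X Xt bp hbp hA (y, 0)).2.2

lemma third_eq (y : Fin n → ℝ) (x : Fin m → ℝ) :
    (coe' X Xt bp hbp hA (y, x)).2.2 = g0 X Xt bp hbp hA y + DD X Xt bp hbp hA x := by
  have h : ((y, x) : (Fin n → ℝ) × (Fin m → ℝ)) = (y, 0) + (0, x) := by simp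
  rw [h, map_add, DD_apply, g0]
  rfl

lemma TT_eq (y : Fin n → ℝ) (x : Fin m → ℝ) :
    TT X Xt bp hbp hA (y, x) = SS X y + ‖g0 X Xt bp hbp hA y + DD X Xt bp hbp hA x‖ ^ 2 := by
  unfold TT
  rw [← third_eq, SS_eq X Xt bp hbp hA (y, x)]

/-- normalising constant -/
noncomputable def kap (γ : ℝ) : ℝ := ∫ x, (1 + ‖DD X Xt bp hbp hA x‖ ^ 2) ^ (-γ)

lemma kap_pos {γ : ℝ} (hγ : (m : ℝ) < 2 * γ) : 0 < kap X Xt bp hbp hA γ := by
  unfold kap
  apply tbase_pos
  simpa using hγ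

/-- multivariate `t` density with scale `t` -/
noncomputable def tden (γ t : ℝ) (y : Fin n → ℝ) (x : Fin m → ℝ) : ℝ :=
  (kap X Xt bp hbp hA γ)⁻¹ * t ^ (γ - m / 2) *
    (t + ‖g0 X Xt bp hbp hA y + DD X Xt bp hbp hA x‖ ^ 2) ^ (-γ)

lemma tden_pos {γ t : ℝ} (hγ : (m : ℝ) < 2 * γ) (ht : 0 < t) (y : Fin n → ℝ) (x : Fin m → ℝ) :
    0 < tden X Xt bp hbp hA γ t y x := by
  have := kap_pos X Xt bp hbp hA hγ
  unfold tden
  positivity

lemma tden_integral {γ t : ℝ} (hγ : (m : ℝ) < 2 * γ) (ht : 0 < t) (y : Fin n → ℝ) :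
    ∫ x, tden X Xt bp hbp hA γ t y x = 1 := by
  have hκ := kap_pos X Xt bp hbp hA hγ
  have h1 := (tdens_integral (volume : Measure (Fin m → ℝ)) (DD X Xt bp hbp hA) (γ := γ)
    (by simpa using hγ) (g0 X Xt bp hbp hA y) ht).2
  unfold tden
  rw [integral_const_mul, h1]
  have h2 : finrank ℝ (Fin m → ℝ) = m := by simp
  rw [h2]
  change (kap X Xt bp hbp hA γ)⁻¹ * t ^ (γ - m / 2) * (t ^ ((m : ℝ) / 2 - γ) *
    kap X Xt bp hbp hA γ) = 1
  have h3 : t ^ (γ - (m : ℝ) / 2) * t ^ ((m : ℝ) / 2 - γ) = 1 := by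
    rw [← Real.rpow_add ht]
    simp
  calc (kap X Xt bp hbp hA γ)⁻¹ * t ^ (γ - (m : ℝ) / 2) * (t ^ ((m : ℝ) / 2 - γ) *
    kap X Xt bp hbp hA γ) = ((kap X Xt bp hbp hA γ)⁻¹ * kap X Xt bp hbp hA γ) *
      (t ^ (γ - (m : ℝ) / 2) * t ^ ((m : ℝ) / 2 - γ)) := by ring
    _ = 1 := by rw [h3, inv_mul_cancel₀ hκ.ne', one_mul]

lemma measurable_g0 : Measurable (g0 X Xt bp hbp hA) := by
  have h1 : Continuous (coe' X Xt bp hbp hA) :=
    (coe' X Xt bp hbp hA).toLinearMap.continuous_of_finiteDimensional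
  have h2 : Continuous (fun y : Fin n → ℝ => (coe' X Xt bp hbp hA (y, 0)).2.2) :=
    (continuous_snd.comp continuous_snd).comp (h1.comp (by fun_prop))
  exact h2.measurable

lemma measurable_tden (γ : ℝ) : Measurable (fun w : ℝ × (Fin n → ℝ) × (Fin m → ℝ) =>
    tden X Xt bp hbp hA γ w.1 w.2.1 w.2.2) := by
  unfold tden
  apply Measurable.mul
  · apply Measurable.mul measurable_const
    exact measurable_fst.pow_const _
  · apply Measurable.pow_const
    apply Measurable.add measurable_fst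
    apply Measurable.pow_const
    apply Measurable.norm
    apply Measurable.add
    · exact (measurable_g0 X Xt bp hbp hA).comp (measurable_fst.comp measurable_snd)
    · exact (DD X Xt bp hbp hA).continuous.measurable.comp (measurable_snd.comp measurable_snd)

/-- closed form of the best invariant predictive density -/
lemma bestInvariant_eq (hk : 0 < k) {α : ℝ} (hαbp : bp = (1 - α) / 2) {γ : ℝ}
    (hγ : γ = (((n : ℝ) + m * bp - k) / 2) / bp) (hγm : (m : ℝ) < 2 * γ)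
    (hq : 0 < ((n : ℝ) + m * bp - k) / 2)
    {y : Fin n → ℝ} (hy : 0 < SS X y) (x : Fin m → ℝ) :
    bestInvariant X Xt α y x = tden X Xt bp hbp hA γ (SS X y) y x := by
  obtain ⟨K0, hK0, hK⟩ := bayesKernel_eq X Xt bp hbp hA hk hαbp hq
  set q : ℝ := ((n : ℝ) + m * bp - k) / 2 with hqd
  have hκ := kap_pos X Xt bp hbp hA hγm
  have hT : ∀ x, 0 < TT X Xt bp hbp hA (y, x) := by
    intro x
    rw [TT_eq]
    positivity
  have h2 : 2 / (1 - α) = 1 / bp := by
    rw [hαbp]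
    have : (1 - α) ≠ 0 := by
      intro h
      rw [h] at hαbp
      simp at hαbp
      exact hbp.ne' hαbp
    field_simp
  have h3 : ∀ x, bayesKernel X Xt α (fun _ v => 1 / v) y x ^ (2 / (1 - α)) =
      K0 ^ (1 / bp) * (SS X y + ‖g0 X Xt bp hbp hA y + DD X Xt bp hbp hA x‖ ^ 2) ^ (-γ) := by
    intro x
    rw [hK y x (hT x), h2, Real.mul_rpow hK0.le (Real.rpow_nonneg (hT x).le _),
      ← Real.rpow_mul (hT x).le, TT_eq]
    congr 2
    rw [hγ]
    ring
  unfold bestInvariant genBayes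
  simp_rw [h3]
  rw [integral_const_mul]
  have h1 := (tdens_integral (volume : Measure (Fin m → ℝ)) (DD X Xt bp hbp hA) (γ := γ)
    (by simpa using hγm) (g0 X Xt bp hbp hA y) hy).2
  rw [h1]
  have h4 : finrank ℝ (Fin m → ℝ) = m := by simp
  rw [h4]
  unfold tden
  change _ / (K0 ^ (1 / bp) * (SS X y ^ ((m : ℝ) / 2 - γ) * kap X Xt bp hbp hA γ)) = _
  have h5 : SS X y ^ (γ - (m : ℝ) / 2) = (SS X y ^ ((m : ℝ) / 2 - γ))⁻¹ := by
    rw [← Real.rpow_neg hy.le]
    congr 1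
    ring
  rw [h5]
  have h6 : 0 < K0 ^ (1 / bp) := Real.rpow_pos_of_pos hK0 _
  have h7 : 0 < SS X y ^ ((m : ℝ) / 2 - γ) := Real.rpow_pos_of_pos hy _
  field_simp

end

end MP4845
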