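import Mathlib
import Pool.Agent.Lib.MP_4845bf_pr.Dens
import Pool.Agent.Lib.MP_4845bf_pr.Total

set_option linter.unusedSectionVars false
set_option linter.unnecessarySimpa false

namespace MP4845

open MeasureTheory Module Set Filter Topology WithLp
open scoped InnerProductSpace

section

variable {n k m : ℕ} (X : Matrix (Fin n) (Fin k) ℝ) (Xt : Matrix (Fin m) (Fin k) ℝ) (bp : ℝ)
  (hbp : 0 < bp) (hA : Function.Injective (AA X))

/-- the type of coordinates -/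
abbrev Co := (Fin k → ℝ) × ((LinearMap.range (AA X))ᗮ : Submodule ℝ (EuclideanSpace ℝ (Fin n))) ×
        GG (AA X) (BB Xt bp)

/-- inverse of the coordinate map -/
noncomputable def Lc : Co X Xt bp ≃L[ℝ] ((Fin n → ℝ) × (Fin m → ℝ)) :=
  (coe' X Xt bp hbp hA).symm.toContinuousLinearEquiv

lemma coe'_Lc (w : Co X Xt bp) : coe' X Xt bp hbp hA (Lc X Xt bp hbp hA w) = w :=
  (coe' X Xt bp hbp hA).apply_symm_apply w

lemma coe'_Lc' (w : Co X Xt bp) :
    coe' X Xt bp hbp hA ((Lc X Xt bp hbp hA w).1, (Lc X Xt bp hbp hA w).2) = w :=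
  (coe' X Xt bp hbp hA).apply_symm_apply w

lemma SS_Lc (w : Co X Xt bp) : SS X (Lc X Xt bp hbp hA w).1 = ‖w.2.1‖ ^ 2 := by
  rw [SS_eq X Xt bp hbp hA, coe'_Lc]

lemma PP_Lc (w : Co X Xt bp) : PP X (Lc X Xt bp hbp hA w).1 =
    ‖AA X w.1 + CC (AA X) (BB Xt bp) w.2.2‖ ^ 2 := by
  rw [PP_eq X Xt bp hbp hA, coe'_Lc]

lemma TT_Lc (w : Co X Xt bp) : TT X Xt bp hbp hA (Lc X Xt bp hbp hA w) =
    ‖w.2.1‖ ^ 2 + ‖w.2.2‖ ^ 2 := by
  unfold TT
  rw [coe'_Lc]

lemma continuous_toLp {d : ℕ} : Continuous (fun y : Fin d → ℝ =>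
    (WithLp.toLp 2 y : EuclideanSpace ℝ (Fin d))) :=
  ((WithLp.linearEquiv 2 ℝ (Fin d → ℝ)).symm.toLinearMap).continuous_of_finiteDimensional

lemma continuous_SS : Continuous (SS X) := by
  unfold SS
  have h := continuous_toLp (d := n)
  have h2 := (LinearMap.range (AA X)).starProjection.continuous.comp h
  exact (h.sub h2).norm.pow 2

lemma continuous_PP : Continuous (PP X) := by
  unfold PP
  have h := continuous_toLp (d := n)
  have h2 := (LinearMap.range (AA X)).starProjection.continuous.comp h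
  exact h2.norm.pow 2

lemma SS_nonneg (y : Fin n → ℝ) : 0 ≤ SS X y := by unfold SS; positivity
lemma PP_nonneg (y : Fin n → ℝ) : 0 ≤ PP X y := by unfold PP; positivity

include hA in
lemma ae_SS_pos (hkn : k < n) : ∀ᵐ y : Fin n → ℝ, 0 < SS X y := by
  let T : (Fin n → ℝ) →ₗ[ℝ] EuclideanSpace ℝ (Fin n) :=
    (WithLp.linearEquiv 2 ℝ (Fin n → ℝ)).symm.toLinearMap
  let K' : Submodule ℝ (Fin n → ℝ) := (LinearMap.range (AA X)).comap T
  have hK' : K' ≠ ⊤ := by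
    intro h
    have h1 : LinearMap.range (AA X) = ⊤ := by
      rw [eq_top_iff]
      intro u _
      have h2 : WithLp.ofLp u ∈ K' := by rw [h]; trivial
      exact h2
    have h3 : finrank ℝ (LinearMap.range (AA X)) = finrank ℝ (Fin k → ℝ) :=
      LinearMap.finrank_range_of_inj hA
    rw [h1, finrank_top] at h3
    simp at h3
    omega
  have h0 : volume (K' : Set (Fin n → ℝ)) = 0 := Measure.addHaar_submodule volume K' hK'
  have h1 : ∀ᵐ y : Fin n → ℝ, y ∉ K' := by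
    rw [ae_iff]
    simpa using h0
  filter_upwards [h1] with y hy
  have h2 := SS_nonneg X y
  rcases h2.eq_or_lt with h3 | h3
  · exfalso
    apply hy
    have h4 : ‖(WithLp.toLp 2 y : EuclideanSpace ℝ (Fin n)) -
      (LinearMap.range (AA X)).starProjection (WithLp.toLp 2 y)‖ = 0 := by
      have : ‖(WithLp.toLp 2 y : EuclideanSpace ℝ (Fin n)) -
        (LinearMap.range (AA X)).starProjection (WithLp.toLp 2 y)‖ ^ 2 = 0 := h3.symm
      exact pow_eq_zero_iff (two_ne_zero) |>.mp this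
    have h5 := sub_eq_zero.mp (norm_eq_zero.mp h4)
    change (WithLp.toLp 2 y : EuclideanSpace ℝ (Fin n)) ∈ LinearMap.range (AA X)
    rw [h5]
    exact Submodule.starProjection_apply_mem _ _
  · exact h3

/-- the weight `ω` -/
noncomputable def om (γ τ : ℝ) (β : Fin k → ℝ) (v : ℝ) (z : (Fin n → ℝ) × (Fin m → ℝ)) : ℝ :=
  normalPDF (Xt.mulVec β) v z.2 ^ bp * normalPDF (X.mulVec β) v z.1 *
    tden X Xt bp hbp hA γ (SS X z.1) z.1 z.2 ^ τ

/-- the weight in coordinates -/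
lemma om_eq {γ τ : ℝ} (hγ : (m : ℝ) < 2 * γ) (β : Fin k → ℝ) {v : ℝ} (hv : 0 < v)
    (z : (Fin n → ℝ) × (Fin m → ℝ)) :
    om X Xt bp hbp hA γ τ β v z =
      ((2 * Real.pi * v) ^ (-((n : ℝ) + m * bp) / 2) * (kap X Xt bp hbp hA γ)⁻¹ ^ τ) *
      (Real.exp (-‖iota (AA X) (BB Xt bp) ((coe' X Xt bp hbp hA z).1 - β)‖ ^ 2 / (2 * v)) *
        (Phi v (τ * γ) (TT X Xt bp hbp hA z) * SS X z.1 ^ (τ * (γ - m / 2)))) := by
  obtain ⟨y, x⟩ := z
  unfold om
  simp only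
  rw [weight_eq X Xt bp hbp hA hv β]
  have hκ := kap_pos X Xt bp hbp hA hγ
  unfold tden
  rw [← TT_eq]
  have hT : 0 ≤ TT X Xt bp hbp hA (y, x) := TT_nonneg X Xt bp hbp hA (y, x)
  have hS : 0 ≤ SS X y := SS_nonneg X y
  have e4 : ((kap X Xt bp hbp hA γ)⁻¹ * (SS X y) ^ (γ - (m : ℝ) / 2) *
      (TT X Xt bp hbp hA (y, x)) ^ (-γ)) ^ τ = (kap X Xt bp hbp hA γ)⁻¹ ^ τ *
      (SS X y) ^ (τ * (γ - m / 2)) * (TT X Xt bp hbp hA (y, x)) ^ (-(τ * γ)) := by
    rw [Real.mul_rpow (by positivity) (Real.rpow_nonneg hT _),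
      Real.mul_rpow (by positivity) (Real.rpow_nonneg hS _), ← Real.rpow_mul hS,
      ← Real.rpow_mul hT]
    congr 2
    · congr 1
      ring
    · ring
  rw [e4]
  unfold Phi
  ring

end

end MP4845
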