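import Mathlib
import Pool.Agent.Lib.MP_4845bf_pr.Coord
import Pool.Agent.Lib.MP_4845bf_pr.AbsMain

set_option linter.unusedSectionVars false
set_option linter.unnecessarySimpa false

namespace MP4845

open MeasureTheory Module Set Filter Topology WithLp
open scoped InnerProductSpace

section

variable {n k m : ℕ} (X : Matrix (Fin n) (Fin k) ℝ) (Xt : Matrix (Fin m) (Fin k) ℝ) (bp : ℝ)
  (hbp : 0 < bp) (hA : Function.Injective (AA X))

/-- the shrinkage amount -/
noncomputable def eta (ε : ℝ) (y : Fin n → ℝ) : ℝ := ε * (SS X y / (2 * SS X y + PP X y))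

lemma eta_nonneg {ε : ℝ} (hε : 0 ≤ ε) (y : Fin n → ℝ) : 0 ≤ eta X ε y := by
  have h1 := SS_nonneg X y
  have h2 := PP_nonneg X y
  unfold eta
  positivity

lemma eta_le {ε : ℝ} (hε : 0 ≤ ε) (hε1 : ε ≤ 1) (y : Fin n → ℝ) : eta X ε y ≤ 1 / 2 := by
  have h1 := SS_nonneg X y
  have h2 := PP_nonneg X y
  unfold eta
  have h3 : SS X y / (2 * SS X y + PP X y) ≤ 1 / 2 := by
    rcases h1.eq_or_lt with h4 | h4
    · rw [← h4]; simp
    · rw [div_le_iff₀ (by positivity)]
      linarith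
  have h4 : 0 ≤ SS X y / (2 * SS X y + PP X y) := by positivity
  nlinarith

/-- log ratio of the two densities -/
noncomputable def Psi (γ ε : ℝ) (z : (Fin n → ℝ) × (Fin m → ℝ)) : ℝ :=
  (γ - m / 2) * Real.log (1 - eta X ε z.1) -
    γ * Real.log (1 - eta X ε z.1 * (SS X z.1 / TT X Xt bp hbp hA z))

lemma ratio_nonneg (z : (Fin n → ℝ) × (Fin m → ℝ)) : 0 ≤ SS X z.1 / TT X Xt bp hbp hA z := by
  have h1 := SS_nonneg X z.1
  have h2 := TT_nonneg X Xt bp hbp hA z
  positivity

lemma ratio_le_one (z : (Fin n → ℝ) × (Fin m → ℝ)) : SS X z.1 / TT X Xt bp hbp hA z ≤ 1 := by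
  have h1 := SS_nonneg X z.1
  have h2 := TT_nonneg X Xt bp hbp hA z
  apply div_le_one_of_le₀ _ h2
  obtain ⟨y, x⟩ := z
  rw [TT_eq]
  simp only
  nlinarith [sq_nonneg ‖g0 X Xt bp hbp hA y + DD X Xt bp hbp hA x‖]

lemma continuous_TT : Continuous (TT X Xt bp hbp hA) := by
  unfold TT
  have h1 : Continuous (coe' X Xt bp hbp hA) :=
    (coe' X Xt bp hbp hA).toLinearMap.continuous_of_finiteDimensional
  have h2 : Continuous (fun z => (coe' X Xt bp hbp hA z).2.1) :=
    (continuous_fst.comp continuous_snd).comp h1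
  have h3 : Continuous (fun z => (coe' X Xt bp hbp hA z).2.2) :=
    (continuous_snd.comp continuous_snd).comp h1
  exact (h2.norm.pow 2).add (h3.norm.pow 2)

lemma measurable_eta (ε : ℝ) : Measurable (eta X ε) := by
  unfold eta
  have h1 := (continuous_SS X).measurable
  have h2 := (continuous_PP X).measurable
  exact (h1.div ((h1.const_mul 2).add h2)).const_mul ε

lemma measurable_ratio : Measurable (fun z : (Fin n → ℝ) × (Fin m → ℝ) =>
    SS X z.1 / TT X Xt bp hbp hA z) :=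
  ((continuous_SS X).measurable.comp measurable_fst).div
    (continuous_TT X Xt bp hbp hA).measurable

lemma measurable_Psi (γ ε : ℝ) : Measurable (Psi X Xt bp hbp hA γ ε) := by
  unfold Psi
  have h1 : Measurable (fun z : (Fin n → ℝ) × (Fin m → ℝ) => eta X ε z.1) :=
    (measurable_eta X ε).comp measurable_fst
  have h2 := measurable_ratio X Xt bp hbp hA
  exact ((measurable_const.sub h1).log.const_mul _).sub
    ((measurable_const.sub (h1.mul h2)).log.const_mul _)

lemma Psi_abs {γ ε : ℝ} (hε : 0 ≤ ε) (hε1 : ε ≤ 1) (hp : 0 ≤ γ - m / 2) (hγ : 0 ≤ γ)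
    (z : (Fin n → ℝ) × (Fin m → ℝ)) :
    |Psi X Xt bp hbp hA γ ε z| ≤ (γ - m / 2) + γ :=
  psi_abs (eta_nonneg X hε z.1) (eta_le X hε hε1 z.1) (ratio_nonneg X Xt bp hbp hA z)
    (ratio_le_one X Xt bp hbp hA z) hp hγ

/-- the modified scale -/
noncomputable def scl (ε : ℝ) (y : Fin n → ℝ) : ℝ :=
  if SS X y = 0 then 1 else (1 - eta X ε y) * SS X y

lemma scl_pos {ε : ℝ} (hε : 0 ≤ ε) (hε1 : ε ≤ 1) (y : Fin n → ℝ) : 0 < scl X ε y := by
  unfold scl
  split_ifs with h
  · exact one_pos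
  · have h1 : 0 < SS X y := lt_of_le_of_ne (SS_nonneg X y) (Ne.symm h)
    have h2 := eta_le X hε hε1 y
    have : 0 < 1 - eta X ε y := by linarith
    positivity

lemma measurable_scl (ε : ℝ) : Measurable (scl X ε) := by
  unfold scl
  apply Measurable.ite
  · exact (continuous_SS X).measurable (measurableSet_singleton 0)
  · exact measurable_const
  · exact (measurable_const.sub (measurable_eta X ε)).mul (continuous_SS X).measurable

/-- the improved density in terms of the old one -/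
lemma tden_scl {γ ε : ℝ} (hε : 0 ≤ ε) (hε1 : ε ≤ 1)
    {y : Fin n → ℝ} (hy : 0 < SS X y) (x : Fin m → ℝ) :
    tden X Xt bp hbp hA γ (scl X ε y) y x =
      tden X Xt bp hbp hA γ (SS X y) y x * Real.exp (Psi X Xt bp hbp hA γ ε (y, x)) := by
  have h0 := eta_nonneg X hε y
  have h1 := eta_le X hε hε1 y
  have h2 := ratio_nonneg X Xt bp hbp hA (y, x)
  have h3 := ratio_le_one X Xt bp hbp hA (y, x)
  have hT : 0 < TT X Xt bp hbp hA (y, x) := by
    rw [TT_eq]
    positivity
  unfold tden Psi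
  rw [← TT_eq]
  have e0 : scl X ε y = (1 - eta X ε y) * SS X y := by
    unfold scl
    rw [if_neg hy.ne']
  have e1 : scl X ε y + ‖g0 X Xt bp hbp hA y + DD X Xt bp hbp hA x‖ ^ 2 =
      TT X Xt bp hbp hA (y, x) *
        (1 - eta X ε y * (SS X y / TT X Xt bp hbp hA (y, x))) := by
    have h5 := TT_eq X Xt bp hbp hA y x
    have h6 : ‖g0 X Xt bp hbp hA y + DD X Xt bp hbp hA x‖ ^ 2 =
      TT X Xt bp hbp hA (y, x) - SS X y := by linarith
    rw [e0, h6]
    field_simp
    ring
  rw [e1, e0]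
  have hc : 0 < 1 - eta X ε y := by linarith
  simp only at h2 h3
  set s := SS X y / TT X Xt bp hbp hA (y, x) with hs
  have hd : 0 < 1 - eta X ε y * s := by nlinarith
  rw [Real.mul_rpow hc.le hy.le, Real.mul_rpow hT.le hd.le, Real.exp_sub]
  have e2 : Real.exp ((γ - (m : ℝ) / 2) * Real.log (1 - eta X ε y)) =
      (1 - eta X ε y) ^ (γ - (m : ℝ) / 2) := by
    rw [Real.rpow_def_of_pos hc, mul_comm]
  have e3 : Real.exp (γ * Real.log (1 - eta X ε y * s)) = (1 - eta X ε y * s) ^ γ := by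
    rw [Real.rpow_def_of_pos hd, mul_comm]
  rw [e2, e3, Real.rpow_neg hd.le]
  field_simp

end

end MP4845
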