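import Mathlib
import Pool.Agent.Lib.MP_4845bf_pr.Psi
import Pool.Agent.Lib.MP_4845bf_pr.GeoMain

set_option linter.unusedSectionVars false
set_option linter.unnecessarySimpa false

namespace MP4845

open MeasureTheory Module Set Filter Topology WithLp
open scoped InnerProductSpace

section

variable {n k m : ℕ} (X : Matrix (Fin n) (Fin k) ℝ) (Xt : Matrix (Fin m) (Fin k) ℝ) (bp : ℝ)
  (hbp : 0 < bp) (hA : Function.Injective (AA X))

/-- the chart of the second factor -/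
noncomputable def eZ (m : ℕ) {bp : ℝ} (hbp : 0 < bp) : (Fin m → ℝ) ≃ₗ[ℝ] EuclideanSpace ℝ (Fin m) :=
  ((WithLp.linearEquiv 2 ℝ (Fin m → ℝ)).symm.trans
      (LinearEquiv.smulOfNeZero ℝ (EuclideanSpace ℝ (Fin m)) (Real.sqrt bp)
        (Real.sqrt_pos.mpr hbp).ne'))

/-- the chart of the first factor -/
noncomputable def eY (n : ℕ) : (Fin n → ℝ) ≃ₗ[ℝ] EuclideanSpace ℝ (Fin n) :=
  (WithLp.linearEquiv 2 ℝ (Fin n → ℝ)).symm

lemma coe'_eq : coe' X Xt bp hbp hA = coA (AA X) (BB Xt bp) (eY n) (eZ m hbp) hA := rfl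

theorem main_pos (hk : 0 < k) (hkn : k < n) (hm : 0 < m) (hB : BB Xt bp ≠ 0) {τ γ : ℝ}
    (hτ : 0 ≤ τ) (hτbp : bp = 1 - τ) (hγ : γ = ((n : ℝ) - k) / (2 * bp) + m / 2) :
    ∃ ε : ℝ, 0 < ε ∧ ε ≤ 1 ∧ ∀ (β : Fin k → ℝ) (v : ℝ), 0 < v →
      Integrable (om X Xt bp hbp hA γ τ β v) ((volume : Measure (Fin n → ℝ)).prod volume) ∧
      0 < ∫ z, om X Xt bp hbp hA γ τ β v z * Psi X Xt bp hbp hA γ ε z
        ∂((volume : Measure (Fin n → ℝ)).prod volume) := by
  have hnk : (0:ℝ) < (n : ℝ) - k := by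
    have : (k : ℝ) < n := by exact_mod_cast hkn
    linarith
  have hm' : (0:ℝ) < m := by exact_mod_cast hm
  have hne : Nonempty (Fin k) := ⟨⟨0, hk⟩⟩
  have hp0 : 0 < γ - m / 2 := by
    rw [hγ]
    have : 0 < ((n : ℝ) - k) / (2 * bp) := by positivity
    linarith
  have hγ0 : 0 < γ := by linarith
  have hγm : (m : ℝ) < 2 * γ := by linarith
  have hf1 : finrank ℝ (Fin k → ℝ) = k := by simp
  have hf2 : finrank ℝ (EuclideanSpace ℝ (Fin n)) = n := by simp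
  have hf3 : finrank ℝ (EuclideanSpace ℝ (Fin m)) = m := by simp
  have hp : γ - m / 2 = τ * (γ - m / 2) + ((finrank ℝ (EuclideanSpace ℝ (Fin n)) : ℝ) -
      finrank ℝ (Fin k → ℝ)) / 2 := by
    rw [hf1, hf2]
    have h1 : γ - m / 2 = ((n : ℝ) - k) / (2 * bp) := by rw [hγ]; ring
    have h2 : (γ - m / 2) * bp = ((n : ℝ) - k) / 2 := by
      rw [h1]
      field_simp
    have h3 : bp = 1 - τ := hτbp
    rw [h3] at h2
    linarith
  have hγ' : γ = (γ - m / 2) + (finrank ℝ (EuclideanSpace ℝ (Fin m)) : ℝ) / 2 := by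
    rw [hf3]
    ring
  have hδ : τ * γ < γ := by
    have : τ < 1 := by linarith
    nlinarith
  have hp1 : 0 ≤ τ * (γ - m / 2) := by positivity
  obtain ⟨ε, hε0, hε1, hmain⟩ := geo_main (AA X) (BB Xt bp) (eY n) (eZ m hbp)
    (volume : Measure (Fin n → ℝ)) (volume : Measure (Fin m → ℝ)) (volume : Measure (Fin k → ℝ))
    hA hB (by rw [hf1, hf2]; exact hkn) (by rw [hf3]; exact hm) hp1 hp hγ' hδ
    (SS X) (PP X) (TT X Xt bp hbp hA) (continuous_SS X).measurable (continuous_PP X).measurable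
    (continuous_TT X Xt bp hbp hA).measurable
    (fun z => SS_eq X Xt bp hbp hA z) (fun z => PP_eq X Xt bp hbp hA z) (fun z => rfl)
  refine ⟨ε, hε0, hε1, ?_⟩
  intro β v hv
  have hκ := kap_pos X Xt bp hbp hA hγm
  have hcst : 0 < (2 * Real.pi * v) ^ (-((n : ℝ) + m * bp) / 2) *
    (kap X Xt bp hbp hA γ)⁻¹ ^ τ := by
    have := Real.pi_pos
    positivity
  exact hmain β v _ (om X Xt bp hbp hA γ τ β v) hv hcst (om_eq X Xt bp hbp hA hγm β hv)

end

end MP4845
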