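import Mathlib
import Pool.Agent.Lib.MP_4845bf_pr.MainPos
import Pool.Agent.Lib.MP_4845bf_pr.AbsLog

set_option linter.unusedSectionVars false
set_option linter.unnecessarySimpa false

namespace MP4845

open MeasureTheory Module Set Filter Topology WithLp
open scoped InnerProductSpace

section

variable {n k m : ℕ} (X : Matrix (Fin n) (Fin k) ℝ) (Xt : Matrix (Fin m) (Fin k) ℝ) (α : ℝ)

/-- the integrand of the risk -/
noncomputable def hh (q : (Fin n → ℝ) → (Fin m → ℝ) → ℝ) (β : Fin k → ℝ) (v : ℝ)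
    (z : (Fin n → ℝ) × (Fin m → ℝ)) : ℝ :=
  (fAlpha α (q z.1 z.2 / normalPDF (Xt.mulVec β) v z.2) * normalPDF (Xt.mulVec β) v z.2) *
    normalPDF (X.mulVec β) v z.1

lemma risk_of_int {q : (Fin n → ℝ) → (Fin m → ℝ) → ℝ} {β : Fin k → ℝ} {v : ℝ} (hv : 0 < v)
    (h : Integrable (hh X Xt α q β v) ((volume : Measure (Fin n → ℝ)).prod volume)) :
    FiniteRisk X Xt α q β v ∧ risk X Xt α q β v = ∫ z, hh X Xt α q β v z
      ∂((volume : Measure (Fin n → ℝ)).prod volume) := by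
  have e1 : ∀ y, ∫ x, hh X Xt α q β v (y, x) =
      alphaLoss α (q y) (normalPDF (Xt.mulVec β) v) * normalPDF (X.mulVec β) v y := by
    intro y
    unfold hh alphaLoss
    simp only
    rw [integral_mul_const]
  refine ⟨⟨?_, ?_⟩, ?_⟩
  · filter_upwards [h.prod_right_ae] with y hy
    have hpos := normalPDF_pos (X.mulVec β) hv y
    unfold hh at hy
    simp only at hy
    have h2 := hy.mul_const (normalPDF (X.mulVec β) v y)⁻¹
    refine h2.congr ?_
    filter_upwards with x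
    rw [mul_assoc _ (normalPDF (X.mulVec β) v y), mul_inv_cancel₀ hpos.ne', mul_one]
  · have h2 := h.integral_prod_left
    refine h2.congr ?_
    filter_upwards with y
    exact e1 y
  · unfold risk
    rw [integral_prod _ h]
    congr 1
    ext y
    exact (e1 y).symm

lemma normalPDF_integrable {d : ℕ} (hd : 0 < d) (μ : Fin d → ℝ) {v : ℝ} (hv : 0 < v) :
    Integrable (normalPDF μ v) := by
  have hne : Nonempty (Fin d) := ⟨⟨0, hd⟩⟩
  have h1 := integrable_gauss_inj (volume : Measure (Fin d → ℝ))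
    ((WithLp.linearEquiv 2 ℝ (Fin d → ℝ)).symm.toLinearMap)
    ((WithLp.linearEquiv 2 ℝ (Fin d → ℝ)).symm.injective) μ (c := 1 / (2 * v)) (by positivity)
  unfold normalPDF
  refine (h1.const_mul ((2 * Real.pi * v) ^ (-(d : ℝ) / 2))).congr ?_
  filter_upwards with x
  congr 2
  have h2 : ‖((WithLp.linearEquiv 2 ℝ (Fin d → ℝ)).symm.toLinearMap) (x - μ)‖ ^ 2 =
      ∑ i, (x i - μ i) ^ 2 := by
    change ‖(WithLp.toLp 2 (x - μ) : EuclideanSpace ℝ (Fin d))‖ ^ 2 = _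
    rw [EuclideanSpace.norm_sq_eq]
    simp
  rw [h2]
  ring

lemma measurable_normalPDF {d : ℕ} (μ : Fin d → ℝ) (v : ℝ) : Measurable (normalPDF μ v) := by
  unfold normalPDF
  fun_prop

end

section

variable {n k m : ℕ} (X : Matrix (Fin n) (Fin k) ℝ) (Xt : Matrix (Fin m) (Fin k) ℝ) (bp : ℝ)
  (hbp : 0 < bp) (hA : Function.Injective (AA X))

lemma om_nonneg {γ τ : ℝ} (hγ : (m : ℝ) < 2 * γ) (β : Fin k → ℝ) {v : ℝ} (hv : 0 < v)
    (z : (Fin n → ℝ) × (Fin m → ℝ)) : 0 ≤ om X Xt bp hbp hA γ τ β v z := by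
  have h1 := (normalPDF_pos (Xt.mulVec β) hv z.2).le
  have h2 := (normalPDF_pos (X.mulVec β) hv z.1).le
  have h3 : 0 ≤ tden X Xt bp hbp hA γ (SS X z.1) z.1 z.2 := by
    have := SS_nonneg X z.1
    have hκ := kap_pos X Xt bp hbp hA hγ
    unfold tden
    positivity
  unfold om
  positivity

/-- form of the risk integrand for `|α| < 1` -/
lemma hh_eq_pow {α τ : ℝ} (hα : α ≠ -1) (hτ : τ = (1 + α) / 2) (hbτ : bp = 1 - τ)
    {q : (Fin n → ℝ) → (Fin m → ℝ) → ℝ} (hq : ∀ y x, 0 ≤ q y x) (β : Fin k → ℝ) {v : ℝ}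
    (hv : 0 < v) (z : (Fin n → ℝ) × (Fin m → ℝ)) :
    hh X Xt α q β v z = 4 / (1 - α ^ 2) *
      (normalPDF (X.mulVec β) v z.1 * normalPDF (Xt.mulVec β) v z.2 -
        normalPDF (Xt.mulVec β) v z.2 ^ bp * normalPDF (X.mulVec β) v z.1 *
          q z.1 z.2 ^ τ) := by
  have h1 := normalPDF_pos (Xt.mulVec β) hv z.2
  unfold hh fAlpha
  rw [if_neg hα, ← hτ, Real.div_rpow (hq _ _) h1.le]
  have h2 : normalPDF (Xt.mulVec β) v z.2 ^ bp =
      normalPDF (Xt.mulVec β) v z.2 / normalPDF (Xt.mulVec β) v z.2 ^ τ := by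
    rw [hbτ, Real.rpow_sub h1, Real.rpow_one]
  rw [h2]
  have h3 : 0 < normalPDF (Xt.mulVec β) v z.2 ^ τ := Real.rpow_pos_of_pos h1 _
  field_simp

/-- form of the risk integrand for `α = -1` -/
lemma hh_eq_log {q : (Fin n → ℝ) → (Fin m → ℝ) → ℝ} (β : Fin k → ℝ) {v : ℝ}
    (hv : 0 < v) (z : (Fin n → ℝ) × (Fin m → ℝ)) (hq : 0 < q z.1 z.2) :
    hh X Xt (-1) q β v z = (Real.log (normalPDF (Xt.mulVec β) v z.2) - Real.log (q z.1 z.2)) *
      (normalPDF (Xt.mulVec β) v z.2 * normalPDF (X.mulVec β) v z.1) := by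
  have h1 := normalPDF_pos (Xt.mulVec β) hv z.2
  unfold hh fAlpha
  rw [if_pos rfl, Real.log_div hq.ne' h1.ne']
  ring

lemma abs_log_T {S T : ℝ} (hS : 0 < S) (hST : S ≤ T) :
    |Real.log T| ≤ T + |Real.log S| := by
  have hT : 0 < T := lt_of_lt_of_le hS hST
  rcases le_total 1 T with h | h
  · rw [abs_of_nonneg (Real.log_nonneg h)]
    have := Real.log_le_sub_one_of_pos hT
    have h2 := abs_nonneg (Real.log S)
    linarith
  · have h1 : Real.log T ≤ 0 := Real.log_nonpos hT.le h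
    have h2 : Real.log S ≤ Real.log T := Real.log_le_log hS hST
    rw [abs_of_nonpos h1, abs_of_nonpos (h2.trans h1)]
    linarith

end

end MP4845
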