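import Mathlib
import Pool.Agent.Lib.MP_4845bf_pr.Risk

set_option linter.unusedSectionVars false
set_option linter.unnecessarySimpa false

namespace MP4845

open MeasureTheory Module Set Filter Topology WithLp
open scoped InnerProductSpace

section

variable {n k m : ℕ} (X : Matrix (Fin n) (Fin k) ℝ) (Xt : Matrix (Fin m) (Fin k) ℝ) (bp : ℝ)
  (hbp : 0 < bp) (hA : Function.Injective (AA X))

/-- the best invariant density (closed form) -/
noncomputable def qU (γ : ℝ) (y : Fin n → ℝ) (x : Fin m → ℝ) : ℝ :=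
  tden X Xt bp hbp hA γ (SS X y) y x

/-- the improved density -/
noncomputable def qC (γ ε : ℝ) (y : Fin n → ℝ) (x : Fin m → ℝ) : ℝ :=
  tden X Xt bp hbp hA γ (scl X ε y) y x

lemma qU_nonneg {γ : ℝ} (hγ : (m : ℝ) < 2 * γ) (y : Fin n → ℝ) (x : Fin m → ℝ) :
    0 ≤ qU X Xt bp hbp hA γ y x := by
  have := SS_nonneg X y
  have hκ := kap_pos X Xt bp hbp hA hγ
  unfold qU tden
  positivity

lemma qC_pos {γ ε : ℝ} (hγ : (m : ℝ) < 2 * γ) (hε : 0 ≤ ε) (hε1 : ε ≤ 1)
    (y : Fin n → ℝ) (x : Fin m → ℝ) : 0 < qC X Xt bp hbp hA γ ε y x :=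
  tden_pos X Xt bp hbp hA hγ (scl_pos X hε hε1 y) y x

lemma qC_pred {γ ε : ℝ} (hγ : (m : ℝ) < 2 * γ) (hε : 0 ≤ ε) (hε1 : ε ≤ 1) :
    IsPredictiveDensity (qC X Xt bp hbp hA γ ε) := by
  refine ⟨?_, fun y x => (qC_pos X Xt bp hbp hA hγ hε hε1 y x).le, fun y => ?_⟩
  · have h1 := measurable_tden X Xt bp hbp hA γ
    have h2 : Measurable (fun z : (Fin n → ℝ) × (Fin m → ℝ) => (scl X ε z.1, z)) :=
      ((measurable_scl X ε).comp measurable_fst).prodMk measurable_id
    exact h1.comp h2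
  · exact tden_integral X Xt bp hbp hA hγ (scl_pos X hε hε1 y) y

include hA in
lemma ae_prod_SS_pos (hkn : k < n) : ∀ᵐ z : (Fin n → ℝ) × (Fin m → ℝ)
    ∂((volume : Measure (Fin n → ℝ)).prod volume), 0 < SS X z.1 :=
  Measure.quasiMeasurePreserving_fst.ae (ae_SS_pos X hA hkn)

/-- comparison of the risks for `|α| < 1` -/
lemma compare_pow (hkn : k < n) (hn : 0 < n) (hm : 0 < m) {α τ γ ε : ℝ} (hα : α ≠ -1)
    (hτ : τ = (1 + α) / 2) (hbτ : bp = 1 - τ) (hτ0 : 0 < τ) (hα2 : 0 < 1 - α ^ 2)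
    (hγ : (m : ℝ) < 2 * γ) (hε : 0 ≤ ε) (hε1 : ε ≤ 1) (β : Fin k → ℝ) {v : ℝ} (hv : 0 < v)
    (hint : Integrable (om X Xt bp hbp hA γ τ β v)
      ((volume : Measure (Fin n → ℝ)).prod volume))
    (hpos : 0 < ∫ z, om X Xt bp hbp hA γ τ β v z * Psi X Xt bp hbp hA γ ε z
        ∂((volume : Measure (Fin n → ℝ)).prod volume)) :
    Integrable (hh X Xt α (qU X Xt bp hbp hA γ) β v)
      ((volume : Measure (Fin n → ℝ)).prod volume) ∧
    Integrable (hh X Xt α (qC X Xt bp hbp hA γ ε) β v)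
      ((volume : Measure (Fin n → ℝ)).prod volume) ∧
    ∫ z, hh X Xt α (qC X Xt bp hbp hA γ ε) β v z
        ∂((volume : Measure (Fin n → ℝ)).prod volume) <
      ∫ z, hh X Xt α (qU X Xt bp hbp hA γ) β v z
        ∂((volume : Measure (Fin n → ℝ)).prod volume) := by
  set ρ := ((volume : Measure (Fin n → ℝ)).prod (volume : Measure (Fin m → ℝ))) with hρ
  have hm' : (0:ℝ) < m := by exact_mod_cast hm
  have hγ0 : 0 < γ := by linarith
  have hp0 : 0 ≤ γ - m / 2 := by linarith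
  have hpp : Integrable (fun z : (Fin n → ℝ) × (Fin m → ℝ) =>
      normalPDF (X.mulVec β) v z.1 * normalPDF (Xt.mulVec β) v z.2) ρ :=
    (normalPDF_integrable hn _ hv).mul_prod (normalPDF_integrable hm _ hv)
  have hΨm := measurable_Psi X Xt bp hbp hA γ ε
  have hΨb := Psi_abs X Xt bp hbp hA (γ := γ) hε hε1 hp0 hγ0.le
  have hexpint : Integrable (fun z => om X Xt bp hbp hA γ τ β v z *
      Real.exp (τ * Psi X Xt bp hbp hA γ ε z)) ρ := by
    apply hint.mul_bdd (c := Real.exp (τ * ((γ - m / 2) + γ)))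
      ((hΨm.const_mul τ).exp).aestronglyMeasurable
    filter_upwards with z
    rw [Real.norm_of_nonneg (Real.exp_pos _).le]
    apply Real.exp_le_exp.mpr
    exact mul_le_mul_of_nonneg_left ((le_abs_self _).trans (hΨb z)) hτ0.le
  have hΨint : Integrable (fun z => om X Xt bp hbp hA γ τ β v z *
      Psi X Xt bp hbp hA γ ε z) ρ := by
    apply hint.mul_bdd (c := (γ - m / 2) + γ) hΨm.aestronglyMeasurable
    filter_upwards with z
    simpa using hΨb z
  have hU : ∀ z, hh X Xt α (qU X Xt bp hbp hA γ) β v z = 4 / (1 - α ^ 2) *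
      (normalPDF (X.mulVec β) v z.1 * normalPDF (Xt.mulVec β) v z.2 -
        om X Xt bp hbp hA γ τ β v z) := by
    intro z
    rw [hh_eq_pow X Xt bp hα hτ hbτ (qU_nonneg X Xt bp hbp hA hγ) β hv z]
    rfl
  have hC : ∀ᵐ z ∂ρ, hh X Xt α (qC X Xt bp hbp hA γ ε) β v z = 4 / (1 - α ^ 2) *
      (normalPDF (X.mulVec β) v z.1 * normalPDF (Xt.mulVec β) v z.2 -
        om X Xt bp hbp hA γ τ β v z * Real.exp (τ * Psi X Xt bp hbp hA γ ε z)) := by
    filter_upwards [ae_prod_SS_pos X (m := m) hA hkn] with z hz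
    rw [hh_eq_pow X Xt bp hα hτ hbτ (fun y x => (qC_pos X Xt bp hbp hA hγ hε hε1 y x).le) β hv z]
    have h1 : qC X Xt bp hbp hA γ ε z.1 z.2 ^ τ =
        tden X Xt bp hbp hA γ (SS X z.1) z.1 z.2 ^ τ *
          Real.exp (τ * Psi X Xt bp hbp hA γ ε z) := by
      unfold qC
      rw [tden_scl X Xt bp hbp hA hε hε1 hz z.2, Real.mul_rpow
        (tden_pos X Xt bp hbp hA hγ hz z.1 z.2).le (Real.exp_pos _).le, ← Real.exp_mul]
      congr 2
      ring
    rw [h1]
    unfold om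
    ring
  have hIU : Integrable (hh X Xt α (qU X Xt bp hbp hA γ) β v) ρ := by
    refine ((hpp.sub hint).const_mul (4 / (1 - α ^ 2))).congr ?_
    filter_upwards with z
    rw [hU z]
    rfl
  have hIC : Integrable (hh X Xt α (qC X Xt bp hbp hA γ ε) β v) ρ := by
    refine ((hpp.sub hexpint).const_mul (4 / (1 - α ^ 2))).congr ?_
    filter_upwards [hC] with z hz
    rw [hz]
    rfl
  refine ⟨hIU, hIC, ?_⟩
  rw [← sub_pos, ← integral_sub hIU hIC]
  have hle : ∫ z, 4 * τ / (1 - α ^ 2) * (om X Xt bp hbp hA γ τ β v z *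
      Psi X Xt bp hbp hA γ ε z) ∂ρ ≤
      ∫ z, (hh X Xt α (qU X Xt bp hbp hA γ) β v z -
        hh X Xt α (qC X Xt bp hbp hA γ ε) β v z) ∂ρ := by
    apply integral_mono_ae (hΨint.const_mul _) (hIU.sub hIC)
    filter_upwards [hC] with z hz
    rw [Pi.sub_apply, hU z, hz]
    have h1 := Real.add_one_le_exp (τ * Psi X Xt bp hbp hA γ ε z)
    have h2 := om_nonneg X Xt bp hbp hA (τ := τ) hγ β hv z
    have h3 : om X Xt bp hbp hA γ τ β v z * (τ * Psi X Xt bp hbp hA γ ε z) ≤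
        om X Xt bp hbp hA γ τ β v z * (Real.exp (τ * Psi X Xt bp hbp hA γ ε z) - 1) :=
      mul_le_mul_of_nonneg_left (by linarith) h2
    have h4 : (0:ℝ) ≤ 4 / (1 - α ^ 2) := by positivity
    have h5 := mul_le_mul_of_nonneg_left h3 h4
    calc 4 * τ / (1 - α ^ 2) * (om X Xt bp hbp hA γ τ β v z * Psi X Xt bp hbp hA γ ε z) =
        4 / (1 - α ^ 2) * (om X Xt bp hbp hA γ τ β v z *
          (τ * Psi X Xt bp hbp hA γ ε z)) := by ring
      _ ≤ _ := h5
      _ = _ := by ring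
  refine lt_of_lt_of_le ?_ hle
  rw [integral_const_mul]
  exact mul_pos (by positivity) hpos

/-- the log ratio is dominated -/
lemma log_bound {γ : ℝ} (hb1 : bp = 1) (hγ : (m : ℝ) < 2 * γ) (β : Fin k → ℝ) {v : ℝ}
    (hv : 0 < v) (z : (Fin n → ℝ) × (Fin m → ℝ)) (hz : 0 < SS X z.1) :
    |Real.log (normalPDF (Xt.mulVec β) v z.2) - Real.log (qU X Xt bp hbp hA γ z.1 z.2)| ≤
      (|(-(m : ℝ) / 2) * Real.log (2 * Real.pi * v)| + |Real.log (kap X Xt bp hbp hA γ)⁻¹|) +
      (1 / (2 * v) + γ) *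
        (‖iota (AA X) (BB Xt bp) ((coe' X Xt bp hbp hA z).1 - β)‖ ^ 2 + TT X Xt bp hbp hA z) +
      ((γ - m / 2) + γ) * |Real.log (SS X z.1)| := by
  have hpi := Real.pi_pos
  have hm' : (0:ℝ) ≤ m := by positivity
  have hγ0 : 0 < γ := by linarith
  have hp0 : 0 ≤ γ - m / 2 := by linarith
  have hκ := kap_pos X Xt bp hbp hA hγ
  obtain ⟨y, x⟩ := z
  simp only at hz ⊢
  have hST : SS X y ≤ TT X Xt bp hbp hA (y, x) := by
    rw [TT_eq]
    nlinarith [sq_nonneg ‖g0 X Xt bp hbp hA y + DD X Xt bp hbp hA x‖]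
  have hT : 0 < TT X Xt bp hbp hA (y, x) := lt_of_lt_of_le hz hST
  have hlT := abs_log_T hz hST
  have e1 : Real.log (normalPDF (Xt.mulVec β) v x) =
      (-(m : ℝ) / 2) * Real.log (2 * Real.pi * v) +
        (-(∑ j, (x j - Xt.mulVec β j) ^ 2) / (2 * v)) := by
    unfold normalPDF
    rw [Real.log_mul (by positivity) (Real.exp_pos _).ne', Real.log_rpow (by positivity),
      Real.log_exp]
  have e2 : Real.log (qU X Xt bp hbp hA γ y x) = Real.log (kap X Xt bp hbp hA γ)⁻¹ +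
      (γ - m / 2) * Real.log (SS X y) + (-γ) * Real.log (TT X Xt bp hbp hA (y, x)) := by
    unfold qU tden
    rw [← TT_eq, Real.log_mul (by positivity) (by positivity),
      Real.log_mul (by positivity) (by positivity), Real.log_rpow hz, Real.log_rpow hT]
  set U := ‖iota (AA X) (BB Xt bp) ((coe' X Xt bp hbp hA (y, x)).1 - β)‖ ^ 2 with hU
  have hU0 : 0 ≤ U := by positivity
  have hsum : ∑ j, (x j - Xt.mulVec β j) ^ 2 ≤ U + TT X Xt bp hbp hA (y, x) := by
    have h1 := sum_sq_eq X Xt bp hbp hA (y, x) β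
    simp only at h1
    have h2 : 0 ≤ ∑ i, (y i - X.mulVec β i) ^ 2 := Finset.sum_nonneg (fun i _ => sq_nonneg _)
    have h3 : U + TT X Xt bp hbp hA (y, x) = U + ‖(coe' X Xt bp hbp hA (y, x)).2.1‖ ^ 2 +
        ‖(coe' X Xt bp hbp hA (y, x)).2.2‖ ^ 2 := by
      unfold TT
      ring
    rw [h3, ← h1, hb1]
    linarith
  have hsum0 : 0 ≤ ∑ j, (x j - Xt.mulVec β j) ^ 2 := Finset.sum_nonneg (fun i _ => sq_nonneg _)
  rw [e1, e2]
  have h4 : |-(∑ j, (x j - Xt.mulVec β j) ^ 2) / (2 * v)| ≤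
      1 / (2 * v) * (U + TT X Xt bp hbp hA (y, x)) := by
    rw [neg_div, abs_neg, abs_of_nonneg (by positivity), div_eq_mul_one_div, mul_comm]
    exact mul_le_mul_of_nonneg_left hsum (by positivity)
  have h5 : |(γ - m / 2) * Real.log (SS X y)| ≤ (γ - m / 2) * |Real.log (SS X y)| := by
    rw [abs_mul, abs_of_nonneg hp0]
  have h6 : |(-γ) * Real.log (TT X Xt bp hbp hA (y, x))| ≤
      γ * (TT X Xt bp hbp hA (y, x) + |Real.log (SS X y)|) := by
    rw [abs_mul, abs_neg, abs_of_nonneg hγ0.le]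
    exact mul_le_mul_of_nonneg_left hlT hγ0.le
  have h7 : 0 ≤ γ * U := by positivity
  set a1 := (-(m : ℝ) / 2) * Real.log (2 * Real.pi * v)
  set a2 := -(∑ j, (x j - Xt.mulVec β j) ^ 2) / (2 * v)
  set a3 := Real.log (kap X Xt bp hbp hA γ)⁻¹
  set a4 := (γ - m / 2) * Real.log (SS X y)
  set a5 := (-γ) * Real.log (TT X Xt bp hbp hA (y, x))
  have h8 : |a1 + a2 - (a3 + a4 + a5)| ≤ |a1| + |a2| + (|a3| + |a4| + |a5|) := by
    calc |a1 + a2 - (a3 + a4 + a5)| ≤ |a1 + a2| + |a3 + a4 + a5| := abs_sub _ _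
      _ ≤ (|a1| + |a2|) + (|a3 + a4| + |a5|) := add_le_add (abs_add_le _ _) (abs_add_le _ _)
      _ ≤ |a1| + |a2| + (|a3| + |a4| + |a5|) := by linarith [abs_add_le a3 a4]
  linarith

lemma log_integrable (hk : 0 < k) (hkn : k < n) (hm : 0 < m) {γ : ℝ} (hb1 : bp = 1)
    (hγ : (m : ℝ) < 2 * γ) (β : Fin k → ℝ) {v : ℝ} (hv : 0 < v) :
    Integrable (hh X Xt (-1) (qU X Xt bp hbp hA γ) β v)
      ((volume : Measure (Fin n → ℝ)).prod volume) := by
  have hpi := Real.pi_pos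
  have hm' : (0:ℝ) < m := by exact_mod_cast hm
  have hγ0 : 0 < γ := by linarith
  have hp0 : 0 ≤ γ - m / 2 := by linarith
  have hne : Nonempty (Fin k) := ⟨⟨0, hk⟩⟩
  have hf1 : finrank ℝ (Fin k → ℝ) = k := by simp
  have hf2 : finrank ℝ (EuclideanSpace ℝ (Fin n)) = n := by simp
  have hf3 : finrank ℝ (EuclideanSpace ℝ (Fin m)) = m := by simp
  have hI := geo_log_int (AA X) (BB Xt bp) (eY n) (eZ m hbp)
    (volume : Measure (Fin n → ℝ)) (volume : Measure (Fin m → ℝ)) (volume : Measure (Fin k → ℝ))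
    hA (by rw [hf1, hf2]; exact hkn) (by rw [hf3]; exact hm)
    (SS X) (TT X Xt bp hbp hA) (fun z => SS_eq X Xt bp hbp hA z) (fun z => rfl) β hv
    (c1 := |(-(m : ℝ) / 2) * Real.log (2 * Real.pi * v)| + |Real.log (kap X Xt bp hbp hA γ)⁻¹|)
    (c2 := 1 / (2 * v) + γ) (c3 := (γ - m / 2) + γ) (by positivity) (by positivity)
    (by linarith)
  refine (hI.const_mul ((2 * Real.pi * v) ^ (-((n : ℝ) + m * bp) / 2))).mono' ?_ ?_
  · apply Measurable.aestronglyMeasurable
    have m1 : Measurable (fun z : (Fin n → ℝ) × (Fin m → ℝ) => qU X Xt bp hbp hA γ z.1 z.2) := by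
      have h1 := measurable_tden X Xt bp hbp hA γ
      have h2 : Measurable (fun z : (Fin n → ℝ) × (Fin m → ℝ) => (SS X z.1, z)) :=
        ((continuous_SS X).measurable.comp measurable_fst).prodMk measurable_id
      exact h1.comp h2
    have m2 : Measurable (fun z : (Fin n → ℝ) × (Fin m → ℝ) => normalPDF (Xt.mulVec β) v z.2) :=
      (measurable_normalPDF _ _).comp measurable_snd
    have m3 : Measurable (fun z : (Fin n → ℝ) × (Fin m → ℝ) => normalPDF (X.mulVec β) v z.1) :=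
      (measurable_normalPDF _ _).comp measurable_fst
    unfold hh fAlpha
    simp only [if_true]
    exact (((m1.div m2).log.neg).mul m2).mul m3
  · filter_upwards [ae_prod_SS_pos X (m := m) hA hkn] with z hz
    have hq : 0 < qU X Xt bp hbp hA γ z.1 z.2 := tden_pos X Xt bp hbp hA hγ hz z.1 z.2
    rw [hh_eq_log X Xt β hv z hq]
    have hb := log_bound X Xt bp hbp hA hb1 hγ β hv z hz
    have hw := weight_eq X Xt bp hbp hA hv β z.1 z.2
    have hw' : normalPDF (Xt.mulVec β) v z.2 * normalPDF (X.mulVec β) v z.1 =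
        (2 * Real.pi * v) ^ (-((n : ℝ) + m * bp) / 2) *
        (Real.exp (-‖iota (AA X) (BB Xt bp) ((coe' X Xt bp hbp hA z).1 - β)‖ ^ 2 / (2 * v)) *
          Real.exp (-(TT X Xt bp hbp hA z) / (2 * v))) := by
      have h1 : normalPDF (Xt.mulVec β) v z.2 = normalPDF (Xt.mulVec β) v z.2 ^ bp := by
        rw [hb1, Real.rpow_one]
      rw [h1, hw]
    rw [hw', norm_mul, Real.norm_eq_abs, Real.norm_of_nonneg (by positivity)]
    refine le_trans (mul_le_mul_of_nonneg_right hb (by positivity)) (le_of_eq ?_)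
    rw [← coe'_eq]
    ring

/-- comparison of the risks for `α = -1` -/
lemma compare_log (hk : 0 < k) (hkn : k < n) (hm : 0 < m) {γ ε : ℝ} (hb1 : bp = 1)
    (hγ : (m : ℝ) < 2 * γ) (hε : 0 ≤ ε) (hε1 : ε ≤ 1) (β : Fin k → ℝ) {v : ℝ} (hv : 0 < v)
    (hint : Integrable (om X Xt bp hbp hA γ 0 β v)
      ((volume : Measure (Fin n → ℝ)).prod volume))
    (hpos : 0 < ∫ z, om X Xt bp hbp hA γ 0 β v z * Psi X Xt bp hbp hA γ ε z
        ∂((volume : Measure (Fin n → ℝ)).prod volume)) :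
    Integrable (hh X Xt (-1) (qU X Xt bp hbp hA γ) β v)
      ((volume : Measure (Fin n → ℝ)).prod volume) ∧
    Integrable (hh X Xt (-1) (qC X Xt bp hbp hA γ ε) β v)
      ((volume : Measure (Fin n → ℝ)).prod volume) ∧
    ∫ z, hh X Xt (-1) (qC X Xt bp hbp hA γ ε) β v z
        ∂((volume : Measure (Fin n → ℝ)).prod volume) <
      ∫ z, hh X Xt (-1) (qU X Xt bp hbp hA γ) β v z
        ∂((volume : Measure (Fin n → ℝ)).prod volume) := by
  set ρ := ((volume : Measure (Fin n → ℝ)).prod (volume : Measure (Fin m → ℝ))) with hρ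
  have hm' : (0:ℝ) < m := by exact_mod_cast hm
  have hγ0 : 0 < γ := by linarith
  have hp0 : 0 ≤ γ - m / 2 := by linarith
  have hΨm := measurable_Psi X Xt bp hbp hA γ ε
  have hΨb := Psi_abs X Xt bp hbp hA (γ := γ) hε hε1 hp0 hγ0.le
  have hΨint : Integrable (fun z => om X Xt bp hbp hA γ 0 β v z *
      Psi X Xt bp hbp hA γ ε z) ρ := by
    apply hint.mul_bdd (c := (γ - m / 2) + γ) hΨm.aestronglyMeasurable
    filter_upwards with z
    simpa using hΨb z
  have hIU := log_integrable X Xt bp hbp hA hk hkn hm hb1 hγ β hv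
  have hC : ∀ᵐ z ∂ρ, hh X Xt (-1) (qC X Xt bp hbp hA γ ε) β v z =
      hh X Xt (-1) (qU X Xt bp hbp hA γ) β v z -
        om X Xt bp hbp hA γ 0 β v z * Psi X Xt bp hbp hA γ ε z := by
    filter_upwards [ae_prod_SS_pos X (m := m) hA hkn] with z hz
    have hq : 0 < qU X Xt bp hbp hA γ z.1 z.2 := tden_pos X Xt bp hbp hA hγ hz z.1 z.2
    rw [hh_eq_log X Xt β hv z hq,
      hh_eq_log X Xt β hv z (qC_pos X Xt bp hbp hA hγ hε hε1 z.1 z.2)]
    have h1 : Real.log (qC X Xt bp hbp hA γ ε z.1 z.2) =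
        Real.log (qU X Xt bp hbp hA γ z.1 z.2) + Psi X Xt bp hbp hA γ ε z := by
      unfold qC
      rw [tden_scl X Xt bp hbp hA hε hε1 hz z.2]
      unfold qU at hq ⊢
      rw [Real.log_mul hq.ne' (Real.exp_pos _).ne', Real.log_exp]
    have h2 : normalPDF (Xt.mulVec β) v z.2 ^ bp = normalPDF (Xt.mulVec β) v z.2 := by
      rw [hb1, Real.rpow_one]
    rw [h1]
    unfold om
    rw [h2, Real.rpow_zero]
    ring
  have hIC : Integrable (hh X Xt (-1) (qC X Xt bp hbp hA γ ε) β v) ρ := by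
    refine (hIU.sub hΨint).congr ?_
    filter_upwards [hC] with z hz
    rw [hz]
    rfl
  refine ⟨hIU, hIC, ?_⟩
  rw [integral_congr_ae hC, integral_sub hIU hΨint]
  linarith

end

section

variable {n k m : ℕ} (X : Matrix (Fin n) (Fin k) ℝ) (Xt : Matrix (Fin m) (Fin k) ℝ)

lemma AA_injective (hX : X.rank = k) : Function.Injective (AA X) := by
  have h1 : Function.Injective X.mulVecLin := by
    rw [← LinearMap.ker_eq_bot]
    have h2 := LinearMap.finrank_range_add_finrank_ker X.mulVecLin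
    rw [← Matrix.rank] at h2
    have h3 : finrank ℝ (Fin k → ℝ) = k := by simp
    rw [hX, h3] at h2
    exact Submodule.finrank_eq_zero.mp (by omega)
  intro a b hab
  apply h1
  exact (WithLp.linearEquiv 2 ℝ (Fin n → ℝ)).symm.injective hab

lemma BB_ne_zero {bp : ℝ} (hbp : 0 < bp) (hXt : Xt ≠ 0) : BB Xt bp ≠ 0 := by
  intro h
  apply hXt
  have h1 : ∀ b : Fin k → ℝ, Xt.mulVec b = 0 := by
    intro b
    have h2 : BB Xt bp b = 0 := by rw [h]; rfl
    rw [BB_apply] at h2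
    have h3 := (smul_eq_zero.mp h2).resolve_left (Real.sqrt_pos.mpr hbp).ne'
    have h4 := congrArg WithLp.ofLp h3
    simpa using h4
  ext i j
  have h5 := congrFun (h1 (Pi.single j 1)) i
  simpa using h5

theorem main_theorem (hk : 1 ≤ k) (hkn : k < n) (hm : 1 ≤ m) (hX : X.rank = k)
    (hXt : Xt ≠ 0) {α : ℝ} (hα : -1 ≤ α) (hα1 : α < 1) :
    (∀ᵐ y : Fin n → ℝ, (∀ x, 0 < bestInvariant X Xt α y x) ∧
      ∫ x, bestInvariant X Xt α y x = 1) ∧
    ∃ q : (Fin n → ℝ) → (Fin m → ℝ) → ℝ, IsPredictiveDensity q ∧ (∀ y x, 0 < q y x) ∧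
      ∀ (β : Fin k → ℝ) (v : ℝ), 0 < v →
        FiniteRisk X Xt α q β v ∧ FiniteRisk X Xt α (bestInvariant X Xt α) β v ∧
        risk X Xt α q β v < risk X Xt α (bestInvariant X Xt α) β v := by
  have hA := AA_injective X hX
  set bp : ℝ := (1 - α) / 2 with hbpd
  have hbp : 0 < bp := by rw [hbpd]; linarith
  have hbp1 : bp ≤ 1 := by rw [hbpd]; linarith
  have hB := BB_ne_zero Xt hbp hXt
  set τ : ℝ := (1 + α) / 2 with hτd
  have hτ0 : 0 ≤ τ := by rw [hτd]; linarith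
  have hbτ : bp = 1 - τ := by rw [hbpd, hτd]; ring
  have hnk : (0:ℝ) < (n : ℝ) - k := by
    have : (k : ℝ) < n := by exact_mod_cast hkn
    linarith
  have hm' : (0:ℝ) < m := by exact_mod_cast (show 0 < m by omega)
  set γ : ℝ := ((n : ℝ) - k) / (2 * bp) + m / 2 with hγd
  have hγm : (m : ℝ) < 2 * γ := by
    have : 0 < ((n : ℝ) - k) / (2 * bp) := by positivity
    rw [hγd]
    linarith
  have hq : 0 < ((n : ℝ) + m * bp - k) / 2 := by
    have : 0 < m * bp := by positivity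
    linarith
  have hγ2 : γ = (((n : ℝ) + m * bp - k) / 2) / bp := by
    rw [hγd]
    field_simp
    ring
  have hbest : ∀ y : Fin n → ℝ, 0 < SS X y → ∀ x, bestInvariant X Xt α y x =
      qU X Xt bp hbp hA γ y x := by
    intro y hy x
    exact bestInvariant_eq X Xt bp hbp hA (by omega) hbpd hγ2 hγm hq hy x
  refine ⟨?_, ?_⟩
  · filter_upwards [ae_SS_pos X hA hkn] with y hy
    constructor
    · intro x
      rw [hbest y hy x]
      exact tden_pos X Xt bp hbp hA hγm hy y x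
    · simp_rw [hbest y hy]
      exact tden_integral X Xt bp hbp hA hγm hy y
  · obtain ⟨ε, hε0, hε1, hmain⟩ := main_pos X Xt bp hbp hA (by omega) hkn (by omega) hB hτ0 hbτ
      hγd
    refine ⟨qC X Xt bp hbp hA γ ε, qC_pred X Xt bp hbp hA hγm hε0.le hε1,
      qC_pos X Xt bp hbp hA hγm hε0.le hε1, ?_⟩
    intro β v hv
    obtain ⟨hint, hpos⟩ := hmain β v hv
    have hcomp : Integrable (hh X Xt α (qU X Xt bp hbp hA γ) β v)
          ((volume : Measure (Fin n → ℝ)).prod volume) ∧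
        Integrable (hh X Xt α (qC X Xt bp hbp hA γ ε) β v)
          ((volume : Measure (Fin n → ℝ)).prod volume) ∧
        ∫ z, hh X Xt α (qC X Xt bp hbp hA γ ε) β v z
            ∂((volume : Measure (Fin n → ℝ)).prod volume) <
          ∫ z, hh X Xt α (qU X Xt bp hbp hA γ) β v z
            ∂((volume : Measure (Fin n → ℝ)).prod volume) := by
      rcases hα.eq_or_lt with h | h
      · have hb1 : bp = 1 := by rw [hbpd, ← h]; norm_num
        have hτ1 : τ = 0 := by rw [hτd, ← h]; norm_num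
        rw [hτ1] at hint hpos
        rw [← h]
        exact compare_log X Xt bp hbp hA (by omega) hkn (by omega) hb1 hγm hε0.le hε1 β hv
          hint hpos
      · have hα2 : 0 < 1 - α ^ 2 := by nlinarith
        exact compare_pow X Xt bp hbp hA hkn (by omega) (by omega) h.ne' hτd hbτ
          (by rw [hτd]; linarith) hα2 hγm hε0.le hε1 β hv hint hpos
    obtain ⟨hIU, hIC, hlt⟩ := hcomp
    have hae : hh X Xt α (bestInvariant X Xt α) β v =ᵐ[(volume : Measure (Fin n → ℝ)).prod volume]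
        hh X Xt α (qU X Xt bp hbp hA γ) β v := by
      filter_upwards [ae_prod_SS_pos X (m := m) hA hkn] with z hz
      unfold hh
      rw [hbest z.1 hz z.2]
    have hIB := hIU.congr hae.symm
    obtain ⟨f1, r1⟩ := risk_of_int X Xt α hv hIC
    obtain ⟨f2, r2⟩ := risk_of_int X Xt α hv hIB
    refine ⟨f1, f2, ?_⟩
    rw [r1, r2, integral_congr_ae hae]
    exact hlt

end

end MP4845
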