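import Mathlib
import Pool.Agent.Lib.MP_4845bf_pr.Beta

/-!
Laws of the two scale ratios, integrability and tails (Q2).
-/

set_option linter.unusedSectionVars false
set_option linter.unnecessarySimpa false

namespace MP4845

open MeasureTheory Module Set Filter Topology

/-- radial form of the weight -/
lemma radial_wt {N m : ℕ} (hN : 0 < N) {p1 γ : ℝ} (hγ : γ = p1 + N / 2 + m / 2)
    {ρ : ℝ} (hρ0 : 0 < ρ) :
    ρ ^ (N - 1) * wt p1 (N + m) ρ = ρ ^ (2 * γ - m - 1) * (1 + ρ ^ 2) ^ (-γ) := by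
  have hpos : 0 < 1 + ρ ^ 2 := by positivity
  unfold wt sz lam
  rw [Real.norm_of_nonneg hρ0.le]
  rw [Real.div_rpow (by positivity) (by positivity)]
  have a1 : (ρ ^ 2) ^ p1 = ρ ^ (2 * p1) := by
    rw [← Real.rpow_natCast ρ 2, ← Real.rpow_mul hρ0.le]
    norm_num
  have a2 : ((√(1 + ρ ^ 2))⁻¹) ^ (N + m) = (1 + ρ ^ 2) ^ (-((N + m : ℝ) / 2)) := by
    rw [Real.sqrt_eq_rpow, ← Real.rpow_neg hpos.le, ← Real.rpow_natCast,
      ← Real.rpow_mul hpos.le]
    congr 1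
    push_cast
    ring
  have a3 : ρ ^ (N - 1) = ρ ^ ((N : ℝ) - 1) := by
    rw [← Real.rpow_natCast, Nat.cast_sub hN]
    simp
  rw [a1, a2, a3]
  have a4 : ρ ^ (2 * γ - m - 1) = ρ ^ ((N : ℝ) - 1) * ρ ^ (2 * p1) := by
    rw [← Real.rpow_add hρ0]
    congr 1
    rw [hγ]
    ring
  have a5 : (1 + ρ ^ 2) ^ (-γ) = ((1 + ρ ^ 2) ^ p1)⁻¹ *
      (1 + ρ ^ 2) ^ (-((N + m : ℝ) / 2)) := by
    rw [← Real.rpow_neg hpos.le, ← Real.rpow_add hpos]
    congr 1
    rw [hγ]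
    ring
  rw [a4, a5]
  field_simp

/-- one dimensional integrability -/
lemma integrableOn_radial_one {a b : ℝ} (ha : 0 < a) (hab : a < 2 * b) :
    IntegrableOn (fun y : ℝ => y ^ (a - 1) * (1 + y ^ 2) ^ (-b)) (Ioi 0) := by
  have hb : 0 < b := by linarith
  have hm : AEStronglyMeasurable (fun y : ℝ => y ^ (a - 1) * (1 + y ^ 2) ^ (-b))
      (volume : Measure ℝ) := by
    apply Measurable.aestronglyMeasurable
    exact (measurable_id.pow_const _).mul
      ((by fun_prop : Measurable fun y : ℝ => 1 + y ^ 2).pow_const _)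
  have h1 : IntegrableOn (fun y : ℝ => y ^ (a - 1) * (1 + y ^ 2) ^ (-b)) (Ioc 0 1) := by
    have h2 : IntegrableOn (fun y : ℝ => y ^ (a - 1)) (Ioc 0 1) := by
      have := intervalIntegral.intervalIntegrable_rpow' (a := 0) (b := 1) (r := a - 1)
        (by linarith)
      rwa [intervalIntegrable_iff_integrableOn_Ioc_of_le zero_le_one] at this
    refine Integrable.mono' h2 hm.restrict ?_
    filter_upwards [ae_restrict_mem measurableSet_Ioc] with y hy
    have hy0 : 0 < y := hy.1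
    rw [Real.norm_of_nonneg (by positivity)]
    have h3 : (1 + y ^ 2) ^ (-b) ≤ 1 :=
      Real.rpow_le_one_of_one_le_of_nonpos (by nlinarith) (by linarith)
    have h4 : 0 ≤ y ^ (a - 1) := by positivity
    nlinarith
  have h2 : IntegrableOn (fun y : ℝ => y ^ (a - 1) * (1 + y ^ 2) ^ (-b)) (Ioi 1) := by
    have h3 : IntegrableOn (fun y : ℝ => y ^ (a - 1 - 2 * b)) (Ioi 1) :=
      integrableOn_Ioi_rpow_of_lt (by linarith) one_pos
    refine Integrable.mono' h3 hm.restrict ?_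
    filter_upwards [ae_restrict_mem measurableSet_Ioi] with y hy
    have hy1 : (1:ℝ) < y := hy
    have hy0 : 0 < y := by linarith
    have h6 : y ^ (a - 1 - 2 * b) = y ^ (a - 1) / y ^ (2 * b) := Real.rpow_sub hy0 _ _
    rw [Real.norm_of_nonneg (by positivity), h6]
    have h4 : (1 + y ^ 2) ^ (-b) ≤ (y ^ 2) ^ (-b) :=
      Real.rpow_le_rpow_of_nonpos (by positivity) (by linarith) (by linarith)
    have h5 : (y ^ 2) ^ (-b) = (y ^ (2 * b))⁻¹ := by
      rw [← Real.rpow_natCast y 2, ← Real.rpow_mul hy0.le, ← Real.rpow_neg hy0.le]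
      congr 1
      push_cast
      ring
    rw [h5] at h4
    calc y ^ (a - 1) * (1 + y ^ 2) ^ (-b) ≤ y ^ (a - 1) * (y ^ (2 * b))⁻¹ := by gcongr
      _ = y ^ (a - 1) / y ^ (2 * b) := by rw [div_eq_mul_inv]
  have h3 : Ioi (0:ℝ) = Ioc 0 1 ∪ Ioi 1 := (Ioc_union_Ioi_eq_Ioi zero_le_one).symm
  rw [h3]
  exact h1.union h2

section

variable {R V : Type*} [NormedAddCommGroup R] [NormedSpace ℝ R] [FiniteDimensional ℝ R]
  [MeasurableSpace R] [BorelSpace R] [Nontrivial R]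
  [NormedAddCommGroup V] [NormedSpace ℝ V] [FiniteDimensional ℝ V]
  [MeasurableSpace V] [BorelSpace V] [Nontrivial V]

/-- the weight is integrable against a negative power of `s` -/
lemma integrable_wt_sz (μ : Measure R) [μ.IsAddHaarMeasure] {p1 : ℝ} (hp1 : 0 ≤ p1) {m : ℕ}
    (hm : 0 < m) :
    Integrable (fun z : R => wt p1 (finrank ℝ R + m) z * sz z ^ (-(1 / 4) : ℝ)) μ := by
  have hN : 0 < finrank ℝ R := finrank_pos
  have hN' : (1:ℝ) ≤ finrank ℝ R := by exact_mod_cast hN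
  have hm' : (0:ℝ) < m := by exact_mod_cast hm
  let f : ℝ → ℝ := fun ρ => wt p1 (finrank ℝ R + m) ρ * sz ρ ^ (-(1 / 4) : ℝ)
  have hf : ∀ z : R, f ‖z‖ = wt p1 (finrank ℝ R + m) z * sz z ^ (-(1 / 4) : ℝ) := by
    intro z
    simp only [f, wt, sz, lam, norm_norm]
  have h1 := (integrable_fun_norm_addHaar μ (f := f))
  simp only [hf] at h1
  rw [h1]
  set γ : ℝ := p1 + finrank ℝ R / 2 + m / 2 with hγ
  have h2 : IntegrableOn (fun y : ℝ => y ^ ((2 * γ - m - 1 / 2) - 1) *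
      (1 + y ^ 2) ^ (-(γ - 1 / 4))) (Ioi 0) := by
    apply integrableOn_radial_one
    · rw [hγ]; linarith
    · linarith
  refine h2.congr_fun ?_ measurableSet_Ioi
  intro y hy
  have hy0 : (0:ℝ) < y := hy
  have hpos : 0 < 1 + y ^ 2 := by positivity
  simp only [smul_eq_mul, f]
  rw [← mul_assoc, radial_wt hN hγ hy0]
  have e1 : sz y ^ (-(1 / 4) : ℝ) = y ^ (-(1 / 2) : ℝ) * (1 + y ^ 2) ^ (1 / 4 : ℝ) := by
    unfold sz
    rw [Real.norm_of_nonneg hy0.le, Real.div_rpow (by positivity) (by positivity),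
      Real.rpow_neg hpos.le, div_inv_eq_mul, ← Real.rpow_natCast y 2, ← Real.rpow_mul hy0.le]
    norm_num
  rw [e1]
  have e2 : y ^ ((2 * γ - m - 1 / 2) - 1) = y ^ (2 * γ - m - 1) * y ^ (-(1 / 2) : ℝ) := by
    rw [← Real.rpow_add hy0]
    congr 1
    ring
  have e3 : (1 + y ^ 2) ^ (-(γ - 1 / 4)) = (1 + y ^ 2) ^ (-γ) * (1 + y ^ 2) ^ (1 / 4 : ℝ) := by
    rw [← Real.rpow_add hpos]
    congr 1
    ring
  rw [e2, e3]
  ring

/-- the two ratios have the same law up to constants -/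
lemma law_eq (μ : Measure R) [μ.IsAddHaarMeasure] (ν : Measure V) [ν.IsAddHaarMeasure]
    {p1 γ : ℝ} (hγ : γ = p1 + finrank ℝ R / 2 + finrank ℝ V / 2) :
    ∃ c1 c2 : ℝ, 0 < c1 ∧ 0 < c2 ∧ ∀ F : ℝ → ℝ,
      c1 * ∫ z : R, wt p1 (finrank ℝ R + finrank ℝ V) z * F (sz z) ∂μ =
      c2 * ∫ t : V, (1 + ‖t‖ ^ 2) ^ (-γ) * F (1 / (1 + ‖t‖ ^ 2)) ∂ν := by
  have hN : 0 < finrank ℝ R := finrank_pos
  have hm : 0 < finrank ℝ V := finrank_pos
  have hN' : (0:ℝ) < finrank ℝ R := by exact_mod_cast hN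
  have hm' : (0:ℝ) < finrank ℝ V := by exact_mod_cast hm
  have hbR : 0 < μ.real (Metric.ball (0:R) 1) := by
    rw [measureReal_def]
    exact ENNReal.toReal_pos (Metric.measure_ball_pos μ 0 one_pos).ne' measure_ball_lt_top.ne
  have hbV : 0 < ν.real (Metric.ball (0:V) 1) := by
    rw [measureReal_def]
    exact ENNReal.toReal_pos (Metric.measure_ball_pos ν 0 one_pos).ne' measure_ball_lt_top.ne
  refine ⟨finrank ℝ V * ν.real (Metric.ball (0:V) 1), finrank ℝ R * μ.real (Metric.ball (0:R) 1),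
    by positivity, by positivity, ?_⟩
  intro F
  let f1 : ℝ → ℝ := fun ρ => wt p1 (finrank ℝ R + finrank ℝ V) ρ * F (sz ρ)
  have hf1 : ∀ z : R, f1 ‖z‖ = wt p1 (finrank ℝ R + finrank ℝ V) z * F (sz z) := by
    intro z
    simp only [f1, wt, sz, lam, norm_norm]
  let f2 : ℝ → ℝ := fun y => (1 + y ^ 2) ^ (-γ) * F (1 / (1 + y ^ 2))
  have h1 := integral_fun_norm_addHaar μ f1
  have h2 := integral_fun_norm_addHaar ν f2
  simp only [hf1] at h1
  simp only [f2] at h2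
  rw [h1, h2]
  have e1 : ∫ y in Ioi (0:ℝ), y ^ (finrank ℝ R - 1) • f1 y =
      ∫ y in Ioi (0:ℝ), y ^ (2 * γ - finrank ℝ V - 1) * (1 + y ^ 2) ^ (-γ) *
        F (y ^ 2 / (1 + y ^ 2)) := by
    apply setIntegral_congr_fun measurableSet_Ioi
    intro y hy
    have hy0 : (0:ℝ) < y := hy
    simp only [smul_eq_mul, f1]
    rw [← mul_assoc, radial_wt hN hγ hy0]
    congr 2
    unfold sz
    rw [Real.norm_of_nonneg hy0.le]
  have e2 : ∫ y in Ioi (0:ℝ), y ^ (finrank ℝ V - 1) • ((1 + y ^ 2) ^ (-γ) *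
      F (1 / (1 + y ^ 2))) =
      ∫ y in Ioi (0:ℝ), y ^ (2 * γ - finrank ℝ V - 1) * (1 + y ^ 2) ^ (-γ) *
        F (y ^ 2 / (1 + y ^ 2)) := by
    have h3 := integral_comp_rpow_Ioi (fun y : ℝ => y ^ (finrank ℝ V - 1) • ((1 + y ^ 2) ^ (-γ) *
      F (1 / (1 + y ^ 2)))) (p := -1) (by norm_num)
    rw [← h3]
    apply setIntegral_congr_fun measurableSet_Ioi
    intro y hy
    have hy0 : (0:ℝ) < y := hy
    have hpos : 0 < 1 + y ^ 2 := by positivity
    simp only [smul_eq_mul]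
    have a1 : (y ^ (-1:ℝ)) = y⁻¹ := Real.rpow_neg_one y
    rw [a1]
    have a2 : 1 + (y⁻¹) ^ 2 = (1 + y ^ 2) / y ^ 2 := by
      field_simp
      ring
    rw [a2]
    have a3 : 1 / ((1 + y ^ 2) / y ^ 2) = y ^ 2 / (1 + y ^ 2) := by
      rw [one_div, inv_div]
    rw [a3, Real.div_rpow hpos.le (by positivity)]
    have a4 : (y ^ 2) ^ (-γ) = y ^ (-(2 * γ)) := by
      rw [← Real.rpow_natCast y 2, ← Real.rpow_mul hy0.le]
      congr 1
      push_cast
      ring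
    rw [a4]
    have a5 : (y⁻¹) ^ (finrank ℝ V - 1) = y ^ (-((finrank ℝ V : ℝ) - 1)) := by
      rw [inv_pow, ← Real.rpow_natCast, Nat.cast_sub hm, ← Real.rpow_neg hy0.le]
      simp
    rw [a5]
    have a6 : y ^ (2 * γ - finrank ℝ V - 1) =
        y ^ ((-1:ℝ) - 1) * y ^ (-((finrank ℝ V : ℝ) - 1)) / y ^ (-(2 * γ)) := by
      rw [← Real.rpow_add hy0, ← Real.rpow_sub hy0]
      congr 1
      ring
    rw [a6]
    have a7 : |(-1:ℝ)| = 1 := by norm_num
    rw [a7]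
    ring
  rw [e1, e2]
  simp only [nsmul_eq_mul, smul_eq_mul]
  ring

end

end MP4845
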