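import Mathlib
import Pool.Agent.Lib.MP_4845bf_pr.Q2Law
import Pool.Agent.Lib.MP_4845bf_pr.Mono

/-!
The two finite measures behind the resampling step (Q2).
-/

set_option linter.unusedSectionVars false
set_option linter.unnecessarySimpa false

namespace MP4845

open MeasureTheory Module Set Filter Topology
open scoped ENNReal NNReal

section

variable {R V : Type*} [NormedAddCommGroup R] [NormedSpace ℝ R] [FiniteDimensional ℝ R]
  [MeasurableSpace R] [BorelSpace R] [Nontrivial R]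
  [NormedAddCommGroup V] [NormedSpace ℝ V] [FiniteDimensional ℝ V]
  [MeasurableSpace V] [BorelSpace V] [Nontrivial V]

/-- law of the standardised future residual, up to a constant -/
noncomputable def Tm (ν : Measure V) (γ : ℝ) : Measure V :=
  ν.withDensity (fun t => ENNReal.ofReal ((1 + ‖t‖ ^ 2) ^ (-γ)))

/-- law of `z`, up to a constant -/
noncomputable def Zm (μ : Measure R) (p1 : ℝ) (m : ℕ) : Measure R :=
  μ.withDensity (fun z => ENNReal.ofReal (wt p1 (finrank ℝ R + m) z))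

lemma measurable_tw (γ : ℝ) : Measurable (fun t : V => (1 + ‖t‖ ^ 2) ^ (-γ)) :=
  (by fun_prop : Measurable fun t : V => 1 + ‖t‖ ^ 2).pow_const _

lemma integrable_Tm (ν : Measure V) (γ : ℝ) (f : V → ℝ) :
    Integrable f (Tm ν γ) ↔ Integrable (fun t => (1 + ‖t‖ ^ 2) ^ (-γ) * f t) ν := by
  unfold Tm
  rw [integrable_withDensity_iff_integrable_smul' (measurable_tw γ).ennreal_ofReal
    (Filter.Eventually.of_forall (fun _ => ENNReal.ofReal_lt_top))]
  apply integrable_congr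
  filter_upwards with t
  rw [ENNReal.toReal_ofReal (by positivity)]
  rfl

lemma integral_Tm (ν : Measure V) (γ : ℝ) (f : V → ℝ) :
    ∫ t, f t ∂(Tm ν γ) = ∫ t, (1 + ‖t‖ ^ 2) ^ (-γ) * f t ∂ν := by
  unfold Tm
  rw [integral_withDensity_eq_integral_toReal_smul (measurable_tw γ).ennreal_ofReal
    (Filter.Eventually.of_forall (fun _ => ENNReal.ofReal_lt_top))]
  apply integral_congr_ae
  filter_upwards with t
  rw [ENNReal.toReal_ofReal (by positivity)]
  rfl

lemma integrable_Zm (μ : Measure R) (p1 : ℝ) (m : ℕ) (f : R → ℝ) :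
    Integrable f (Zm μ p1 m) ↔ Integrable (fun z => wt p1 (finrank ℝ R + m) z * f z) μ := by
  unfold Zm
  rw [integrable_withDensity_iff_integrable_smul' (measurable_wt _ _).ennreal_ofReal
    (Filter.Eventually.of_forall (fun _ => ENNReal.ofReal_lt_top))]
  apply integrable_congr
  filter_upwards with t
  rw [ENNReal.toReal_ofReal (wt_nonneg _ _ _)]
  rfl

lemma integral_Zm (μ : Measure R) (p1 : ℝ) (m : ℕ) (f : R → ℝ) :
    ∫ z, f z ∂(Zm μ p1 m) = ∫ z, wt p1 (finrank ℝ R + m) z * f z ∂μ := by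
  unfold Zm
  rw [integral_withDensity_eq_integral_toReal_smul (measurable_wt _ _).ennreal_ofReal
    (Filter.Eventually.of_forall (fun _ => ENNReal.ofReal_lt_top))]
  apply integral_congr_ae
  filter_upwards with t
  rw [ENNReal.toReal_ofReal (wt_nonneg _ _ _)]
  rfl

lemma integrable_tw (ν : Measure V) [ν.IsAddHaarMeasure] {γ : ℝ}
    (hγ : (finrank ℝ V : ℝ) + 1 ≤ 2 * γ) :
    Integrable (fun t : V => (1 + ‖t‖ ^ 2) ^ (-(γ - 1 / 4))) ν := by
  have h2 : Integrable (fun v : V => (1 + ‖v‖ ^ 2) ^ (-(2 * γ - 1 / 2) / 2)) ν := by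
    apply integrable_rpow_neg_one_add_norm_sq
    linarith
  refine h2.congr ?_
  filter_upwards with v
  congr 1
  ring

/-- (T1) -/
lemma Tm_quarter (ν : Measure V) [ν.IsAddHaarMeasure] {γ : ℝ}
    (hγ : (finrank ℝ V : ℝ) + 1 ≤ 2 * γ) :
    Integrable (fun t : V => (1 + ‖t‖ ^ 2) ^ (1 / 4 : ℝ)) (Tm ν γ) := by
  rw [integrable_Tm]
  refine (integrable_tw ν hγ).congr ?_
  filter_upwards with t
  rw [← Real.rpow_add (by positivity)]
  congr 1
  ring

lemma Tm_finite (ν : Measure V) [ν.IsAddHaarMeasure] {γ : ℝ}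
    (hγ : (finrank ℝ V : ℝ) + 1 ≤ 2 * γ) : IsFiniteMeasure (Tm ν γ) := by
  have h1 : Integrable (fun _ : V => (1:ℝ)) (Tm ν γ) := by
    refine (Tm_quarter ν hγ).mono' aestronglyMeasurable_const ?_
    filter_upwards with t
    rw [norm_one]
    exact Real.one_le_rpow (by nlinarith [sq_nonneg ‖t‖]) (by norm_num)
  rw [integrable_const_iff] at h1
  simpa using h1

/-- (Z1) -/
lemma Zm_quarter (μ : Measure R) [μ.IsAddHaarMeasure] {p1 : ℝ} (hp1 : 0 ≤ p1) {m : ℕ}
    (hm : 0 < m) : Integrable (fun z : R => sz z ^ (-(1 / 4) : ℝ)) (Zm μ p1 m) := by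
  rw [integrable_Zm]
  exact integrable_wt_sz μ hp1 hm

lemma Zm_finite (μ : Measure R) [μ.IsAddHaarMeasure] {p1 : ℝ} (hp1 : 0 ≤ p1) {m : ℕ}
    (hm : 0 < m) : IsFiniteMeasure (Zm μ p1 m) := by
  have h1 : Integrable (fun _ : R => (1:ℝ)) (Zm μ p1 m) := by
    rw [integrable_Zm]
    refine (integrable_wt μ hp1 hm).congr ?_
    filter_upwards with z
    ring
  rw [integrable_const_iff] at h1
  simpa using h1

/-- (T2) -/
lemma Tm_neg (ν : Measure V) [ν.IsAddHaarMeasure] (γ : ℝ) (f : V → ℝ) :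
    ∫ t, f (-t) ∂(Tm ν γ) = ∫ t, f t ∂(Tm ν γ) := by
  rw [integral_Tm, integral_Tm, ← integral_neg_eq_self (fun t => (1 + ‖t‖ ^ 2) ^ (-γ) * f t)]
  simp only [norm_neg]

lemma Tm_neg_int (ν : Measure V) [ν.IsAddHaarMeasure] (γ : ℝ) {f : V → ℝ}
    (hf : Integrable f (Tm ν γ)) : Integrable (fun t => f (-t)) (Tm ν γ) := by
  rw [integrable_Tm] at hf ⊢
  have := hf.comp_neg
  simpa only [norm_neg] using this

/-- (T4) -/
lemma Tm_pos (ν : Measure V) [ν.IsAddHaarMeasure] (γ : ℝ) {U : Set V} (hU : IsOpen U)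
    (hne : U.Nonempty) : 0 < Tm ν γ U := by
  unfold Tm
  rw [withDensity_apply _ hU.measurableSet]
  have h1 := hU.measure_pos ν hne
  rw [lintegral_pos_iff_support (measurable_tw γ).ennreal_ofReal]
  have hs : Function.support (fun t : V => ENNReal.ofReal ((1 + ‖t‖ ^ 2) ^ (-γ))) = univ := by
    ext t
    simp only [Function.mem_support, mem_univ, iff_true, ne_eq, ENNReal.ofReal_eq_zero, not_le]
    positivity
  rw [hs, Measure.restrict_apply_univ]
  exact h1

/-- (Z3) -/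
lemma Zm_pos (μ : Measure R) [μ.IsAddHaarMeasure] (p1 : ℝ) (m : ℕ) {U : Set R} (hU : IsOpen U)
    (hne : U.Nonempty) : 0 < Zm μ p1 m U := by
  unfold Zm
  rw [withDensity_apply _ hU.measurableSet]
  have h1 := hU.measure_pos μ hne
  rw [lintegral_pos_iff_support (measurable_wt _ _).ennreal_ofReal]
  have hs : {z : R | z ≠ 0} ⊆
      Function.support (fun z : R => ENNReal.ofReal (wt p1 (finrank ℝ R + m) z)) := by
    intro z hz
    simp only [Function.mem_support, ne_eq, ENNReal.ofReal_eq_zero, not_le]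
    exact wt_pos _ _ hz
  have h2 : (μ.restrict U) {z : R | z ≠ 0} = μ U := by
    have h3 : ∀ᵐ z ∂(μ.restrict U), z ≠ 0 := ae_restrict_of_ae (ae_ne_zero μ)
    rw [← Measure.restrict_apply_univ U]
    exact measure_congr (by
      filter_upwards [h3] with z hz
      exact propext ⟨fun _ => trivial, fun _ => hz⟩)
  refine lt_of_lt_of_le ?_ (measure_mono hs)
  rw [h2]
  exact h1

/-- (Z2) -/
lemma Zm_ae (μ : Measure R) [μ.IsAddHaarMeasure] (p1 : ℝ) (m : ℕ) :
    ∀ᵐ z ∂(Zm μ p1 m), z ≠ 0 :=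
  (withDensity_absolutelyContinuous μ _).ae_le (ae_ne_zero μ)

/-- a logarithm bound -/
lemma abs_log_le_quarter {y : ℝ} (hy : 0 < y) (hy1 : y ≤ 1) :
    |Real.log y| ≤ 4 * y ^ (-(1 / 4) : ℝ) := by
  have h0 : Real.log y ≤ 0 := Real.log_nonpos hy.le hy1
  rw [abs_of_nonpos h0]
  have h3 : Real.log (y ^ (-(1/4) : ℝ)) = -(1/4) * Real.log y := Real.log_rpow hy _
  have h4 : Real.log (y ^ (-(1/4) : ℝ)) ≤ y ^ (-(1/4) : ℝ) := by
    linarith [Real.log_le_sub_one_of_pos (Real.rpow_pos_of_pos hy (-(1/4) : ℝ))]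
  linarith

lemma log_le_quarter {y : ℝ} (hy : 1 ≤ y) :
    Real.log y ≤ 4 * y ^ (1 / 4 : ℝ) := by
  have hy0 : 0 < y := by linarith
  have h3 : Real.log (y ^ (1/4 : ℝ)) = (1/4) * Real.log y := Real.log_rpow hy0 _
  have h4 : Real.log (y ^ (1/4 : ℝ)) ≤ y ^ (1/4 : ℝ) := by
    linarith [Real.log_le_sub_one_of_pos (Real.rpow_pos_of_pos hy0 (1/4 : ℝ))]
  linarith

lemma Tm_log (ν : Measure V) [ν.IsAddHaarMeasure] {γ : ℝ}
    (hγ : (finrank ℝ V : ℝ) + 1 ≤ 2 * γ) :
    Integrable (fun t : V => Real.log (1 + ‖t‖ ^ 2)) (Tm ν γ) := by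
  refine ((Tm_quarter ν hγ).const_mul 4).mono' ?_ ?_
  · apply Measurable.aestronglyMeasurable
    fun_prop
  · filter_upwards with t
    have h1 : 1 ≤ 1 + ‖t‖ ^ 2 := by nlinarith [sq_nonneg ‖t‖]
    rw [Real.norm_of_nonneg (Real.log_nonneg h1)]
    exact log_le_quarter h1

lemma Zm_log (μ : Measure R) [μ.IsAddHaarMeasure] {p1 : ℝ} (hp1 : 0 ≤ p1) {m : ℕ}
    (hm : 0 < m) : Integrable (fun z : R => Real.log (sz z)) (Zm μ p1 m) := by
  refine ((Zm_quarter μ hp1 hm).const_mul 4).mono' ?_ ?_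
  · exact (continuous_sz.measurable.log).aestronglyMeasurable
  · filter_upwards [Zm_ae μ p1 m] with z hz
    exact abs_log_le_quarter (sz_pos hz) (sz_lt_one z).le

/-- (E) mean zero of `log ρ` -/
lemma mean_log_zero (μ : Measure R) [μ.IsAddHaarMeasure] (ν : Measure V) [ν.IsAddHaarMeasure]
    {p1 γ : ℝ} (hγ : γ = p1 + finrank ℝ R / 2 + finrank ℝ V / 2) :
    (∫ z : R, Real.log (sz z) ∂(Zm μ p1 (finrank ℝ V))) * (Tm ν γ).real univ +
      (Zm μ p1 (finrank ℝ V)).real univ * ∫ t : V, Real.log (1 + ‖t‖ ^ 2) ∂(Tm ν γ) = 0 := by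
  obtain ⟨c1, c2, hc1, hc2, h⟩ := law_eq (R := R) (V := V) μ ν hγ
  have h1 := h (fun _ => 1)
  have h2 := h Real.log
  have e1 : (Tm ν γ : Measure V).real univ = ∫ t : V, (1 + ‖t‖ ^ 2) ^ (-γ) * 1 ∂ν := by
    rw [← integral_Tm]
    simp
  have e2 : (Zm μ p1 (finrank ℝ V)).real univ =
      ∫ z : R, wt p1 (finrank ℝ R + finrank ℝ V) z * 1 ∂μ := by
    rw [← integral_Zm]
    simp
  have e3 : ∫ t : V, (1 + ‖t‖ ^ 2) ^ (-γ) * Real.log (1 / (1 + ‖t‖ ^ 2)) ∂ν =
      -∫ t : V, Real.log (1 + ‖t‖ ^ 2) ∂(Tm ν γ) := by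
    rw [integral_Tm, ← integral_neg]
    congr 1
    ext t
    rw [one_div, Real.log_inv]
    ring
  rw [e3, ← integral_Zm] at h2
  rw [← e1, ← e2] at h1
  set a := ∫ z : R, Real.log (sz z) ∂(Zm μ p1 (finrank ℝ V))
  set b := ∫ t : V, Real.log (1 + ‖t‖ ^ 2) ∂(Tm ν γ)
  set A := (Zm μ p1 (finrank ℝ V)).real univ
  set B := (Tm ν γ : Measure V).real univ
  -- c1 * A = c2 * B, c1 * a = - c2 * b
  have h3 : c1 * (a * B + A * b) = 0 := by
    calc c1 * (a * B + A * b) = (c1 * a) * B + (c1 * A) * b := by ring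
      _ = 0 := by rw [h2, h1]; ring
  exact (mul_eq_zero.mp h3).resolve_left hc1.ne'

/-- (T3) tail regularity -/
lemma Tm_tail (ν : Measure V) [ν.IsAddHaarMeasure] {γ : ℝ}
    (hγ : (finrank ℝ V : ℝ) + 1 ≤ 2 * γ) :
    ∃ C : ℝ, 0 < C ∧ ∀ x : ℝ, 1 / 2 ≤ x →
      ∫ t : V, min (‖t‖ ^ 2 / x) ((‖t‖ ^ 2 / x) ^ (1 / 4 : ℝ)) ∂(Tm ν γ) ≤
        C * ∫ t : V, min (‖t‖ ^ 2 / x) 1 ∂(Tm ν γ) := by
  have hfin := Tm_finite ν hγ
  have hm0 : (0:ℝ) ≤ finrank ℝ V := by positivity
  have hγ0 : 0 < γ := by linarith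
  have hq := Tm_quarter ν hγ
  let S : Set V := {u | 1 ≤ ‖u‖}
  have hSm : MeasurableSet S := measurableSet_le measurable_const measurable_norm
  let B1 : ℝ := ∫ u : V, S.indicator (fun u => (1 + ‖u‖ ^ 2) ^ (-γ) * (‖u‖ ^ 2) ^ (1 / 4 : ℝ)) u ∂ν
  let B2 : ℝ := ∫ u : V, S.indicator (fun u => (1 + ‖u‖ ^ 2) ^ (-γ)) u ∂ν
  have hi1 : Integrable (fun u : V => (1 + ‖u‖ ^ 2) ^ (-γ) * (‖u‖ ^ 2) ^ (1 / 4 : ℝ)) ν := by
    refine (integrable_tw ν hγ).mono' ?_ ?_
    · exact ((measurable_tw γ).mul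
        ((by fun_prop : Measurable fun t : V => ‖t‖ ^ 2).pow_const _)).aestronglyMeasurable
    · filter_upwards with u
      rw [Real.norm_of_nonneg (by positivity)]
      have h1 : (‖u‖ ^ 2) ^ (1 / 4 : ℝ) ≤ (1 + ‖u‖ ^ 2) ^ (1 / 4 : ℝ) :=
        Real.rpow_le_rpow (by positivity) (by linarith) (by norm_num)
      have h2 : (1 + ‖u‖ ^ 2) ^ (-(γ - 1 / 4)) = (1 + ‖u‖ ^ 2) ^ (-γ) *
          (1 + ‖u‖ ^ 2) ^ (1 / 4 : ℝ) := by
        rw [← Real.rpow_add (by positivity)]
        congr 1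
        ring
      rw [h2]
      gcongr
  have hi2 : Integrable (fun u : V => (1 + ‖u‖ ^ 2) ^ (-γ)) ν := by
    have h1 : Integrable (fun _ : V => (1:ℝ)) (Tm ν γ) := integrable_const 1
    rw [integrable_Tm] at h1
    simpa using h1
  have hB1 : 0 ≤ B1 := by
    apply integral_nonneg
    intro u
    apply indicator_nonneg
    intro u _
    positivity
  have hB2 : 0 < B2 := by
    simp only [B2]
    rw [integral_pos_iff_support_of_nonneg]
    · have hs : {u : V | 1 < ‖u‖} ⊆ Function.support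
          (S.indicator (fun u => (1 + ‖u‖ ^ 2) ^ (-γ))) := by
        intro u hu
        have hu1 : 1 < ‖u‖ := hu
        rw [Function.mem_support, indicator_of_mem (show u ∈ S from hu1.le)]
        positivity
      have hopen : IsOpen {u : V | 1 < ‖u‖} := isOpen_lt continuous_const continuous_norm
      have hne : {u : V | 1 < ‖u‖}.Nonempty := by
        obtain ⟨u, hu⟩ := exists_ne (0 : V)
        have hu0 : 0 < ‖u‖ := norm_pos_iff.mpr hu
        refine ⟨(2 / ‖u‖) • u, ?_⟩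
        simp only [mem_ofPred_eq, norm_smul, norm_div, norm_norm]
        rw [div_mul_cancel₀ _ hu0.ne']
        norm_num
      exact lt_of_lt_of_le (hopen.measure_pos ν hne) (measure_mono hs)
    · intro u
      apply indicator_nonneg
      intro u _
      positivity
    · exact hi2.indicator hSm
  refine ⟨1 + 4 ^ γ * (B1 / B2), by positivity, ?_⟩
  intro x hx
  have hx0 : 0 < x := by linarith
  have hsx : 0 < Real.sqrt x := Real.sqrt_pos.mpr hx0
  -- scaled integrals
  let f1 : V → ℝ := {t : V | Real.sqrt x ≤ ‖t‖}.indicator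
    (fun t => (1 + ‖t‖ ^ 2) ^ (-γ) * (‖t‖ ^ 2 / x) ^ (1 / 4 : ℝ))
  let f2 : V → ℝ := {t : V | Real.sqrt x ≤ ‖t‖}.indicator (fun t => (1 + ‖t‖ ^ 2) ^ (-γ))
  have hset : MeasurableSet {t : V | Real.sqrt x ≤ ‖t‖} :=
    measurableSet_le measurable_const measurable_norm
  have s1 := Measure.integral_comp_smul ν f1 (Real.sqrt x)
  have s2 := Measure.integral_comp_smul ν f2 (Real.sqrt x)
  rw [abs_of_nonneg (by positivity), smul_eq_mul] at s1 s2
  have g1 : ∀ u : V, f1 (Real.sqrt x • u) =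
      S.indicator (fun u => (1 + x * ‖u‖ ^ 2) ^ (-γ) * (‖u‖ ^ 2) ^ (1 / 4 : ℝ)) u := by
    intro u
    have hn : ‖Real.sqrt x • u‖ = Real.sqrt x * ‖u‖ := by
      rw [norm_smul, Real.norm_of_nonneg hsx.le]
    have hmem : (Real.sqrt x • u ∈ {t : V | Real.sqrt x ≤ ‖t‖}) ↔ u ∈ S := by
      simp only [mem_ofPred_eq, S, hn]
      constructor
      · intro h
        by_contra hcon
        push Not at hcon
        nlinarith
      · intro h
        nlinarith
    by_cases hu : u ∈ S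
    · simp only [f1]
      rw [indicator_of_mem (hmem.mpr hu), indicator_of_mem hu, hn, mul_pow, Real.sq_sqrt hx0.le]
      congr 2
      field_simp
    · simp only [f1]
      rw [indicator_of_notMem (fun h => hu (hmem.mp h)), indicator_of_notMem hu]
  have g2 : ∀ u : V, f2 (Real.sqrt x • u) =
      S.indicator (fun u => (1 + x * ‖u‖ ^ 2) ^ (-γ)) u := by
    intro u
    have hn : ‖Real.sqrt x • u‖ = Real.sqrt x * ‖u‖ := by
      rw [norm_smul, Real.norm_of_nonneg hsx.le]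
    have hmem : (Real.sqrt x • u ∈ {t : V | Real.sqrt x ≤ ‖t‖}) ↔ u ∈ S := by
      simp only [mem_ofPred_eq, S, hn]
      constructor
      · intro h
        by_contra hcon
        push Not at hcon
        nlinarith
      · intro h
        nlinarith
    by_cases hu : u ∈ S
    · simp only [f2]
      rw [indicator_of_mem (hmem.mpr hu), indicator_of_mem hu, hn, mul_pow, Real.sq_sqrt hx0.le]
    · simp only [f2]
      rw [indicator_of_notMem (fun h => hu (hmem.mp h)), indicator_of_notMem hu]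
  have k1 : ∫ u : V, S.indicator (fun u => (1 + x * ‖u‖ ^ 2) ^ (-γ) *
      (‖u‖ ^ 2) ^ (1 / 4 : ℝ)) u ∂ν ≤ (x / 2) ^ (-γ) * B1 := by
    simp only [B1]
    rw [← integral_const_mul]
    apply integral_mono_of_nonneg
    · filter_upwards with u
      apply indicator_nonneg
      intro u _
      positivity
    · exact (hi1.indicator hSm).const_mul _
    · filter_upwards with u
      by_cases hu : u ∈ S
      · rw [indicator_of_mem hu, indicator_of_mem hu]
        have hu1 : 1 ≤ ‖u‖ := hu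
        have h0 : 1 ≤ ‖u‖ ^ 2 := one_le_pow₀ hu1
        have h1 : x / 2 * (1 + ‖u‖ ^ 2) ≤ 1 + x * ‖u‖ ^ 2 := by
          nlinarith [mul_le_mul_of_nonneg_left h0 hx0.le]
        have h2 : (1 + x * ‖u‖ ^ 2) ^ (-γ) ≤ (x / 2 * (1 + ‖u‖ ^ 2)) ^ (-γ) :=
          Real.rpow_le_rpow_of_nonpos (by positivity) h1 (by linarith)
        rw [Real.mul_rpow (by positivity) (by positivity)] at h2
        rw [← mul_assoc]
        gcongr
      · rw [indicator_of_notMem hu, indicator_of_notMem hu, mul_zero]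
  have k2 : (2 * x) ^ (-γ) * B2 ≤ ∫ u : V, S.indicator (fun u => (1 + x * ‖u‖ ^ 2) ^ (-γ)) u ∂ν := by
    simp only [B2]
    rw [← integral_const_mul]
    apply integral_mono_of_nonneg
    · filter_upwards with u
      have : 0 ≤ S.indicator (fun u => (1 + ‖u‖ ^ 2) ^ (-γ)) u := by
        apply indicator_nonneg
        intro u _
        positivity
      positivity
    · apply Integrable.indicator _ hSm
      refine (hi2.const_mul ((min x 1) ^ (-γ))).mono' ?_ ?_
      · exact (((by fun_prop : Measurable fun u : V => 1 + x * ‖u‖ ^ 2)).pow_const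
          _).aestronglyMeasurable
      · filter_upwards with u
        rw [Real.norm_of_nonneg (by positivity), ← Real.mul_rpow (by positivity) (by positivity)]
        apply Real.rpow_le_rpow_of_nonpos (by positivity) _ (by linarith)
        have h1 := min_le_left x 1
        have h2 := min_le_right x 1
        nlinarith [mul_le_mul_of_nonneg_right h1 (sq_nonneg ‖u‖)]
    · filter_upwards with u
      by_cases hu : u ∈ S
      · rw [indicator_of_mem hu, indicator_of_mem hu,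
          ← Real.mul_rpow (by positivity) (by positivity)]
        apply Real.rpow_le_rpow_of_nonpos (by positivity) _ (by linarith)
        nlinarith [sq_nonneg ‖u‖]
      · rw [indicator_of_notMem hu, indicator_of_notMem hu, mul_zero]
  simp_rw [g1] at s1
  simp_rw [g2] at s2
  set m := finrank ℝ V
  have hI1 : ∫ t, f1 t ∂ν ≤ (Real.sqrt x ^ m) * ((x / 2) ^ (-γ) * B1) := by
    have : ∫ t, f1 t ∂ν = (Real.sqrt x ^ m) *
        ∫ u : V, S.indicator (fun u => (1 + x * ‖u‖ ^ 2) ^ (-γ) *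
          (‖u‖ ^ 2) ^ (1 / 4 : ℝ)) u ∂ν := by
      rw [s1]
      field_simp
    rw [this]
    gcongr
  have hI2 : (Real.sqrt x ^ m) * ((2 * x) ^ (-γ) * B2) ≤ ∫ t, f2 t ∂ν := by
    have : ∫ t, f2 t ∂ν = (Real.sqrt x ^ m) *
        ∫ u : V, S.indicator (fun u => (1 + x * ‖u‖ ^ 2) ^ (-γ)) u ∂ν := by
      rw [s2]
      field_simp
    rw [this]
    gcongr
  have hcomp : ∫ t, f1 t ∂ν ≤ 4 ^ γ * (B1 / B2) * ∫ t, f2 t ∂ν := by
    refine hI1.trans ?_
    have h1 : (x / 2) ^ (-γ) = 4 ^ γ * (2 * x) ^ (-γ) := by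
      have h2 : x / 2 = (1 / 4) * (2 * x) := by ring
      rw [h2, Real.mul_rpow (by norm_num) (by positivity), one_div,
        Real.inv_rpow (by norm_num), Real.rpow_neg (by norm_num), inv_inv]
    rw [h1]
    calc (Real.sqrt x ^ m) * (4 ^ γ * (2 * x) ^ (-γ) * B1) =
        4 ^ γ * (B1 / B2) * ((Real.sqrt x ^ m) * ((2 * x) ^ (-γ) * B2)) := by
          field_simp
      _ ≤ _ := by
          apply mul_le_mul_of_nonneg_left hI2
          positivity
  -- compare with the minima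
  have hYi1 : Integrable (fun t : V => min (‖t‖ ^ 2 / x) 1) (Tm ν γ) := by
    refine (integrable_const (1:ℝ)).mono' ?_ ?_
    · apply Measurable.aestronglyMeasurable
      fun_prop
    · filter_upwards with t
      rw [Real.norm_of_nonneg (le_min (by positivity) zero_le_one)]
      exact min_le_right _ _
  have hf1i : Integrable f1 ν := by
    apply Integrable.indicator _ hset
    refine (hi1.const_mul (x ^ (-(1 / 4) : ℝ))).congr ?_
    filter_upwards with t
    rw [Real.div_rpow (by positivity) hx0.le, Real.rpow_neg hx0.le]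
    ring
  have hf2i : Integrable f2 ν := hi2.indicator hset
  have hmin0 : ∀ t : V, 0 ≤ min (‖t‖ ^ 2 / x) 1 := fun t => le_min (by positivity) zero_le_one
  rw [integral_Tm, integral_Tm]
  rw [integrable_Tm] at hYi1
  have hle1 : ∫ t : V, (1 + ‖t‖ ^ 2) ^ (-γ) * min (‖t‖ ^ 2 / x) ((‖t‖ ^ 2 / x) ^ (1 / 4 : ℝ)) ∂ν ≤
      ∫ t : V, ((1 + ‖t‖ ^ 2) ^ (-γ) * min (‖t‖ ^ 2 / x) 1 + f1 t) ∂ν := by
    apply integral_mono_of_nonneg
    · filter_upwards with t
      have : 0 ≤ min (‖t‖ ^ 2 / x) ((‖t‖ ^ 2 / x) ^ (1 / 4 : ℝ)) :=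
        le_min (by positivity) (by positivity)
      positivity
    · exact hYi1.add hf1i
    · filter_upwards with t
      have hw : 0 ≤ (1 + ‖t‖ ^ 2) ^ (-γ) := by positivity
      by_cases ht : Real.sqrt x ≤ ‖t‖
      · simp only [f1]
        rw [indicator_of_mem (show t ∈ {t : V | Real.sqrt x ≤ ‖t‖} from ht)]
        have h1 := min_le_right (‖t‖ ^ 2 / x) ((‖t‖ ^ 2 / x) ^ (1 / 4 : ℝ))
        have h2 := hmin0 t
        nlinarith [mul_le_mul_of_nonneg_left h1 hw, mul_nonneg hw h2]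
      · simp only [f1]
        rw [indicator_of_notMem (show t ∉ {t : V | Real.sqrt x ≤ ‖t‖} from ht), add_zero]
        apply mul_le_mul_of_nonneg_left _ hw
        push Not at ht
        have h1 : ‖t‖ ^ 2 < x := by
          have := mul_self_lt_mul_self (norm_nonneg t) ht
          rw [Real.mul_self_sqrt hx0.le] at this
          nlinarith
        have h2 : ‖t‖ ^ 2 / x ≤ 1 := by
          rw [div_le_one hx0]
          exact h1.le
        rw [min_eq_left h2]
        exact min_le_left _ _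
  have hle2 : ∫ t, f2 t ∂ν ≤ ∫ t : V, (1 + ‖t‖ ^ 2) ^ (-γ) * min (‖t‖ ^ 2 / x) 1 ∂ν := by
    apply integral_mono hf2i hYi1
    intro t
    have hw : 0 ≤ (1 + ‖t‖ ^ 2) ^ (-γ) := by positivity
    by_cases ht : Real.sqrt x ≤ ‖t‖
    · simp only [f2]
      rw [indicator_of_mem (show t ∈ {t : V | Real.sqrt x ≤ ‖t‖} from ht)]
      have h1 : x ≤ ‖t‖ ^ 2 := by
        have := mul_self_le_mul_self hsx.le ht
        rw [Real.mul_self_sqrt hx0.le] at this
        nlinarith
      have h2 : 1 ≤ ‖t‖ ^ 2 / x := by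
        rw [one_le_div hx0]
        exact h1
      rw [min_eq_right h2, mul_one]
    · simp only [f2]
      rw [indicator_of_notMem (show t ∉ {t : V | Real.sqrt x ≤ ‖t‖} from ht)]
      exact mul_nonneg hw (hmin0 t)
  rw [integral_add hYi1 hf1i] at hle1
  have hc0 : 0 ≤ 4 ^ γ * (B1 / B2) := by positivity
  have := mul_le_mul_of_nonneg_left hle2 hc0
  linarith

end

end MP4845
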