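import Mathlib

/-!
Scalar inequalities for the generalized Bayes part (Q2).
-/

set_option linter.unusedSectionVars false
set_option linter.unnecessarySimpa false

namespace MP4845

open Set

/-- concavity gap of the logarithm -/
noncomputable def gap (x ρ : ℝ) : ℝ :=
  Real.log (ρ + x) - Real.log (1 + x) - Real.log ρ / (1 + x)

lemma gap_nonneg {x ρ : ℝ} (hx : 0 ≤ x) (hρ : 0 < ρ) : 0 ≤ gap x ρ := by
  have hc := strictConcaveOn_log_Ioi.concaveOn
  have h1 : 0 < 1 + x := by linarith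
  have h := hc.2 (show ρ ∈ Ioi (0:ℝ) from hρ) (mem_Ioi.mpr (one_pos : (0:ℝ) < 1))
    (show 0 ≤ 1 / (1 + x) by positivity) (show 0 ≤ x / (1 + x) by positivity) (by field_simp)
  simp only [smul_eq_mul, Real.log_one, mul_zero, add_zero, mul_one] at h
  have e1 : 1 / (1 + x) * ρ + x / (1 + x) = (ρ + x) / (1 + x) := by field_simp
  rw [e1, Real.log_div (by positivity) h1.ne'] at h
  unfold gap
  have e2 : Real.log ρ / (1 + x) = 1 / (1 + x) * Real.log ρ := by ring
  rw [e2]
  linarith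

/-- for large `ρ` the gap grows -/
lemma gap_log {x ρ : ℝ} (hx : 0 ≤ x) (hρ : 2 ≤ ρ) :
    x / (2 * (1 + x)) * Real.log ((ρ + x) / (2 + x)) ≤ gap x ρ := by
  have h1 : 0 < 1 + x := by linarith
  have hmono : MonotoneOn (fun r : ℝ => gap x r - x / (2 * (1 + x)) * Real.log (r + x)) (Ici 2) := by
    have hder : ∀ r ∈ Ici (2:ℝ), HasDerivAt
        (fun r : ℝ => gap x r - x / (2 * (1 + x)) * Real.log (r + x))
        ((1 / (r + x) - 0 - 1 / r / (1 + x)) - x / (2 * (1 + x)) * (1 / (r + x))) r := by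
      intro r hr
      have hr2 : (2:ℝ) ≤ r := hr
      have hr0 : r ≠ 0 := by linarith
      have hrx : r + x ≠ 0 := by linarith
      have a1 : HasDerivAt (fun r : ℝ => Real.log (r + x)) (1 / (r + x)) r := by
        have := ((hasDerivAt_id r).add_const x).log hrx
        simpa using this
      have a2 : HasDerivAt (fun r : ℝ => Real.log r / (1 + x)) (1 / r / (1 + x)) r := by
        have := (Real.hasDerivAt_log hr0).div_const (1 + x)
        simpa using this
      unfold gap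
      exact ((a1.sub (hasDerivAt_const r _)).sub a2).sub (a1.const_mul _)
    apply monotoneOn_of_deriv_nonneg (convex_Ici 2)
    · intro r hr
      exact (hder r hr).continuousAt.continuousWithinAt
    · intro r hr
      rw [interior_Ici] at hr
      exact (hder r (mem_Ici.mpr (mem_Ioi.mp hr).le)).differentiableAt.differentiableWithinAt
    · intro r hr
      rw [interior_Ici] at hr
      have hr2 : (2:ℝ) < r := hr
      rw [(hder r (mem_Ici.mpr (mem_Ioi.mp hr).le)).deriv]
      have hr0 : 0 < r := by linarith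
      have hrx : 0 < r + x := by linarith
      have e : (1 / (r + x) - 0 - 1 / r / (1 + x)) - x / (2 * (1 + x)) * (1 / (r + x)) =
          x * (r - 2) / (2 * r * (1 + x) * (r + x)) := by
        field_simp
        ring
      rw [e]
      apply div_nonneg
      · exact mul_nonneg hx (by linarith)
      · positivity
  have h2 := hmono (mem_Ici.mpr (le_refl (2:ℝ))) (mem_Ici.mpr hρ) hρ
  simp only at h2
  have h3 := gap_nonneg hx (show (0:ℝ) < 2 by norm_num)
  rw [Real.log_div (by linarith) (by linarith)]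
  nlinarith

lemma gap_lower {x ρ : ℝ} (hx : 1 / 2 ≤ x) (hρ : 4 ≤ ρ) :
    (1 + ρ) / (24 * (ρ + x)) ≤ gap x ρ := by
  have h1 := gap_log (x := x) (ρ := ρ) (by linarith) (by linarith)
  refine le_trans ?_ h1
  have h2 : 1 / 6 ≤ x / (2 * (1 + x)) := by
    rw [div_le_div_iff₀ (by norm_num) (by linarith)]
    linarith
  have hpos : 0 < (ρ + x) / (2 + x) := by
    apply div_pos <;> linarith
  have h3 := Real.one_sub_inv_le_log_of_pos hpos
  have e3 : 1 - ((ρ + x) / (2 + x))⁻¹ = (ρ - 2) / (ρ + x) := by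
    have a1 : ρ + x ≠ 0 := by linarith
    have a2 : 2 + x ≠ 0 := by linarith
    field_simp
    ring
  rw [e3] at h3
  have h4 : 0 ≤ (ρ - 2) / (ρ + x) := by
    apply div_nonneg <;> linarith
  have h5 : (1 + ρ) / (24 * (ρ + x)) ≤ 1 / 6 * ((ρ - 2) / (ρ + x)) := by
    have hpx : 0 < ρ + x := by linarith
    have : 1 / 6 * ((ρ - 2) / (ρ + x)) - (1 + ρ) / (24 * (ρ + x)) =
        (3 * ρ - 9) / (24 * (ρ + x)) := by
      field_simp
      ring
    have h6 : 0 ≤ (3 * ρ - 9) / (24 * (ρ + x)) := by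
      apply div_nonneg <;> linarith
    linarith
  have h7 := h4.trans h3
  calc (1 + ρ) / (24 * (ρ + x)) ≤ 1 / 6 * ((ρ - 2) / (ρ + x)) := h5
    _ ≤ 1 / 6 * Real.log ((ρ + x) / (2 + x)) := by linarith
    _ ≤ _ := mul_le_mul_of_nonneg_right h2 h7

lemma entropy_gap {x : ℝ} (hx : 0 < x) :
    0 ≤ Real.log 2 + x / (1 + x) * Real.log x - Real.log (1 + x) := by
  have hc := strictConcaveOn_log_Ioi.concaveOn
  have h1 : 0 < 1 + x := by linarith
  have h := hc.2 (show 1 + x ∈ Ioi (0:ℝ) from h1)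
    (show (1 + x) / x ∈ Ioi (0:ℝ) from div_pos h1 hx)
    (show 0 ≤ 1 / (1 + x) by positivity) (show 0 ≤ x / (1 + x) by positivity) (by field_simp)
  simp only [smul_eq_mul] at h
  have e1 : 1 / (1 + x) * (1 + x) + x / (1 + x) * ((1 + x) / x) = 2 := by
    field_simp
    norm_num
  rw [e1, Real.log_div h1.ne' hx.ne'] at h
  have e2 : 1 / (1 + x) * Real.log (1 + x) + x / (1 + x) * (Real.log (1 + x) - Real.log x) =
      Real.log (1 + x) - x / (1 + x) * Real.log x := by
    field_simp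
    ring
  rw [e2] at h
  linarith

/-- the symmetrised integrand -/
noncomputable def pairF (x ρ A q : ℝ) : ℝ :=
  Real.log ((ρ + x + A) ^ 2 - q ^ 2) - 2 * Real.log (1 + x) - 2 * (Real.log ρ / (1 + x))

lemma pair_ge_sq {x ρ A q : ℝ} (hq : q ^ 2 ≤ 4 * x * A) :
    (A - (x - ρ)) ^ 2 + 4 * ρ * x ≤ (ρ + x + A) ^ 2 - q ^ 2 := by
  nlinarith

lemma pair_of_le {x ρ A q : ℝ} (hx : 0 ≤ x) (hρ : 0 < ρ) (hA : 0 ≤ A) (hq : q ^ 2 ≤ 4 * x * A)
    (h : x ≤ ρ) :
    2 * gap x ρ + Real.log (1 + 2 * A * (ρ - x) / (ρ + x) ^ 2) ≤ pairF x ρ A q := by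
  have h1 : (ρ + x) ^ 2 + 2 * A * (ρ - x) ≤ (ρ + x + A) ^ 2 - q ^ 2 := by
    nlinarith [sq_nonneg A]
  have hp : 0 < ρ + x := by linarith
  have h2 : 0 ≤ 2 * A * (ρ - x) := mul_nonneg (by linarith) (by linarith)
  have h3 : 0 < (ρ + x) ^ 2 + 2 * A * (ρ - x) := by positivity
  have h4 := Real.log_le_log h3 h1
  have e1 : (ρ + x) ^ 2 + 2 * A * (ρ - x) =
      (ρ + x) ^ 2 * (1 + 2 * A * (ρ - x) / (ρ + x) ^ 2) := by field_simp
  have h5 : 0 < 1 + 2 * A * (ρ - x) / (ρ + x) ^ 2 := by positivity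
  rw [e1, Real.log_mul (by positivity) h5.ne', Real.log_pow] at h4
  unfold pairF gap
  push_cast at h4
  linarith

lemma pair_small {x ρ A q : ℝ} (hx : 0 ≤ x) (hx2 : x ≤ 1 / 2) (hρ : 0 < ρ) (hA : 0 ≤ A)
    (hq : q ^ 2 ≤ 4 * x * A) : 0 ≤ pairF x ρ A q := by
  rcases le_or_gt x ρ with h | h
  · have h1 := pair_of_le hx hρ hA hq h
    have h2 := gap_nonneg hx hρ
    have h3 : 0 ≤ Real.log (1 + 2 * A * (ρ - x) / (ρ + x) ^ 2) := by
      apply Real.log_nonneg
      have : 0 ≤ 2 * A * (ρ - x) / (ρ + x) ^ 2 := by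
        apply div_nonneg _ (by positivity)
        exact mul_nonneg (by linarith) (by linarith)
      linarith
    linarith
  · have hx0 : 0 < x := lt_trans hρ h
    have h1 := pair_ge_sq (x := x) (ρ := ρ) (A := A) (q := q) hq
    have h2 : 4 * ρ * x ≤ (ρ + x + A) ^ 2 - q ^ 2 := by nlinarith [sq_nonneg (A - (x - ρ))]
    have h3 := Real.log_le_log (by positivity) h2
    rw [Real.log_mul (by positivity) hx0.ne', Real.log_mul (by norm_num) hρ.ne'] at h3
    have h4 : Real.log 4 = 2 * Real.log 2 := by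
      rw [show (4:ℝ) = 2 ^ 2 by norm_num, Real.log_pow]
      norm_num
    have h5 := entropy_gap hx0
    have h6 : Real.log ρ ≤ Real.log x := Real.log_le_log hρ h.le
    unfold pairF
    have h7 : 0 ≤ (1 - x) / (1 + x) := by
      apply div_nonneg <;> linarith
    have h8 := mul_le_mul_of_nonneg_left h6 h7
    have e1 : Real.log ρ - 2 * (Real.log ρ / (1 + x)) = -((1 - x) / (1 + x) * Real.log ρ) := by
      have : (1 + x) ≠ 0 := by linarith
      field_simp
      ring
    have e2 : Real.log x - (1 - x) / (1 + x) * Real.log x = 2 * (x / (1 + x) * Real.log x) := by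
      have : (1 + x) ≠ 0 := by linarith
      field_simp
      ring
    linarith

lemma pair_small' {x ρ A q : ℝ} (hx : 0 ≤ x) (hx2 : x ≤ 1 / 2) (hρ : 1 ≤ ρ) (hA : 0 ≤ A)
    (hq : q ^ 2 ≤ 4 * x * A) : Real.log (1 + 4 / 9 * (A / ρ)) ≤ pairF x ρ A q := by
  have h1 := pair_of_le (ρ := ρ) hx (by linarith) hA hq (by linarith)
  have h2 := gap_nonneg hx (show 0 < ρ by linarith)
  refine le_trans ?_ (le_trans (le_add_of_nonneg_left (by linarith)) h1)
  have hρ0 : 0 < ρ := by linarith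
  apply Real.log_le_log (by positivity)
  have h3 : 4 / 9 * (A / ρ) ≤ 2 * A * (ρ - x) / (ρ + x) ^ 2 := by
    rw [show 4 / 9 * (A / ρ) = 4 * A / (9 * ρ) by field_simp,
      div_le_div_iff₀ (by positivity) (by positivity)]
    have h4 : 4 * (ρ + x) ^ 2 ≤ 2 * (ρ - x) * (9 * ρ) := by
      nlinarith [mul_nonneg hx (by linarith : (0:ℝ) ≤ 1/2 - x),
        mul_nonneg hx (by linarith : (0:ℝ) ≤ ρ - 1), sq_nonneg (ρ - 1)]
    nlinarith [mul_le_mul_of_nonneg_left h4 hA]
  linarith

lemma pair_large {x ρ A q B : ℝ} (hx : 1 / 2 ≤ x) (hρ : 0 < ρ) (hA : 0 ≤ A)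
    (hq : q ^ 2 ≤ 4 * x * A) (hB : B ≤ 1 / 8) (hAB : A ≤ B * (1 + ρ)) :
    2 * gap x ρ - 4 * B * ((1 + ρ) / (ρ + x)) ≤ pairF x ρ A q := by
  have hx0 : 0 < x := by linarith
  have hp : 0 < ρ + x := by linarith
  have hB0 : 0 ≤ B := by
    by_contra hcon
    push Not at hcon
    nlinarith
  rcases le_or_gt x ρ with h | h
  · have h1 := pair_of_le hx0.le hρ hA hq h
    have h3 : 0 ≤ Real.log (1 + 2 * A * (ρ - x) / (ρ + x) ^ 2) := by
      apply Real.log_nonneg
      have : 0 ≤ 2 * A * (ρ - x) / (ρ + x) ^ 2 := by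
        apply div_nonneg _ (by positivity)
        exact mul_nonneg (by linarith) (by linarith)
      linarith
    have h4 : 0 ≤ 4 * B * ((1 + ρ) / (ρ + x)) := by positivity
    linarith
  · set y : ℝ := 2 * A / (ρ + x) with hy
    have hy0 : 0 ≤ y := by positivity
    have hyB : y ≤ 2 * B * ((1 + ρ) / (ρ + x)) := by
      rw [hy, ← mul_div_assoc, div_le_div_iff_of_pos_right hp]
      nlinarith
    have hr : (1 + ρ) / (ρ + x) ≤ 2 := by
      rw [div_le_iff₀ hp]
      linarith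
    have hy2 : y ≤ 1 / 2 := by
      refine hyB.trans ?_
      nlinarith
    have h1 : (ρ + x) ^ 2 * (1 - y) ≤ (ρ + x + A) ^ 2 - q ^ 2 := by
      have e1 : (ρ + x) ^ 2 * (1 - y) = (ρ + x) ^ 2 - 2 * A * (ρ + x) := by
        rw [hy]
        field_simp
      rw [e1]
      have h2 := pair_ge_sq (x := x) (ρ := ρ) (A := A) (q := q) hq
      nlinarith [mul_nonneg hA hρ.le, sq_nonneg A]
    have h3 : 0 < (ρ + x) ^ 2 * (1 - y) := by
      have : 0 < 1 - y := by linarith
      positivity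
    have h4 := Real.log_le_log h3 h1
    rw [Real.log_mul (by positivity) (by linarith), Real.log_pow] at h4
    have h5 := Real.one_sub_inv_le_log_of_pos (show 0 < 1 - y by linarith)
    have h6 : -(2 * y) ≤ 1 - (1 - y)⁻¹ := by
      have h7 : 1 - (1 - y)⁻¹ - -(2 * y) = y * (1 - 2 * y) / (1 - y) := by
        have : 1 - y ≠ 0 := by linarith
        field_simp
        ring
      have h8 : 0 ≤ y * (1 - 2 * y) / (1 - y) := by
        apply div_nonneg (mul_nonneg hy0 (by linarith)) (by linarith)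
      linarith
    unfold pairF gap
    push_cast at h4
    linarith

/-- bound of the squared log ratio -/
lemma delta_sq {Rh Rp h : ℝ} (hRh : 0 < Rh) (hh : 0 ≤ h) (h1 : Rh / 2 ≤ Rp)
    (h2 : |Rp - Rh| ≤ Rh * (17 / 16 * h + 1 / 2 * Real.sqrt h)) :
    Real.log (Rp / Rh) ^ 2 ≤ 100 * min h (h ^ (1 / 4 : ℝ)) := by
  have hRp : 0 < Rp := by linarith
  have hu : Rp / Rh = 1 + (Rp - Rh) / Rh := by field_simp; ring
  set u := (Rp - Rh) / Rh with hud
  have hu1 : -(1 / 2) ≤ u := by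
    rw [hud, le_div_iff₀ hRh]
    linarith
  have hu2 : |u| ≤ 17 / 16 * h + 1 / 2 * Real.sqrt h := by
    rw [hud, abs_div, abs_of_pos hRh, div_le_iff₀ hRh]
    linarith
  rw [hu]
  have hlo : -(2 * |u|) ≤ Real.log (1 + u) := by
    rcases le_or_gt 0 u with h3 | h3
    · have := Real.log_nonneg (show 1 ≤ 1 + u by linarith)
      have := abs_nonneg u
      linarith
    · have h5 := Real.one_sub_inv_le_log_of_pos (show 0 < 1 + u by linarith)
      refine le_trans ?_ h5
      rw [abs_of_neg h3]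
      have h7 : 1 - (1 + u)⁻¹ - -(2 * -u) = -u * (1 + 2 * u) / (1 + u) := by
        have : 1 + u ≠ 0 := by linarith
        field_simp
        ring
      have h8 : 0 ≤ -u * (1 + 2 * u) / (1 + u) := by
        apply div_nonneg (mul_nonneg (by linarith) (by linarith)) (by linarith)
      linarith
  have hhi : Real.log (1 + u) ≤ |u| := by
    have := Real.log_le_sub_one_of_pos (show 0 < 1 + u by linarith)
    have := le_abs_self u
    linarith
  have hs0 : 0 ≤ Real.sqrt h := Real.sqrt_nonneg h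
  have hsq : Real.sqrt h ^ 2 = h := Real.sq_sqrt hh
  rcases le_or_gt h 1 with h3 | h3
  · -- small h
    have h4 : h ≤ Real.sqrt h := by
      have : Real.sqrt h ≤ 1 := by
        exact Real.sqrt_le_one.mpr h3
      nlinarith
    have h5 : |u| ≤ 2 * Real.sqrt h := by linarith
    have h6 : |Real.log (1 + u)| ≤ 4 * Real.sqrt h := by
      rw [abs_le]
      constructor <;> linarith
    have h7 : Real.log (1 + u) ^ 2 ≤ (4 * Real.sqrt h) ^ 2 := by
      rw [← sq_abs]
      exact pow_le_pow_left₀ (abs_nonneg _) h6 2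
    have h8 : h ≤ h ^ (1 / 4 : ℝ) := by
      rcases hh.eq_or_lt with h9 | h9
      · rw [← h9]
        norm_num
      · exact Real.self_le_rpow_of_le_one hh h3 (by norm_num)
    rw [min_eq_left h8]
    nlinarith
  · -- large h
    have h4 : Real.sqrt h ≤ h := by
      have : 1 ≤ Real.sqrt h := by
        rw [Real.one_le_sqrt]
        exact h3.le
      nlinarith
    have h5 : |u| ≤ 2 * h := by linarith
    have h6 : 1 + u ≤ 4 * h := by
      have := le_abs_self u
      linarith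
    have h7 : Real.log (1 + u) ≤ 8 * (4 * h) ^ (1 / 8 : ℝ) := by
      have h8 : Real.log (1 + u) ≤ Real.log (4 * h) := Real.log_le_log (by linarith) h6
      have h9 : Real.log ((4 * h) ^ (1 / 8 : ℝ)) = 1 / 8 * Real.log (4 * h) :=
        Real.log_rpow (by linarith) _
      have h10 := Real.log_le_sub_one_of_pos (Real.rpow_pos_of_pos (show 0 < 4 * h by linarith)
        (1 / 8 : ℝ))
      linarith
    have h8 : -1 ≤ Real.log (1 + u) := by
      have h9 : Real.log (1 / 2) ≤ Real.log (1 + u) := Real.log_le_log (by norm_num) (by linarith)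
      have h10 := Real.one_sub_inv_le_log_of_pos (show (0:ℝ) < 1 / 2 by norm_num)
      norm_num at h10
      linarith
    have h9 : 1 ≤ (4 * h) ^ (1 / 8 : ℝ) := Real.one_le_rpow (by linarith) (by norm_num)
    have h10 : |Real.log (1 + u)| ≤ 8 * (4 * h) ^ (1 / 8 : ℝ) := by
      rw [abs_le]
      constructor <;> linarith
    have h11 : Real.log (1 + u) ^ 2 ≤ (8 * (4 * h) ^ (1 / 8 : ℝ)) ^ 2 := by
      rw [← sq_abs]
      exact pow_le_pow_left₀ (abs_nonneg _) h10 2
    have e1 : (8 * (4 * h) ^ (1 / 8 : ℝ)) ^ 2 = 64 * (4 ^ (1 / 4 : ℝ) * h ^ (1 / 4 : ℝ)) := by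
      rw [mul_pow, ← Real.rpow_natCast ((4 * h) ^ (1 / 8 : ℝ)) 2, ← Real.rpow_mul (by linarith),
        ← Real.mul_rpow (by norm_num) hh]
      norm_num
    have e2 : (4:ℝ) ^ (1 / 4 : ℝ) ≤ 3 / 2 := by
      have h12 : (4:ℝ) ≤ (3 / 2) ^ (4:ℝ) := by norm_num
      calc (4:ℝ) ^ (1 / 4 : ℝ) ≤ ((3 / 2) ^ (4:ℝ)) ^ (1 / 4 : ℝ) :=
            Real.rpow_le_rpow (by norm_num) h12 (by norm_num)
        _ = 3 / 2 := by
            rw [← Real.rpow_mul (by norm_num)]
            norm_num
    have h13 : h ^ (1 / 4 : ℝ) ≤ h := by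
      have := Real.rpow_le_rpow_of_exponent_le h3.le (show (1 / 4 : ℝ) ≤ 1 by norm_num)
      simpa using this
    rw [min_eq_right h13]
    rw [e1] at h11
    have h14 : 0 ≤ h ^ (1 / 4 : ℝ) := by positivity
    nlinarith [mul_le_mul_of_nonneg_right e2 h14]

end MP4845
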