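import Mathlib
import Pool.Agent.Lib.MP_4845bf_pr.Q2Scalar
import Pool.Agent.Lib.MP_4845bf_pr.Beta

/-!
Pointwise bounds for the resampled quadratic form (Q2).
-/

set_option linter.unusedSectionVars false
set_option linter.unnecessarySimpa false

namespace MP4845

open MeasureTheory Module Set Filter Topology
open scoped InnerProductSpace

section

variable {R V F : Type*} [NormedAddCommGroup R] [NormedSpace ℝ R]
  [NormedAddCommGroup V] [NormedSpace ℝ V]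
  [NormedAddCommGroup F] [InnerProductSpace ℝ F]

/-- `√s` -/
noncomputable def rs (z : R) : ℝ := lam z * ‖z‖

lemma rs_nonneg (z : R) : 0 ≤ rs z := mul_nonneg (by unfold lam; positivity) (norm_nonneg _)

lemma lam_sq' (z : R) : lam z ^ 2 = (1 + ‖z‖ ^ 2)⁻¹ := by
  unfold lam
  rw [inv_pow, Real.sq_sqrt (by positivity)]

lemma rs_sq (z : R) : rs z ^ 2 = sz z := by
  unfold rs sz
  rw [mul_pow, lam_sq']
  field_simp

lemma lam_nonneg (z : R) : 0 ≤ lam z := by unfold lam; positivity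

lemma lam_le_one (z : R) : lam z ^ 2 ≤ 1 := by
  rw [lam_sq']
  apply inv_le_one_of_one_le₀
  nlinarith [sq_nonneg ‖z‖]

lemma sz_le_one' (z : R) : sz z ≤ 1 := by
  unfold sz
  rw [div_le_one (by positivity)]
  linarith

lemma sz_nonneg' (z : R) : 0 ≤ sz z := by unfold sz; positivity

lemma sz_pos' {z : R} (hz : z ≠ 0) : 0 < sz z := by
  have := norm_pos_iff.mpr hz
  unfold sz
  positivity

/-- the shift -/
noncomputable def omf (C : V →L[ℝ] F) (e : V) (z : R) (t : V) : F :=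
  lam z • C e - rs z • C t

/-- resampled quadratic form -/
noncomputable def RpN (ε : ℝ) (C : V →L[ℝ] F) (ξ : F) (e : V) (z : R) (t : V) : ℝ :=
  sz z * (1 + ‖t‖ ^ 2) + ε * ‖ξ + omf C e z t‖ ^ 2

/-- reference quadratic form -/
noncomputable def RhN (ε : ℝ) (C : V →L[ℝ] F) (ξ : F) (e : V) (z : R) : ℝ :=
  sz z + ε * ‖ξ + lam z • C e‖ ^ 2

/-- original quadratic form -/
noncomputable def R1N (ε : ℝ) (ξ : F) : ℝ := 1 + ε * ‖ξ‖ ^ 2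

lemma omf_neg (C : V →L[ℝ] F) (e : V) (z : R) (t : V) : omf C (-e) z (-t) = -omf C e z t := by
  unfold omf
  rw [map_neg, map_neg, smul_neg, smul_neg]
  abel

lemma omf_norm_sq (C : V →L[ℝ] F) {e : V} (he : ‖e‖ = 1) (z : R) (t : V) :
    ‖omf C e z t‖ ^ 2 ≤ 2 * ‖C‖ ^ 2 * (1 + sz z * (1 + ‖t‖ ^ 2)) := by
  have h1 : ‖omf C e z t‖ ≤ ‖C‖ * (lam z + rs z * ‖t‖) := by
    unfold omf
    refine (norm_sub_le _ _).trans ?_
    rw [norm_smul, norm_smul, Real.norm_of_nonneg (lam_nonneg z), Real.norm_of_nonneg (rs_nonneg z)]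
    have a1 := C.le_opNorm e
    have a2 := C.le_opNorm t
    rw [he, mul_one] at a1
    have a3 := mul_le_mul_of_nonneg_left a1 (lam_nonneg z)
    have a4 := mul_le_mul_of_nonneg_left a2 (rs_nonneg z)
    linarith
  have h2 : ‖omf C e z t‖ ^ 2 ≤ (‖C‖ * (lam z + rs z * ‖t‖)) ^ 2 :=
    pow_le_pow_left₀ (norm_nonneg _) h1 2
  refine h2.trans ?_
  have h3 := lam_le_one z
  have h4 := rs_sq z
  have h5 : (lam z + rs z * ‖t‖) ^ 2 ≤ 2 * (1 + sz z * (1 + ‖t‖ ^ 2)) := by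
    have h6 : (rs z * ‖t‖) ^ 2 = sz z * ‖t‖ ^ 2 := by rw [mul_pow, h4]
    nlinarith [sq_nonneg (lam z - rs z * ‖t‖), sz_nonneg' z]
  calc (‖C‖ * (lam z + rs z * ‖t‖)) ^ 2 = ‖C‖ ^ 2 * (lam z + rs z * ‖t‖) ^ 2 := by ring
    _ ≤ ‖C‖ ^ 2 * (2 * (1 + sz z * (1 + ‖t‖ ^ 2))) := by gcongr
    _ = _ := by ring

lemma RhN_pos {ε : ℝ} (hε : 0 ≤ ε) (C : V →L[ℝ] F) (ξ : F) (e : V) {z : R} (hz : z ≠ 0) :
    0 < RhN ε C ξ e z := by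
  have := sz_pos' hz
  unfold RhN
  positivity

lemma RpN_RhN {ε : ℝ} (hε : 0 ≤ ε) (C : V →L[ℝ] F) (hεC : ε * ‖C‖ ^ 2 ≤ 1 / 16) (ξ : F) (e : V)
    {z : R} (hz : z ≠ 0) (t : V) :
    RhN ε C ξ e z / 2 ≤ RpN ε C ξ e z t ∧
    |RpN ε C ξ e z t - RhN ε C ξ e z| ≤ RhN ε C ξ e z *
      (17 / 16 * (sz z * ‖t‖ ^ 2 / RhN ε C ξ e z) +
        1 / 2 * Real.sqrt (sz z * ‖t‖ ^ 2 / RhN ε C ξ e z)) := by
  have hR := RhN_pos hε C ξ e hz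
  set Rh := RhN ε C ξ e z with hRh
  set ζ := ξ + lam z • C e with hζ
  set w := rs z • C t with hw
  set y := rs z * ‖t‖ with hy
  have hy0 : 0 ≤ y := mul_nonneg (rs_nonneg z) (norm_nonneg _)
  have hy2 : sz z * ‖t‖ ^ 2 = y ^ 2 := by rw [hy, mul_pow, rs_sq]
  have hwn : ‖w‖ ≤ ‖C‖ * y := by
    rw [hw, norm_smul, Real.norm_of_nonneg (rs_nonneg z)]
    have := mul_le_mul_of_nonneg_left (C.le_opNorm t) (rs_nonneg z)
    rw [hy]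
    linarith
  have e1 : ξ + omf C e z t = ζ - w := by
    unfold omf
    rw [hζ, hw]
    abel
  have e2 : RpN ε C ξ e z t - Rh = y ^ 2 - 2 * (ε * ⟪ζ, w⟫_ℝ) + ε * ‖w‖ ^ 2 := by
    unfold RpN
    rw [e1, norm_sub_sq_real, hRh, RhN, ← hy2]
    ring
  have hin : |⟪ζ, w⟫_ℝ| ≤ ‖ζ‖ * (‖C‖ * y) :=
    (abs_real_inner_le_norm ζ w).trans (mul_le_mul_of_nonneg_left hwn (norm_nonneg _))
  have hsR : 0 < Real.sqrt Rh := Real.sqrt_pos.mpr hR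
  have hsR2 : Real.sqrt Rh ^ 2 = Rh := Real.sq_sqrt hR.le
  -- the cross term
  have hcross : 2 * (ε * (‖ζ‖ * (‖C‖ * y))) ≤ 1 / 2 * (Real.sqrt Rh * y) := by
    have h1 : Real.sqrt ε * ‖ζ‖ ≤ Real.sqrt Rh := by
      apply Real.le_sqrt_of_sq_le
      rw [mul_pow, Real.sq_sqrt hε, hRh, RhN]
      have := sz_nonneg' z
      linarith
    have h2 : Real.sqrt ε * ‖C‖ ≤ 1 / 4 := by
      have h3 : (Real.sqrt ε * ‖C‖) ^ 2 ≤ (1 / 4) ^ 2 := by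
        rw [mul_pow, Real.sq_sqrt hε]
        linarith
      exact le_of_sq_le_sq h3 (by norm_num)
    have h4 : 0 ≤ Real.sqrt ε := Real.sqrt_nonneg _
    have h5 : ε = Real.sqrt ε * Real.sqrt ε := (Real.mul_self_sqrt hε).symm
    have h6 : (Real.sqrt ε * ‖ζ‖) * (Real.sqrt ε * ‖C‖) ≤ Real.sqrt Rh * (1 / 4) :=
      mul_le_mul h1 h2 (by positivity) hsR.le
    have h7 := mul_le_mul_of_nonneg_right h6 hy0
    calc 2 * (ε * (‖ζ‖ * (‖C‖ * y))) =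
        2 * ((Real.sqrt ε * ‖ζ‖) * (Real.sqrt ε * ‖C‖) * y) := by
          conv_lhs => rw [h5]
          ring
      _ ≤ 2 * (Real.sqrt Rh * (1 / 4) * y) := by linarith
      _ = _ := by ring
  have hin' : |2 * (ε * ⟪ζ, w⟫_ℝ)| ≤ 1 / 2 * (Real.sqrt Rh * y) := by
    rw [abs_mul, abs_mul, abs_of_nonneg hε, abs_of_pos (by norm_num : (0:ℝ) < 2)]
    refine le_trans ?_ hcross
    have := mul_le_mul_of_nonneg_left hin hε
    linarith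
  have hw2 : ε * ‖w‖ ^ 2 ≤ y ^ 2 / 16 := by
    have h1 : ‖w‖ ^ 2 ≤ (‖C‖ * y) ^ 2 := pow_le_pow_left₀ (norm_nonneg _) hwn 2
    have h2 := mul_le_mul_of_nonneg_left h1 hε
    have h3 := mul_le_mul_of_nonneg_right hεC (sq_nonneg y)
    calc ε * ‖w‖ ^ 2 ≤ ε * (‖C‖ * y) ^ 2 := h2
      _ = ε * ‖C‖ ^ 2 * y ^ 2 := by ring
      _ ≤ 1 / 16 * y ^ 2 := h3
      _ = y ^ 2 / 16 := by ring
  have hw0 : 0 ≤ ε * ‖w‖ ^ 2 := by positivity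
  obtain ⟨hi1, hi2⟩ := abs_le.mp hin'
  have hy2R : sz z * ‖t‖ ^ 2 / Rh = (y / Real.sqrt Rh) ^ 2 := by
    rw [hy2, div_pow, hsR2]
  have hsq : Real.sqrt (sz z * ‖t‖ ^ 2 / Rh) = y / Real.sqrt Rh := by
    rw [hy2R]
    exact Real.sqrt_sq (by positivity)
  constructor
  · have h1 : -(Rh / 16) ≤ y ^ 2 - 1 / 2 * (Real.sqrt Rh * y) := by
      nlinarith [sq_nonneg (y - Real.sqrt Rh / 4)]
    linarith
  · rw [hsq, hy2R, e2]
    have h1 : Rh * (17 / 16 * (y / Real.sqrt Rh) ^ 2 + 1 / 2 * (y / Real.sqrt Rh)) =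
        17 / 16 * y ^ 2 + 1 / 2 * (Real.sqrt Rh * y) := by
      rw [div_pow, hsR2]
      have h2 : Rh / Real.sqrt Rh = Real.sqrt Rh := by
        rw [div_eq_iff hsR.ne', ← sq, hsR2]
      calc Rh * (17 / 16 * (y ^ 2 / Rh) + 1 / 2 * (y / Real.sqrt Rh)) =
          17 / 16 * (Rh * (y ^ 2 / Rh)) + 1 / 2 * ((Rh / Real.sqrt Rh) * y) := by ring
        _ = _ := by rw [h2, mul_div_cancel₀ _ hR.ne']
    rw [h1, abs_le]
    constructor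
    · nlinarith [sq_nonneg y]
    · linarith

lemma delta_bound {ε : ℝ} (hε : 0 ≤ ε) (C : V →L[ℝ] F) (hεC : ε * ‖C‖ ^ 2 ≤ 1 / 16) (ξ : F)
    (e : V) {z : R} (hz : z ≠ 0) (t : V) :
    Real.log (RpN ε C ξ e z t / RhN ε C ξ e z) ^ 2 ≤
      100 * min (sz z * ‖t‖ ^ 2 / RhN ε C ξ e z)
        ((sz z * ‖t‖ ^ 2 / RhN ε C ξ e z) ^ (1 / 4 : ℝ)) := by
  have hR := RhN_pos hε C ξ e hz
  obtain ⟨h1, h2⟩ := RpN_RhN hε C hεC ξ e hz t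
  have := sz_nonneg' z
  exact delta_sq hR (by positivity) h1 h2

lemma min_mono_quarter {a b : ℝ} (ha : 0 ≤ a) (hab : a ≤ b) :
    min a (a ^ (1 / 4 : ℝ)) ≤ min b (b ^ (1 / 4 : ℝ)) :=
  min_le_min hab (Real.rpow_le_rpow ha hab (by norm_num))

/-- uniform bound of the squared log ratio -/
lemma delta_unif {ε : ℝ} (hε : 0 ≤ ε) (C : V →L[ℝ] F) (hεC : ε * ‖C‖ ^ 2 ≤ 1 / 16) (ξ : F)
    (e : V) {z : R} (hz : z ≠ 0) (t : V) :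
    Real.log (RpN ε C ξ e z t / RhN ε C ξ e z) ^ 2 ≤ 100 * (1 + ‖t‖ ^ 2) ^ (1 / 4 : ℝ) := by
  have hR := RhN_pos hε C ξ e hz
  have hs := sz_pos' hz
  refine (delta_bound hε C hεC ξ e hz t).trans ?_
  have h1 : sz z * ‖t‖ ^ 2 / RhN ε C ξ e z ≤ 1 + ‖t‖ ^ 2 := by
    rw [div_le_iff₀ hR]
    have h2 : sz z ≤ RhN ε C ξ e z := by
      unfold RhN
      have : 0 ≤ ε * ‖ξ + lam z • C e‖ ^ 2 := by positivity
      linarith
    nlinarith [mul_le_mul_of_nonneg_left h2 (by positivity : (0:ℝ) ≤ 1 + ‖t‖ ^ 2)]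
  have h2 : (sz z * ‖t‖ ^ 2 / RhN ε C ξ e z) ^ (1 / 4 : ℝ) ≤ (1 + ‖t‖ ^ 2) ^ (1 / 4 : ℝ) :=
    Real.rpow_le_rpow (by positivity) h1 (by norm_num)
  have h3 := min_le_right (sz z * ‖t‖ ^ 2 / RhN ε C ξ e z)
    ((sz z * ‖t‖ ^ 2 / RhN ε C ξ e z) ^ (1 / 4 : ℝ))
  linarith

/-- far bound of the squared log ratio -/
lemma delta_far {ε : ℝ} (hε : 0 < ε) (C : V →L[ℝ] F) (hεC : ε * ‖C‖ ^ 2 ≤ 1 / 16) {ξ : F}
    {e : V} (he : ‖e‖ = 1) (hx : 1 / 2 ≤ ε * ‖ξ‖ ^ 2) {z : R} (hz : z ≠ 0) (t : V) :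
    Real.log (RpN ε C ξ e z t / RhN ε C ξ e z) ^ 2 ≤
      400 * min (‖t‖ ^ 2 / (ε * ‖ξ‖ ^ 2)) ((‖t‖ ^ 2 / (ε * ‖ξ‖ ^ 2)) ^ (1 / 4 : ℝ)) := by
  have hR := RhN_pos hε.le C ξ e hz
  have hs := sz_pos' hz
  have hs1 := sz_le_one' z
  set x := ε * ‖ξ‖ ^ 2 with hxd
  have hx0 : 0 < x := by linarith
  refine (delta_bound hε.le C hεC ξ e hz t).trans ?_
  -- lower bound of the reference
  have h1 : x / 4 ≤ RhN ε C ξ e z := by
    have h2 : ‖lam z • C e‖ ≤ ‖C‖ := by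
      rw [norm_smul, Real.norm_of_nonneg (lam_nonneg z)]
      have a1 := C.le_opNorm e
      rw [he, mul_one] at a1
      have a2 : lam z ≤ 1 := by
        have := lam_le_one z
        nlinarith [lam_nonneg z]
      nlinarith [lam_nonneg z, norm_nonneg (C e), norm_nonneg C]
    have h3 : 2 * ‖C‖ ≤ ‖ξ‖ := by
      have h4 : ε * (2 * ‖C‖) ^ 2 ≤ ε * ‖ξ‖ ^ 2 := by
        calc ε * (2 * ‖C‖) ^ 2 = 4 * (ε * ‖C‖ ^ 2) := by ring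
          _ ≤ 1 / 2 := by linarith
          _ ≤ _ := hx
      have h5 : (2 * ‖C‖) ^ 2 ≤ ‖ξ‖ ^ 2 := le_of_mul_le_mul_left h4 hε
      exact le_of_sq_le_sq h5 (norm_nonneg _)
    have h6 : ‖ξ‖ / 2 ≤ ‖ξ + lam z • C e‖ := by
      have h7 : ‖ξ‖ ≤ ‖ξ + lam z • C e‖ + ‖lam z • C e‖ := by
        have := norm_sub_le (ξ + lam z • C e) (lam z • C e)
        simpa using this
      linarith
    have h8 : (‖ξ‖ / 2) ^ 2 ≤ ‖ξ + lam z • C e‖ ^ 2 :=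
      pow_le_pow_left₀ (by positivity) h6 2
    have h9 := mul_le_mul_of_nonneg_left h8 hε.le
    unfold RhN
    have : x / 4 = ε * (‖ξ‖ / 2) ^ 2 := by rw [hxd]; ring
    linarith
  have h2 : sz z * ‖t‖ ^ 2 / RhN ε C ξ e z ≤ 4 * (‖t‖ ^ 2 / x) := by
    rw [div_le_iff₀ hR]
    have h3 : 4 * (‖t‖ ^ 2 / x) * (x / 4) ≤ 4 * (‖t‖ ^ 2 / x) * RhN ε C ξ e z :=
      mul_le_mul_of_nonneg_left h1 (by positivity)
    have h4 : 4 * (‖t‖ ^ 2 / x) * (x / 4) = ‖t‖ ^ 2 := by field_simp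
    have h5 : sz z * ‖t‖ ^ 2 ≤ ‖t‖ ^ 2 := by nlinarith [sq_nonneg ‖t‖]
    linarith
  have h3 := min_mono_quarter (by positivity : 0 ≤ sz z * ‖t‖ ^ 2 / RhN ε C ξ e z) h2
  have hY : 0 ≤ ‖t‖ ^ 2 / x := by positivity
  have h4 : min (4 * (‖t‖ ^ 2 / x)) ((4 * (‖t‖ ^ 2 / x)) ^ (1 / 4 : ℝ)) ≤
      4 * min (‖t‖ ^ 2 / x) ((‖t‖ ^ 2 / x) ^ (1 / 4 : ℝ)) := by
    rw [mul_min_of_nonneg _ _ (by norm_num : (0:ℝ) ≤ 4)]
    apply min_le_min le_rfl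
    rw [Real.mul_rpow (by norm_num) hY]
    have h5 : (4:ℝ) ^ (1 / 4 : ℝ) ≤ 4 := by
      have := Real.rpow_le_rpow_of_exponent_le (show (1:ℝ) ≤ 4 by norm_num)
        (show (1 / 4 : ℝ) ≤ 1 by norm_num)
      simpa using this
    exact mul_le_mul_of_nonneg_right h5 (by positivity)
  linarith

/-- the comparison of the resampled and the original form -/
lemma RpN_upper {ε : ℝ} (hε : 0 ≤ ε) (C : V →L[ℝ] F) (hεC : ε * ‖C‖ ^ 2 ≤ 1 / 16) (ξ : F)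
    {e : V} (he : ‖e‖ = 1) (z : R) (t : V) :
    RpN ε C ξ e z t ≤ 2 * (1 + ‖t‖ ^ 2) * R1N ε ξ := by
  have h1 := omf_norm_sq C he z t
  have hs := sz_nonneg' z
  have hs1 := sz_le_one' z
  have h2 : ‖ξ + omf C e z t‖ ^ 2 ≤ 2 * ‖ξ‖ ^ 2 + 2 * ‖omf C e z t‖ ^ 2 := by
    have := norm_add_le ξ (omf C e z t)
    have h3 : ‖ξ + omf C e z t‖ ^ 2 ≤ (‖ξ‖ + ‖omf C e z t‖) ^ 2 :=
      pow_le_pow_left₀ (norm_nonneg _) this 2
    nlinarith [sq_nonneg (‖ξ‖ - ‖omf C e z t‖)]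
  have h3 : sz z * (1 + ‖t‖ ^ 2) ≤ 1 + ‖t‖ ^ 2 := by nlinarith [sq_nonneg ‖t‖]
  have h4 : ε * ‖omf C e z t‖ ^ 2 ≤ 1 / 8 * (2 + ‖t‖ ^ 2) := by
    have a1 := mul_le_mul_of_nonneg_left h1 hε
    have a2 : ε * (2 * ‖C‖ ^ 2 * (1 + sz z * (1 + ‖t‖ ^ 2))) =
        2 * (ε * ‖C‖ ^ 2) * (1 + sz z * (1 + ‖t‖ ^ 2)) := by ring
    rw [a2] at a1
    have a3 : 0 ≤ 1 + sz z * (1 + ‖t‖ ^ 2) := by positivity
    nlinarith [mul_le_mul_of_nonneg_right hεC a3]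
  have h5 := mul_le_mul_of_nonneg_left h2 hε
  unfold RpN R1N
  have h6 : 0 ≤ ε * ‖ξ‖ ^ 2 := by positivity
  have h7 : 0 ≤ ‖t‖ ^ 2 := by positivity
  nlinarith [mul_nonneg h6 h7]

lemma RhN_lower {ε : ℝ} (hε : 0 ≤ ε) (C : V →L[ℝ] F) (hεC : ε * ‖C‖ ^ 2 ≤ 1 / 16) (ξ : F)
    {e : V} (he : ‖e‖ = 1) (z : R) :
    sz z / 2 * R1N ε ξ ≤ RhN ε C ξ e z := by
  have hs := sz_nonneg' z
  have hs1 := sz_le_one' z
  have h2 : ‖lam z • C e‖ ≤ ‖C‖ := by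
    rw [norm_smul, Real.norm_of_nonneg (lam_nonneg z)]
    have a1 := C.le_opNorm e
    rw [he, mul_one] at a1
    have a2 : lam z ≤ 1 := by
      have := lam_le_one z
      nlinarith [lam_nonneg z]
    nlinarith [lam_nonneg z, norm_nonneg (C e), norm_nonneg C]
  have h3 : ‖ξ‖ ^ 2 ≤ 2 * ‖ξ + lam z • C e‖ ^ 2 + 2 * ‖C‖ ^ 2 := by
    have h7 : ‖ξ‖ ≤ ‖ξ + lam z • C e‖ + ‖lam z • C e‖ := by
      have := norm_sub_le (ξ + lam z • C e) (lam z • C e)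
      simpa using this
    have h8 : ‖ξ‖ ≤ ‖ξ + lam z • C e‖ + ‖C‖ := by linarith
    have h9 : ‖ξ‖ ^ 2 ≤ (‖ξ + lam z • C e‖ + ‖C‖) ^ 2 := pow_le_pow_left₀ (norm_nonneg _) h8 2
    nlinarith [sq_nonneg (‖ξ + lam z • C e‖ - ‖C‖)]
  have h4 := mul_le_mul_of_nonneg_left h3 hε
  unfold RhN R1N
  have h5 : 0 ≤ ε * ‖ξ + lam z • C e‖ ^ 2 := by positivity
  have h6 : ε * ‖ξ‖ ^ 2 ≤ 2 * (ε * ‖ξ + lam z • C e‖ ^ 2) + 1 / 8 := by
    have : ε * (2 * ‖ξ + lam z • C e‖ ^ 2 + 2 * ‖C‖ ^ 2) =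
      2 * (ε * ‖ξ + lam z • C e‖ ^ 2) + 2 * (ε * ‖C‖ ^ 2) := by ring
    linarith
  have h7 := mul_le_mul_of_nonneg_left h6 (by positivity : 0 ≤ sz z / 2)
  nlinarith [mul_nonneg (sub_nonneg.mpr hs1) h5]

lemma R1N_pos {ε : ℝ} (hε : 0 ≤ ε) (ξ : F) : 0 < R1N ε ξ := by
  unfold R1N
  positivity

lemma RpN_pos {ε : ℝ} (hε : 0 ≤ ε) (C : V →L[ℝ] F) (ξ : F) (e : V) {z : R} (hz : z ≠ 0) (t : V) :
    0 < RpN ε C ξ e z t := by
  have := sz_pos' hz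
  unfold RpN
  positivity

/-- two sided bound of the log ratio -/
lemma log_ratio_bound {ε : ℝ} (hε : 0 ≤ ε) (C : V →L[ℝ] F) (hεC : ε * ‖C‖ ^ 2 ≤ 1 / 16) (ξ : F)
    {e : V} (he : ‖e‖ = 1) {z : R} (hz : z ≠ 0) (t : V) :
    |Real.log (RpN ε C ξ e z t) - Real.log (R1N ε ξ)| ≤
      Real.log 4 + Real.log (1 + ‖t‖ ^ 2) + |Real.log (sz z)| := by
  have hs := sz_pos' hz
  have h1 := RpN_upper hε C hεC ξ he z t
  have h2 := RhN_lower hε C hεC ξ he z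
  have h3 := (RpN_RhN hε C hεC ξ e hz t).1
  have hR1 := R1N_pos hε ξ
  have hRp := RpN_pos hε C ξ e hz t
  have ht : 1 ≤ 1 + ‖t‖ ^ 2 := by nlinarith [sq_nonneg ‖t‖]
  have ht0 := Real.log_nonneg ht
  have h4 := Real.log_le_log hRp h1
  rw [Real.log_mul (by positivity) hR1.ne', Real.log_mul (by norm_num) (by positivity)] at h4
  have h5 : sz z / 4 * R1N ε ξ ≤ RpN ε C ξ e z t := by linarith
  have h6 := Real.log_le_log (by positivity) h5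
  rw [Real.log_mul (by positivity) hR1.ne', Real.log_div hs.ne' (by norm_num)] at h6
  have h7 : Real.log 2 ≤ Real.log 4 := Real.log_le_log (by norm_num) (by norm_num)
  have h8 := neg_abs_le (Real.log (sz z))
  have h9 := abs_nonneg (Real.log (sz z))
  rw [abs_le]
  constructor <;> linarith

/-- the pair identity -/
lemma pair_eq {ε : ℝ} (hε : 0 ≤ ε) (C : V →L[ℝ] F) (ξ : F) (e : V) {z : R} (hz : z ≠ 0) (t : V) :
    Real.log (RpN ε C ξ e z t) + Real.log (RpN ε C ξ (-e) z (-t)) =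
      Real.log ((sz z * (1 + ‖t‖ ^ 2) + ε * ‖ξ‖ ^ 2 + ε * ‖omf C e z t‖ ^ 2) ^ 2 -
        (2 * ε * ⟪ξ, omf C e z t⟫_ℝ) ^ 2) := by
  have h1 := RpN_pos hε C ξ e hz t
  have h2 := RpN_pos hε C ξ (-e) hz (-t)
  rw [← Real.log_mul h1.ne' h2.ne']
  congr 1
  unfold RpN
  rw [omf_neg, norm_neg, norm_add_sq_real, ← sub_eq_add_neg, norm_sub_sq_real]
  ring

lemma pair_cs {ε : ℝ} (C : V →L[ℝ] F) (ξ : F) (e : V) (z : R) (t : V) :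
    (2 * ε * ⟪ξ, omf C e z t⟫_ℝ) ^ 2 ≤ 4 * (ε * ‖ξ‖ ^ 2) * (ε * ‖omf C e z t‖ ^ 2) := by
  have h1 := abs_real_inner_le_norm ξ (omf C e z t)
  have h2 : ⟪ξ, omf C e z t⟫_ℝ ^ 2 ≤ (‖ξ‖ * ‖omf C e z t‖) ^ 2 := by
    rw [← sq_abs]
    exact pow_le_pow_left₀ (abs_nonneg _) h1 2
  have h3 := mul_le_mul_of_nonneg_left h2 (by positivity : 0 ≤ 4 * ε ^ 2)
  calc (2 * ε * ⟪ξ, omf C e z t⟫_ℝ) ^ 2 = 4 * ε ^ 2 * ⟪ξ, omf C e z t⟫_ℝ ^ 2 := by ring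
    _ ≤ 4 * ε ^ 2 * (‖ξ‖ * ‖omf C e z t‖) ^ 2 := h3
    _ = _ := by ring

/-- lower bound of the shift on the good event -/
lemma omf_lower (C : V →L[ℝ] F) {e : V} (he : ‖e‖ = 1) (z : R) {t : V}
    (ht : 2 * ‖C‖ ≤ rs z * ‖C t‖) : 1 / 4 * (sz z * ‖C t‖ ^ 2) ≤ ‖omf C e z t‖ ^ 2 := by
  have h2 : ‖lam z • C e‖ ≤ ‖C‖ := by
    rw [norm_smul, Real.norm_of_nonneg (lam_nonneg z)]
    have a1 := C.le_opNorm e
    rw [he, mul_one] at a1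
    have a2 : lam z ≤ 1 := by
      have := lam_le_one z
      nlinarith [lam_nonneg z]
    nlinarith [lam_nonneg z, norm_nonneg (C e), norm_nonneg C]
  have h3 : ‖rs z • C t‖ = rs z * ‖C t‖ := by
    rw [norm_smul, Real.norm_of_nonneg (rs_nonneg z)]
  have h4 : rs z * ‖C t‖ / 2 ≤ ‖omf C e z t‖ := by
    have h5 : ‖rs z • C t‖ ≤ ‖omf C e z t‖ + ‖lam z • C e‖ := by
      have h6 : rs z • C t = lam z • C e - omf C e z t := by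
        unfold omf
        abel
      rw [h6]
      have := norm_sub_le (lam z • C e) (omf C e z t)
      linarith
    rw [h3] at h5
    linarith
  have h5 : (rs z * ‖C t‖ / 2) ^ 2 ≤ ‖omf C e z t‖ ^ 2 :=
    pow_le_pow_left₀ (by have := rs_nonneg z; positivity) h4 2
  calc 1 / 4 * (sz z * ‖C t‖ ^ 2) = (rs z * ‖C t‖ / 2) ^ 2 := by
        rw [← rs_sq]
        ring
    _ ≤ _ := h5

end

end MP4845
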