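import Mathlib
import Pool.Agent.Lib.MP_4845bf_pr.Q2Meas
import Pool.Agent.Lib.MP_4845bf_pr.Q2Point

/-!
The inner positivity statement (Q2).
-/

set_option linter.unusedSectionVars false
set_option linter.unnecessarySimpa false

namespace MP4845

open MeasureTheory Module Set Filter Topology
open scoped InnerProductSpace ENNReal

section

variable {R V F : Type*} [NormedAddCommGroup R] [NormedSpace ℝ R] [FiniteDimensional ℝ R]
  [MeasurableSpace R] [BorelSpace R] [Nontrivial R]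
  [NormedAddCommGroup V] [NormedSpace ℝ V] [FiniteDimensional ℝ V]
  [MeasurableSpace V] [BorelSpace V] [Nontrivial V]
  [NormedAddCommGroup F] [InnerProductSpace ℝ F]

lemma Tm_mp (ν : Measure V) [ν.IsAddHaarMeasure] (γ : ℝ) :
    MeasurePreserving (fun t : V => -t) (Tm ν γ) (Tm ν γ) := by
  refine ⟨measurable_neg, ?_⟩
  ext s hs
  rw [Measure.map_apply measurable_neg hs]
  unfold Tm
  rw [withDensity_apply _ hs, withDensity_apply _ (measurable_neg hs)]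
  have h := (Measure.measurePreserving_neg ν).setLIntegral_comp_preimage hs
    (f := fun t : V => ENNReal.ofReal ((1 + ‖t‖ ^ 2) ^ (-γ))) (measurable_tw γ).ennreal_ofReal
  rw [← h]
  simp only [norm_neg]

lemma continuous_rs : Continuous (rs : R → ℝ) := by
  unfold rs
  exact continuous_lam.mul continuous_norm

lemma continuous_omf (C : V →L[ℝ] F) (e : V) :
    Continuous (fun w : R × V => omf C e w.1 w.2) := by
  unfold omf
  exact ((continuous_lam.comp continuous_fst).smul continuous_const).sub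
    ((continuous_rs.comp continuous_fst).smul (C.continuous.comp continuous_snd))

lemma measurable_RpN (ε : ℝ) (C : V →L[ℝ] F) (ξ : F) (e : V) :
    Measurable (fun w : R × V => RpN ε C ξ e w.1 w.2) := by
  have h1 : Continuous (fun w : R × V => RpN ε C ξ e w.1 w.2) := by
    unfold RpN
    exact ((continuous_sz.comp continuous_fst).mul
      (continuous_const.add (continuous_snd.norm.pow 2))).add
      (continuous_const.mul ((continuous_const.add (continuous_omf C e)).norm.pow 2))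
  exact h1.measurable

lemma measurable_RhN (ε : ℝ) (C : V →L[ℝ] F) (ξ : F) (e : V) :
    Measurable (fun w : R × V => RhN ε C ξ e w.1) := by
  have h1 : Continuous (fun w : R × V => RhN ε C ξ e w.1) := by
    unfold RhN
    exact (continuous_sz.comp continuous_fst).add
      (continuous_const.mul ((continuous_const.add
        ((continuous_lam.comp continuous_fst).smul continuous_const)).norm.pow 2))
  exact h1.measurable

/-- the integrand of the lower bound -/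
noncomputable def LLf (ε μ' : ℝ) (C : V →L[ℝ] F) (ξ : F) (e : V) (w : R × V) : ℝ :=
  Real.log (RpN ε C ξ e w.1 w.2) - Real.log (R1N ε ξ) -
    μ' * Real.log (RpN ε C ξ e w.1 w.2 / RhN ε C ξ e w.1) ^ 2

/-- the joint measure -/
noncomputable def Pim (μ : Measure R) (ν : Measure V) (p1 γ : ℝ) : Measure (R × V) :=
  (Zm μ p1 (finrank ℝ V)).prod (Tm ν γ)

variable (μ : Measure R) [μ.IsAddHaarMeasure] (ν : Measure V) [ν.IsAddHaarMeasure]
  {p1 γ : ℝ}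

include μ ν

lemma gamma_ge (hp1 : 0 ≤ p1) (hγ : γ = p1 + finrank ℝ R / 2 + finrank ℝ V / 2) :
    (finrank ℝ V : ℝ) + 1 ≤ 2 * γ := by
  have hN : 0 < finrank ℝ R := finrank_pos
  have hN' : (1:ℝ) ≤ finrank ℝ R := by exact_mod_cast hN
  rw [hγ]
  linarith

lemma Pim_ae (hp1 : 0 ≤ p1) (hγ : γ = p1 + finrank ℝ R / 2 + finrank ℝ V / 2) :
    ∀ᵐ w ∂(Pim μ ν p1 γ), w.1 ≠ 0 := by
  have hm : 0 < finrank ℝ V := finrank_pos
  have hf1 := Zm_finite μ hp1 hm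
  have hf2 := Tm_finite ν (gamma_ge (R := R) μ ν hp1 hγ)
  exact Measure.quasiMeasurePreserving_fst.ae (Zm_ae μ p1 (finrank ℝ V))

lemma Pim_fst (hp1 : 0 ≤ p1) (hγ : γ = p1 + finrank ℝ R / 2 + finrank ℝ V / 2) {f : R → ℝ}
    (hf : Integrable f (Zm μ p1 (finrank ℝ V))) :
    Integrable (fun w : R × V => f w.1) (Pim μ ν p1 γ) := by
  have hm : 0 < finrank ℝ V := finrank_pos
  have hf1 := Zm_finite μ hp1 hm
  have hf2 := Tm_finite ν (gamma_ge (R := R) μ ν hp1 hγ)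
  have := hf.mul_prod (integrable_const (μ := Tm ν γ) (1:ℝ))
  unfold Pim
  simpa using this

lemma Pim_snd (hp1 : 0 ≤ p1) (hγ : γ = p1 + finrank ℝ R / 2 + finrank ℝ V / 2) {f : V → ℝ}
    (hf : Integrable f (Tm ν γ)) :
    Integrable (fun w : R × V => f w.2) (Pim μ ν p1 γ) := by
  have hm : 0 < finrank ℝ V := finrank_pos
  have hf1 := Zm_finite μ hp1 hm
  have hf2 := Tm_finite ν (gamma_ge (R := R) μ ν hp1 hγ)
  have := (integrable_const (μ := Zm μ p1 (finrank ℝ V)) (1:ℝ)).mul_prod hf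
  unfold Pim
  simpa using this

lemma Pim_finite (hp1 : 0 ≤ p1) (hγ : γ = p1 + finrank ℝ R / 2 + finrank ℝ V / 2) :
    IsFiniteMeasure (Pim μ ν p1 γ) := by
  have hm : 0 < finrank ℝ V := finrank_pos
  have hf1 := Zm_finite μ hp1 hm
  have hf2 := Tm_finite ν (gamma_ge (R := R) μ ν hp1 hγ)
  unfold Pim
  infer_instance

lemma int_log_rho (hp1 : 0 ≤ p1) (hγ : γ = p1 + finrank ℝ R / 2 + finrank ℝ V / 2) :
    Integrable (fun w : R × V => Real.log (sz w.1 * (1 + ‖w.2‖ ^ 2))) (Pim μ ν p1 γ) ∧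
    ∫ w : R × V, Real.log (sz w.1 * (1 + ‖w.2‖ ^ 2)) ∂(Pim μ ν p1 γ) = 0 := by
  have hm : 0 < finrank ℝ V := finrank_pos
  have hf1 := Zm_finite μ hp1 hm
  have hg := gamma_ge (R := R) μ ν hp1 hγ
  have hf2 := Tm_finite ν hg
  have i1 := Pim_fst μ ν hp1 hγ (Zm_log μ hp1 hm)
  have i2 := Pim_snd μ ν hp1 hγ (Tm_log ν hg)
  have hae : (fun w : R × V => Real.log (sz w.1) + Real.log (1 + ‖w.2‖ ^ 2))
      =ᵐ[Pim μ ν p1 γ] (fun w : R × V => Real.log (sz w.1 * (1 + ‖w.2‖ ^ 2))) := by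
    filter_upwards [Pim_ae μ ν hp1 hγ] with w hw
    rw [Real.log_mul (sz_pos hw).ne' (by positivity)]
  refine ⟨(i1.add i2).congr hae, ?_⟩
  rw [← integral_congr_ae hae, integral_add i1 i2]
  have h1 : ∫ w : R × V, Real.log (sz w.1) ∂(Pim μ ν p1 γ) =
      (∫ z : R, Real.log (sz z) ∂(Zm μ p1 (finrank ℝ V))) * (Tm ν γ).real univ := by
    have := integral_prod_mul (μ := Zm μ p1 (finrank ℝ V)) (ν := Tm ν γ)
      (fun z : R => Real.log (sz z)) (fun _ : V => (1:ℝ))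
    simpa [Pim] using this
  have h2 : ∫ w : R × V, Real.log (1 + ‖w.2‖ ^ 2) ∂(Pim μ ν p1 γ) =
      (Zm μ p1 (finrank ℝ V)).real univ * ∫ t : V, Real.log (1 + ‖t‖ ^ 2) ∂(Tm ν γ) := by
    have := integral_prod_mul (μ := Zm μ p1 (finrank ℝ V)) (ν := Tm ν γ)
      (fun _ : R => (1:ℝ)) (fun t : V => Real.log (1 + ‖t‖ ^ 2))
    simpa [Pim] using this
  rw [h1, h2]
  exact mean_log_zero μ ν hγ

lemma int_log_ratio (hp1 : 0 ≤ p1) (hγ : γ = p1 + finrank ℝ R / 2 + finrank ℝ V / 2)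
    {ε : ℝ} (hε : 0 ≤ ε) (C : V →L[ℝ] F) (hεC : ε * ‖C‖ ^ 2 ≤ 1 / 16) (ξ : F)
    {e : V} (he : ‖e‖ = 1) :
    Integrable (fun w : R × V => Real.log (RpN ε C ξ e w.1 w.2) - Real.log (R1N ε ξ))
      (Pim μ ν p1 γ) := by
  have hm : 0 < finrank ℝ V := finrank_pos
  have hf := Pim_finite μ ν hp1 hγ
  have hg := gamma_ge (R := R) μ ν hp1 hγ
  have i1 := Pim_fst μ ν hp1 hγ (Zm_log μ hp1 hm).abs
  have i2 := Pim_snd μ ν hp1 hγ (Tm_log ν hg)
  have i3 : Integrable (fun _ : R × V => Real.log 4) (Pim μ ν p1 γ) := integrable_const _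
  refine ((i3.add i2).add i1).mono' ?_ ?_
  · exact ((measurable_RpN ε C ξ e).log.sub_const _).aestronglyMeasurable
  · filter_upwards [Pim_ae μ ν hp1 hγ] with w hw
    exact log_ratio_bound hε C hεC ξ he hw w.2

lemma int_delta (hp1 : 0 ≤ p1) (hγ : γ = p1 + finrank ℝ R / 2 + finrank ℝ V / 2)
    {ε : ℝ} (hε : 0 ≤ ε) (C : V →L[ℝ] F) (hεC : ε * ‖C‖ ^ 2 ≤ 1 / 16) (ξ : F) (e : V) :
    Integrable (fun w : R × V => Real.log (RpN ε C ξ e w.1 w.2 / RhN ε C ξ e w.1) ^ 2)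
      (Pim μ ν p1 γ) := by
  have hg := gamma_ge (R := R) μ ν hp1 hγ
  have i2 := Pim_snd μ ν hp1 hγ ((Tm_quarter ν hg).const_mul 100)
  refine i2.mono' ?_ ?_
  · exact (((measurable_RpN ε C ξ e).div (measurable_RhN ε C ξ e)).log.pow_const
      2).aestronglyMeasurable
  · filter_upwards [Pim_ae μ ν hp1 hγ] with w hw
    rw [Real.norm_of_nonneg (sq_nonneg _)]
    exact delta_unif hε C hεC ξ e hw w.2

lemma int_LLf (hp1 : 0 ≤ p1) (hγ : γ = p1 + finrank ℝ R / 2 + finrank ℝ V / 2)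
    {ε : ℝ} (hε : 0 ≤ ε) (C : V →L[ℝ] F) (hεC : ε * ‖C‖ ^ 2 ≤ 1 / 16) (ξ : F)
    {e : V} (he : ‖e‖ = 1) (μ' : ℝ) :
    Integrable (LLf (R := R) ε μ' C ξ e) (Pim μ ν p1 γ) :=
  (int_log_ratio μ ν hp1 hγ hε C hεC ξ he).sub ((int_delta μ ν hp1 hγ hε C hεC ξ e).const_mul μ')

/-- reflection of the second coordinate -/
lemma Pim_neg (hp1 : 0 ≤ p1) (hγ : γ = p1 + finrank ℝ R / 2 + finrank ℝ V / 2) {f : R × V → ℝ} :
    (Integrable f (Pim μ ν p1 γ) → Integrable (fun w : R × V => f (w.1, -w.2)) (Pim μ ν p1 γ)) ∧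
    ∫ w : R × V, f (w.1, -w.2) ∂(Pim μ ν p1 γ) = ∫ w, f w ∂(Pim μ ν p1 γ) := by
  have hm : 0 < finrank ℝ V := finrank_pos
  have hf1 := Zm_finite μ hp1 hm
  have hf2 := Tm_finite ν (gamma_ge (R := R) μ ν hp1 hγ)
  have hmp : MeasurePreserving (fun w : R × V => (w.1, -w.2)) (Pim μ ν p1 γ) (Pim μ ν p1 γ) :=
    (MeasurePreserving.id (Zm μ p1 (finrank ℝ V))).prod (Tm_mp ν γ)
  have hemb : MeasurableEmbedding (fun w : R × V => (w.1, -w.2)) :=
    ((Homeomorph.refl R).prodCongr (Homeomorph.neg V)).measurableEmbedding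
  constructor
  · intro hf
    exact (hmp.integrable_comp_emb hemb (g := f)).mpr hf
  · exact hmp.integral_comp hemb f

/-- lower bound of the symmetrised integral -/
lemma sum_lower (hp1 : 0 ≤ p1) (hγ : γ = p1 + finrank ℝ R / 2 + finrank ℝ V / 2)
    {ε : ℝ} (hε : 0 ≤ ε) (C : V →L[ℝ] F) (hεC : ε * ‖C‖ ^ 2 ≤ 1 / 16) (ξ : F)
    {e : V} (he : ‖e‖ = 1) {μ' : ℝ} (hμ' : 0 ≤ μ') {LB D : R × V → ℝ}
    (hLB : Integrable LB (Pim μ ν p1 γ)) (hD : Integrable D (Pim μ ν p1 γ))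
    (h1 : ∀ z : R, z ≠ 0 → ∀ t : V, LB (z, t) ≤
      pairF (ε * ‖ξ‖ ^ 2) (sz z * (1 + ‖t‖ ^ 2)) (ε * ‖omf C e z t‖ ^ 2)
        (2 * ε * ⟪ξ, omf C e z t⟫_ℝ))
    (h2 : ∀ z : R, z ≠ 0 → ∀ t : V, Real.log (RpN ε C ξ e z t / RhN ε C ξ e z) ^ 2 +
      Real.log (RpN ε C ξ (-e) z (-t) / RhN ε C ξ (-e) z) ^ 2 ≤ D (z, t)) :
    ∫ w, LB w ∂(Pim μ ν p1 γ) - μ' * ∫ w, D w ∂(Pim μ ν p1 γ) ≤
      ∫ w, LLf ε μ' C ξ e w ∂(Pim μ ν p1 γ) + ∫ w, LLf ε μ' C ξ (-e) w ∂(Pim μ ν p1 γ) := by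
  have he' : ‖-e‖ = 1 := by rw [norm_neg, he]
  have i1 := int_LLf μ ν hp1 hγ hε C hεC ξ he μ'
  have i2 := int_LLf μ ν hp1 hγ hε C hεC ξ he' μ'
  obtain ⟨hn1, hn2⟩ := Pim_neg μ ν hp1 hγ (f := LLf (R := R) ε μ' C ξ (-e))
  obtain ⟨hr1, hr2⟩ := int_log_rho (R := R) (V := V) μ ν hp1 hγ
  rw [← hn2, ← integral_add i1 (hn1 i2)]
  set x := ε * ‖ξ‖ ^ 2 with hx
  have hx0 : 0 ≤ x := by positivity
  have e1 : ∫ w, LB w ∂(Pim μ ν p1 γ) - μ' * ∫ w, D w ∂(Pim μ ν p1 γ) =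
      ∫ w, (LB w - μ' * D w + 2 / (1 + x) * Real.log (sz w.1 * (1 + ‖w.2‖ ^ 2)))
        ∂(Pim μ ν p1 γ) := by
    have i3 : Integrable (fun w => LB w - μ' * D w) (Pim μ ν p1 γ) := hLB.sub (hD.const_mul μ')
    rw [integral_add i3 (hr1.const_mul _), integral_const_mul, hr2,
      integral_sub hLB (hD.const_mul μ'), integral_const_mul]
    ring
  rw [e1]
  apply integral_mono_ae ((hLB.sub (hD.const_mul μ')).add (hr1.const_mul _)) (i1.add (hn1 i2))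
  filter_upwards [Pim_ae μ ν hp1 hγ] with w hw
  obtain ⟨z, t⟩ := w
  simp only at hw ⊢
  have a1 := h1 z hw t
  have a2 := mul_le_mul_of_nonneg_left (h2 z hw t) hμ'
  have a3 := pair_eq hε C ξ e hw t
  unfold LLf
  simp only [Pi.add_apply, Pi.sub_apply]
  unfold pairF at a1
  rw [← hx] at a3
  rw [← a3] at a1
  have a4 : Real.log (R1N ε ξ) = Real.log (1 + x) := rfl
  rw [a4]
  have a5 : 2 / (1 + x) * Real.log (sz z * (1 + ‖t‖ ^ 2)) =
      2 * (Real.log (sz z * (1 + ‖t‖ ^ 2)) / (1 + x)) := by ring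
  rw [a5]
  linarith

end

end MP4845
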