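import Mathlib
import Pool.Agent.Lib.MP_4845bf_pr.Q2Inner

/-!
The inner positivity statement, second part (Q2).
-/

set_option linter.unusedSectionVars false
set_option linter.unnecessarySimpa false

namespace MP4845

open MeasureTheory Module Set Filter Topology
open scoped InnerProductSpace ENNReal

section

variable {R V F : Type*} [NormedAddCommGroup R] [NormedSpace ℝ R] [FiniteDimensional ℝ R]
  [MeasurableSpace R] [BorelSpace R] [Nontrivial R]
  [NormedAddCommGroup V] [NormedSpace ℝ V] [FiniteDimensional ℝ V]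
  [MeasurableSpace V] [BorelSpace V] [Nontrivial V]
  [NormedAddCommGroup F] [InnerProductSpace ℝ F]

/-- `ρ` -/
noncomputable def rho (w : R × V) : ℝ := sz w.1 * (1 + ‖w.2‖ ^ 2)

lemma continuous_rho : Continuous (rho : R × V → ℝ) := by
  unfold rho
  exact (continuous_sz.comp continuous_fst).mul (continuous_const.add (continuous_snd.norm.pow 2))

lemma rho_nonneg (w : R × V) : 0 ≤ rho w := by
  have := sz_nonneg' w.1
  unfold rho
  positivity

/-- good event -/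
def E1 (C : V →L[ℝ] F) : Set (R × V) := {w | 1 ≤ rho w ∧ 2 * ‖C‖ ≤ rs w.1 * ‖C w.2‖}

lemma measurableSet_E1 (C : V →L[ℝ] F) : MeasurableSet (E1 C : Set (R × V)) := by
  apply IsClosed.measurableSet
  apply IsClosed.inter
  · exact isClosed_le continuous_const continuous_rho
  · exact isClosed_le continuous_const
      ((continuous_rs.comp continuous_fst).mul (C.continuous.comp continuous_snd).norm)

variable (μ : Measure R) [μ.IsAddHaarMeasure] (ν : Measure V) [ν.IsAddHaarMeasure]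
  {p1 γ : ℝ}

include μ ν

lemma Pim_pos_prod (hp1 : 0 ≤ p1) (hγ : γ = p1 + finrank ℝ R / 2 + finrank ℝ V / 2)
    {U : Set R} {W : Set V} (hU : IsOpen U) (hUn : U.Nonempty) (hW : IsOpen W)
    (hWn : W.Nonempty) {S : Set (R × V)} (hS : U ×ˢ W ⊆ S) : 0 < Pim μ ν p1 γ S := by
  have hm : 0 < finrank ℝ V := finrank_pos
  have hf1 := Zm_finite μ hp1 hm
  have hf2 := Tm_finite ν (gamma_ge (R := R) μ ν hp1 hγ)
  refine lt_of_lt_of_le ?_ (measure_mono hS)
  unfold Pim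
  rw [Measure.prod_prod]
  exact ENNReal.mul_pos (Zm_pos μ p1 _ hU hUn).ne' (Tm_pos ν γ hW hWn).ne'

omit μ ν in
lemma exists_big (r : ℝ) : ∃ z : R, r < ‖z‖ := by
  obtain ⟨u, hu⟩ := exists_ne (0 : R)
  have hu0 : 0 < ‖u‖ := norm_pos_iff.mpr hu
  refine ⟨((|r| + 1) / ‖u‖) • u, ?_⟩
  rw [norm_smul, norm_div, norm_norm, div_mul_cancel₀ _ hu0.ne',
    Real.norm_of_nonneg (by positivity)]
  linarith [le_abs_self r]

omit μ ν in
lemma sz_gt_half {z : R} (hz : 1 < ‖z‖) : 1 / 2 < sz z := by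
  unfold sz
  rw [div_lt_div_iff₀ (by norm_num) (by positivity)]
  nlinarith

lemma E1_pos (hp1 : 0 ≤ p1) (hγ : γ = p1 + finrank ℝ R / 2 + finrank ℝ V / 2)
    (C : V →L[ℝ] F) (hC : C ≠ 0) : 0 < Pim μ ν p1 γ (E1 C) := by
  have hC0 : 0 < ‖C‖ := norm_pos_iff.mpr hC
  obtain ⟨v0, hv0⟩ : ∃ v0, C v0 ≠ 0 := by
    by_contra hcon
    push Not at hcon
    exact hC (ContinuousLinearMap.ext hcon)
  have hCv : 0 < ‖C v0‖ := norm_pos_iff.mpr hv0
  apply Pim_pos_prod μ ν hp1 hγ (U := {z : R | 1 < ‖z‖})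
    (W := {t : V | 1 < ‖t‖ ∧ 4 * ‖C‖ < ‖C t‖})
  · exact isOpen_lt continuous_const continuous_norm
  · exact exists_big 1
  · exact (isOpen_lt continuous_const continuous_norm).inter
      (isOpen_lt continuous_const C.continuous.norm)
  · have hv00 : v0 ≠ 0 := by
      intro h
      rw [h, map_zero] at hv0
      exact hv0 rfl
    have hv1 : 0 < ‖v0‖ := norm_pos_iff.mpr hv00
    refine ⟨(2 / ‖v0‖ + 5 * ‖C‖ / ‖C v0‖) • v0, ?_, ?_⟩
    · rw [norm_smul, Real.norm_of_nonneg (by positivity), add_mul, div_mul_cancel₀ _ hv1.ne']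
      have : 0 ≤ 5 * ‖C‖ / ‖C v0‖ * ‖v0‖ := by positivity
      linarith
    · rw [map_smul, norm_smul, Real.norm_of_nonneg (by positivity), add_mul,
        div_mul_cancel₀ _ hCv.ne']
      have : 0 ≤ 2 / ‖v0‖ * ‖C v0‖ := by positivity
      linarith
  · rintro ⟨z, t⟩ ⟨hz, ht1, ht2⟩
    have hz1 : 1 < ‖z‖ := hz
    have hs := sz_gt_half hz1
    simp only at ht1 ht2
    refine ⟨?_, ?_⟩
    · unfold rho
      simp only
      nlinarith
    · simp only
      have h1 : 1 / 2 ≤ rs z := by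
        have h2 := rs_sq z
        have h3 := rs_nonneg z
        by_contra hcon
        push Not at hcon
        nlinarith
      nlinarith [norm_nonneg (C t)]

lemma rho4_pos (hp1 : 0 ≤ p1) (hγ : γ = p1 + finrank ℝ R / 2 + finrank ℝ V / 2) :
    0 < Pim μ ν p1 γ {w : R × V | 4 ≤ rho w} := by
  apply Pim_pos_prod μ ν hp1 hγ (U := {z : R | 1 < ‖z‖}) (W := {t : V | 3 < ‖t‖})
  · exact isOpen_lt continuous_const continuous_norm
  · exact exists_big 1
  · exact isOpen_lt continuous_const continuous_norm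
  · exact exists_big 3
  · rintro ⟨z, t⟩ ⟨hz, ht⟩
    have hz1 : 1 < ‖z‖ := hz
    have ht1 : 3 < ‖t‖ := ht
    have hs := sz_gt_half hz1
    change 4 ≤ rho (z, t)
    unfold rho
    simp only
    nlinarith

/-- the near case -/
lemma near_case (hp1 : 0 ≤ p1) (hγ : γ = p1 + finrank ℝ R / 2 + finrank ℝ V / 2)
    (C : V →L[ℝ] F) (hC : C ≠ 0) {ε : ℝ} (hε : 0 < ε) (hεC : ε * ‖C‖ ^ 2 ≤ 1 / 16) :
    ∃ μ1 : ℝ, 0 < μ1 ∧ ∀ μ' : ℝ, 0 ≤ μ' → μ' ≤ μ1 → ∀ (ξ : F) (e : V), ‖e‖ = 1 →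
      ε * ‖ξ‖ ^ 2 ≤ 1 / 2 →
      0 < ∫ w, LLf ε μ' C ξ e w ∂(Pim μ ν p1 γ) + ∫ w, LLf ε μ' C ξ (-e) w ∂(Pim μ ν p1 γ) := by
  have hfin := Pim_finite μ ν hp1 hγ
  have hg := gamma_ge (R := R) μ ν hp1 hγ
  have hC0 : 0 < ‖C‖ := norm_pos_iff.mpr hC
  let g : R × V → ℝ := fun w => Real.log (1 + ε / 9 * (‖C w.2‖ ^ 2 / (1 + ‖w.2‖ ^ 2)))
  have hgc : Measurable g := by
    apply Measurable.log
    apply Measurable.const_add
    apply Measurable.const_mul
    exact (((C.continuous.comp continuous_snd).norm.pow 2).measurable).div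
      ((continuous_const.add (continuous_snd.norm.pow 2)).measurable)
  have hg0 : ∀ w, 0 ≤ g w := by
    intro w
    apply Real.log_nonneg
    have : 0 ≤ ε / 9 * (‖C w.2‖ ^ 2 / (1 + ‖w.2‖ ^ 2)) := by positivity
    linarith
  have hgb : ∀ w, g w ≤ 1 := by
    intro w
    have h1 : ‖C w.2‖ ^ 2 / (1 + ‖w.2‖ ^ 2) ≤ ‖C‖ ^ 2 := by
      rw [div_le_iff₀ (by positivity)]
      have h2 := C.le_opNorm w.2
      have h3 : ‖C w.2‖ ^ 2 ≤ (‖C‖ * ‖w.2‖) ^ 2 := pow_le_pow_left₀ (norm_nonneg _) h2 2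
      nlinarith [sq_nonneg ‖C‖]
    have h4 : ε / 9 * (‖C w.2‖ ^ 2 / (1 + ‖w.2‖ ^ 2)) ≤ 1 := by
      calc ε / 9 * (‖C w.2‖ ^ 2 / (1 + ‖w.2‖ ^ 2)) ≤ ε / 9 * ‖C‖ ^ 2 := by gcongr
        _ ≤ 1 := by linarith
    have h5 := Real.log_le_sub_one_of_pos
      (show 0 < 1 + ε / 9 * (‖C w.2‖ ^ 2 / (1 + ‖w.2‖ ^ 2)) by positivity)
    simp only [g]
    linarith
  have hgi : Integrable g (Pim μ ν p1 γ) := by
    refine (integrable_const (1:ℝ)).mono' hgc.aestronglyMeasurable ?_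
    filter_upwards with w
    rw [Real.norm_of_nonneg (hg0 w)]
    exact hgb w
  let LB : R × V → ℝ := (E1 C).indicator g
  have hLBi : Integrable LB (Pim μ ν p1 γ) := hgi.indicator (measurableSet_E1 C)
  have hLBpos : 0 < ∫ w, LB w ∂(Pim μ ν p1 γ) := by
    rw [integral_pos_iff_support_of_nonneg _ hLBi]
    · refine lt_of_lt_of_le (E1_pos μ ν hp1 hγ C hC) (measure_mono ?_)
      intro w hw
      rw [Function.mem_support, show LB w = g w from indicator_of_mem hw _]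
      have h1 : 0 < ‖C w.2‖ := by
        have h2 : 2 * ‖C‖ ≤ rs w.1 * ‖C w.2‖ := hw.2
        rcases (norm_nonneg (C w.2)).eq_or_lt with h3 | h3
        · rw [← h3, mul_zero] at h2
          linarith
        · exact h3
      have h2 : 0 < g w := by
        apply Real.log_pos
        have : 0 < ε / 9 * (‖C w.2‖ ^ 2 / (1 + ‖w.2‖ ^ 2)) := by positivity
        linarith
      exact h2.ne'
    · intro w
      exact indicator_nonneg (fun w _ => hg0 w) w
  let D : R × V → ℝ := fun w => 200 * (1 + ‖w.2‖ ^ 2) ^ (1 / 4 : ℝ)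
  have hDi : Integrable D (Pim μ ν p1 γ) := Pim_snd μ ν hp1 hγ ((Tm_quarter ν hg).const_mul 200)
  have hD0 : 0 ≤ ∫ w, D w ∂(Pim μ ν p1 γ) := by
    apply integral_nonneg
    intro w
    simp only [D, Pi.zero_apply]
    positivity
  refine ⟨(∫ w, LB w ∂(Pim μ ν p1 γ)) / (2 * (∫ w, D w ∂(Pim μ ν p1 γ)) + 1), by positivity, ?_⟩
  intro μ' hμ0 hμ1 ξ e he hx
  have h1 := sum_lower μ ν hp1 hγ hε.le C hεC ξ he hμ0 hLBi hDi ?_ ?_
  · refine lt_of_lt_of_le ?_ h1
    rw [le_div_iff₀ (by positivity)] at hμ1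
    nlinarith
  · intro z hz t
    have hs := sz_pos' hz
    have hρ : 0 < sz z * (1 + ‖t‖ ^ 2) := by positivity
    have hx0 : 0 ≤ ε * ‖ξ‖ ^ 2 := by positivity
    have hA : 0 ≤ ε * ‖omf C e z t‖ ^ 2 := by positivity
    have hcs := pair_cs (ε := ε) C ξ e z t
    by_cases hw : ((z, t) : R × V) ∈ (E1 C : Set (R × V))
    · rw [show LB (z, t) = g (z, t) from indicator_of_mem hw _]
      have h2 : 1 ≤ sz z * (1 + ‖t‖ ^ 2) := hw.1
      have h3 := pair_small' hx0 hx h2 hA hcs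
      refine le_trans ?_ h3
      simp only [g]
      apply Real.log_le_log (by positivity)
      have h4 := omf_lower C he z (t := t) hw.2
      have h5 : ε / 9 * (‖C t‖ ^ 2 / (1 + ‖t‖ ^ 2)) =
          4 / 9 * (ε * (1 / 4 * (sz z * ‖C t‖ ^ 2)) / (sz z * (1 + ‖t‖ ^ 2))) := by
        field_simp
      rw [h5]
      gcongr
    · rw [show LB (z, t) = 0 from indicator_of_notMem hw _]
      exact pair_small hx0 hx hρ hA hcs
  · intro z hz t
    have h2 := delta_unif hε.le C hεC ξ e hz t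
    have h3 := delta_unif hε.le C hεC ξ (-e) hz (-t)
    rw [norm_neg] at h3
    simp only [D]
    linarith

/-- comparison of the bulk with the part `ρ ≥ 4` -/
lemma bulk (hp1 : 0 ≤ p1) (hγ : γ = p1 + finrank ℝ R / 2 + finrank ℝ V / 2) :
    ∃ κ : ℝ, 0 < κ ∧ ∀ x : ℝ, 1 / 2 ≤ x →
      Integrable (fun w : R × V => (1 + rho w) / (rho w + x)) (Pim μ ν p1 γ) ∧
      κ * ∫ w : R × V, (1 + rho w) / (rho w + x) ∂(Pim μ ν p1 γ) ≤
        ∫ w : R × V, {w : R × V | 4 ≤ rho w}.indicator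
          (fun w => (1 + rho w) / (rho w + x)) w ∂(Pim μ ν p1 γ) := by
  have hfin := Pim_finite μ ν hp1 hγ
  have hE : MeasurableSet {w : R × V | 4 ≤ rho w} :=
    (isClosed_le continuous_const continuous_rho).measurableSet
  set P4 : ℝ := (Pim μ ν p1 γ).real {w : R × V | 4 ≤ rho w} with hP4
  have hP4pos : 0 < P4 := by
    rw [hP4, measureReal_def]
    exact ENNReal.toReal_pos (rho4_pos μ ν hp1 hγ).ne' (measure_ne_top _ _)
  set W : ℝ := (Pim μ ν p1 γ : Measure (R × V)).real univ with hW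
  have hW0 : 0 ≤ W := measureReal_nonneg
  refine ⟨1 / (1 + 10 * W / P4), by positivity, ?_⟩
  intro x hx
  have hx0 : 0 < x := by linarith
  have hb : ∀ w : R × V, (1 + rho w) / (rho w + x) ≤ 2 := by
    intro w
    have := rho_nonneg w
    rw [div_le_iff₀ (by linarith)]
    linarith
  have hb0 : ∀ w : R × V, 0 ≤ (1 + rho w) / (rho w + x) := by
    intro w
    have := rho_nonneg w
    positivity
  have hi : Integrable (fun w : R × V => (1 + rho w) / (rho w + x)) (Pim μ ν p1 γ) := by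
    refine (integrable_const (2:ℝ)).mono' ?_ ?_
    · exact ((continuous_const.add continuous_rho).measurable.div
        (continuous_rho.add continuous_const).measurable).aestronglyMeasurable
    · filter_upwards with w
      rw [Real.norm_of_nonneg (hb0 w)]
      exact hb w
  refine ⟨hi, ?_⟩
  set I4 := ∫ w : R × V, {w : R × V | 4 ≤ rho w}.indicator
          (fun w => (1 + rho w) / (rho w + x)) w ∂(Pim μ ν p1 γ) with hI4
  have hi4 : Integrable ({w : R × V | 4 ≤ rho w}.indicator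
          (fun w => (1 + rho w) / (rho w + x))) (Pim μ ν p1 γ) := hi.indicator hE
  have h1 : ∫ w : R × V, (1 + rho w) / (rho w + x) ∂(Pim μ ν p1 γ) ≤ I4 + 5 / x * W := by
    have h2 : ∫ w : R × V, (1 + rho w) / (rho w + x) ∂(Pim μ ν p1 γ) ≤
        ∫ w : R × V, ({w : R × V | 4 ≤ rho w}.indicator
          (fun w => (1 + rho w) / (rho w + x)) w + 5 / x) ∂(Pim μ ν p1 γ) := by
      apply integral_mono hi (hi4.add (integrable_const _))
      intro w
      have hr := rho_nonneg w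
      by_cases hw : w ∈ {w : R × V | 4 ≤ rho w}
      · simp only [Pi.add_apply]
        rw [indicator_of_mem hw]
        have : 0 ≤ 5 / x := by positivity
        linarith
      · simp only [Pi.add_apply]
        rw [indicator_of_notMem hw, zero_add]
        have hw' : rho w < 4 := not_le.mp hw
        rw [div_le_div_iff₀ (by linarith) hx0]
        nlinarith [mul_nonneg hr hx0.le]
    rw [integral_add hi4 (integrable_const _), integral_const, smul_eq_mul] at h2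
    linarith
  have h2 : P4 * (1 / (2 * x)) ≤ I4 := by
    have h3 : ∫ w : R × V, {w : R × V | 4 ≤ rho w}.indicator (fun _ => 1 / (2 * x)) w
        ∂(Pim μ ν p1 γ) ≤ I4 := by
      apply integral_mono ((integrable_const _).indicator hE) hi4
      intro w
      have hr := rho_nonneg w
      by_cases hw : w ∈ {w : R × V | 4 ≤ rho w}
      · rw [indicator_of_mem hw, indicator_of_mem hw, div_le_div_iff₀ (by positivity) (by linarith)]
        nlinarith [mul_nonneg hr (by linarith : (0:ℝ) ≤ 2 * x - 1)]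
      · rw [indicator_of_notMem hw, indicator_of_notMem hw]
    rw [integral_indicator_const _ hE, smul_eq_mul] at h3
    exact h3
  have h3 : 5 / x * W ≤ 10 * W / P4 * I4 := by
    have h4 := mul_le_mul_of_nonneg_left h2 (by positivity : 0 ≤ 10 * W / P4)
    calc 5 / x * W = 10 * W / P4 * (P4 * (1 / (2 * x))) := by
          field_simp
          ring
      _ ≤ _ := h4
  have h4 : ∫ w : R × V, (1 + rho w) / (rho w + x) ∂(Pim μ ν p1 γ) ≤ (1 + 10 * W / P4) * I4 := by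
    linarith
  have h5 : 0 < 1 + 10 * W / P4 := by positivity
  rw [one_div, inv_mul_le_iff₀ h5]
  exact h4

/-- the far case -/
lemma far_case (hp1 : 0 ≤ p1) (hγ : γ = p1 + finrank ℝ R / 2 + finrank ℝ V / 2) :
    ∃ c0 μ2 : ℝ, 0 < c0 ∧ 0 < μ2 ∧ ∀ (C : V →L[ℝ] F) (ε : ℝ), 0 < ε → ε * ‖C‖ ^ 2 ≤ 1 / 16 →
      ε * ‖C‖ ^ 2 ≤ c0 → ∀ μ' : ℝ, 0 ≤ μ' → μ' ≤ μ2 → ∀ (ξ : F) (e : V), ‖e‖ = 1 →
      1 / 2 ≤ ε * ‖ξ‖ ^ 2 →
      0 < ∫ w, LLf ε μ' C ξ e w ∂(Pim μ ν p1 γ) + ∫ w, LLf ε μ' C ξ (-e) w ∂(Pim μ ν p1 γ) := by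
  have hfin := Pim_finite μ ν hp1 hγ
  have hg := gamma_ge (R := R) μ ν hp1 hγ
  have hm : 0 < finrank ℝ V := finrank_pos
  have hf1 := Zm_finite μ hp1 hm
  have hf2 := Tm_finite ν hg
  obtain ⟨κ, hκ, hbulk⟩ := bulk (R := R) (V := V) μ ν hp1 hγ
  obtain ⟨C7, hC7, htail⟩ := Tm_tail ν hg
  set S1 : ℝ := ∫ z : R, sz z ∂(Zm μ p1 (finrank ℝ V)) with hS1
  have hS1i : Integrable (fun z : R => sz z) (Zm μ p1 (finrank ℝ V)) := by
    refine (integrable_const (1:ℝ)).mono' continuous_sz.measurable.aestronglyMeasurable ?_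
    filter_upwards with z
    rw [Real.norm_of_nonneg (sz_nonneg z)]
    exact sz_le_one' z
  have hS1pos : 0 < S1 := by
    rw [hS1, integral_pos_iff_support_of_nonneg (fun z => sz_nonneg z) hS1i]
    refine lt_of_lt_of_le (Zm_pos μ p1 (finrank ℝ V) (U := {z : R | 0 < ‖z‖})
      (isOpen_lt continuous_const continuous_norm) (exists_big 0)) (measure_mono ?_)
    intro z hz
    exact (sz_pos (norm_pos_iff.mp hz)).ne'
  set W : ℝ := (Zm μ p1 (finrank ℝ V) : Measure R).real univ with hW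
  have hW0 : 0 ≤ W := measureReal_nonneg
  refine ⟨κ / 192, κ * S1 / (96 * (800 * W * C7 + 1)), by positivity, by positivity, ?_⟩
  intro C ε hε hεC hεC2 μ' hμ0 hμ1 ξ e he hx
  set x := ε * ‖ξ‖ ^ 2 with hxd
  have hx0 : 0 < x := by linarith
  obtain ⟨hQi, hQ⟩ := hbulk x hx
  set B : ℝ := 2 * (ε * ‖C‖ ^ 2) with hB
  have hB0 : 0 ≤ B := by positivity
  set Q := ∫ w : R × V, (1 + rho w) / (rho w + x) ∂(Pim μ ν p1 γ) with hQd
  have hE : MeasurableSet {w : R × V | 4 ≤ rho w} :=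
    (isClosed_le continuous_const continuous_rho).measurableSet
  let i4 : R × V → ℝ := {w : R × V | 4 ≤ rho w}.indicator (fun w => (1 + rho w) / (rho w + x))
  have hi4 : Integrable i4 (Pim μ ν p1 γ) := hQi.indicator hE
  let LB : R × V → ℝ := fun w => 1 / 12 * i4 w - 4 * B * ((1 + rho w) / (rho w + x))
  have hLBi : Integrable LB (Pim μ ν p1 γ) := (hi4.const_mul _).sub (hQi.const_mul _)
  let D : R × V → ℝ := fun w => 800 * min (‖w.2‖ ^ 2 / x) ((‖w.2‖ ^ 2 / x) ^ (1 / 4 : ℝ))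
  have hmi : Integrable (fun t : V => min (‖t‖ ^ 2 / x) ((‖t‖ ^ 2 / x) ^ (1 / 4 : ℝ)))
      (Tm ν γ) := by
    refine ((Tm_quarter ν hg).const_mul (x ^ (-(1 / 4) : ℝ))).mono' ?_ ?_
    · apply Measurable.aestronglyMeasurable
      have h1 : Measurable (fun t : V => ‖t‖ ^ 2 / x) := by fun_prop
      exact h1.min (h1.pow_const _)
    · filter_upwards with t
      have h0 : 0 ≤ ‖t‖ ^ 2 / x := by positivity
      rw [Real.norm_of_nonneg (le_min h0 (by positivity))]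
      refine (min_le_right _ _).trans ?_
      rw [Real.div_rpow (by positivity) hx0.le, Real.rpow_neg hx0.le, div_eq_inv_mul]
      have h1 : (‖t‖ ^ 2) ^ (1 / 4 : ℝ) ≤ (1 + ‖t‖ ^ 2) ^ (1 / 4 : ℝ) :=
        Real.rpow_le_rpow (by positivity) (by linarith) (by norm_num)
      gcongr
  have hDi : Integrable D (Pim μ ν p1 γ) := Pim_snd μ ν hp1 hγ (hmi.const_mul 800)
  have h1 := sum_lower μ ν hp1 hγ hε.le C hεC ξ he hμ0 hLBi hDi ?_ ?_
  · refine lt_of_lt_of_le ?_ h1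
    -- value of the two integrals
    have hLBv : ∫ w, LB w ∂(Pim μ ν p1 γ) = 1 / 12 * (∫ w, i4 w ∂(Pim μ ν p1 γ)) - 4 * B * Q := by
      simp only [LB]
      rw [integral_sub (hi4.const_mul _) (hQi.const_mul _), integral_const_mul,
        integral_const_mul]
    have hDv : ∫ w, D w ∂(Pim μ ν p1 γ) = W * (800 *
        ∫ t : V, min (‖t‖ ^ 2 / x) ((‖t‖ ^ 2 / x) ^ (1 / 4 : ℝ)) ∂(Tm ν γ)) := by
      rw [← integral_const_mul]
      have := integral_prod_mul (μ := Zm μ p1 (finrank ℝ V)) (ν := Tm ν γ)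
        (fun _ : R => (1:ℝ)) (fun t : V => 800 * min (‖t‖ ^ 2 / x) ((‖t‖ ^ 2 / x) ^ (1 / 4 : ℝ)))
      simpa [Pim, D, hW] using this
    have hM := htail x hx
    set M := ∫ t : V, min (‖t‖ ^ 2 / x) 1 ∂(Tm ν γ) with hMd
    have hMi : Integrable (fun t : V => min (‖t‖ ^ 2 / x) 1) (Tm ν γ) := by
      refine (integrable_const (1:ℝ)).mono' ?_ ?_
      · apply Measurable.aestronglyMeasurable
        fun_prop
      · filter_upwards with t
        rw [Real.norm_of_nonneg (le_min (by positivity) zero_le_one)]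
        exact min_le_right _ _
    have hMpos : 0 < M := by
      rw [hMd, integral_pos_iff_support_of_nonneg _ hMi]
      · refine lt_of_lt_of_le (Tm_pos ν γ (U := {z : V | 0 < ‖z‖})
          (isOpen_lt continuous_const continuous_norm) (exists_big 0)) (measure_mono ?_)
        intro z hz
        have hz0 : 0 < ‖z‖ := hz
        rw [Function.mem_support]
        have : 0 < min (‖z‖ ^ 2 / x) 1 := lt_min (by positivity) one_pos
        exact this.ne'
      · intro t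
        exact le_min (by positivity) zero_le_one
    have hQM : 1 / 2 * (S1 * M) ≤ Q := by
      have h2 : ∫ w : R × V, sz w.1 * min (‖w.2‖ ^ 2 / x) 1 ∂(Pim μ ν p1 γ) = S1 * M := by
        unfold Pim
        exact integral_prod_mul (μ := Zm μ p1 (finrank ℝ V)) (ν := Tm ν γ)
          (fun z : R => sz z) (fun t : V => min (‖t‖ ^ 2 / x) 1)
      have h3 : Integrable (fun w : R × V => sz w.1 * min (‖w.2‖ ^ 2 / x) 1) (Pim μ ν p1 γ) := by
        unfold Pim
        exact hS1i.mul_prod hMi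
      rw [← h2, ← integral_const_mul]
      apply integral_mono (h3.const_mul _) hQi
      intro w
      have hs0 := sz_nonneg w.1
      have hs1 := sz_le_one' w.1
      have hr := rho_nonneg w
      have hm0 : 0 ≤ min (‖w.2‖ ^ 2 / x) 1 := le_min (by positivity) zero_le_one
      have hm1 : min (‖w.2‖ ^ 2 / x) 1 ≤ 1 := min_le_right _ _
      have hm2 : min (‖w.2‖ ^ 2 / x) 1 ≤ ‖w.2‖ ^ 2 / x := min_le_left _ _
      simp only
      rw [le_div_iff₀ (by linarith)]
      rcases le_or_gt (rho w) x with h4 | h4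
      · have h5 : sz w.1 * min (‖w.2‖ ^ 2 / x) 1 ≤ rho w / x := by
          calc sz w.1 * min (‖w.2‖ ^ 2 / x) 1 ≤ sz w.1 * (‖w.2‖ ^ 2 / x) := by gcongr
            _ ≤ rho w / x := by
                unfold rho
                rw [← mul_div_assoc]
                gcongr
                linarith
        have h6 : 0 ≤ sz w.1 * min (‖w.2‖ ^ 2 / x) 1 := mul_nonneg hs0 hm0
        have h7 : sz w.1 * min (‖w.2‖ ^ 2 / x) 1 * x ≤ rho w := by
          rwa [le_div_iff₀ hx0] at h5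
        nlinarith [mul_le_mul_of_nonneg_left h4 h6]
      · have h6 : sz w.1 * min (‖w.2‖ ^ 2 / x) 1 ≤ 1 := by nlinarith
        nlinarith [mul_nonneg hs0 hm0]
    have hI4 : κ * Q ≤ ∫ w, i4 w ∂(Pim μ ν p1 γ) := hQ
    have hBκ : 4 * B ≤ κ / 24 := by rw [hB]; linarith
    have hQ0 : 0 < Q := lt_of_lt_of_le (by positivity) hQM
    rw [hLBv, hDv]
    have k1 : κ / 24 * Q ≤ 1 / 12 * (∫ w, i4 w ∂(Pim μ ν p1 γ)) - 4 * B * Q := by
      nlinarith
    have k2 : κ / 48 * (S1 * M) ≤ κ / 24 * Q := by nlinarith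
    have k3 : μ' * (W * (800 *
        ∫ t : V, min (‖t‖ ^ 2 / x) ((‖t‖ ^ 2 / x) ^ (1 / 4 : ℝ)) ∂(Tm ν γ))) ≤
        μ' * (800 * W * C7 * M) := by
      apply mul_le_mul_of_nonneg_left _ hμ0
      have := mul_le_mul_of_nonneg_left hM (by positivity : 0 ≤ W * 800)
      calc W * (800 * ∫ t : V, min (‖t‖ ^ 2 / x) ((‖t‖ ^ 2 / x) ^ (1 / 4 : ℝ)) ∂(Tm ν γ)) =
          W * 800 * ∫ t : V, min (‖t‖ ^ 2 / x) ((‖t‖ ^ 2 / x) ^ (1 / 4 : ℝ)) ∂(Tm ν γ) := by ring
        _ ≤ W * 800 * (C7 * M) := this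
        _ = _ := by ring
    have k4 : μ' * (800 * W * C7 * M) ≤ κ / 96 * (S1 * M) := by
      have h5 : 0 < 96 * (800 * W * C7 + 1) := by positivity
      rw [le_div_iff₀ h5] at hμ1
      have h6 : μ' * (800 * W * C7) ≤ κ / 96 * S1 := by nlinarith
      nlinarith [mul_le_mul_of_nonneg_right h6 hMpos.le]
    have k5 : 0 < κ / 96 * (S1 * M) := by positivity
    linarith
  · intro z hz t
    have hs := sz_pos' hz
    have hρ : 0 < sz z * (1 + ‖t‖ ^ 2) := by positivity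
    have hA : 0 ≤ ε * ‖omf C e z t‖ ^ 2 := by positivity
    have hcs := pair_cs (ε := ε) C ξ e z t
    have hAB : ε * ‖omf C e z t‖ ^ 2 ≤ B * (1 + sz z * (1 + ‖t‖ ^ 2)) := by
      have h2 := mul_le_mul_of_nonneg_left (omf_norm_sq C he z t) hε.le
      calc ε * ‖omf C e z t‖ ^ 2 ≤ ε * (2 * ‖C‖ ^ 2 * (1 + sz z * (1 + ‖t‖ ^ 2))) := h2
        _ = _ := by rw [hB]; ring
    have h2 := pair_large (x := ε * ‖ξ‖ ^ 2) hx hρ hA hcs (B := B) (by rw [hB]; linarith) hAB
    refine le_trans ?_ h2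
    change 1 / 12 * i4 (z, t) - 4 * B * ((1 + rho (z, t)) / (rho (z, t) + x)) ≤ _
    have h3 : rho ((z, t) : R × V) = sz z * (1 + ‖t‖ ^ 2) := rfl
    rw [h3]
    have h4 : 1 / 12 * i4 (z, t) ≤ 2 * gap (ε * ‖ξ‖ ^ 2) (sz z * (1 + ‖t‖ ^ 2)) := by
      by_cases hw : ((z, t) : R × V) ∈ {w : R × V | 4 ≤ rho w}
      · rw [show i4 (z, t) = (1 + rho ((z, t) : R × V)) / (rho ((z, t) : R × V) + x) from
          indicator_of_mem hw _, h3]
        have h5 : 4 ≤ sz z * (1 + ‖t‖ ^ 2) := hw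
        have h6 := gap_lower hx h5
        have h7 : 1 / 12 * ((1 + sz z * (1 + ‖t‖ ^ 2)) / (sz z * (1 + ‖t‖ ^ 2) + x)) =
            2 * ((1 + sz z * (1 + ‖t‖ ^ 2)) / (24 * (sz z * (1 + ‖t‖ ^ 2) + x))) := by
          field_simp
          norm_num
        rw [h7]
        linarith
      · rw [show i4 (z, t) = 0 from indicator_of_notMem hw _, mul_zero]
        have := gap_nonneg hx0.le hρ
        linarith
    linarith
  · intro z hz t
    have h2 := delta_far hε C hεC (e := e) he hx hz t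
    have h3 := delta_far hε C hεC (e := -e) (by rw [norm_neg, he]) hx hz (-t)
    rw [norm_neg] at h3
    simp only [D]
    linarith

/-- The inner positivity statement. -/
theorem inner_pos (hp1 : 0 ≤ p1) (hγ : γ = p1 + finrank ℝ R / 2 + finrank ℝ V / 2)
    (C : V →L[ℝ] F) (hC : C ≠ 0) :
    ∃ ε : ℝ, 0 < ε ∧ ε ≤ 1 / 2 ∧ ε * ‖C‖ ^ 2 ≤ 1 / 16 ∧ ∃ μ0 : ℝ, 0 < μ0 ∧
      ∀ μ' : ℝ, 0 ≤ μ' → μ' ≤ μ0 → ∀ (ξ : F) (e : V), ‖e‖ = 1 →
      0 < ∫ w, LLf ε μ' C ξ e w ∂(Pim μ ν p1 γ) + ∫ w, LLf ε μ' C ξ (-e) w ∂(Pim μ ν p1 γ) := by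
  have hC0 : 0 < ‖C‖ := norm_pos_iff.mpr hC
  obtain ⟨c0, μ2, hc0, hμ2, hfar⟩ := far_case (F := F) μ ν hp1 hγ
  set ε : ℝ := min (1 / 2) (min (1 / 16) c0 / ‖C‖ ^ 2) with hε
  have hmin : 0 < min (1 / 16) c0 := lt_min (by norm_num) hc0
  have hε0 : 0 < ε := lt_min (by norm_num) (by positivity)
  have h1 : ε * ‖C‖ ^ 2 ≤ min (1 / 16) c0 := by
    have h2 : ε ≤ min (1 / 16) c0 / ‖C‖ ^ 2 := min_le_right _ _
    rwa [le_div_iff₀ (by positivity)] at h2
  have h2 := h1.trans (min_le_left _ _)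
  have h3 := h1.trans (min_le_right _ _)
  obtain ⟨μ1, hμ1, hnear⟩ := near_case μ ν hp1 hγ C hC hε0 h2
  refine ⟨ε, hε0, min_le_left _ _, h2, min μ1 μ2, lt_min hμ1 hμ2, ?_⟩
  intro μ' hμ0 hμle ξ e he
  rcases le_or_gt (ε * ‖ξ‖ ^ 2) (1 / 2) with h | h
  · exact hnear μ' hμ0 (hμle.trans (min_le_left _ _)) ξ e he h
  · exact hfar C ε hε0 h2 h3 μ' hμ0 (hμle.trans (min_le_right _ _)) ξ e he h.le

end

end MP4845
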