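import Mathlib
import Pool.Agent.Lib.MP_4845bf_pr.Q2Inner2
import Pool.Agent.Lib.MP_4845bf_pr.Total

/-!
Outer integration (Q2): from positivity at fixed location and scale to positivity of the total
integral.
-/

set_option linter.unusedSectionVars false
set_option linter.unnecessarySimpa false

namespace MP4845

open MeasureTheory Module Set Filter Topology
open scoped InnerProductSpace ENNReal

section

variable {P F R V : Type*} [NormedAddCommGroup P] [NormedSpace ℝ P] [FiniteDimensional ℝ P]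
  [MeasurableSpace P] [BorelSpace P] [Nontrivial P]
  [NormedAddCommGroup F] [NormedSpace ℝ F]
  [NormedAddCommGroup R] [NormedSpace ℝ R] [FiniteDimensional ℝ R]
  [MeasurableSpace R] [BorelSpace R] [Nontrivial R]
  [NormedAddCommGroup V] [InnerProductSpace ℝ V] [FiniteDimensional ℝ V]
  [MeasurableSpace V] [BorelSpace V] [Nontrivial V]

lemma measurable_ss : Measurable (fun x : R × V => ss x) := by
  unfold ss
  have h1 : Measurable (fun x : R × V => ‖x.1‖ ^ 2) := by fun_prop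
  exact h1.div (by fun_prop)

lemma ss_nonneg (x : R × V) : 0 ≤ ss x := by unfold ss; positivity

/-- positivity on `R × V` -/
lemma outer_core (μ : Measure R) [μ.IsAddHaarMeasure] (ν : Measure V) [ν.IsAddHaarMeasure]
    {p1 : ℝ} (hp1 : 0 ≤ p1) (Φ : ℝ → ℝ) (hΦm : Measurable Φ)
    (hΦ0 : ∀ x, 0 ≤ Φ x) (hΦpos : ∀ x, 0 < x → 0 < Φ x)
    (hφint : Integrable (fun v : V => phiw (finrank ℝ R) p1 Φ ‖v‖) ν) :
    Integrable (fun x : R × V => Φ (‖x.1‖ ^ 2 + ‖x.2‖ ^ 2) * (‖x.1‖ ^ 2) ^ p1 *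
      ss x ^ (-(1 / 4) : ℝ)) (μ.prod ν) ∧
    ∀ (G : R × V → ℝ) (c : ℝ), Measurable G → (∀ x, x.1 ≠ 0 → x.2 ≠ 0 → |G x| ≤ c * ss x ^ (-(1 / 4) : ℝ)) →
      (∀ v : V, v ≠ 0 → 0 < ∫ z, (G (theta (z, v)) + G (theta (z, -v))) ∂(Zm μ p1 (finrank ℝ V))) →
      Integrable (fun x : R × V => Φ (‖x.1‖ ^ 2 + ‖x.2‖ ^ 2) * (‖x.1‖ ^ 2) ^ p1 * G x)
        (μ.prod ν) ∧
      0 < ∫ x : R × V, Φ (‖x.1‖ ^ 2 + ‖x.2‖ ^ 2) * (‖x.1‖ ^ 2) ^ p1 * G x ∂(μ.prod ν) := by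
  have hN : 0 < finrank ℝ R := finrank_pos
  have hm : 0 < finrank ℝ V := finrank_pos
  set M := finrank ℝ R + finrank ℝ V with hM
  have hnm : Measurable (fun x : R × V => ‖x.1‖ ^ 2 + ‖x.2‖ ^ 2) := by fun_prop
  have hFm : Measurable (fun x : R × V => Φ (‖x.1‖ ^ 2 + ‖x.2‖ ^ 2) * (‖x.1‖ ^ 2) ^ p1) :=
    (hΦm.comp hnm).mul ((by fun_prop : Measurable fun x : R × V => ‖x.1‖ ^ 2).pow_const _)
  have hssm := measurable_ss (R := R) (V := V)
  have hv_ae : ∀ᵐ w : R × V ∂(μ.prod ν), w.2 ≠ 0 :=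
    Measure.quasiMeasurePreserving_snd.ae (ae_ne_zero ν)
  have hz_ae : ∀ᵐ w : R × V ∂(μ.prod ν), w.1 ≠ 0 :=
    Measure.quasiMeasurePreserving_fst.ae (ae_ne_zero μ)
  have hwq := integrable_wt_sz μ hp1 hm
  rw [← hM] at hwq
  have hprodq : Integrable (fun w : R × V => wt p1 M w.1 * sz w.1 ^ (-(1 / 4) : ℝ) *
      phiw (finrank ℝ R) p1 Φ ‖w.2‖) (μ.prod ν) := hwq.mul_prod hφint
  have hI0 : Integrable (fun x : R × V => Φ (‖x.1‖ ^ 2 + ‖x.2‖ ^ 2) * (‖x.1‖ ^ 2) ^ p1 *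
      ss x ^ (-(1 / 4) : ℝ)) (μ.prod ν) := by
    have hmm : Measurable (fun x : R × V => Φ (‖x.1‖ ^ 2 + ‖x.2‖ ^ 2) * (‖x.1‖ ^ 2) ^ p1 *
      ss x ^ (-(1 / 4) : ℝ)) := hFm.mul (hssm.pow_const _)
    rw [integrable_theta μ ν hmm]
    refine hprodq.congr ?_
    filter_upwards [hv_ae] with w hw
    rw [← mul_assoc, jac_mul_theta, ss_theta hw]
    ring
  refine ⟨hI0, ?_⟩
  intro G c hGm hGb hGpos
  have hI : Integrable (fun x : R × V => Φ (‖x.1‖ ^ 2 + ‖x.2‖ ^ 2) * (‖x.1‖ ^ 2) ^ p1 * G x)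
      (μ.prod ν) := by
    refine (hI0.const_mul c).mono' (hFm.mul hGm).aestronglyMeasurable ?_
    filter_upwards [hz_ae, hv_ae] with x hx hx2
    have h1 : 0 ≤ Φ (‖x.1‖ ^ 2 + ‖x.2‖ ^ 2) * (‖x.1‖ ^ 2) ^ p1 := by
      have := hΦ0 (‖x.1‖ ^ 2 + ‖x.2‖ ^ 2)
      positivity
    rw [norm_mul, Real.norm_of_nonneg h1, Real.norm_eq_abs]
    calc Φ (‖x.1‖ ^ 2 + ‖x.2‖ ^ 2) * (‖x.1‖ ^ 2) ^ p1 * |G x| ≤
        Φ (‖x.1‖ ^ 2 + ‖x.2‖ ^ 2) * (‖x.1‖ ^ 2) ^ p1 * (c * ss x ^ (-(1 / 4) : ℝ)) :=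
          mul_le_mul_of_nonneg_left (hGb x hx hx2) h1
      _ = _ := by ring
  refine ⟨hI, ?_⟩
  have hint1 : Integrable (fun w : R × V =>
      wt p1 M w.1 * phiw (finrank ℝ R) p1 Φ ‖w.2‖ * G (theta (w.1, w.2))) (μ.prod ν) := by
    have h1 := (integrable_theta μ ν (hFm.mul hGm)).mp hI
    refine h1.congr ?_
    filter_upwards with w
    simp only [Pi.mul_apply]
    rw [← mul_assoc, jac_mul_theta]
  have htheta : ∫ x : R × V, Φ (‖x.1‖ ^ 2 + ‖x.2‖ ^ 2) * (‖x.1‖ ^ 2) ^ p1 * G x ∂(μ.prod ν) =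
      ∫ w : R × V, wt p1 M w.1 * phiw (finrank ℝ R) p1 Φ ‖w.2‖ * G (theta (w.1, w.2))
        ∂(μ.prod ν) := by
    refine (integral_theta μ ν (hFm.mul hGm)).trans ?_
    apply integral_congr_ae
    filter_upwards with w
    simp only [Pi.mul_apply]
    rw [← mul_assoc, jac_mul_theta]
  rw [htheta]
  -- reflection
  have hnegmp : MeasurePreserving (fun w : R × V => (w.1, -w.2)) (μ.prod ν) (μ.prod ν) := by
    have h1 : MeasurePreserving (fun v : V => -v) ν ν := Measure.measurePreserving_neg ν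
    exact (MeasurePreserving.id μ).prod h1
  have hnegemb : MeasurableEmbedding (fun w : R × V => (w.1, -w.2)) :=
    ((Homeomorph.refl R).prodCongr (Homeomorph.neg V)).measurableEmbedding
  have hint2 : Integrable (fun w : R × V =>
      wt p1 M w.1 * phiw (finrank ℝ R) p1 Φ ‖w.2‖ * G (theta (w.1, -w.2))) (μ.prod ν) := by
    have := (hnegmp.integrable_comp_emb hnegemb (g := fun w : R × V =>
      wt p1 M w.1 * phiw (finrank ℝ R) p1 Φ ‖w.2‖ * G (theta (w.1, w.2)))).mpr hint1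
    refine this.congr ?_
    filter_upwards with w
    simp [Function.comp]
  have hsymm : ∫ w : R × V, wt p1 M w.1 * phiw (finrank ℝ R) p1 Φ ‖w.2‖ *
        G (theta (w.1, -w.2)) ∂(μ.prod ν) =
      ∫ w : R × V, wt p1 M w.1 * phiw (finrank ℝ R) p1 Φ ‖w.2‖ * G (theta (w.1, w.2))
        ∂(μ.prod ν) := by
    have := hnegmp.integral_comp hnegemb (fun w : R × V =>
      wt p1 M w.1 * phiw (finrank ℝ R) p1 Φ ‖w.2‖ * G (theta (w.1, w.2)))
    rw [← this]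
    congr 1
    ext w
    simp
  have hint3 : Integrable (fun w : R × V => wt p1 M w.1 * phiw (finrank ℝ R) p1 Φ ‖w.2‖ *
      (G (theta (w.1, w.2)) + G (theta (w.1, -w.2)))) (μ.prod ν) := by
    refine (hint1.add hint2).congr ?_
    filter_upwards with w
    simp only [Pi.add_apply]
    ring
  have hsum : 2 * ∫ w : R × V, wt p1 M w.1 * phiw (finrank ℝ R) p1 Φ ‖w.2‖ *
        G (theta (w.1, w.2)) ∂(μ.prod ν) =
      ∫ w : R × V, wt p1 M w.1 * phiw (finrank ℝ R) p1 Φ ‖w.2‖ *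
        (G (theta (w.1, w.2)) + G (theta (w.1, -w.2))) ∂(μ.prod ν) := by
    have h1 : ∫ w : R × V, wt p1 M w.1 * phiw (finrank ℝ R) p1 Φ ‖w.2‖ *
        (G (theta (w.1, w.2)) + G (theta (w.1, -w.2))) ∂(μ.prod ν) =
        (∫ w : R × V, wt p1 M w.1 * phiw (finrank ℝ R) p1 Φ ‖w.2‖ * G (theta (w.1, w.2))
          ∂(μ.prod ν)) +
        ∫ w : R × V, wt p1 M w.1 * phiw (finrank ℝ R) p1 Φ ‖w.2‖ * G (theta (w.1, -w.2))
          ∂(μ.prod ν) := by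
      rw [← integral_add hint1 hint2]
      congr 1
      ext w
      ring
    rw [h1, hsymm]
    ring
  have hfin : 0 < 2 * ∫ w : R × V, wt p1 M w.1 * phiw (finrank ℝ R) p1 Φ ‖w.2‖ *
        G (theta (w.1, w.2)) ∂(μ.prod ν) := by
    rw [hsum, integral_prod_symm _ hint3]
    have hφ0 : ∀ v : V, 0 ≤ phiw (finrank ℝ R) p1 Φ ‖v‖ := by
      intro v
      unfold phiw
      have := hΦ0 (‖v‖ ^ 2)
      positivity
    have hin : ∀ v : V, ∫ z : R, wt p1 M (z, v).1 * phiw (finrank ℝ R) p1 Φ ‖(z, v).2‖ *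
        (G (theta ((z, v).1, (z, v).2)) + G (theta ((z, v).1, -(z, v).2))) ∂μ =
        phiw (finrank ℝ R) p1 Φ ‖v‖ *
          ∫ z, (G (theta (z, v)) + G (theta (z, -v))) ∂(Zm μ p1 (finrank ℝ V)) := by
      intro v
      rw [integral_Zm, ← integral_const_mul]
      congr 1
      ext z
      simp only
      ring
    have hii := hint3.integral_prod_right
    rw [integral_pos_iff_support_of_nonneg_ae _ hii]
    · have hsupp : {v : V | v ≠ 0} ⊆ Function.support (fun v : V => ∫ z : R,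
          wt p1 M (z, v).1 * phiw (finrank ℝ R) p1 Φ ‖(z, v).2‖ *
        (G (theta ((z, v).1, (z, v).2)) + G (theta ((z, v).1, -(z, v).2))) ∂μ) := by
        intro v hv
        have h1 : 0 < ‖v‖ := norm_pos_iff.mpr hv
        have h2 : 0 < phiw (finrank ℝ R) p1 Φ ‖v‖ := by
          unfold phiw
          have := hΦpos (‖v‖ ^ 2) (by positivity)
          positivity
        rw [Function.mem_support, hin v]
        exact (mul_pos h2 (hGpos v hv)).ne'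
      have hopen : IsOpen {v : V | v ≠ 0} := isOpen_ne
      have hne : {v : V | v ≠ 0}.Nonempty := exists_ne 0
      exact lt_of_lt_of_le (hopen.measure_pos ν hne) (measure_mono hsupp)
    · filter_upwards [ae_ne_zero ν] with v hv
      simp only [Pi.zero_apply]
      rw [hin v]
      exact mul_nonneg (hφ0 v) (hGpos v hv).le
  linarith

/-- the total positivity statement -/
theorem outer_pos (κ : Measure P) [κ.IsAddHaarMeasure] (μ : Measure R) [μ.IsAddHaarMeasure]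
    (ν : Measure V) [ν.IsAddHaarMeasure] {p1 : ℝ} (hp1 : 0 ≤ p1) {γ δ : ℝ}
    (hγ : γ = p1 + finrank ℝ R / 2 + finrank ℝ V / 2) (hδ : δ < γ)
    (J : P →ₗ[ℝ] F) (hJ : Function.Injective J)
    (G : P × (R × V) → ℝ) (c : ℝ) (hGm : Measurable G)
    (hGb : ∀ w, w.2.1 ≠ 0 → w.2.2 ≠ 0 → |G w| ≤ c * ss w.2 ^ (-(1 / 4) : ℝ))
    (hGpos : ∀ b : P, ∀ v : V, v ≠ 0 →
      0 < ∫ z, (G (b, theta (z, v)) + G (b, theta (z, -v))) ∂(Zm μ p1 (finrank ℝ V)))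
    (β0 : P) {v : ℝ} (hv : 0 < v) :
    Integrable (fun w : P × (R × V) => Real.exp (-‖J (w.1 - β0)‖ ^ 2 / (2 * v)) *
        (Phi v δ (‖w.2.1‖ ^ 2 + ‖w.2.2‖ ^ 2) * (‖w.2.1‖ ^ 2) ^ p1) * G w) (κ.prod (μ.prod ν)) ∧
      0 < ∫ w : P × (R × V), Real.exp (-‖J (w.1 - β0)‖ ^ 2 / (2 * v)) *
        (Phi v δ (‖w.2.1‖ ^ 2 + ‖w.2.2‖ ^ 2) * (‖w.2.1‖ ^ 2) ^ p1) * G w
          ∂(κ.prod (μ.prod ν)) := by
  let Φ : ℝ → ℝ := fun t => Phi v δ |t|
  have hΦm : Measurable Φ := (measurable_Phi v δ).comp (by fun_prop)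
  have hΦ0 : ∀ x, 0 ≤ Φ x := fun x => Phi_nonneg (abs_nonneg x)
  have hΦpos : ∀ x, 0 < x → 0 < Φ x := fun x hx => Phi_pos (abs_pos.mpr hx.ne')
  have hΦe : ∀ x : R × V, Φ (‖x.1‖ ^ 2 + ‖x.2‖ ^ 2) = Phi v δ (‖x.1‖ ^ 2 + ‖x.2‖ ^ 2) := by
    intro x
    simp only [Φ]
    rw [abs_of_nonneg (by positivity)]
  have hφint := integrable_phiw (V := V) ν (N := finrank ℝ R) (p1 := p1) hv hγ hδ
  obtain ⟨hI0, hcore⟩ := outer_core μ ν hp1 Φ hΦm hΦ0 hΦpos hφint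
  simp only [hΦe] at hI0 hcore
  have hcore' := fun b : P => hcore (fun x => G (b, x)) c
    (hGm.comp (measurable_const.prodMk measurable_id)) (fun x hx hx2 => hGb (b, x) hx hx2) (hGpos b)
  have he : Integrable (fun b : P => Real.exp (-‖J (b - β0)‖ ^ 2 / (2 * v))) κ := by
    have := integrable_gauss_inj κ J hJ β0 (c := 1 / (2 * v)) (by positivity)
    refine this.congr ?_
    filter_upwards with b
    congr 1
    ring
  have hz_ae : ∀ᵐ w : P × (R × V) ∂(κ.prod (μ.prod ν)), w.2.1 ≠ 0 := by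
    have h1 : ∀ᵐ x : R × V ∂(μ.prod ν), x.1 ≠ 0 :=
      Measure.quasiMeasurePreserving_fst.ae (ae_ne_zero μ)
    exact Measure.quasiMeasurePreserving_snd.ae h1
  have hv_ae : ∀ᵐ w : P × (R × V) ∂(κ.prod (μ.prod ν)), w.2.2 ≠ 0 := by
    have h1 : ∀ᵐ x : R × V ∂(μ.prod ν), x.2 ≠ 0 :=
      Measure.quasiMeasurePreserving_snd.ae (ae_ne_zero ν)
    exact Measure.quasiMeasurePreserving_snd.ae h1
  have hJc : Continuous J := J.continuous_of_finiteDimensional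
  have hwm : Measurable (fun w : P × (R × V) => Real.exp (-‖J (w.1 - β0)‖ ^ 2 / (2 * v)) *
        (Phi v δ (‖w.2.1‖ ^ 2 + ‖w.2.2‖ ^ 2) * (‖w.2.1‖ ^ 2) ^ p1)) := by
    have m1 : Measurable (fun w : P × R × V => ‖J (w.1 - β0)‖ ^ 2) :=
      ((hJc.comp (continuous_fst.sub continuous_const)).norm.pow 2).measurable
    have m2 : Measurable (fun w : P × R × V => ‖w.2.1‖ ^ 2 + ‖w.2.2‖ ^ 2) := by fun_prop
    have m3 : Measurable (fun w : P × R × V => ‖w.2.1‖ ^ 2) := by fun_prop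
    exact ((m1.neg.div_const _).exp).mul (((measurable_Phi v δ).comp m2).mul (m3.pow_const _))
  have hwG : Integrable (fun w : P × (R × V) => Real.exp (-‖J (w.1 - β0)‖ ^ 2 / (2 * v)) *
        (Phi v δ (‖w.2.1‖ ^ 2 + ‖w.2.2‖ ^ 2) * (‖w.2.1‖ ^ 2) ^ p1) * G w)
        (κ.prod (μ.prod ν)) := by
    refine ((he.mul_prod hI0).const_mul c).mono' (hwm.mul hGm).aestronglyMeasurable ?_
    filter_upwards [hz_ae, hv_ae] with w hw hw2
    have h1 : 0 ≤ Real.exp (-‖J (w.1 - β0)‖ ^ 2 / (2 * v)) *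
        (Phi v δ (‖w.2.1‖ ^ 2 + ‖w.2.2‖ ^ 2) * (‖w.2.1‖ ^ 2) ^ p1) := by
      have : 0 ≤ Phi v δ (‖w.2.1‖ ^ 2 + ‖w.2.2‖ ^ 2) := Phi_nonneg (by positivity)
      positivity
    rw [norm_mul, Real.norm_of_nonneg h1, Real.norm_eq_abs]
    calc Real.exp (-‖J (w.1 - β0)‖ ^ 2 / (2 * v)) *
        (Phi v δ (‖w.2.1‖ ^ 2 + ‖w.2.2‖ ^ 2) * (‖w.2.1‖ ^ 2) ^ p1) * |G w| ≤
        Real.exp (-‖J (w.1 - β0)‖ ^ 2 / (2 * v)) *
        (Phi v δ (‖w.2.1‖ ^ 2 + ‖w.2.2‖ ^ 2) * (‖w.2.1‖ ^ 2) ^ p1) *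
          (c * ss w.2 ^ (-(1 / 4) : ℝ)) := mul_le_mul_of_nonneg_left (hGb w hw hw2) h1
      _ = _ := by ring
  refine ⟨hwG, ?_⟩
  rw [integral_prod _ hwG]
  have hinner : ∀ b : P, ∫ x : R × V, Real.exp (-‖J ((b, x).1 - β0)‖ ^ 2 / (2 * v)) *
        (Phi v δ (‖(b, x).2.1‖ ^ 2 + ‖(b, x).2.2‖ ^ 2) * (‖(b, x).2.1‖ ^ 2) ^ p1) * G (b, x)
        ∂(μ.prod ν) =
      Real.exp (-‖J (b - β0)‖ ^ 2 / (2 * v)) * ∫ x : R × V,
        Phi v δ (‖x.1‖ ^ 2 + ‖x.2‖ ^ 2) * (‖x.1‖ ^ 2) ^ p1 * G (b, x) ∂(μ.prod ν) := by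
    intro b
    rw [← integral_const_mul]
    congr 1
    ext x
    ring
  have hpos : ∀ b : P, 0 < Real.exp (-‖J (b - β0)‖ ^ 2 / (2 * v)) * ∫ x : R × V,
        Phi v δ (‖x.1‖ ^ 2 + ‖x.2‖ ^ 2) * (‖x.1‖ ^ 2) ^ p1 * G (b, x) ∂(μ.prod ν) :=
    fun b => mul_pos (Real.exp_pos _) (hcore' b).2
  have hint := hwG.integral_prod_left
  rw [integral_pos_iff_support_of_nonneg _ hint]
  · have hs : Function.support (fun b => ∫ x : R × V,
        Real.exp (-‖J ((b, x).1 - β0)‖ ^ 2 / (2 * v)) *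
        (Phi v δ (‖(b, x).2.1‖ ^ 2 + ‖(b, x).2.2‖ ^ 2) * (‖(b, x).2.1‖ ^ 2) ^ p1) * G (b, x)
        ∂(μ.prod ν)) = univ := by
      ext b
      simp only [Function.mem_support, mem_univ, iff_true]
      rw [hinner b]
      exact (hpos b).ne'
    rw [hs]
    exact isOpen_univ.measure_pos κ univ_nonempty
  · intro b
    simp only [Pi.zero_apply]
    rw [hinner b]
    exact (hpos b).le

end

end MP4845
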