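import Mathlib
import Pool.Agent.Lib.MP_4845bf_pr.Q2Outer

/-!
The log ratio of the generalized Bayes density and the best invariant density (Q2).
-/

set_option linter.unusedSectionVars false
set_option linter.unnecessarySimpa false

namespace MP4845

open MeasureTheory Module Set Filter Topology
open scoped InnerProductSpace ENNReal

lemma exp_quad {w : ℝ} (hw : w ≤ 1) : Real.exp w ≤ 1 + w + w ^ 2 := by
  rcases le_or_gt (-1) w with h | h
  · have h1 := Real.abs_exp_sub_one_sub_id_le (abs_le.mpr ⟨h, hw⟩)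
    have h2 := (abs_le.mp h1).2
    linarith
  · have h1 : Real.exp w ≤ 1 := Real.exp_le_one_iff.mpr (by linarith)
    nlinarith

section

variable {R V F : Type*} [NormedAddCommGroup R] [NormedSpace ℝ R] [FiniteDimensional ℝ R]
  [MeasurableSpace R] [BorelSpace R] [Nontrivial R]
  [NormedAddCommGroup V] [NormedSpace ℝ V] [FiniteDimensional ℝ V]
  [MeasurableSpace V] [BorelSpace V] [Nontrivial V]
  [NormedAddCommGroup F] [InnerProductSpace ℝ F]

/-- normalised log ratio -/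
noncomputable def PN (ν : Measure V) (γ ε μ' : ℝ) (C : V →L[ℝ] F) (ξ : F) (e : V) (z : R) : ℝ :=
  -μ' * Real.log (R1N ε ξ) -
    Real.log ((∫ t, RpN ε C ξ e z t ^ (-μ') ∂(Tm ν γ)) / (Tm ν γ : Measure V).real univ)

/-- the log ratio in coordinates -/
noncomputable def PsiN (ν : Measure V) (γ ε μ' : ℝ) (C : V →L[ℝ] F) (a : F) (r : R) (g : V) : ℝ :=
  -μ' * Real.log (‖r‖ ^ 2 + ‖g‖ ^ 2 + ε * ‖a‖ ^ 2) -
    Real.log ((∫ t, (‖r‖ ^ 2 * (1 + ‖t‖ ^ 2) + ε * ‖a + C g - ‖r‖ • C t‖ ^ 2) ^ (-μ')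
      ∂(Tm ν γ)) / (Tm ν γ : Measure V).real univ)

lemma T0_pos (ν : Measure V) [ν.IsAddHaarMeasure] {γ : ℝ}
    (hγ : (finrank ℝ V : ℝ) + 1 ≤ 2 * γ) : 0 < (Tm ν γ : Measure V).real univ := by
  have := Tm_finite ν hγ
  rw [measureReal_def]
  exact ENNReal.toReal_pos (Tm_pos ν γ isOpen_univ univ_nonempty).ne' (measure_ne_top _ _)

lemma RpN_cont (ε : ℝ) (C : V →L[ℝ] F) (ξ : F) (e : V) (z : R) :
    Continuous (fun t : V => RpN ε C ξ e z t) := by
  unfold RpN omf
  exact (continuous_const.mul (continuous_const.add (continuous_norm.pow 2))).add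
      (continuous_const.mul ((continuous_const.add (continuous_const.sub
        (continuous_const.smul C.continuous))).norm.pow 2))

variable (ν : Measure V) [ν.IsAddHaarMeasure] {γ : ℝ}

/-- facts on the inner integral -/
lemma Kint (hγ : (finrank ℝ V : ℝ) + 1 ≤ 2 * γ) {ε : ℝ} (hε : 0 ≤ ε) (C : V →L[ℝ] F)
    (hεC : ε * ‖C‖ ^ 2 ≤ 1 / 16) (ξ : F) (e : V) {z : R} (hz : z ≠ 0) {μ' : ℝ} (hμ : 0 ≤ μ') :
    Integrable (fun t => RpN ε C ξ e z t ^ (-μ')) (Tm ν γ) ∧
    0 < ∫ t, RpN ε C ξ e z t ^ (-μ') ∂(Tm ν γ) := by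
  have hfin := Tm_finite ν hγ
  have hRh := RhN_pos hε C ξ e hz
  have hi : Integrable (fun t => RpN ε C ξ e z t ^ (-μ')) (Tm ν γ) := by
    refine (integrable_const ((RhN ε C ξ e z / 2) ^ (-μ'))).mono' ?_ ?_
    · exact ((RpN_cont ε C ξ e z).measurable.pow_const _).aestronglyMeasurable
    · filter_upwards with t
      have h1 := (RpN_RhN hε C hεC ξ e hz t).1
      have h2 := RpN_pos hε C ξ e hz t
      rw [Real.norm_of_nonneg (by positivity)]
      exact Real.rpow_le_rpow_of_nonpos (by positivity) h1 (by linarith)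
  refine ⟨hi, ?_⟩
  rw [integral_pos_iff_support_of_nonneg (fun t =>
    (Real.rpow_pos_of_pos (RpN_pos hε C ξ e hz t) _).le) hi]
  have hs : Function.support (fun t => RpN ε C ξ e z t ^ (-μ')) = univ := by
    ext t
    simp only [Function.mem_support, mem_univ, iff_true]
    exact (Real.rpow_pos_of_pos (RpN_pos hε C ξ e hz t) _).ne'
  rw [hs]
  exact Tm_pos ν γ isOpen_univ univ_nonempty

lemma fiber_int (hγ : (finrank ℝ V : ℝ) + 1 ≤ 2 * γ) {ε : ℝ} (hε : 0 ≤ ε) (C : V →L[ℝ] F)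
    (hεC : ε * ‖C‖ ^ 2 ≤ 1 / 16) (ξ : F) (e : V) {z : R} (hz : z ≠ 0) :
    Integrable (fun t => Real.log (RpN ε C ξ e z t / RhN ε C ξ e z) ^ 2) (Tm ν γ) ∧
    Integrable (fun t => Real.log (RpN ε C ξ e z t / RhN ε C ξ e z)) (Tm ν γ) := by
  have hfin := Tm_finite ν hγ
  have hm : Measurable (fun t => Real.log (RpN ε C ξ e z t / RhN ε C ξ e z)) :=
    ((RpN_cont ε C ξ e z).measurable.div_const _).log
  have h2 : Integrable (fun t => Real.log (RpN ε C ξ e z t / RhN ε C ξ e z) ^ 2) (Tm ν γ) := by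
    refine ((Tm_quarter ν hγ).const_mul 100).mono' (hm.pow_const 2).aestronglyMeasurable ?_
    filter_upwards with t
    rw [Real.norm_of_nonneg (sq_nonneg _)]
    exact delta_unif hε C hεC ξ e hz t
  refine ⟨h2, ?_⟩
  refine ((integrable_const (1:ℝ)).add h2).mono' hm.aestronglyMeasurable ?_
  filter_upwards with t
  rw [Real.norm_eq_abs, Pi.add_apply]
  set y := Real.log (RpN ε C ξ e z t / RhN ε C ξ e z)
  nlinarith [sq_nonneg (|y| - 1), sq_abs y, abs_nonneg y]

/-- lower bound of the log ratio -/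
lemma PN_lower (hγ : (finrank ℝ V : ℝ) + 1 ≤ 2 * γ) {ε : ℝ} (hε : 0 ≤ ε) (C : V →L[ℝ] F)
    (hεC : ε * ‖C‖ ^ 2 ≤ 1 / 16) (ξ : F) (e : V) {z : R} (hz : z ≠ 0) {μ' : ℝ} (hμ : 0 ≤ μ')
    (hμ1 : μ' ≤ 1) :
    μ' / (Tm ν γ : Measure V).real univ * ∫ t, LLf ε μ' C ξ e (z, t) ∂(Tm ν γ) ≤
      PN ν γ ε μ' C ξ e z := by
  have hfin := Tm_finite ν hγ
  have hT0 := T0_pos ν hγ
  set T0 := (Tm ν γ : Measure V).real univ with hT0d
  have hRh := RhN_pos hε C ξ e hz
  set Rh := RhN ε C ξ e z with hRhd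
  obtain ⟨hKi, hKp⟩ := Kint ν hγ hε C hεC ξ e hz hμ
  obtain ⟨hd2, hd1⟩ := fiber_int ν hγ hε C hεC ξ e hz
  rw [← hRhd] at hd2 hd1
  set K := ∫ t, RpN ε C ξ e z t ^ (-μ') ∂(Tm ν γ) with hK
  set I1 := ∫ t, Real.log (RpN ε C ξ e z t / Rh) ∂(Tm ν γ) with hI1
  set I2 := ∫ t, Real.log (RpN ε C ξ e z t / Rh) ^ 2 ∂(Tm ν γ) with hI2
  -- pointwise bound
  have hpt : ∀ t, RpN ε C ξ e z t ^ (-μ') ≤ Rh ^ (-μ') *
      (1 - μ' * Real.log (RpN ε C ξ e z t / Rh) +
        μ' ^ 2 * Real.log (RpN ε C ξ e z t / Rh) ^ 2) := by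
    intro t
    have hRp := RpN_pos hε C ξ e hz t
    have h1 := (RpN_RhN hε C hεC ξ e hz t).1
    rw [← hRhd] at h1
    set dl := Real.log (RpN ε C ξ e z t / Rh) with hdl
    have h2 : RpN ε C ξ e z t ^ (-μ') = Rh ^ (-μ') * Real.exp (-μ' * dl) := by
      have h3 : RpN ε C ξ e z t = Rh * (RpN ε C ξ e z t / Rh) := by field_simp
      conv_lhs => rw [h3]
      rw [Real.mul_rpow hRh.le (by positivity)]
      congr 1
      rw [Real.rpow_def_of_pos (by positivity), hdl]
      congr 1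
      ring
    rw [h2]
    apply mul_le_mul_of_nonneg_left _ (by positivity)
    have h4 : -1 ≤ dl := by
      have h5 : 1 / 2 ≤ RpN ε C ξ e z t / Rh := by
        rw [le_div_iff₀ hRh]
        linarith
      have h6 := Real.log_le_log (by norm_num) h5
      have h7 := Real.one_sub_inv_le_log_of_pos (show (0:ℝ) < 1 / 2 by norm_num)
      norm_num at h7
      have h8 : Real.log (1 / 2) = -Real.log 2 := by
        rw [one_div, Real.log_inv]
      linarith
    have h5 : -μ' * dl ≤ 1 := by nlinarith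
    have h6 := exp_quad h5
    calc Real.exp (-μ' * dl) ≤ 1 + -μ' * dl + (-μ' * dl) ^ 2 := h6
      _ = _ := by ring
  have hRi : Integrable (fun t => 1 - μ' * Real.log (RpN ε C ξ e z t / Rh) +
        μ' ^ 2 * Real.log (RpN ε C ξ e z t / Rh) ^ 2) (Tm ν γ) :=
    ((integrable_const 1).sub (hd1.const_mul μ')).add (hd2.const_mul _)
  have hKle : K ≤ Rh ^ (-μ') * (T0 - μ' * I1 + μ' ^ 2 * I2) := by
    have h1 : K ≤ ∫ t, Rh ^ (-μ') * (1 - μ' * Real.log (RpN ε C ξ e z t / Rh) +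
        μ' ^ 2 * Real.log (RpN ε C ξ e z t / Rh) ^ 2) ∂(Tm ν γ) :=
      integral_mono hKi (hRi.const_mul _) hpt
    refine h1.trans (le_of_eq ?_)
    have i0 : Integrable (fun _ : V => (1:ℝ)) (Tm ν γ) := integrable_const 1
    have i1 : Integrable (fun t => 1 - μ' * Real.log (RpN ε C ξ e z t / Rh)) (Tm ν γ) :=
      i0.sub (hd1.const_mul μ')
    rw [integral_const_mul, integral_add i1 (hd2.const_mul _), integral_sub i0 (hd1.const_mul μ'),
      integral_const_mul, integral_const_mul, integral_const, smul_eq_mul, mul_one]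
  -- logarithm
  have hy : Real.log (K / T0) ≤ -(μ' * I1 - μ' ^ 2 * I2) / T0 - μ' * Real.log Rh := by
    have h1 : 0 < Rh ^ μ' * (K / T0) := by positivity
    have h2 := Real.log_le_sub_one_of_pos h1
    rw [Real.log_mul (by positivity) (by positivity), Real.log_rpow hRh] at h2
    have h3 : Rh ^ μ' * (K / T0) ≤ (T0 - μ' * I1 + μ' ^ 2 * I2) / T0 := by
      have h4 : Rh ^ μ' * K ≤ T0 - μ' * I1 + μ' ^ 2 * I2 := by
        have h5 := mul_le_mul_of_nonneg_left hKle (Real.rpow_nonneg hRh.le μ')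
        rw [← mul_assoc, ← Real.rpow_add hRh] at h5
        simpa using h5
      rw [← mul_div_assoc]
      gcongr
    have h4 : (T0 - μ' * I1 + μ' ^ 2 * I2) / T0 = 1 + -(μ' * I1 - μ' ^ 2 * I2) / T0 := by
      field_simp
      ring
    linarith
  have hLL : ∫ t, LLf ε μ' C ξ e (z, t) ∂(Tm ν γ) =
      I1 + T0 * (Real.log Rh - Real.log (R1N ε ξ)) - μ' * I2 := by
    have h1 : ∀ t, LLf ε μ' C ξ e (z, t) = Real.log (RpN ε C ξ e z t / Rh) +
        (Real.log Rh - Real.log (R1N ε ξ)) - μ' * Real.log (RpN ε C ξ e z t / Rh) ^ 2 := by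
      intro t
      have hRp := RpN_pos hε C ξ e hz t
      unfold LLf
      simp only
      rw [← hRhd, Real.log_div hRp.ne' hRh.ne']
      ring
    simp_rw [h1]
    have i0 : Integrable (fun _ : V => (Real.log Rh - Real.log (R1N ε ξ))) (Tm ν γ) :=
      integrable_const _
    have i1 : Integrable (fun t => Real.log (RpN ε C ξ e z t / Rh) +
        (Real.log Rh - Real.log (R1N ε ξ))) (Tm ν γ) := hd1.add i0
    rw [integral_sub i1 (hd2.const_mul μ'), integral_add hd1 i0, integral_const,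
      integral_const_mul, smul_eq_mul]
  rw [hLL]
  unfold PN
  rw [← hK, ← hT0d]
  have h1 : μ' / T0 * (I1 + T0 * (Real.log Rh - Real.log (R1N ε ξ)) - μ' * I2) =
      (μ' * I1 - μ' ^ 2 * I2) / T0 + μ' * (Real.log Rh - Real.log (R1N ε ξ)) := by
    field_simp
    ring
  rw [h1]
  have h2 : -(μ' * I1 - μ' ^ 2 * I2) / T0 = -((μ' * I1 - μ' ^ 2 * I2) / T0) := by ring
  rw [h2] at hy
  linarith

/-- two sided bound of the log ratio -/
lemma PN_bound (hγ : (finrank ℝ V : ℝ) + 1 ≤ 2 * γ) {ε : ℝ} (hε : 0 ≤ ε) (C : V →L[ℝ] F)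
    (hεC : ε * ‖C‖ ^ 2 ≤ 1 / 16) {μ' : ℝ} (hμ : 0 ≤ μ') :
    ∃ cu : ℝ, 0 ≤ cu ∧ ∀ (ξ : F) (e : V), ‖e‖ = 1 → ∀ z : R, z ≠ 0 →
      μ' * (Real.log (sz z) - Real.log 4) ≤ PN ν γ ε μ' C ξ e z ∧ PN ν γ ε μ' C ξ e z ≤ cu := by
  have hfin := Tm_finite ν hγ
  have hT0 := T0_pos ν hγ
  set T0 := (Tm ν γ : Measure V).real univ with hT0d
  set mm := ∫ t : V, (2 * (1 + ‖t‖ ^ 2)) ^ (-μ') ∂(Tm ν γ) with hmm
  have hmi : Integrable (fun t : V => (2 * (1 + ‖t‖ ^ 2)) ^ (-μ')) (Tm ν γ) := by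
    refine (integrable_const (1:ℝ)).mono' ?_ ?_
    · exact ((by fun_prop : Measurable fun t : V => 2 * (1 + ‖t‖ ^ 2)).pow_const
        _).aestronglyMeasurable
    · filter_upwards with t
      rw [Real.norm_of_nonneg (by positivity)]
      exact Real.rpow_le_one_of_one_le_of_nonpos (by nlinarith [sq_nonneg ‖t‖]) (by linarith)
  have hmp : 0 < mm := by
    rw [hmm, integral_pos_iff_support_of_nonneg (fun t => by positivity) hmi]
    have hs : Function.support (fun t : V => (2 * (1 + ‖t‖ ^ 2)) ^ (-μ')) = univ := by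
      ext t
      simp only [Function.mem_support, mem_univ, iff_true]
      positivity
    rw [hs]
    exact Tm_pos ν γ isOpen_univ univ_nonempty
  refine ⟨|Real.log (mm / T0)|, abs_nonneg _, ?_⟩
  intro ξ e he z hz
  have hs := sz_pos' hz
  have hR1 := R1N_pos hε ξ
  obtain ⟨hKi, hKp⟩ := Kint ν hγ hε C hεC ξ e hz hμ
  set K := ∫ t, RpN ε C ξ e z t ^ (-μ') ∂(Tm ν γ) with hK
  unfold PN
  rw [← hK, ← hT0d]
  constructor
  · have h1 : K ≤ (sz z / 4 * R1N ε ξ) ^ (-μ') * T0 := by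
      have h2 : K ≤ ∫ t : V, (sz z / 4 * R1N ε ξ) ^ (-μ') ∂(Tm ν γ) := by
        apply integral_mono hKi (integrable_const _)
        intro t
        have h3 := (RpN_RhN hε C hεC ξ e hz t).1
        have h4 := RhN_lower hε C hεC ξ he z
        exact Real.rpow_le_rpow_of_nonpos (by positivity) (by linarith) (by linarith)
      rw [integral_const, smul_eq_mul] at h2
      linarith
    have h2 : K / T0 ≤ (sz z / 4 * R1N ε ξ) ^ (-μ') := by
      rw [div_le_iff₀ hT0]
      exact h1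
    have h3 := Real.log_le_log (by positivity) h2
    rw [Real.log_rpow (by positivity), Real.log_mul (by positivity) hR1.ne',
      Real.log_div hs.ne' (by norm_num)] at h3
    linarith
  · have h1 : R1N ε ξ ^ (-μ') * mm ≤ K := by
      rw [hmm, ← integral_const_mul]
      apply integral_mono (hmi.const_mul _) hKi
      intro t
      have h2 := RpN_upper hε C hεC ξ he z t
      have h3 := RpN_pos hε C ξ e hz t
      simp only
      rw [← Real.mul_rpow hR1.le (by positivity)]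
      exact Real.rpow_le_rpow_of_nonpos h3 (by linarith) (by linarith)
    have h2 : R1N ε ξ ^ (-μ') * (mm / T0) ≤ K / T0 := by
      rw [← mul_div_assoc]
      gcongr
    have h3 := Real.log_le_log (by positivity) h2
    rw [Real.log_mul (by positivity) (by positivity), Real.log_rpow hR1] at h3
    have h4 := neg_abs_le (Real.log (mm / T0))
    linarith

end

end MP4845
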