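import Mathlib
import Pool.Agent.Lib.MP_4845bf_pr.Q2Psi

/-!
Total positivity of the log ratio (Q2).
-/

set_option linter.unusedSectionVars false
set_option linter.unnecessarySimpa false

namespace MP4845

open MeasureTheory Module Set Filter Topology
open scoped InnerProductSpace ENNReal

section

variable {P R V F : Type*} [NormedAddCommGroup P] [NormedSpace ℝ P] [FiniteDimensional ℝ P]
  [MeasurableSpace P] [BorelSpace P] [Nontrivial P]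
  [NormedAddCommGroup R] [NormedSpace ℝ R] [FiniteDimensional ℝ R]
  [MeasurableSpace R] [BorelSpace R] [Nontrivial R]
  [NormedAddCommGroup V] [InnerProductSpace ℝ V] [FiniteDimensional ℝ V]
  [MeasurableSpace V] [BorelSpace V] [Nontrivial V]
  [NormedAddCommGroup F] [InnerProductSpace ℝ F]

/-- scaling of the log ratio -/
lemma PsiN_theta (ν : Measure V) [ν.IsAddHaarMeasure] {γ : ℝ}
    (hγ : (finrank ℝ V : ℝ) + 1 ≤ 2 * γ) {ε : ℝ} (hε : 0 ≤ ε) (C : V →L[ℝ] F)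
    (hεC : ε * ‖C‖ ^ 2 ≤ 1 / 16) {μ' : ℝ} (hμ : 0 ≤ μ') (a : F) {v : V} (hv : v ≠ 0)
    {z : R} (hz : z ≠ 0) :
    PsiN ν γ ε μ' C a (theta (z, v)).1 (theta (z, v)).2 =
      PN ν γ ε μ' C (‖v‖⁻¹ • a) (‖v‖⁻¹ • v) z := by
  have hv0 : 0 < ‖v‖ := norm_pos_iff.mpr hv
  have hT0 := T0_pos ν hγ
  obtain ⟨hKi, hKp⟩ := Kint ν hγ hε C hεC (‖v‖⁻¹ • a) (‖v‖⁻¹ • v) hz hμ
  have hR1 := R1N_pos hε (‖v‖⁻¹ • a)
  unfold PsiN PN
  have e1 : ‖(theta (z, v)).1‖ ^ 2 + ‖(theta (z, v)).2‖ ^ 2 + ε * ‖a‖ ^ 2 =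
      ‖v‖ ^ 2 * R1N ε (‖v‖⁻¹ • a) := by
    rw [norm_theta_add]
    unfold R1N
    rw [norm_smul, norm_inv, norm_norm]
    field_simp
  have hn : ‖(theta (z, v)).1‖ = ‖v‖ * rs z := by
    unfold theta rs
    simp only
    rw [norm_smul, norm_mul, norm_norm, Real.norm_of_nonneg (lam_nonneg z)]
    ring
  have e2 : ∀ t : V, ‖(theta (z, v)).1‖ ^ 2 * (1 + ‖t‖ ^ 2) +
      ε * ‖a + C (theta (z, v)).2 - ‖(theta (z, v)).1‖ • C t‖ ^ 2 =
      ‖v‖ ^ 2 * RpN ε C (‖v‖⁻¹ • a) (‖v‖⁻¹ • v) z t := by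
    intro t
    have h1 : a + C (theta (z, v)).2 - ‖(theta (z, v)).1‖ • C t =
        ‖v‖ • (‖v‖⁻¹ • a + omf C (‖v‖⁻¹ • v) z t) := by
      rw [hn]
      unfold omf theta
      simp only [map_smul]
      rw [smul_add, smul_sub, smul_smul ‖v‖ ‖v‖⁻¹ a, smul_comm (lam z) ‖v‖⁻¹ (C v),
        smul_smul ‖v‖ ‖v‖⁻¹, mul_inv_cancel₀ hv0.ne', one_smul, one_smul, smul_smul]
      abel
    rw [h1, norm_smul, norm_norm, mul_pow, norm_theta_fst]
    unfold RpN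
    ring
  simp_rw [e2]
  have e3 : ∀ t : V, (‖v‖ ^ 2 * RpN ε C (‖v‖⁻¹ • a) (‖v‖⁻¹ • v) z t) ^ (-μ') =
      (‖v‖ ^ 2) ^ (-μ') * RpN ε C (‖v‖⁻¹ • a) (‖v‖⁻¹ • v) z t ^ (-μ') := by
    intro t
    have := RpN_pos hε C (‖v‖⁻¹ • a) (‖v‖⁻¹ • v) hz t
    exact Real.mul_rpow (by positivity) this.le
  simp_rw [e3]
  rw [e1, integral_const_mul, Real.log_mul (by positivity) hR1.ne', mul_div_assoc,
    Real.log_mul (by positivity) (by positivity), Real.log_rpow (by positivity)]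
  ring

/-- `theta` is onto the points with nonzero components -/
lemma theta_surj {r : R} {g : V} (hr : r ≠ 0) (hg : g ≠ 0) :
    ∃ z : R, ∃ v : V, z ≠ 0 ∧ v ≠ 0 ∧ theta (z, v) = (r, g) := by
  have hg0 : 0 < ‖g‖ := norm_pos_iff.mpr hg
  set z : R := ‖g‖⁻¹ • r with hz
  have hz0 : z ≠ 0 := smul_ne_zero (inv_ne_zero hg0.ne') hr
  have hl := lam_pos z
  refine ⟨z, (lam z)⁻¹ • g, hz0, smul_ne_zero (inv_ne_zero hl.ne') hg, ?_⟩
  have e1 : lam z * ‖(lam z)⁻¹ • g‖ = ‖g‖ := by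
    rw [norm_smul, norm_inv, Real.norm_of_nonneg hl.le, ← mul_assoc, mul_inv_cancel₀ hl.ne',
      one_mul]
  have e2 : ‖g‖ • z = r := by
    rw [hz, smul_smul, mul_inv_cancel₀ hg0.ne', one_smul]
  have e3 : lam z • (lam z)⁻¹ • g = g := by
    rw [smul_smul, mul_inv_cancel₀ hl.ne', one_smul]
  unfold theta
  simp only
  rw [e1, e2, e3]

/-- bound in coordinates -/
lemma PsiN_bound (ν : Measure V) [ν.IsAddHaarMeasure] {γ : ℝ}
    (hγ : (finrank ℝ V : ℝ) + 1 ≤ 2 * γ) {ε : ℝ} (hε : 0 ≤ ε) (C : V →L[ℝ] F)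
    (hεC : ε * ‖C‖ ^ 2 ≤ 1 / 16) {μ' : ℝ} (hμ : 0 ≤ μ') :
    ∃ cu c : ℝ, ∀ (a : F) (r : R) (g : V), r ≠ 0 → g ≠ 0 →
      PsiN ν γ ε μ' C a r g ≤ cu ∧ |PsiN ν γ ε μ' C a r g| ≤ c * ss (r, g) ^ (-(1 / 4) : ℝ) := by
  obtain ⟨cu, hcu0, hcu⟩ := PN_bound (R := R) ν hγ hε C hεC hμ
  refine ⟨cu, cu + μ' * (4 + Real.log 4), ?_⟩
  intro a r g hr hg
  obtain ⟨z, v, hz, hv, hth⟩ := theta_surj hr hg
  have hv0 : 0 < ‖v‖ := norm_pos_iff.mpr hv
  have h1 := PsiN_theta ν hγ hε C hεC hμ a hv hz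
  rw [hth] at h1
  simp only at h1
  have he : ‖‖v‖⁻¹ • v‖ = 1 := by
    rw [norm_smul, norm_inv, norm_norm, inv_mul_cancel₀ hv0.ne']
  obtain ⟨h2, h3⟩ := hcu (‖v‖⁻¹ • a) (‖v‖⁻¹ • v) he z hz
  rw [← h1] at h2 h3
  refine ⟨h3, ?_⟩
  have hss : ss (r, g) = sz z := by
    rw [← hth]
    exact ss_theta (w := (z, v)) hv
  rw [hss]
  have hs := sz_pos' hz
  have hs1 := sz_le_one' z
  have h4 := abs_log_le_quarter hs hs1
  have h5 : 1 ≤ sz z ^ (-(1 / 4) : ℝ) :=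
    Real.one_le_rpow_of_pos_of_le_one_of_nonpos hs hs1 (by norm_num)
  have h6 : 0 ≤ Real.log 4 := Real.log_nonneg (by norm_num)
  have h7 := neg_abs_le (Real.log (sz z))
  have h8 : μ' * |Real.log (sz z)| ≤ μ' * (4 * sz z ^ (-(1 / 4) : ℝ)) :=
    mul_le_mul_of_nonneg_left h4 hμ
  have h9 : 0 ≤ μ' * Real.log 4 := mul_nonneg hμ h6
  have h10 : μ' * -|Real.log (sz z)| ≤ μ' * Real.log (sz z) := mul_le_mul_of_nonneg_left h7 hμ
  have h11 : cu ≤ cu * sz z ^ (-(1 / 4) : ℝ) := by nlinarith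
  have h12 : μ' * Real.log 4 ≤ μ' * Real.log 4 * sz z ^ (-(1 / 4) : ℝ) := by nlinarith
  have h13 : 0 ≤ μ' * |Real.log (sz z)| := mul_nonneg hμ (abs_nonneg _)
  have e1 : (cu + μ' * (4 + Real.log 4)) * sz z ^ (-(1 / 4) : ℝ) =
      cu * sz z ^ (-(1 / 4) : ℝ) + μ' * (4 * sz z ^ (-(1 / 4) : ℝ)) +
        μ' * Real.log 4 * sz z ^ (-(1 / 4) : ℝ) := by ring
  rw [e1, abs_le]
  constructor
  · nlinarith
  · nlinarith

/-- measurability in coordinates -/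
lemma measurable_PsiN (ν : Measure V) [ν.IsAddHaarMeasure] {γ : ℝ}
    (hγ : (finrank ℝ V : ℝ) + 1 ≤ 2 * γ) (ε μ' : ℝ) (C : V →L[ℝ] F) (J : P → F)
    (hJ : Continuous J) :
    Measurable (fun w : P × (R × V) => PsiN ν γ ε μ' C (J w.1) w.2.1 w.2.2) := by
  have hfin := Tm_finite ν hγ
  unfold PsiN
  have h1 : Continuous (fun w : P × (R × V) => ‖w.2.1‖ ^ 2 + ‖w.2.2‖ ^ 2 + ε * ‖J w.1‖ ^ 2) :=
    (((continuous_fst.comp continuous_snd).norm.pow 2).add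
      ((continuous_snd.comp continuous_snd).norm.pow 2)).add
      (continuous_const.mul ((hJ.comp continuous_fst).norm.pow 2))
  have h2 : Continuous (fun w : (P × (R × V)) × V => ‖w.1.2.1‖ ^ 2 * (1 + ‖w.2‖ ^ 2) +
      ε * ‖J w.1.1 + C w.1.2.2 - ‖w.1.2.1‖ • C w.2‖ ^ 2) := by
    have a1 : Continuous (fun w : (P × (R × V)) × V => ‖w.1.2.1‖) :=
      (continuous_fst.comp (continuous_snd.comp continuous_fst)).norm
    have a2 : Continuous (fun w : (P × (R × V)) × V => J w.1.1) :=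
      hJ.comp (continuous_fst.comp continuous_fst)
    have a3 : Continuous (fun w : (P × (R × V)) × V => C w.1.2.2) :=
      C.continuous.comp (continuous_snd.comp (continuous_snd.comp continuous_fst))
    have a4 : Continuous (fun w : (P × (R × V)) × V => C w.2) := C.continuous.comp continuous_snd
    exact ((a1.pow 2).mul (continuous_const.add (continuous_snd.norm.pow 2))).add
      (continuous_const.mul (((a2.add a3).sub (a1.smul a4)).norm.pow 2))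
  have h3 : Measurable (fun w : (P × (R × V)) × V => (‖w.1.2.1‖ ^ 2 * (1 + ‖w.2‖ ^ 2) +
      ε * ‖J w.1.1 + C w.1.2.2 - ‖w.1.2.1‖ • C w.2‖ ^ 2) ^ (-μ')) := h2.measurable.pow_const _
  have h4 : StronglyMeasurable (fun w : P × (R × V) => ∫ t,
      (‖w.2.1‖ ^ 2 * (1 + ‖t‖ ^ 2) + ε * ‖J w.1 + C w.2.2 - ‖w.2.1‖ • C t‖ ^ 2) ^ (-μ')
        ∂(Tm ν γ)) := by
    exact h3.stronglyMeasurable.integral_prod_right' (ν := Tm ν γ)
  exact (h1.measurable.log.const_mul _).sub ((h4.measurable.div_const _).log)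

/-- The abstract positivity statement for Q2. -/
theorem psi_total (κ : Measure P) [κ.IsAddHaarMeasure] (μ : Measure R) [μ.IsAddHaarMeasure]
    (ν : Measure V) [ν.IsAddHaarMeasure] {p1 : ℝ} (hp1 : 0 ≤ p1) {γ δ : ℝ}
    (hγ : γ = p1 + finrank ℝ R / 2 + finrank ℝ V / 2) (hδ : δ < γ)
    (J : P →ₗ[ℝ] F) (hJ : Function.Injective J) (C : V →L[ℝ] F) (hC : C ≠ 0) :
    ∃ ε : ℝ, 0 < ε ∧ ε ≤ 1 / 2 ∧ ∃ μ0 : ℝ, 0 < μ0 ∧ ∀ μ' : ℝ, 0 < μ' → μ' ≤ μ0 →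
      (∃ cu c : ℝ, ∀ (a : F) (r : R) (g : V), r ≠ 0 → g ≠ 0 →
        PsiN ν γ ε μ' C a r g ≤ cu ∧
          |PsiN ν γ ε μ' C a r g| ≤ c * ss (r, g) ^ (-(1 / 4) : ℝ)) ∧
      ∀ (β0 : P) (v : ℝ), 0 < v →
      Integrable (fun w : P × (R × V) => Real.exp (-‖J (w.1 - β0)‖ ^ 2 / (2 * v)) *
        (Phi v δ (‖w.2.1‖ ^ 2 + ‖w.2.2‖ ^ 2) * (‖w.2.1‖ ^ 2) ^ p1) *
          PsiN ν γ ε μ' C (J w.1) w.2.1 w.2.2) (κ.prod (μ.prod ν)) ∧
      0 < ∫ w : P × (R × V), Real.exp (-‖J (w.1 - β0)‖ ^ 2 / (2 * v)) *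
        (Phi v δ (‖w.2.1‖ ^ 2 + ‖w.2.2‖ ^ 2) * (‖w.2.1‖ ^ 2) ^ p1) *
          PsiN ν γ ε μ' C (J w.1) w.2.1 w.2.2 ∂(κ.prod (μ.prod ν)) := by
  have hg := gamma_ge (R := R) μ ν hp1 hγ
  have hm : 0 < finrank ℝ V := finrank_pos
  have hT0 := T0_pos ν hg
  have hfinT := Tm_finite ν hg
  have hfinZ := Zm_finite μ hp1 hm
  obtain ⟨ε, hε0, hε1, hεC, μ0, hμ0, hinner⟩ := inner_pos μ ν hp1 hγ C hC
  refine ⟨ε, hε0, hε1, min μ0 1, lt_min hμ0 one_pos, ?_⟩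
  intro μ' hμ' hμle
  have hμ1 : μ' ≤ 1 := hμle.trans (min_le_right _ _)
  obtain ⟨cu, c, hcb⟩ := PsiN_bound (R := R) ν hg hε0.le C hεC hμ'.le
  refine ⟨⟨cu, c, hcb⟩, ?_⟩
  intro β0 v hv
  have hJc : Continuous J := J.continuous_of_finiteDimensional
  have hGm := measurable_PsiN (P := P) (R := R) ν hg ε μ' C J hJc
  refine outer_pos κ μ ν hp1 hγ hδ J hJ
    (fun w : P × (R × V) => PsiN ν γ ε μ' C (J w.1) w.2.1 w.2.2) c hGm
    (fun w h1 h2 => (hcb (J w.1) w.2.1 w.2.2 h1 h2).2) ?_ β0 hv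
  intro b u hu
  have hu0 : 0 < ‖u‖ := norm_pos_iff.mpr hu
  have he : ‖‖u‖⁻¹ • u‖ = 1 := by
    rw [norm_smul, norm_inv, norm_norm, inv_mul_cancel₀ hu0.ne']
  set ξ : F := ‖u‖⁻¹ • J b with hξ
  set e : V := ‖u‖⁻¹ • u with he'
  have he2 : ‖-e‖ = 1 := by rw [norm_neg, he]
  -- rewriting the integrand
  have hae : (fun z : R => PsiN ν γ ε μ' C (J b) (theta (z, u)).1 (theta (z, u)).2 +
      PsiN ν γ ε μ' C (J b) (theta (z, -u)).1 (theta (z, -u)).2) =ᵐ[Zm μ p1 (finrank ℝ V)]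
      (fun z => PN ν γ ε μ' C ξ e z + PN ν γ ε μ' C ξ (-e) z) := by
    filter_upwards [Zm_ae μ p1 (finrank ℝ V)] with z hz
    have h1 := PsiN_theta ν hg hε0.le C hεC hμ'.le (J b) hu hz
    have h2 := PsiN_theta ν hg hε0.le C hεC hμ'.le (J b) (neg_ne_zero.mpr hu) hz
    rw [norm_neg, smul_neg] at h2
    rw [h1, h2]
  simp only
  rw [integral_congr_ae hae]
  -- integrability
  have hcurve : ∀ u : V, Measurable (fun z : R =>
      PsiN ν γ ε μ' C (J b) (theta (z, u)).1 (theta (z, u)).2) := by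
    intro u
    have h0 : Measurable (fun z : R => theta (z, u)) :=
      measurable_theta.comp (measurable_id.prodMk measurable_const)
    have h1 : Measurable (fun z : R => (b, theta (z, u))) := measurable_const.prodMk h0
    have h2 : Measurable ((fun w : P × (R × V) => PsiN ν γ ε μ' C (J w.1) w.2.1 w.2.2) ∘
      (fun z : R => (b, theta (z, u)))) := hGm.comp h1
    exact h2
  have hPNi : ∀ (u : V), u ≠ 0 → Integrable (fun z : R =>
      PN ν γ ε μ' C (‖u‖⁻¹ • J b) (‖u‖⁻¹ • u) z) (Zm μ p1 (finrank ℝ V)) := by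
    intro u hu
    have hi : Integrable (fun z : R =>
        PsiN ν γ ε μ' C (J b) (theta (z, u)).1 (theta (z, u)).2) (Zm μ p1 (finrank ℝ V)) := by
      refine ((Zm_quarter μ hp1 hm).const_mul c).mono' (hcurve u).aestronglyMeasurable ?_
      filter_upwards [Zm_ae μ p1 (finrank ℝ V)] with z hz
      have hth1 : (theta (z, u)).1 ≠ 0 := by
        unfold theta
        exact smul_ne_zero (mul_ne_zero (lam_pos z).ne' (norm_ne_zero_iff.mpr hu)) hz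
      have hth2 : (theta (z, u)).2 ≠ 0 := by
        unfold theta
        exact smul_ne_zero (lam_pos z).ne' hu
      have h1 := (hcb (J b) _ _ hth1 hth2).2
      have h2 : ss ((theta (z, u)).1, (theta (z, u)).2) = sz z := ss_theta (w := (z, u)) hu
      rw [h2] at h1
      rw [Real.norm_eq_abs]
      exact h1
    refine hi.congr ?_
    filter_upwards [Zm_ae μ p1 (finrank ℝ V)] with z hz
    exact PsiN_theta ν hg hε0.le C hεC hμ'.le (J b) hu hz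
  have hi1 : Integrable (fun z : R => PN ν γ ε μ' C ξ e z) (Zm μ p1 (finrank ℝ V)) := hPNi u hu
  have hi2 : Integrable (fun z : R => PN ν γ ε μ' C ξ (-e) z) (Zm μ p1 (finrank ℝ V)) := by
    have := hPNi (-u) (neg_ne_zero.mpr hu)
    simpa only [norm_neg, smul_neg] using this
  -- lower bound
  have hL1 := int_LLf (R := R) μ ν hp1 hγ hε0.le C hεC ξ he μ'
  have hL2 := int_LLf (R := R) μ ν hp1 hγ hε0.le C hεC ξ he2 μ'
  have hp := hinner μ' hμ'.le (hμle.trans (min_le_left _ _)) ξ e he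
  unfold Pim at hL1 hL2 hp
  rw [integral_prod _ hL1, integral_prod _ hL2] at hp
  have hL1' := hL1.integral_prod_left
  have hL2' := hL2.integral_prod_left
  set T0 := (Tm ν γ : Measure V).real univ with hT0d
  have k1 : μ' / T0 * ∫ z, ∫ t, LLf ε μ' C ξ e (z, t) ∂(Tm ν γ) ∂(Zm μ p1 (finrank ℝ V)) ≤
      ∫ z, PN ν γ ε μ' C ξ e z ∂(Zm μ p1 (finrank ℝ V)) := by
    rw [← integral_const_mul]
    apply integral_mono_ae (hL1'.const_mul _) hi1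
    filter_upwards [Zm_ae μ p1 (finrank ℝ V)] with z hz
    exact PN_lower ν hg hε0.le C hεC ξ e hz hμ'.le hμ1
  have k2 : μ' / T0 * ∫ z, ∫ t, LLf ε μ' C ξ (-e) (z, t) ∂(Tm ν γ) ∂(Zm μ p1 (finrank ℝ V)) ≤
      ∫ z, PN ν γ ε μ' C ξ (-e) z ∂(Zm μ p1 (finrank ℝ V)) := by
    rw [← integral_const_mul]
    apply integral_mono_ae (hL2'.const_mul _) hi2
    filter_upwards [Zm_ae μ p1 (finrank ℝ V)] with z hz
    exact PN_lower ν hg hε0.le C hεC ξ (-e) hz hμ'.le hμ1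
  rw [integral_add hi1 hi2]
  have k3 : 0 < μ' / T0 := by positivity
  have k4 := mul_pos k3 hp
  linarith

end

end MP4845
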