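import Mathlib
import Pool.Agent.Lib.MP_4845bf_pr.Q2Total
import Pool.Agent.Lib.MP_4845bf_pr.GeoMain

/-!
Geometry for the resampling step (Q2).
-/

set_option linter.unusedSectionVars false
set_option linter.unnecessarySimpa false
set_option linter.style.haveILetI false

namespace MP4845

open MeasureTheory Module Set Filter Topology WithLp
open scoped InnerProductSpace

section

variable {P E1 E2 : Type*} [AddCommGroup P] [Module ℝ P] [FiniteDimensional ℝ P]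
  [NormedAddCommGroup E1] [InnerProductSpace ℝ E1] [FiniteDimensional ℝ E1]
  [NormedAddCommGroup E2] [InnerProductSpace ℝ E2] [FiniteDimensional ℝ E2]
  (A : P →ₗ[ℝ] E1) (B : P →ₗ[ℝ] E2)

/-- transfer of null sets through a linear chart -/
lemma haar_ae {E F : Type*} [NormedAddCommGroup E] [NormedSpace ℝ E] [FiniteDimensional ℝ E]
    [MeasurableSpace E] [BorelSpace E] [NormedAddCommGroup F] [NormedSpace ℝ F]
    [FiniteDimensional ℝ F] [MeasurableSpace F] [BorelSpace F] (L : E ≃L[ℝ] F) (μ : Measure E)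
    [μ.IsAddHaarMeasure] (ν : Measure F) [ν.IsAddHaarMeasure] {p : F → Prop}
    (h : ∀ᵐ x ∂μ, p (L x)) : ∀ᵐ y ∂ν, p y := by
  have : (μ.map L).IsAddHaarMeasure := L.isAddHaarMeasure_map μ
  have h1 := Measure.isAddLeftInvariant_eq_smul ν (μ.map L)
  have hemb : MeasurableEmbedding L := L.toHomeomorph.measurableEmbedding
  rw [h1]
  apply Measure.ae_smul_measure
  exact hemb.ae_map_iff.mpr h

/-- the linear map with `A (D g) = C g` -/
noncomputable def Dm (hA : Function.Injective A) : GG A B →ₗ[ℝ] P :=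
  (LinearEquiv.ofInjective A hA).symm.toLinearMap ∘ₗ
    (LinearMap.codRestrict (LinearMap.range A) (CC A B).toLinearMap (CC_mem A B))

lemma A_Dm (hA : Function.Injective A) (g : GG A B) : A (Dm A B hA g) = CC A B g := by
  unfold Dm
  simp only [LinearMap.comp_apply, LinearEquiv.coe_coe]
  have h := (LinearEquiv.ofInjective A hA).apply_symm_apply
    (LinearMap.codRestrict (LinearMap.range A) (CC A B).toLinearMap (CC_mem A B) g)
  have h2 := congrArg Subtype.val h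
  rw [LinearEquiv.ofInjective_apply] at h2
  exact h2

/-- the shift operator -/
noncomputable def CJ (hA : Function.Injective A) : GG A B →L[ℝ] WithLp 2 (E1 × E2) :=
  ((iota A B) ∘ₗ Dm A B hA).toContinuousLinearMap

lemma CJ_apply (hA : Function.Injective A) (g : GG A B) :
    CJ A B hA g = iota A B (Dm A B hA g) := rfl

lemma CJ_ne_zero (hA : Function.Injective A) (hB : B ≠ 0) : CJ A B hA ≠ 0 := by
  intro h
  apply CC_ne_zero A B hA hB
  ext1 g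
  have h1 : CJ A B hA g = 0 := by rw [h]; rfl
  rw [CJ_apply] at h1
  have h2 : Dm A B hA g = 0 := by
    apply iota_injective A B hA
    rw [h1, map_zero]
  rw [← A_Dm A B hA g, h2, map_zero]
  rfl

/-- points over the same first component -/
lemma fiber_eq (hA : Function.Injective A)
    {w w' : P × ((LinearMap.range A)ᗮ : Submodule ℝ E1) × GG A B}
    (h : (LL A B w).fst = (LL A B w').fst) :
    w.2.1 = w'.2.1 ∧ w.1 + Dm A B hA w.2.2 = w'.1 + Dm A B hA w'.2.2 := by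
  have h1 := proj_fst_LL A B w
  have h2 := proj_fst_LL A B w'
  have h3 := fst_LL A B w
  have h4 := fst_LL A B w'
  rw [h] at h1 h3
  have h5 : A w.1 + CC A B w.2.2 = A w'.1 + CC A B w'.2.2 := h1.symm.trans h2
  constructor
  · have h6 : A w.1 + CC A B w.2.2 + w.2.1 = A w'.1 + CC A B w'.2.2 + w'.2.1 := h3.symm.trans h4
    rw [h5] at h6
    exact Subtype.ext (add_left_cancel h6)
  · apply hA
    rw [map_add, map_add, A_Dm, A_Dm]
    exact h5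

end

section

variable {P E1 E2 Y Z : Type*} [NormedAddCommGroup P] [NormedSpace ℝ P] [FiniteDimensional ℝ P]
  [MeasurableSpace P] [BorelSpace P] [Nontrivial P]
  [NormedAddCommGroup E1] [InnerProductSpace ℝ E1] [FiniteDimensional ℝ E1]
  [NormedAddCommGroup E2] [InnerProductSpace ℝ E2] [FiniteDimensional ℝ E2]
  [NormedAddCommGroup Y] [NormedSpace ℝ Y] [FiniteDimensional ℝ Y]
  [MeasurableSpace Y] [BorelSpace Y]
  [NormedAddCommGroup Z] [NormedSpace ℝ Z] [FiniteDimensional ℝ Z]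
  [MeasurableSpace Z] [BorelSpace Z]
  (A : P →ₗ[ℝ] E1) (B : P →ₗ[ℝ] E2) (eY : Y ≃ₗ[ℝ] E1) (eZ : Z ≃ₗ[ℝ] E2)

lemma LL_coA (hA : Function.Injective A) (z : Y × Z) :
    LL A B (coA A B eY eZ hA z) = WithLp.toLp 2 (eY z.1, eZ z.2) := by
  change LL A B ((LLe A B hA).symm _) = _
  exact (LLe A B hA).apply_symm_apply _

/-- linear part of the third coordinate -/
noncomputable def Dl (hA : Function.Injective A) : Z →ₗ[ℝ] GG A B :=
  (LinearMap.snd ℝ _ _ ∘ₗ LinearMap.snd ℝ _ _) ∘ₗ (coA A B eY eZ hA).toLinearMap ∘ₗ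
    LinearMap.inr ℝ Y Z

lemma Dl_apply (hA : Function.Injective A) (x : Z) :
    Dl A B eY eZ hA x = (coA A B eY eZ hA (0, x)).2.2 := rfl

lemma Dl_injective (hA : Function.Injective A) : Function.Injective (Dl A B eY eZ hA) := by
  rw [← LinearMap.ker_eq_bot, LinearMap.ker_eq_bot']
  intro x hx
  rw [Dl_apply] at hx
  have h1 : eZ x = 0 := by
    apply snd_comp_injective A B hA
    have h2 : coA A B eY eZ hA (0, x) = (LLe A B hA).symm (WithLp.toLp 2 ((0 : E1), eZ x)) := by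
      change (LLe A B hA).symm (WithLp.toLp 2 (eY 0, eZ x)) = _
      rw [map_zero]
    rw [h2] at hx
    exact hx
  exact eZ.map_eq_zero_iff.mp h1

/-- as an equivalence -/
noncomputable def DZ (hA : Function.Injective A) : Z ≃L[ℝ] GG A B :=
  (LinearMap.linearEquivOfInjective (Dl A B eY eZ hA) (Dl_injective A B eY eZ hA) (by
    rw [finrank_GG A B hA]
    exact eZ.finrank_eq)).toContinuousLinearEquiv

lemma DZ_apply (hA : Function.Injective A) (x : Z) :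
    DZ A B eY eZ hA x = (coA A B eY eZ hA (0, x)).2.2 := rfl

lemma coA_third (hA : Function.Injective A) (y : Y) (x : Z) :
    (coA A B eY eZ hA (y, x)).2.2 = (coA A B eY eZ hA (y, 0)).2.2 + DZ A B eY eZ hA x := by
  have h : ((y, x) : Y × Z) = (y, 0) + (0, x) := by simp
  rw [h, map_add, DZ_apply]
  rfl

lemma coA_fiber (hA : Function.Injective A) (y : Y) (x x' : Z) :
    (coA A B eY eZ hA (y, x)).2.1 = (coA A B eY eZ hA (y, x')).2.1 ∧
    (coA A B eY eZ hA (y, x)).1 + Dm A B hA (coA A B eY eZ hA (y, x)).2.2 =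
      (coA A B eY eZ hA (y, x')).1 + Dm A B hA (coA A B eY eZ hA (y, x')).2.2 := by
  apply fiber_eq A B hA
  rw [LL_coA, LL_coA]
  rfl

/-- the resampled first coordinate -/
lemma coA_first (hA : Function.Injective A) (y : Y) (x x' : Z) :
    iota A B (coA A B eY eZ hA (y, x')).1 = iota A B (coA A B eY eZ hA (y, x)).1 +
      CJ A B hA (coA A B eY eZ hA (y, x)).2.2 - CJ A B hA (coA A B eY eZ hA (y, x')).2.2 := by
  have h := (coA_fiber A B eY eZ hA y x x').2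
  rw [CJ_apply, CJ_apply, ← map_add, h, map_add]
  abel

/-- `T` -/
noncomputable def TA (hA : Function.Injective A) (z : Y × Z) : ℝ :=
  ‖(coA A B eY eZ hA z).2.1‖ ^ 2 + ‖(coA A B eY eZ hA z).2.2‖ ^ 2

/-- `R = T + ε |ι b|²` -/
noncomputable def RA (hA : Function.Injective A) (ε : ℝ) (z : Y × Z) : ℝ :=
  TA A B eY eZ hA z + ε * ‖iota A B (coA A B eY eZ hA z).1‖ ^ 2

/-- the normaliser -/
noncomputable def KA (ζ : Measure Z) (hA : Function.Injective A) (γ ε μ' : ℝ) (y : Y) : ℝ :=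
  (∫ x, TA A B eY eZ hA (y, x) ^ (-γ) * RA A B eY eZ hA ε (y, x) ^ (-μ') ∂ζ) /
    ∫ x, TA A B eY eZ hA (y, x) ^ (-γ) ∂ζ

/-- the log ratio -/
noncomputable def PsiA2 (ζ : Measure Z) (hA : Function.Injective A) (γ ε μ' : ℝ) (z : Y × Z) : ℝ :=
  -μ' * Real.log (RA A B eY eZ hA ε z) - Real.log (KA A B eY eZ ζ hA γ ε μ' z.1)

lemma fiber_integral [MeasurableSpace (GG A B)] [BorelSpace (GG A B)] (ζ : Measure Z)
    [ζ.IsAddHaarMeasure] (ν : Measure (GG A B)) [ν.IsAddHaarMeasure]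
    (hA : Function.Injective A) :
    ∃ c : ℝ, 0 < c ∧ ∀ (y : Y) (h : GG A B → ℝ),
      ∫ x, h (coA A B eY eZ hA (y, x)).2.2 ∂ζ = c * ∫ g, h g ∂ν := by
  obtain ⟨c, hc, hmap⟩ := haar_map (DZ A B eY eZ hA) ζ ν
  refine ⟨c⁻¹, by positivity, ?_⟩
  intro y h
  have h1 := (hmap h).2
  obtain ⟨x0, hx0⟩ := (DZ A B eY eZ hA).surjective (coA A B eY eZ hA (y, 0)).2.2
  have h2 : ∀ x, h (coA A B eY eZ hA (y, x)).2.2 = (fun x => h (DZ A B eY eZ hA x)) (x + x0) := by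
    intro x
    simp only
    rw [coA_third, ← hx0, map_add, add_comm]
  simp_rw [h2]
  rw [integral_add_right_eq_self (fun x => h (DZ A B eY eZ hA x)) x0, h1]
  field_simp

lemma KA_eq [MeasurableSpace (GG A B)] [BorelSpace (GG A B)] [Nontrivial (GG A B)] (ζ : Measure Z)
    [ζ.IsAddHaarMeasure] (ν : Measure (GG A B)) [ν.IsAddHaarMeasure]
    (hA : Function.Injective A) {γ ε μ' : ℝ} (z : Y × Z)
    (hr : (coA A B eY eZ hA z).2.1 ≠ 0) :
    KA A B eY eZ ζ hA γ ε μ' z.1 =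
      (∫ t, (‖(coA A B eY eZ hA z).2.1‖ ^ 2 * (1 + ‖t‖ ^ 2) +
        ε * ‖iota A B (coA A B eY eZ hA z).1 + CJ A B hA (coA A B eY eZ hA z).2.2 -
          ‖(coA A B eY eZ hA z).2.1‖ • CJ A B hA t‖ ^ 2) ^ (-μ') ∂(Tm ν γ)) /
        (Tm ν γ : Measure (GG A B)).real univ := by
  obtain ⟨y, x0⟩ := z
  obtain ⟨c, hc, hfib⟩ := fiber_integral A B eY eZ ζ ν hA
  simp only at hr ⊢
  set w := coA A B eY eZ hA (y, x0) with hw
  set s := ‖w.2.1‖ with hs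
  have hs0 : 0 < s := norm_pos_iff.mpr hr
  set ah := iota A B w.1 + CJ A B hA w.2.2 with hah
  have hT : ∀ x, TA A B eY eZ hA (y, x) = s ^ 2 + ‖(coA A B eY eZ hA (y, x)).2.2‖ ^ 2 := by
    intro x
    unfold TA
    rw [(coA_fiber A B eY eZ hA y x x0).1]
  have hR : ∀ x, RA A B eY eZ hA ε (y, x) = s ^ 2 + ‖(coA A B eY eZ hA (y, x)).2.2‖ ^ 2 +
      ε * ‖ah - CJ A B hA (coA A B eY eZ hA (y, x)).2.2‖ ^ 2 := by
    intro x
    unfold RA
    rw [hT, coA_first A B eY eZ hA y x0 x]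
  unfold KA
  simp_rw [hR, hT]
  have f1 := hfib y (fun g => (s ^ 2 + ‖g‖ ^ 2) ^ (-γ) *
    (s ^ 2 + ‖g‖ ^ 2 + ε * ‖ah - CJ A B hA g‖ ^ 2) ^ (-μ'))
  have f2 := hfib y (fun g => (s ^ 2 + ‖g‖ ^ 2) ^ (-γ))
  rw [f1, f2]
  -- scaling
  have s1 := Measure.integral_comp_smul ν (fun g => (s ^ 2 + ‖g‖ ^ 2) ^ (-γ) *
    (s ^ 2 + ‖g‖ ^ 2 + ε * ‖ah - CJ A B hA g‖ ^ 2) ^ (-μ')) s
  have s2 := Measure.integral_comp_smul ν (fun g => (s ^ 2 + ‖g‖ ^ 2) ^ (-γ)) s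
  rw [abs_of_nonneg (by positivity), smul_eq_mul] at s1 s2
  have e0 : ∀ t : GG A B, s ^ 2 + ‖s • t‖ ^ 2 = s ^ 2 * (1 + ‖t‖ ^ 2) := by
    intro t
    rw [norm_smul, Real.norm_of_nonneg hs0.le]
    ring
  have e1 : ∀ t : GG A B, (s ^ 2 + ‖s • t‖ ^ 2) ^ (-γ) =
      (s ^ 2) ^ (-γ) * (1 + ‖t‖ ^ 2) ^ (-γ) := by
    intro t
    rw [e0, Real.mul_rpow (by positivity) (by positivity)]
  have e2 : ∀ t : GG A B, (s ^ 2 + ‖s • t‖ ^ 2) ^ (-γ) *
      (s ^ 2 + ‖s • t‖ ^ 2 + ε * ‖ah - CJ A B hA (s • t)‖ ^ 2) ^ (-μ') =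
      (s ^ 2) ^ (-γ) * ((1 + ‖t‖ ^ 2) ^ (-γ) *
        (s ^ 2 * (1 + ‖t‖ ^ 2) + ε * ‖ah - s • CJ A B hA t‖ ^ 2) ^ (-μ')) := by
    intro t
    rw [e1, e0, map_smul]
    ring
  simp_rw [e2] at s1
  simp_rw [e1] at s2
  rw [integral_const_mul] at s1 s2
  have t1 : (Tm ν γ : Measure (GG A B)).real univ = ∫ t, (1 + ‖t‖ ^ 2) ^ (-γ) ∂ν := by
    have := integral_Tm ν γ (fun _ => (1:ℝ))
    simpa using this
  rw [integral_Tm, t1]
  set I1 := ∫ t, (1 + ‖t‖ ^ 2) ^ (-γ) *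
        (s ^ 2 * (1 + ‖t‖ ^ 2) + ε * ‖ah - s • CJ A B hA t‖ ^ 2) ^ (-μ') ∂ν
  set I2 := ∫ t : GG A B, (1 + ‖t‖ ^ 2) ^ (-γ) ∂ν
  set N1 := ∫ g, (s ^ 2 + ‖g‖ ^ 2) ^ (-γ) *
    (s ^ 2 + ‖g‖ ^ 2 + ε * ‖ah - CJ A B hA g‖ ^ 2) ^ (-μ') ∂ν
  set N2 := ∫ g : GG A B, (s ^ 2 + ‖g‖ ^ 2) ^ (-γ) ∂ν
  have hsg : 0 < (s ^ 2) ^ (-γ) := by positivity
  have hsm : 0 < s ^ finrank ℝ (GG A B) := by positivity
  have k1 : N1 = s ^ finrank ℝ (GG A B) * ((s ^ 2) ^ (-γ) * I1) := by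
    rw [s1]
    field_simp
  have k2 : N2 = s ^ finrank ℝ (GG A B) * ((s ^ 2) ^ (-γ) * I2) := by
    rw [s2]
    field_simp
  rw [k1, k2, mul_div_mul_left _ _ hc.ne', mul_div_mul_left _ _ hsm.ne',
    mul_div_mul_left _ _ hsg.ne']

/-- the log ratio in coordinates -/
lemma PsiA2_eq [MeasurableSpace (GG A B)] [BorelSpace (GG A B)] [Nontrivial (GG A B)]
    (ζ : Measure Z)
    [ζ.IsAddHaarMeasure] (ν : Measure (GG A B)) [ν.IsAddHaarMeasure]
    (hA : Function.Injective A) {γ ε μ' : ℝ} (z : Y × Z)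
    (hr : (coA A B eY eZ hA z).2.1 ≠ 0) :
    PsiA2 A B eY eZ ζ hA γ ε μ' z = PsiN ν γ ε μ' (CJ A B hA)
      (iota A B (coA A B eY eZ hA z).1) (coA A B eY eZ hA z).2.1 (coA A B eY eZ hA z).2.2 := by
  unfold PsiA2 PsiN
  rw [KA_eq A B eY eZ ζ ν hA z hr]
  rfl

theorem geo_main2 (υ : Measure Y) [υ.IsAddHaarMeasure] (ζ : Measure Z)
    [ζ.IsAddHaarMeasure] (κ : Measure P) [κ.IsAddHaarMeasure] (hA : Function.Injective A)
    (hB : B ≠ 0) (h1 : finrank ℝ P < finrank ℝ E1) (h2 : 0 < finrank ℝ E2)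
    {p1 : ℝ} (hp1 : 0 ≤ p1) {p γ δ : ℝ}
    (hp : p = p1 + ((finrank ℝ E1 : ℝ) - finrank ℝ P) / 2)
    (hγ : γ = p + (finrank ℝ E2 : ℝ) / 2) (hδ : δ < γ) :
    ∃ ε : ℝ, 0 < ε ∧ ε ≤ 1 / 2 ∧ ∃ μ0 : ℝ, 0 < μ0 ∧ ∀ μ' : ℝ, 0 < μ' → μ' ≤ μ0 →
      (∃ cu : ℝ, ∀ᵐ z ∂(υ.prod ζ), PsiA2 A B eY eZ ζ hA γ ε μ' z ≤ cu) ∧
      ∀ (β0 : P) (v cst : ℝ) (ω : Y × Z → ℝ), 0 < v → 0 < cst →
      (∀ z, ω z = cst * (Real.exp (-‖iota A B ((coA A B eY eZ hA z).1 - β0)‖ ^ 2 / (2 * v)) *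
        (Phi v δ (TA A B eY eZ hA z) * (‖(coA A B eY eZ hA z).2.1‖ ^ 2) ^ p1))) →
      Integrable (fun z => ω z * PsiA2 A B eY eZ ζ hA γ ε μ' z) (υ.prod ζ) ∧
      0 < ∫ z, ω z * PsiA2 A B eY eZ ζ hA γ ε μ' z ∂(υ.prod ζ) := by
  have hfK : finrank ℝ ((LinearMap.range A)ᗮ : Submodule ℝ E1) = finrank ℝ E1 - finrank ℝ P := by
    have h3 : finrank ℝ (LinearMap.range A) = finrank ℝ P := LinearMap.finrank_range_of_inj hA
    have h4 := Submodule.finrank_add_finrank_orthogonal (LinearMap.range A)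
    omega
  have hfG : finrank ℝ (GG A B) = finrank ℝ E2 := finrank_GG A B hA
  have hntK : Nontrivial ((LinearMap.range A)ᗮ : Submodule ℝ E1) := by
    apply nontrivial_of_finrank_pos (R := ℝ)
    rw [hfK]
    omega
  have hntG : Nontrivial (GG A B) := by
    apply nontrivial_of_finrank_pos (R := ℝ)
    rw [hfG]
    exact h2
  letI : MeasurableSpace ((LinearMap.range A)ᗮ : Submodule ℝ E1) := borel _
  haveI : BorelSpace ((LinearMap.range A)ᗮ : Submodule ℝ E1) := ⟨rfl⟩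
  letI : MeasurableSpace (GG A B) := borel _
  haveI : BorelSpace (GG A B) := ⟨rfl⟩
  have hp' : p = p1 + (finrank ℝ ((LinearMap.range A)ᗮ : Submodule ℝ E1) : ℝ) / 2 := by
    rw [hfK, Nat.cast_sub h1.le, hp]
  have hγ' : γ = p1 + (finrank ℝ ((LinearMap.range A)ᗮ : Submodule ℝ E1) : ℝ) / 2 +
      (finrank ℝ (GG A B) : ℝ) / 2 := by
    rw [← hp', hfG, hγ]
  let L : (P × ((LinearMap.range A)ᗮ : Submodule ℝ E1) × GG A B) ≃L[ℝ] (Y × Z) :=
    (coA A B eY eZ hA).symm.toContinuousLinearEquiv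
  have hL : ∀ w, coA A B eY eZ hA (L w) = w := fun w => (coA A B eY eZ hA).apply_symm_apply w
  let μR : Measure ((LinearMap.range A)ᗮ : Submodule ℝ E1) := Measure.addHaar
  let ν : Measure (GG A B) := Measure.addHaar
  obtain ⟨ε, hε0, hε1, μ0, hμ0, htot⟩ := psi_total κ μR ν hp1 hγ' hδ (iota A B)
    (iota_injective _ _ hA) (CJ A B hA) (CJ_ne_zero A B hA hB)
  obtain ⟨c, hc, hchart⟩ := abs_chart κ μR ν υ ζ L
  refine ⟨ε, hε0, hε1, μ0, hμ0, ?_⟩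
  intro μ' hμ' hμle
  obtain ⟨⟨cu, c', hb⟩, hmain⟩ := htot μ' hμ' hμle
  have hr_ae : ∀ᵐ w : P × ((LinearMap.range A)ᗮ : Submodule ℝ E1) × GG A B
      ∂(κ.prod (μR.prod ν)), w.2.1 ≠ 0 := by
    have h1 : ∀ᵐ x : ((LinearMap.range A)ᗮ : Submodule ℝ E1) × GG A B ∂(μR.prod ν), x.1 ≠ 0 :=
      Measure.quasiMeasurePreserving_fst.ae (ae_ne_zero μR)
    exact Measure.quasiMeasurePreserving_snd.ae h1
  have hg_ae : ∀ᵐ w : P × ((LinearMap.range A)ᗮ : Submodule ℝ E1) × GG A B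
      ∂(κ.prod (μR.prod ν)), w.2.2 ≠ 0 := by
    have h1 : ∀ᵐ x : ((LinearMap.range A)ᗮ : Submodule ℝ E1) × GG A B ∂(μR.prod ν), x.2 ≠ 0 :=
      Measure.quasiMeasurePreserving_snd.ae (ae_ne_zero ν)
    exact Measure.quasiMeasurePreserving_snd.ae h1
  have hΨ : ∀ᵐ w ∂(κ.prod (μR.prod ν)), PsiA2 A B eY eZ ζ hA γ ε μ' (L w) =
      PsiN ν γ ε μ' (CJ A B hA) (iota A B w.1) w.2.1 w.2.2 := by
    filter_upwards [hr_ae] with w hw
    have h3 := PsiA2_eq A B eY eZ ζ ν hA (γ := γ) (ε := ε) (μ' := μ') (L w)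
      (by rw [hL]; exact hw)
    rw [hL] at h3
    exact h3
  refine ⟨⟨cu, ?_⟩, ?_⟩
  · have hHaar1 : (μR.prod ν).IsAddHaarMeasure := Measure.prod.instIsAddHaarMeasure μR ν
    have hHaar2 : (κ.prod (μR.prod ν)).IsAddHaarMeasure :=
      Measure.prod.instIsAddHaarMeasure κ (μR.prod ν)
    have hHaar3 : (υ.prod ζ).IsAddHaarMeasure := Measure.prod.instIsAddHaarMeasure υ ζ
    apply haar_ae L (κ.prod (μR.prod ν)) (υ.prod ζ)
    filter_upwards [hΨ, hr_ae, hg_ae] with w h3 h4 h5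
    rw [h3]
    exact (hb (iota A B w.1) w.2.1 w.2.2 h4 h5).1
  · intro β0 v cst ω hv hcst hω
    obtain ⟨i1, i2⟩ := hmain β0 v hv
    have hae : (fun w => ω (L w) * PsiA2 A B eY eZ ζ hA γ ε μ' (L w)) =ᵐ[κ.prod (μR.prod ν)]
        (fun w => cst * (Real.exp (-‖iota A B (w.1 - β0)‖ ^ 2 / (2 * v)) *
        (Phi v δ (‖w.2.1‖ ^ 2 + ‖w.2.2‖ ^ 2) * (‖w.2.1‖ ^ 2) ^ p1) *
          PsiN ν γ ε μ' (CJ A B hA) (iota A B w.1) w.2.1 w.2.2)) := by
      filter_upwards [hΨ] with w hw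
      rw [hw, hω]
      unfold TA
      rw [hL]
      ring
    have i3 := (i1.const_mul cst).congr hae.symm
    have i4 := (hchart (fun z => ω z * PsiA2 A B eY eZ ζ hA γ ε μ' z))
    refine ⟨i4.1.mpr i3, ?_⟩
    rw [i4.2, integral_congr_ae hae, integral_const_mul]
    exact mul_pos hc (mul_pos hcst i2)

end

end MP4845
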