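import Mathlib
import Pool.Agent.Lib.MP_4845bf_pr.Defs

/-!
Definitions for the generalized Bayes question: the mixture prior, and when a prior density gives
a proper posterior.
-/

namespace MP4845

open MeasureTheory

variable {n k m : ℕ} (X : Matrix (Fin n) (Fin k) ℝ) (Xt : Matrix (Fin m) (Fin k) ℝ)

/-- Scale mixture of normals prior: the density, at `(β, v)`, of the improper prior
`v^(-1-μ) ∫_0^∞ x^(μ-1) (1+x)^(k/2-μ-a) (1+(1-ε)x)^(-k/2) exp(-(εx/(1+(1-ε)x)) q(β)/(2v)) dx`,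
where `q(β) = |Xβ|² + ((1-α)/2) |X̃β|²` and `a = (n + m(1-α)/2 - k)/2`. -/
noncomputable def mixPrior (α ε μ : ℝ) (β : Fin k → ℝ) (v : ℝ) : ℝ :=
  v ^ (-1 - μ) * ∫ x in Set.Ioi (0 : ℝ),
    x ^ (μ - 1) * (1 + x) ^ ((k : ℝ) / 2 - μ - ((n : ℝ) + m * ((1 - α) / 2) - k) / 2) *
      (1 + (1 - ε) * x) ^ (-(k : ℝ) / 2) *
      Real.exp (-(ε * x / (1 + (1 - ε) * x)) *
        ((∑ i, (X.mulVec β i) ^ 2) + (1 - α) / 2 * ∑ j, (Xt.mulVec β j) ^ 2) / (2 * v))

/-- The prior density `π` is regular for the problem: it is measurable and positive, and for almost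
every observation `y` the formal posterior is proper (`(β, v) ↦ p(y | β, v) π(β, v)` is integrable
over `ℝ^k × (0, ∞)`) and all the integrals `∫ p(x | ψ)^((1-α)/2) p(y | ψ) π(ψ) dψ` converge. -/
structure RegularPrior (α : ℝ) (π : (Fin k → ℝ) → ℝ → ℝ) : Prop where
  measurable : Measurable (fun p : (Fin k → ℝ) × ℝ => π p.1 p.2)
  pos : ∀ β v, 0 < v → 0 < π β v
  posterior : ∀ᵐ y : Fin n → ℝ, Integrable (fun p : (Fin k → ℝ) × ℝ =>
    normalPDF (X.mulVec p.1) p.2 y * π p.1 p.2) (volume.prod (volume.restrict (Set.Ioi (0 : ℝ))))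
  kernel : ∀ᵐ y : Fin n → ℝ, ∀ x : Fin m → ℝ, Integrable (fun p : (Fin k → ℝ) × ℝ =>
    normalPDF (Xt.mulVec p.1) p.2 x ^ ((1 - α) / 2) *
      (normalPDF (X.mulVec p.1) p.2 y * π p.1 p.2))
    (volume.prod (volume.restrict (Set.Ioi (0 : ℝ))))

end MP4845
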