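import Mathlib
import Pool.Agent.Lib.MP_4845bf_pr.Bayes
import Pool.Agent.Lib.MP_4845bf_pr.Q2Defs

/-!
The mixture prior and its Bayes integral (Q2).
-/

set_option linter.unusedSectionVars false
set_option linter.unnecessarySimpa false

namespace MP4845

open MeasureTheory Module Set Filter Topology WithLp
open scoped InnerProductSpace

lemma integrableOn_betaTwo {a μ : ℝ} (hμ : 0 < μ) (ha : 0 < a) :
    IntegrableOn (fun x : ℝ => x ^ (μ - 1) * (1 + x) ^ (-(a + μ))) (Ioi 0) := by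
  have hm : AEStronglyMeasurable (fun y : ℝ => y ^ (μ - 1) * (1 + y) ^ (-(a + μ)))
      (volume : Measure ℝ) := by
    apply Measurable.aestronglyMeasurable
    exact (measurable_id.pow_const _).mul
      ((by fun_prop : Measurable fun y : ℝ => 1 + y).pow_const _)
  have h1 : IntegrableOn (fun y : ℝ => y ^ (μ - 1) * (1 + y) ^ (-(a + μ))) (Ioc 0 1) := by
    have h2 : IntegrableOn (fun y : ℝ => y ^ (μ - 1)) (Ioc 0 1) := by
      have := intervalIntegral.intervalIntegrable_rpow' (a := 0) (b := 1) (r := μ - 1)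
        (by linarith)
      rwa [intervalIntegrable_iff_integrableOn_Ioc_of_le zero_le_one] at this
    refine Integrable.mono' h2 hm.restrict ?_
    filter_upwards [ae_restrict_mem measurableSet_Ioc] with y hy
    have hy0 : 0 < y := hy.1
    rw [Real.norm_of_nonneg (by positivity)]
    have h3 : (1 + y) ^ (-(a + μ)) ≤ 1 :=
      Real.rpow_le_one_of_one_le_of_nonpos (by linarith) (by linarith)
    have h4 : 0 ≤ y ^ (μ - 1) := by positivity
    nlinarith
  have h2 : IntegrableOn (fun y : ℝ => y ^ (μ - 1) * (1 + y) ^ (-(a + μ))) (Ioi 1) := by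
    have h3 : IntegrableOn (fun y : ℝ => y ^ (-1 - a)) (Ioi 1) :=
      integrableOn_Ioi_rpow_of_lt (by linarith) one_pos
    refine Integrable.mono' h3 hm.restrict ?_
    filter_upwards [ae_restrict_mem measurableSet_Ioi] with y hy
    have hy1 : (1:ℝ) < y := hy
    have hy0 : 0 < y := by linarith
    have h6 : y ^ (-1 - a) = y ^ (μ - 1) * y ^ (-(a + μ)) := by
      rw [← Real.rpow_add hy0]
      congr 1
      ring
    rw [Real.norm_of_nonneg (by positivity), h6]
    have h4 : (1 + y) ^ (-(a + μ)) ≤ y ^ (-(a + μ)) :=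
      Real.rpow_le_rpow_of_nonpos hy0 (by linarith) (by linarith)
    gcongr
  have h3 : Ioi (0:ℝ) = Ioc 0 1 ∪ Ioi 1 := (Ioc_union_Ioi_eq_Ioi zero_le_one).symm
  rw [h3]
  exact h1.union h2

lemma betaTwo_pos {a μ : ℝ} (hμ : 0 < μ) (ha : 0 < a) :
    0 < ∫ x in Ioi (0:ℝ), x ^ (μ - 1) * (1 + x) ^ (-(a + μ)) := by
  rw [setIntegral_pos_iff_support_of_nonneg_ae _ (integrableOn_betaTwo hμ ha)]
  · have hs : (Ioi (0:ℝ)) ⊆ Function.support
        (fun x : ℝ => x ^ (μ - 1) * (1 + x) ^ (-(a + μ))) ∩ Ioi 0 := by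
      intro u hu
      have hu0 : (0:ℝ) < u := hu
      refine ⟨?_, hu⟩
      rw [Function.mem_support]
      positivity
    refine lt_of_lt_of_le ?_ (measure_mono hs)
    simp
  · filter_upwards [ae_restrict_mem measurableSet_Ioi] with u hu
    have hu0 : (0:ℝ) < u := hu
    simp only [Pi.zero_apply]
    positivity

lemma betaTwo_scale {a μ A D : ℝ} (hA : 0 < A) (hD : 0 < D) :
    ∫ x in Ioi (0:ℝ), x ^ (μ - 1) * (A + D * x) ^ (-(a + μ)) =
      A ^ (-a) * D ^ (-μ) * ∫ x in Ioi (0:ℝ), x ^ (μ - 1) * (1 + x) ^ (-(a + μ)) := by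
  have hb : 0 < A / D := by positivity
  have h1 := integral_comp_mul_left_Ioi
    (fun x : ℝ => x ^ (μ - 1) * (A + D * x) ^ (-(a + μ))) 0 hb
  rw [mul_zero] at h1
  have h2 : ∫ x in Ioi (0:ℝ), ((A / D) * x) ^ (μ - 1) * (A + D * ((A / D) * x)) ^ (-(a + μ)) =
      (A / D) ^ (μ - 1) * A ^ (-(a + μ)) *
        ∫ x in Ioi (0:ℝ), x ^ (μ - 1) * (1 + x) ^ (-(a + μ)) := by
    rw [← integral_const_mul]
    apply setIntegral_congr_fun measurableSet_Ioi
    intro x hx
    have hx0 : (0:ℝ) < x := hx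
    simp only
    have e1 : A + D * ((A / D) * x) = A * (1 + x) := by field_simp
    rw [e1, Real.mul_rpow hb.le hx0.le, Real.mul_rpow hA.le (by positivity)]
    ring
  rw [h2, smul_eq_mul] at h1
  set I := ∫ x in Ioi (0:ℝ), x ^ (μ - 1) * (1 + x) ^ (-(a + μ))
  have h3 : ∫ x in Ioi (0:ℝ), x ^ (μ - 1) * (A + D * x) ^ (-(a + μ)) =
      (A / D) * ((A / D) ^ (μ - 1) * A ^ (-(a + μ)) * I) := by
    rw [h1]
    field_simp
  rw [h3, Real.rpow_sub_one hb.ne', Real.div_rpow hA.le hD.le]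
  have e2 : A ^ (-a) = A ^ μ * A ^ (-(a + μ)) := by
    rw [← Real.rpow_add hA]
    congr 1
    ring
  rw [e2, Real.rpow_neg hD.le]
  have h4 : 0 < D ^ μ := Real.rpow_pos_of_pos hD _
  field_simp

/-- the integral over the scale `v` and the mixing variable -/
lemma mix_v {a μ ε T B : ℝ} (hμ : 0 < μ) (ha : 0 < a) (hε : 0 ≤ ε) (hT : 0 < T) (hB : 0 ≤ B) :
    ∫ v in Ioi (0:ℝ), v ^ (-(a + μ) - 1) * Real.exp (-(T / (2 * v))) *
      (∫ x in Ioi (0:ℝ), x ^ (μ - 1) * (1 + x) ^ (-(a + μ)) *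
        Real.exp (-(ε * x / (1 + x)) * B / (2 * v))) =
      (∫ u in Ioi (0:ℝ), u ^ (-(a + μ) - 1) * Real.exp (-(1 / (2 * u)))) *
        (∫ x in Ioi (0:ℝ), x ^ (μ - 1) * (1 + x) ^ (-(a + μ))) *
        (T ^ (-a) * (T + ε * B) ^ (-μ)) := by
  have ham : 0 < a + μ := by linarith
  set I1 := ∫ u in Ioi (0:ℝ), u ^ (-(a + μ) - 1) * Real.exp (-(1 / (2 * u))) with hI1
  have hv_int : IntegrableOn (fun v : ℝ => v ^ (-(a + μ) - 1) * Real.exp (-(T / (2 * v))))
      (Ioi 0) := by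
    have h1 := integrableOn_invgamma ham
    have h2 := integrableOn_Ioi_comp_mul_left_iff
      (fun v : ℝ => v ^ (-(a + μ) - 1) * Real.exp (-(T / (2 * v)))) 0 hT
    rw [mul_zero] at h2
    rw [← h2]
    have h3 : IntegrableOn (fun u : ℝ => T ^ (-(a + μ) - 1) *
        (u ^ (-(a + μ) - 1) * Real.exp (-(1 / (2 * u))))) (Ioi 0) :=
      h1.const_mul (T ^ (-(a + μ) - 1))
    refine h3.congr_fun ?_ measurableSet_Ioi
    intro x hx
    have hx0 : (0:ℝ) < x := hx
    simp only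
    rw [Real.mul_rpow hT.le hx0.le]
    have : T / (2 * (T * x)) = 1 / (2 * x) := by field_simp
    rw [this]
    ring
  have hx_int := integrableOn_betaTwo hμ ha
  -- the two variable function
  let F : ℝ → ℝ → ℝ := fun v x => (v ^ (-(a + μ) - 1) * Real.exp (-(T / (2 * v)))) *
    (x ^ (μ - 1) * (1 + x) ^ (-(a + μ)) * Real.exp (-(ε * x / (1 + x)) * B / (2 * v)))
  have hFint : Integrable (Function.uncurry F)
      ((volume.restrict (Ioi (0:ℝ))).prod (volume.restrict (Ioi (0:ℝ)))) := by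
    refine (hv_int.mul_prod hx_int).mono' ?_ ?_
    · apply Measurable.aestronglyMeasurable
      have m1 : Measurable (fun p : ℝ × ℝ => p.1 ^ (-(a + μ) - 1)) := measurable_fst.pow_const _
      have m2 : Measurable (fun p : ℝ × ℝ => p.2 ^ (μ - 1)) := measurable_snd.pow_const _
      have m3 : Measurable (fun p : ℝ × ℝ => (1 + p.2) ^ (-(a + μ))) :=
        (measurable_const.add measurable_snd).pow_const _
      have m4 : Measurable (fun p : ℝ × ℝ => Real.exp (-(T / (2 * p.1)))) := by fun_prop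
      have m5 : Measurable (fun p : ℝ × ℝ =>
        Real.exp (-(ε * p.2 / (1 + p.2)) * B / (2 * p.1))) := by fun_prop
      exact (m1.mul m4).mul ((m2.mul m3).mul m5)
    · rw [Measure.prod_restrict]
      filter_upwards [ae_restrict_mem (measurableSet_Ioi.prod measurableSet_Ioi)] with p hp
      obtain ⟨v, x⟩ := p
      have hv : (0:ℝ) < v := hp.1
      have hx : (0:ℝ) < x := hp.2
      simp only [Function.uncurry, F]
      rw [Real.norm_of_nonneg (by positivity)]
      have h1 : Real.exp (-(ε * x / (1 + x)) * B / (2 * v)) ≤ 1 := by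
        apply Real.exp_le_one_iff.mpr
        have : 0 ≤ ε * x / (1 + x) * B / (2 * v) := by positivity
        have e1 : -(ε * x / (1 + x)) * B / (2 * v) = -(ε * x / (1 + x) * B / (2 * v)) := by ring
        rw [e1]
        linarith
      have h2 : 0 ≤ v ^ (-(a + μ) - 1) * Real.exp (-(T / (2 * v))) := by positivity
      have h3 : 0 ≤ x ^ (μ - 1) * (1 + x) ^ (-(a + μ)) := by positivity
      apply mul_le_mul_of_nonneg_left _ h2
      nlinarith
  have hswap := integral_integral_swap hFint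
  have e1 : ∫ v in Ioi (0:ℝ), v ^ (-(a + μ) - 1) * Real.exp (-(T / (2 * v))) *
      (∫ x in Ioi (0:ℝ), x ^ (μ - 1) * (1 + x) ^ (-(a + μ)) *
        Real.exp (-(ε * x / (1 + x)) * B / (2 * v))) =
      ∫ v in Ioi (0:ℝ), ∫ x in Ioi (0:ℝ), F v x := by
    congr 1
    ext v
    simp only [F]
    rw [integral_const_mul]
  rw [e1, hswap]
  have e2 : ∫ x in Ioi (0:ℝ), ∫ v in Ioi (0:ℝ), F v x =
      ∫ x in Ioi (0:ℝ), I1 * (x ^ (μ - 1) * (T + (T + ε * B) * x) ^ (-(a + μ))) := by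
    apply setIntegral_congr_fun measurableSet_Ioi
    intro x hx
    have hx0 : (0:ℝ) < x := hx
    have hwB : 0 ≤ ε * x / (1 + x) * B := by positivity
    simp only
    have e3 : ∀ v ∈ Ioi (0:ℝ), F v x = (x ^ (μ - 1) * (1 + x) ^ (-(a + μ))) *
        (v ^ (-(a + μ) - 1) * Real.exp (-((T + ε * x / (1 + x) * B) / (2 * v)))) := by
      intro v hv
      have hv0 : (0:ℝ) < v := hv
      simp only [F]
      have e4 : Real.exp (-((T + ε * x / (1 + x) * B) / (2 * v))) =
          Real.exp (-(T / (2 * v))) * Real.exp (-(ε * x / (1 + x)) * B / (2 * v)) := by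
        rw [← Real.exp_add]
        congr 1
        field_simp
        ring
      rw [e4]
      ring
    rw [setIntegral_congr_fun measurableSet_Ioi e3, integral_const_mul,
      invgamma_scale (by linarith : 0 < T + ε * x / (1 + x) * B), ← hI1]
    have e5 : T + ε * x / (1 + x) * B = (T + (T + ε * B) * x) / (1 + x) := by
      field_simp
      ring
    have h1x : 0 < 1 + x := by linarith
    have hnum : 0 < T + (T + ε * B) * x := by positivity
    rw [e5, Real.div_rpow hnum.le h1x.le]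
    have h5 : 0 < (1 + x) ^ (-(a + μ)) := Real.rpow_pos_of_pos h1x _
    field_simp
  rw [e2, integral_const_mul, betaTwo_scale hT (by positivity)]
  ring

section

variable {P F : Type*} [NormedAddCommGroup P] [NormedSpace ℝ P] [FiniteDimensional ℝ P]
  [MeasurableSpace P] [BorelSpace P] [Nontrivial P] [NormedAddCommGroup F] [InnerProductSpace ℝ F]

lemma complete_square (J : P →ₗ[ℝ] F) (b β : P) {κ : ℝ} (hκ : 0 ≤ κ) :
    ‖J (b - β)‖ ^ 2 + κ * ‖J β‖ ^ 2 =
      (1 + κ) * ‖J ((1 + κ)⁻¹ • b - β)‖ ^ 2 + κ / (1 + κ) * ‖J b‖ ^ 2 := by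
  have h1 : 0 < 1 + κ := by linarith
  rw [map_sub, map_sub, map_smul, norm_sub_sq_real, norm_sub_sq_real, norm_smul,
    real_inner_smul_left, Real.norm_of_nonneg (by positivity)]
  field_simp
  ring

/-- mixture over the precision of the location -/
lemma gauss_mix (κP : Measure P) [κP.IsAddHaarMeasure] (J : P →ₗ[ℝ] F)
    (hJ : Function.Injective J) (b : P) {v : ℝ} (hv : 0 < v) (g κ : ℝ → ℝ)
    (hgm : Measurable g) (hκm : Measurable κ) (hg0 : ∀ x ∈ Ioi (0:ℝ), 0 ≤ g x)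
    (hκ0 : ∀ x ∈ Ioi (0:ℝ), 0 ≤ κ x) (hgi : IntegrableOn g (Ioi 0)) :
    ∫ β, Real.exp (-‖J (b - β)‖ ^ 2 / (2 * v)) *
      (∫ x in Ioi (0:ℝ), g x * Real.exp (-κ x * ‖J β‖ ^ 2 / (2 * v))) ∂κP =
    v ^ ((finrank ℝ P : ℝ) / 2) * (∫ β, Real.exp (-‖J β‖ ^ 2 / 2) ∂κP) *
      ∫ x in Ioi (0:ℝ), g x * (1 + κ x) ^ (-(finrank ℝ P : ℝ) / 2) *
        Real.exp (-(κ x / (1 + κ x)) * ‖J b‖ ^ 2 / (2 * v)) := by
  have hJc : Continuous J := J.continuous_of_finiteDimensional
  have hgauss : Integrable (fun β : P => Real.exp (-‖J (b - β)‖ ^ 2 / (2 * v))) κP := by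
    have := integrable_gauss_inj κP J hJ b (c := 1 / (2 * v)) (by positivity)
    refine this.congr ?_
    filter_upwards with β
    have h1 : ‖J (β - b)‖ = ‖J (b - β)‖ := by
      rw [← neg_sub b β, map_neg, norm_neg]
    rw [h1]
    congr 1
    ring
  let G : P → ℝ → ℝ := fun β x => Real.exp (-‖J (b - β)‖ ^ 2 / (2 * v)) *
    (g x * Real.exp (-κ x * ‖J β‖ ^ 2 / (2 * v)))
  have hGint : Integrable (Function.uncurry G) (κP.prod (volume.restrict (Ioi (0:ℝ)))) := by
    refine (hgauss.mul_prod hgi).mono' ?_ ?_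
    · apply Measurable.aestronglyMeasurable
      have m1 : Measurable (fun p : P × ℝ => ‖J (b - p.1)‖ ^ 2) :=
        ((hJc.comp (continuous_const.sub continuous_fst)).norm.pow 2).measurable
      have m2 : Measurable (fun p : P × ℝ => ‖J p.1‖ ^ 2) :=
        ((hJc.comp continuous_fst).norm.pow 2).measurable
      have m3 : Measurable (fun p : P × ℝ => g p.2) := hgm.comp measurable_snd
      have m4 : Measurable (fun p : P × ℝ => κ p.2) := hκm.comp measurable_snd
      exact ((m1.neg.div_const _).exp).mul (m3.mul (((m4.neg.mul m2).div_const _).exp))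
    · have hmem : ∀ᵐ p : P × ℝ ∂(κP.prod (volume.restrict (Ioi (0:ℝ)))), p.2 ∈ Ioi (0:ℝ) :=
        Measure.quasiMeasurePreserving_snd.ae (ae_restrict_mem measurableSet_Ioi)
      filter_upwards [hmem] with p hp
      obtain ⟨β, x⟩ := p
      simp only at hp
      have h1 := hg0 x hp
      have h2 := hκ0 x hp
      simp only [Function.uncurry, G]
      rw [Real.norm_of_nonneg (by positivity)]
      apply mul_le_mul_of_nonneg_left _ (Real.exp_pos _).le
      have h3 : Real.exp (-κ x * ‖J β‖ ^ 2 / (2 * v)) ≤ 1 := by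
        apply Real.exp_le_one_iff.mpr
        have h4 : 0 ≤ κ x * ‖J β‖ ^ 2 / (2 * v) := by positivity
        have e1 : -κ x * ‖J β‖ ^ 2 / (2 * v) = -(κ x * ‖J β‖ ^ 2 / (2 * v)) := by ring
        rw [e1]
        linarith
      nlinarith
  have hswap := integral_integral_swap hGint
  have e1 : ∫ β, Real.exp (-‖J (b - β)‖ ^ 2 / (2 * v)) *
      (∫ x in Ioi (0:ℝ), g x * Real.exp (-κ x * ‖J β‖ ^ 2 / (2 * v))) ∂κP =
      ∫ β, (∫ x in Ioi (0:ℝ), G β x) ∂κP := by
    congr 1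
    ext β
    simp only [G]
    rw [integral_const_mul]
  rw [e1, hswap, ← integral_const_mul]
  apply setIntegral_congr_fun measurableSet_Ioi
  intro x hx
  have hκx := hκ0 x hx
  have h1 : 0 < 1 + κ x := by linarith
  simp only [G]
  have e2 : ∀ β, Real.exp (-‖J (b - β)‖ ^ 2 / (2 * v)) *
      (g x * Real.exp (-κ x * ‖J β‖ ^ 2 / (2 * v))) =
      (g x * Real.exp (-(κ x / (1 + κ x)) * ‖J b‖ ^ 2 / (2 * v))) *
        Real.exp (-‖J ((1 + κ x)⁻¹ • b - β)‖ ^ 2 / (2 * (v / (1 + κ x)))) := by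
    intro β
    have h2 := complete_square J b β hκx
    have h3 : Real.exp (-‖J (b - β)‖ ^ 2 / (2 * v)) * Real.exp (-κ x * ‖J β‖ ^ 2 / (2 * v)) =
        Real.exp (-(κ x / (1 + κ x)) * ‖J b‖ ^ 2 / (2 * v)) *
          Real.exp (-‖J ((1 + κ x)⁻¹ • b - β)‖ ^ 2 / (2 * (v / (1 + κ x)))) := by
      rw [← Real.exp_add, ← Real.exp_add]
      congr 1
      have h4 : -‖J (b - β)‖ ^ 2 / (2 * v) + -κ x * ‖J β‖ ^ 2 / (2 * v) =
          -(‖J (b - β)‖ ^ 2 + κ x * ‖J β‖ ^ 2) / (2 * v) := by ring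
      rw [h4, h2]
      field_simp
      ring
    calc Real.exp (-‖J (b - β)‖ ^ 2 / (2 * v)) *
        (g x * Real.exp (-κ x * ‖J β‖ ^ 2 / (2 * v))) =
        g x * (Real.exp (-‖J (b - β)‖ ^ 2 / (2 * v)) *
          Real.exp (-κ x * ‖J β‖ ^ 2 / (2 * v))) := by ring
      _ = _ := by rw [h3]; ring
  simp_rw [e2]
  rw [integral_const_mul, gauss_beta κP J ((1 + κ x)⁻¹ • b) (by positivity : 0 < v / (1 + κ x)),
    Real.div_rpow hv.le h1.le]
  have h5 : (1 + κ x) ^ (-(finrank ℝ P : ℝ) / 2) = ((1 + κ x) ^ ((finrank ℝ P : ℝ) / 2))⁻¹ := by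
    rw [← Real.rpow_neg h1.le]
    congr 1
    ring
  rw [h5]
  ring

end

end MP4845
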