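import Mathlib
import Pool.Agent.Lib.MP_4845bf_pr.Q2Prior
import Pool.Agent.Lib.MP_4845bf_pr.Q2Geo
import Pool.Agent.Lib.MP_4845bf_pr.Final

/-!
The Bayes integral of the mixture prior (Q2).
-/

set_option linter.unusedSectionVars false
set_option linter.unnecessarySimpa false

namespace MP4845

open MeasureTheory Module Set Filter Topology WithLp
open scoped InnerProductSpace

section

variable {n k m : ℕ} (X : Matrix (Fin n) (Fin k) ℝ) (Xt : Matrix (Fin m) (Fin k) ℝ) (bp : ℝ)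
  (hbp : 0 < bp) (hA : Function.Injective (AA X))

/-- the mixing density -/
noncomputable def gmix (k : ℕ) (a ε μ x : ℝ) : ℝ :=
  x ^ (μ - 1) * (1 + x) ^ ((k : ℝ) / 2 - μ - a) * (1 + (1 - ε) * x) ^ (-(k : ℝ) / 2)

/-- the mixing precision -/
noncomputable def kmix (ε x : ℝ) : ℝ := ε * x / (1 + (1 - ε) * x)

lemma measurable_gmix (k : ℕ) (a ε μ : ℝ) : Measurable (gmix k a ε μ) := by
  unfold gmix
  have m1 : Measurable (fun x : ℝ => x ^ (μ - 1)) := measurable_id.pow_const _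
  have m2 : Measurable (fun x : ℝ => (1 + x) ^ ((k : ℝ) / 2 - μ - a)) :=
    (measurable_const.add measurable_id).pow_const _
  have m3 : Measurable (fun x : ℝ => (1 + (1 - ε) * x) ^ (-(k : ℝ) / 2)) :=
    (measurable_const.add (measurable_const.mul measurable_id)).pow_const _
  exact (m1.mul m2).mul m3

lemma measurable_kmix (ε : ℝ) : Measurable (kmix ε) := by
  unfold kmix
  exact (measurable_const.mul measurable_id).div
    (measurable_const.add (measurable_const.mul measurable_id))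

lemma gmix_nonneg (k : ℕ) {a ε μ x : ℝ} (hε1 : ε < 1) (hx : 0 < x) : 0 ≤ gmix k a ε μ x := by
  unfold gmix
  have : 0 < 1 - ε := by linarith
  positivity

lemma gmix_pos (k : ℕ) {a ε μ x : ℝ} (hε1 : ε < 1) (hx : 0 < x) : 0 < gmix k a ε μ x := by
  unfold gmix
  have : 0 < 1 - ε := by linarith
  positivity

lemma kmix_nonneg {ε x : ℝ} (hε : 0 ≤ ε) (hε1 : ε < 1) (hx : 0 < x) : 0 ≤ kmix ε x := by
  unfold kmix
  have : 0 < 1 - ε := by linarith
  positivity

lemma integrableOn_gmix (k : ℕ) {a ε μ : ℝ} (_hε : 0 ≤ ε) (hε1 : ε < 1) (hμ : 0 < μ) (ha : 0 < a) :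
    IntegrableOn (gmix k a ε μ) (Ioi 0) := by
  have h1 := integrableOn_betaTwo (a := a) hμ ha
  have h2 : IntegrableOn (fun x : ℝ => (1 - ε) ^ (-(k : ℝ) / 2) *
      (x ^ (μ - 1) * (1 + x) ^ (-(a + μ)))) (Ioi 0) := h1.const_mul _
  refine Integrable.mono' h2 (measurable_gmix k a ε μ).aestronglyMeasurable ?_
  filter_upwards [ae_restrict_mem measurableSet_Ioi] with x hx
  have hx0 : (0:ℝ) < x := hx
  have h3 : 0 < 1 - ε := by linarith
  rw [Real.norm_of_nonneg (gmix_nonneg k hε1 hx0)]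
  unfold gmix
  have h4 : (1 - ε) * (1 + x) ≤ 1 + (1 - ε) * x := by nlinarith
  have h5 : (1 + (1 - ε) * x) ^ (-(k : ℝ) / 2) ≤ ((1 - ε) * (1 + x)) ^ (-(k : ℝ) / 2) := by
    apply Real.rpow_le_rpow_of_nonpos (by positivity) h4
    have : (0:ℝ) ≤ k := by positivity
    linarith
  have h6 : (1 + x) ^ (-(a + μ)) = (1 + x) ^ ((k : ℝ) / 2 - μ - a) * (1 + x) ^ (-(k : ℝ) / 2) := by
    rw [← Real.rpow_add (by positivity)]
    congr 1
    ring
  have h7 : 0 ≤ x ^ (μ - 1) * (1 + x) ^ ((k : ℝ) / 2 - μ - a) := by positivity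
  calc x ^ (μ - 1) * (1 + x) ^ ((k : ℝ) / 2 - μ - a) * (1 + (1 - ε) * x) ^ (-(k : ℝ) / 2)
      ≤ x ^ (μ - 1) * (1 + x) ^ ((k : ℝ) / 2 - μ - a) *
        ((1 - ε) * (1 + x)) ^ (-(k : ℝ) / 2) := mul_le_mul_of_nonneg_left h5 h7
    _ = _ := by
      rw [Real.mul_rpow h3.le (by positivity), h6]
      ring

lemma gmix_kmix (k : ℕ) {a ε μ x : ℝ} (_hε : 0 ≤ ε) (hε1 : ε < 1) (hx : 0 < x) :
    gmix k a ε μ x * (1 + kmix ε x) ^ (-(k : ℝ) / 2) = x ^ (μ - 1) * (1 + x) ^ (-(a + μ)) := by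
  have h3 : 0 < 1 - ε := by linarith
  have h1 : 0 < 1 + (1 - ε) * x := by positivity
  have h2 : 1 + kmix ε x = (1 + x) / (1 + (1 - ε) * x) := by
    unfold kmix
    field_simp
    ring
  rw [h2, Real.div_rpow (by positivity) h1.le]
  unfold gmix
  have h6 : (1 + x) ^ (-(a + μ)) = (1 + x) ^ ((k : ℝ) / 2 - μ - a) * (1 + x) ^ (-(k : ℝ) / 2) := by
    rw [← Real.rpow_add (by positivity)]
    congr 1
    ring
  rw [h6]
  have h7 : 0 < (1 + (1 - ε) * x) ^ (-(k : ℝ) / 2) := Real.rpow_pos_of_pos h1 _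
  field_simp

lemma kmix_ratio {ε x : ℝ} (_hε : 0 ≤ ε) (hε1 : ε < 1) (hx : 0 < x) :
    kmix ε x / (1 + kmix ε x) = ε * x / (1 + x) := by
  have h3 : 0 < 1 - ε := by linarith
  have h1 : 0 < 1 + (1 - ε) * x := by positivity
  have h2 : 1 + kmix ε x = (1 + x) / (1 + (1 - ε) * x) := by
    unfold kmix
    field_simp
    ring
  rw [h2]
  unfold kmix
  field_simp

/-- the quadratic form of the prior -/
lemma quad_eq (hbp : 0 < bp) (β : Fin k → ℝ) :
    (∑ i, (X.mulVec β i) ^ 2) + bp * ∑ j, (Xt.mulVec β j) ^ 2 =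
      ‖iota (AA X) (BB Xt bp) β‖ ^ 2 := by
  have h := norm_pte_sub X Xt bp hbp (0 : (Fin n → ℝ) × (Fin m → ℝ)) β
  rw [map_zero, zero_sub, norm_neg] at h
  rw [h]
  simp

lemma mixPrior_eq (hbp : 0 < bp) {α ε μ : ℝ} (hαbp : bp = (1 - α) / 2) (β : Fin k → ℝ) (v : ℝ) :
    mixPrior X Xt α ε μ β v = v ^ (-1 - μ) * ∫ x in Ioi (0:ℝ),
      gmix k (((n : ℝ) + m * bp - k) / 2) ε μ x *
        Real.exp (-kmix ε x * ‖iota (AA X) (BB Xt bp) β‖ ^ 2 / (2 * v)) := by
  unfold mixPrior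
  rw [← hαbp, quad_eq X Xt bp hbp β]
  rfl

include hbp hA in
/-- closed form of the Bayes integral for the mixture prior -/
lemma mixKernel_eq (hk : 0 < k) {α ε μ : ℝ} (hαbp : bp = (1 - α) / 2) (hε : 0 ≤ ε) (hε1 : ε < 1)
    (hμ : 0 < μ) (hq : 0 < ((n : ℝ) + m * bp - k) / 2) :
    ∃ K0 : ℝ, 0 < K0 ∧ ∀ y x, 0 < TT X Xt bp hbp hA (y, x) →
      bayesKernel X Xt α (mixPrior X Xt α ε μ) y x =
        K0 * (TT X Xt bp hbp hA (y, x) ^ (-(((n : ℝ) + m * bp - k) / 2)) *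
          (TT X Xt bp hbp hA (y, x) +
            ε * ‖iota (AA X) (BB Xt bp) (coe' X Xt bp hbp hA (y, x)).1‖ ^ 2) ^ (-μ)) := by
  have hpi := Real.pi_pos
  set q : ℝ := ((n : ℝ) + m * bp - k) / 2 with hqd
  have : Nonempty (Fin k) := ⟨⟨0, hk⟩⟩
  have hnt : Nontrivial (Fin k → ℝ) := inferInstance
  set J := iota (AA X) (BB Xt bp) with hJ
  have hJinj : Function.Injective J := iota_injective _ _ hA
  set I0 := ∫ β : Fin k → ℝ, Real.exp (-‖J β‖ ^ 2 / 2) with hI0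
  have hI0int : Integrable (fun β : Fin k → ℝ => Real.exp (-‖J β‖ ^ 2 / 2)) := by
    have := integrable_gauss_inj (volume : Measure (Fin k → ℝ)) J hJinj 0 (c := 1 / 2)
      (by norm_num)
    refine this.congr ?_
    filter_upwards with β
    rw [sub_zero]
    congr 1
    ring
  have hI0pos : 0 < I0 := by
    rw [hI0, integral_pos_iff_support_of_nonneg (fun β => (Real.exp_pos _).le) hI0int]
    have hs : Function.support (fun β : Fin k → ℝ => Real.exp (-‖J β‖ ^ 2 / 2)) = univ := by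
      ext β
      simp only [Function.mem_support, mem_univ, iff_true]
      exact (Real.exp_pos _).ne'
    rw [hs]
    exact isOpen_univ.measure_pos _ univ_nonempty
  have hI1 := invgamma_pos (q := q + μ) (by linarith)
  set I1 := ∫ u in Ioi (0:ℝ), u ^ (-(q + μ) - 1) * Real.exp (-(1 / (2 * u))) with hI1d
  have hI2 := betaTwo_pos (a := q) hμ hq
  set I2 := ∫ x in Ioi (0:ℝ), x ^ (μ - 1) * (1 + x) ^ (-(q + μ)) with hI2d
  refine ⟨(2 * Real.pi) ^ (-((n : ℝ) + m * bp) / 2) * I0 * I1 * I2, by positivity, ?_⟩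
  intro y x hT
  set T := TT X Xt bp hbp hA (y, x) with hTd
  set b := (coe' X Xt bp hbp hA (y, x)).1 with hb
  unfold bayesKernel
  have h1 : ∀ v ∈ Ioi (0:ℝ), ∫ β : Fin k → ℝ, normalPDF (Xt.mulVec β) v x ^ ((1 - α) / 2) *
      (normalPDF (X.mulVec β) v y * mixPrior X Xt α ε μ β v) =
      (2 * Real.pi) ^ (-((n : ℝ) + m * bp) / 2) * I0 *
        (v ^ (-(q + μ) - 1) * Real.exp (-(T / (2 * v))) *
          (∫ x in Ioi (0:ℝ), x ^ (μ - 1) * (1 + x) ^ (-(q + μ)) *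
            Real.exp (-(ε * x / (1 + x)) * ‖J b‖ ^ 2 / (2 * v)))) := by
    intro v hv
    have hv0 : (0:ℝ) < v := hv
    have h2 : ∀ β : Fin k → ℝ, normalPDF (Xt.mulVec β) v x ^ ((1 - α) / 2) *
      (normalPDF (X.mulVec β) v y * mixPrior X Xt α ε μ β v) =
      ((2 * Real.pi * v) ^ (-((n : ℝ) + m * bp) / 2) * Real.exp (-T / (2 * v)) *
        v ^ (-1 - μ)) *
        (Real.exp (-‖J (b - β)‖ ^ 2 / (2 * v)) * ∫ x in Ioi (0:ℝ), gmix k q ε μ x *
          Real.exp (-kmix ε x * ‖J β‖ ^ 2 / (2 * v))) := by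
      intro β
      rw [mixPrior_eq X Xt bp hbp hαbp β v, ← hαbp, ← mul_assoc,
        weight_eq X Xt bp hbp hA hv0 β y x]
      ring
    simp_rw [h2]
    have hf : finrank ℝ (Fin k → ℝ) = k := by simp
    have hmix := gauss_mix (volume : Measure (Fin k → ℝ)) J hJinj b hv0 (gmix k q ε μ) (kmix ε)
      (measurable_gmix k q ε μ) (measurable_kmix ε) (fun x hx => gmix_nonneg k hε1 hx)
      (fun x hx => kmix_nonneg hε hε1 hx) (integrableOn_gmix k hε hε1 hμ hq)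
    rw [integral_const_mul, hmix, hf, Real.mul_rpow (by positivity) hv0.le]
    have h3 : ∫ x in Ioi (0:ℝ), gmix k q ε μ x * (1 + kmix ε x) ^ (-(k : ℝ) / 2) *
        Real.exp (-(kmix ε x / (1 + kmix ε x)) * ‖J b‖ ^ 2 / (2 * v)) =
        ∫ x in Ioi (0:ℝ), x ^ (μ - 1) * (1 + x) ^ (-(q + μ)) *
            Real.exp (-(ε * x / (1 + x)) * ‖J b‖ ^ 2 / (2 * v)) := by
      apply setIntegral_congr_fun measurableSet_Ioi
      intro x hx
      simp only
      rw [gmix_kmix k hε hε1 hx, kmix_ratio hε hε1 hx]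
    rw [h3]
    have h4 : v ^ (-(q + μ) - 1) = v ^ (-((n : ℝ) + m * bp) / 2) * v ^ (-1 - μ) *
        v ^ ((k : ℝ) / 2) := by
      rw [← Real.rpow_add hv0, ← Real.rpow_add hv0]
      congr 1
      rw [hqd]
      ring
    rw [h4]
    have h5 : -T / (2 * v) = -(T / (2 * v)) := by ring
    rw [h5]
    ring
  rw [setIntegral_congr_fun measurableSet_Ioi h1, integral_const_mul,
    mix_v hμ hq hε hT (by positivity)]
  ring

end

end MP4845
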