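import Mathlib
import Pool.Agent.Lib.MP_4845bf_pr.Q2Kernel

/-!
The generalized Bayes density for the mixture prior in closed form (Q2).
-/

set_option linter.unusedSectionVars false
set_option linter.unnecessarySimpa false

namespace MP4845

open MeasureTheory Module Set Filter Topology WithLp
open scoped InnerProductSpace

lemma iota_cont {P E1 E2 : Type*} [NormedAddCommGroup P] [NormedSpace ℝ P]
    [FiniteDimensional ℝ P]
    [NormedAddCommGroup E1] [InnerProductSpace ℝ E1] [FiniteDimensional ℝ E1]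
    [NormedAddCommGroup E2] [InnerProductSpace ℝ E2] [FiniteDimensional ℝ E2]
    (A : P →ₗ[ℝ] E1) (B : P →ₗ[ℝ] E2) : Continuous (iota A B) :=
  (iota A B).continuous_of_finiteDimensional

section

variable {n k m : ℕ} (X : Matrix (Fin n) (Fin k) ℝ) (Xt : Matrix (Fin m) (Fin k) ℝ) (bp : ℝ)
  (hbp : 0 < bp) (hA : Function.Injective (AA X))

/-- `R = T + ε |ι b|²` -/
noncomputable def RR (ε : ℝ) (z : (Fin n → ℝ) × (Fin m → ℝ)) : ℝ :=
  TT X Xt bp hbp hA z + ε * ‖iota (AA X) (BB Xt bp) (coe' X Xt bp hbp hA z).1‖ ^ 2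

/-- unnormalised density -/
noncomputable def hG (γ ε μ' : ℝ) (y : Fin n → ℝ) (x : Fin m → ℝ) : ℝ :=
  TT X Xt bp hbp hA (y, x) ^ (-γ) * RR X Xt bp hbp hA ε (y, x) ^ (-μ')

/-- normalising constant -/
noncomputable def nG (γ ε μ' : ℝ) (y : Fin n → ℝ) : ℝ := ∫ x, hG X Xt bp hbp hA γ ε μ' y x

open Classical in
/-- the density -/
noncomputable def qG (γ ε μ' : ℝ) (y : Fin n → ℝ) (x : Fin m → ℝ) : ℝ :=
  if 0 < SS X y then hG X Xt bp hbp hA γ ε μ' y x / nG X Xt bp hbp hA γ ε μ' y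
  else tden X Xt bp hbp hA γ 1 y x

lemma SS_le_TT (y : Fin n → ℝ) (x : Fin m → ℝ) : SS X y ≤ TT X Xt bp hbp hA (y, x) := by
  rw [TT_eq]
  nlinarith [sq_nonneg ‖g0 X Xt bp hbp hA y + DD X Xt bp hbp hA x‖]

lemma TT_le_RR {ε : ℝ} (hε : 0 ≤ ε) (z : (Fin n → ℝ) × (Fin m → ℝ)) :
    TT X Xt bp hbp hA z ≤ RR X Xt bp hbp hA ε z := by
  unfold RR
  have : 0 ≤ ε * ‖iota (AA X) (BB Xt bp) (coe' X Xt bp hbp hA z).1‖ ^ 2 := by positivity
  linarith

lemma hG_pos {γ ε μ' : ℝ} (hε : 0 ≤ ε) {y : Fin n → ℝ} (hy : 0 < SS X y) (x : Fin m → ℝ) :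
    0 < hG X Xt bp hbp hA γ ε μ' y x := by
  have h1 : 0 < TT X Xt bp hbp hA (y, x) := lt_of_lt_of_le hy (SS_le_TT X Xt bp hbp hA y x)
  have h2 : 0 < RR X Xt bp hbp hA ε (y, x) := lt_of_lt_of_le h1 (TT_le_RR X Xt bp hbp hA hε _)
  unfold hG
  positivity

lemma measurable_coe' : Measurable (coe' X Xt bp hbp hA) := by
  have h1 : Continuous (coe' X Xt bp hbp hA) :=
    (coe' X Xt bp hbp hA).toLinearMap.continuous_of_finiteDimensional
  exact h1.measurable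

lemma continuous_RR (ε : ℝ) : Continuous (RR X Xt bp hbp hA ε) := by
  have h1 : Continuous (coe' X Xt bp hbp hA) :=
    (coe' X Xt bp hbp hA).toLinearMap.continuous_of_finiteDimensional
  have h2 : Continuous (iota (AA X) (BB Xt bp)) := iota_cont _ _
  unfold RR
  exact (continuous_TT X Xt bp hbp hA).add
    (continuous_const.mul ((h2.comp (continuous_fst.comp h1)).norm.pow 2))

lemma measurable_hG (γ ε μ' : ℝ) :
    Measurable (Function.uncurry (hG X Xt bp hbp hA γ ε μ')) := by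
  have m1 : Measurable (fun z : (Fin n → ℝ) × (Fin m → ℝ) => TT X Xt bp hbp hA z ^ (-γ)) :=
    (continuous_TT X Xt bp hbp hA).measurable.pow_const _
  have m2 : Measurable (fun z : (Fin n → ℝ) × (Fin m → ℝ) => RR X Xt bp hbp hA ε z ^ (-μ')) :=
    (continuous_RR X Xt bp hbp hA ε).measurable.pow_const _
  exact m1.mul m2

lemma measurable_nG (γ ε μ' : ℝ) : Measurable (nG X Xt bp hbp hA γ ε μ') := by
  have h1 : StronglyMeasurable (Function.uncurry (hG X Xt bp hbp hA γ ε μ')) :=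
    (measurable_hG X Xt bp hbp hA γ ε μ').stronglyMeasurable
  have h2 := StronglyMeasurable.integral_prod_right (ν := (volume : Measure (Fin m → ℝ))) h1
  exact h2.measurable

lemma integrable_TT {γ : ℝ} (hγ : (m : ℝ) < 2 * γ) {y : Fin n → ℝ} (hy : 0 < SS X y) :
    Integrable (fun x => TT X Xt bp hbp hA (y, x) ^ (-γ)) := by
  have h1 := (tdens_integral (volume : Measure (Fin m → ℝ)) (DD X Xt bp hbp hA) (γ := γ)
    (by simpa using hγ) (g0 X Xt bp hbp hA y) hy).1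
  refine h1.congr ?_
  filter_upwards with x
  rw [TT_eq]

lemma hG_le {γ ε μ' : ℝ} (hε : 0 ≤ ε) (hμ : 0 ≤ μ') {y : Fin n → ℝ} (hy : 0 < SS X y)
    (x : Fin m → ℝ) :
    hG X Xt bp hbp hA γ ε μ' y x ≤ SS X y ^ (-μ') * TT X Xt bp hbp hA (y, x) ^ (-γ) := by
  have h1 : 0 < TT X Xt bp hbp hA (y, x) := lt_of_lt_of_le hy (SS_le_TT X Xt bp hbp hA y x)
  have h2 : SS X y ≤ RR X Xt bp hbp hA ε (y, x) :=
    (SS_le_TT X Xt bp hbp hA y x).trans (TT_le_RR X Xt bp hbp hA hε _)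
  unfold hG
  rw [mul_comm]
  apply mul_le_mul_of_nonneg_right _ (by positivity)
  exact Real.rpow_le_rpow_of_nonpos hy h2 (by linarith)

lemma hG_integrable {γ ε μ' : ℝ} (hγ : (m : ℝ) < 2 * γ) (hε : 0 ≤ ε) (hμ : 0 ≤ μ')
    {y : Fin n → ℝ} (hy : 0 < SS X y) : Integrable (hG X Xt bp hbp hA γ ε μ' y) := by
  refine ((integrable_TT X Xt bp hbp hA hγ hy).const_mul (SS X y ^ (-μ'))).mono' ?_ ?_
  · have h1 := measurable_hG X Xt bp hbp hA γ ε μ'
    exact (h1.comp (measurable_const.prodMk measurable_id)).aestronglyMeasurable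
  · filter_upwards with x
    rw [Real.norm_of_nonneg (hG_pos X Xt bp hbp hA hε hy x).le]
    exact hG_le X Xt bp hbp hA hε hμ hy x

lemma nG_pos {γ ε μ' : ℝ} (hγ : (m : ℝ) < 2 * γ) (hε : 0 ≤ ε) (hμ : 0 ≤ μ')
    {y : Fin n → ℝ} (hy : 0 < SS X y) : 0 < nG X Xt bp hbp hA γ ε μ' y := by
  unfold nG
  rw [integral_pos_iff_support_of_nonneg (fun x => (hG_pos X Xt bp hbp hA hε hy x).le)
    (hG_integrable X Xt bp hbp hA hγ hε hμ hy)]
  have hs : Function.support (fun x => hG X Xt bp hbp hA γ ε μ' y x) = univ := by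
    ext x
    simp only [Function.mem_support, mem_univ, iff_true]
    exact (hG_pos X Xt bp hbp hA hε hy x).ne'
  rw [hs]
  exact isOpen_univ.measure_pos _ univ_nonempty

lemma qG_eq {γ ε μ' : ℝ} {y : Fin n → ℝ} (hy : 0 < SS X y) (x : Fin m → ℝ) :
    qG X Xt bp hbp hA γ ε μ' y x =
      hG X Xt bp hbp hA γ ε μ' y x / nG X Xt bp hbp hA γ ε μ' y := by
  unfold qG
  rw [if_pos hy]

lemma qG_pos {γ ε μ' : ℝ} (hγ : (m : ℝ) < 2 * γ) (hε : 0 ≤ ε) (hμ : 0 ≤ μ')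
    (y : Fin n → ℝ) (x : Fin m → ℝ) : 0 < qG X Xt bp hbp hA γ ε μ' y x := by
  unfold qG
  split_ifs with hy
  · exact div_pos (hG_pos X Xt bp hbp hA hε hy x) (nG_pos X Xt bp hbp hA hγ hε hμ hy)
  · exact tden_pos X Xt bp hbp hA hγ one_pos y x

lemma qG_pred {γ ε μ' : ℝ} (hγ : (m : ℝ) < 2 * γ) (hε : 0 ≤ ε) (hμ : 0 ≤ μ') :
    IsPredictiveDensity (qG X Xt bp hbp hA γ ε μ') := by
  refine ⟨?_, fun y x => (qG_pos X Xt bp hbp hA hγ hε hμ y x).le, fun y => ?_⟩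
  · have hset : MeasurableSet {z : (Fin n → ℝ) × (Fin m → ℝ) | 0 < SS X z.1} :=
      measurableSet_lt measurable_const ((continuous_SS X).measurable.comp measurable_fst)
    have m1 : Measurable (fun z : (Fin n → ℝ) × (Fin m → ℝ) =>
        hG X Xt bp hbp hA γ ε μ' z.1 z.2 / nG X Xt bp hbp hA γ ε μ' z.1) :=
      (measurable_hG X Xt bp hbp hA γ ε μ').div
        ((measurable_nG X Xt bp hbp hA γ ε μ').comp measurable_fst)
    have m2 : Measurable (fun z : (Fin n → ℝ) × (Fin m → ℝ) =>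
        tden X Xt bp hbp hA γ 1 z.1 z.2) := by
      have h1 := measurable_tden X Xt bp hbp hA γ
      have h2 : Measurable (fun z : (Fin n → ℝ) × (Fin m → ℝ) => ((1:ℝ), z)) :=
        measurable_const.prodMk measurable_id
      exact h1.comp h2
    exact Measurable.ite hset m1 m2
  · by_cases hy : 0 < SS X y
    · simp_rw [qG_eq X Xt bp hbp hA hy]
      rw [integral_div]
      exact div_self (nG_pos X Xt bp hbp hA hγ hε hμ hy).ne'
    · have h1 : ∀ x, qG X Xt bp hbp hA γ ε μ' y x = tden X Xt bp hbp hA γ 1 y x := by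
        intro x
        unfold qG
        rw [if_neg hy]
      simp_rw [h1]
      exact tden_integral X Xt bp hbp hA hγ one_pos y

/-- the generalized Bayes density of the mixture prior -/
lemma genBayes_mix_eq (hk : 0 < k) {α ε μ : ℝ} (hαbp : bp = (1 - α) / 2) (hε : 0 ≤ ε)
    (hε1 : ε < 1) (hμ : 0 < μ) (hq : 0 < ((n : ℝ) + m * bp - k) / 2) {γ : ℝ}
    (hγ : γ = (((n : ℝ) + m * bp - k) / 2) / bp)
    {y : Fin n → ℝ} (hy : 0 < SS X y) (x : Fin m → ℝ) :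
    genBayes X Xt α (mixPrior X Xt α ε μ) y x = qG X Xt bp hbp hA γ ε (μ / bp) y x := by
  obtain ⟨K0, hK0, hK⟩ := mixKernel_eq X Xt bp hbp hA hk hαbp hε hε1 hμ hq
  set q : ℝ := ((n : ℝ) + m * bp - k) / 2 with hqd
  have hT : ∀ x, 0 < TT X Xt bp hbp hA (y, x) := fun x =>
    lt_of_lt_of_le hy (SS_le_TT X Xt bp hbp hA y x)
  have hR : ∀ x, 0 < RR X Xt bp hbp hA ε (y, x) := fun x =>
    lt_of_lt_of_le (hT x) (TT_le_RR X Xt bp hbp hA hε _)
  have h2 : 2 / (1 - α) = 1 / bp := by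
    rw [hαbp]
    have : (1 - α) ≠ 0 := by
      intro h
      rw [h] at hαbp
      simp at hαbp
      exact hbp.ne' hαbp
    field_simp
  have h3 : ∀ x, bayesKernel X Xt α (mixPrior X Xt α ε μ) y x ^ (2 / (1 - α)) =
      K0 ^ (1 / bp) * hG X Xt bp hbp hA γ ε (μ / bp) y x := by
    intro x
    have hT' := hT x
    have hR' := hR x
    rw [hK y x hT', h2]
    change (K0 * (TT X Xt bp hbp hA (y, x) ^ (-q) * RR X Xt bp hbp hA ε (y, x) ^ (-μ))) ^
      (1 / bp) = _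
    rw [Real.mul_rpow hK0.le (by positivity), Real.mul_rpow (by positivity) (by positivity),
      ← Real.rpow_mul hT'.le, ← Real.rpow_mul hR'.le]
    unfold hG
    congr 3
    · rw [hγ]
      ring
    · ring
  rw [qG_eq X Xt bp hbp hA hy]
  unfold genBayes nG
  simp_rw [h3]
  rw [integral_const_mul]
  have h6 : 0 < K0 ^ (1 / bp) := Real.rpow_pos_of_pos hK0 _
  rw [mul_div_mul_left _ _ h6.ne']

/-- the log ratio -/
noncomputable def PsiG (γ ε μ' : ℝ) (z : (Fin n → ℝ) × (Fin m → ℝ)) : ℝ :=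
  PsiA2 (AA X) (BB Xt bp) (eY n) (eZ m hbp) (volume : Measure (Fin m → ℝ)) hA γ ε μ' z

lemma PsiG_eq (γ ε μ' : ℝ) (z : (Fin n → ℝ) × (Fin m → ℝ)) :
    PsiG X Xt bp hbp hA γ ε μ' z = -μ' * Real.log (RR X Xt bp hbp hA ε z) -
      Real.log (nG X Xt bp hbp hA γ ε μ' z.1 / ∫ x, TT X Xt bp hbp hA (z.1, x) ^ (-γ)) := rfl

lemma measurable_PsiG (γ ε μ' : ℝ) : Measurable (PsiG X Xt bp hbp hA γ ε μ') := by
  have e : PsiG X Xt bp hbp hA γ ε μ' = fun z => -μ' * Real.log (RR X Xt bp hbp hA ε z) -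
      Real.log (nG X Xt bp hbp hA γ ε μ' z.1 / ∫ x, TT X Xt bp hbp hA (z.1, x) ^ (-γ)) := by
    ext z
    exact PsiG_eq X Xt bp hbp hA γ ε μ' z
  rw [e]
  have m1 : Measurable (fun z : (Fin n → ℝ) × (Fin m → ℝ) =>
      Real.log (RR X Xt bp hbp hA ε z)) := (continuous_RR X Xt bp hbp hA ε).measurable.log
  have m2 : Measurable (fun z : (Fin n → ℝ) × (Fin m → ℝ) => nG X Xt bp hbp hA γ ε μ' z.1) :=
    (measurable_nG X Xt bp hbp hA γ ε μ').comp measurable_fst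
  have m3 : Measurable (fun y : Fin n → ℝ => ∫ x, TT X Xt bp hbp hA (y, x) ^ (-γ)) := by
    have h1 : StronglyMeasurable (fun z : (Fin n → ℝ) × (Fin m → ℝ) =>
        TT X Xt bp hbp hA z ^ (-γ)) :=
      ((continuous_TT X Xt bp hbp hA).measurable.pow_const _).stronglyMeasurable
    have h2 := StronglyMeasurable.integral_prod_right' (ν := (volume : Measure (Fin m → ℝ))) h1
    exact h2.measurable
  have m4 : Measurable (fun z : (Fin n → ℝ) × (Fin m → ℝ) =>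
      ∫ x, TT X Xt bp hbp hA (z.1, x) ^ (-γ)) := m3.comp measurable_fst
  exact (measurable_const.mul m1).sub (m2.div m4).log

lemma qG_qU {γ ε μ' : ℝ} (hγ : (m : ℝ) < 2 * γ) (hε : 0 ≤ ε) (hμ : 0 ≤ μ')
    (z : (Fin n → ℝ) × (Fin m → ℝ)) (hy : 0 < SS X z.1) :
    qG X Xt bp hbp hA γ ε μ' z.1 z.2 = qU X Xt bp hbp hA γ z.1 z.2 *
      Real.exp (PsiG X Xt bp hbp hA γ ε μ' z) := by
  obtain ⟨y, x⟩ := z
  simp only at hy ⊢
  have hT : 0 < TT X Xt bp hbp hA (y, x) := lt_of_lt_of_le hy (SS_le_TT X Xt bp hbp hA y x)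
  have hR : 0 < RR X Xt bp hbp hA ε (y, x) :=
    lt_of_lt_of_le hT (TT_le_RR X Xt bp hbp hA hε _)
  have hκ := kap_pos X Xt bp hbp hA hγ
  have h1 := (tdens_integral (volume : Measure (Fin m → ℝ)) (DD X Xt bp hbp hA) (γ := γ)
    (by simpa using hγ) (g0 X Xt bp hbp hA y) hy).2
  have h2 : ∫ x, TT X Xt bp hbp hA (y, x) ^ (-γ) =
      SS X y ^ ((m : ℝ) / 2 - γ) * kap X Xt bp hbp hA γ := by
    have h3 : ∀ x, TT X Xt bp hbp hA (y, x) ^ (-γ) =
        (SS X y + ‖g0 X Xt bp hbp hA y + DD X Xt bp hbp hA x‖ ^ 2) ^ (-γ) := by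
      intro x
      rw [TT_eq]
    simp_rw [h3]
    rw [h1]
    have h4 : finrank ℝ (Fin m → ℝ) = m := by simp
    rw [h4]
    rfl
  have hn := nG_pos X Xt bp hbp hA hγ hε hμ hy
  have hS : 0 < SS X y ^ ((m : ℝ) / 2 - γ) := Real.rpow_pos_of_pos hy _
  rw [qG_eq X Xt bp hbp hA hy, PsiG_eq]
  simp only
  rw [h2, Real.exp_sub, Real.exp_log (by positivity)]
  have h5 : Real.exp (-μ' * Real.log (RR X Xt bp hbp hA ε (y, x))) =
      RR X Xt bp hbp hA ε (y, x) ^ (-μ') := by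
    rw [Real.rpow_def_of_pos hR]
    congr 1
    ring
  rw [h5]
  unfold qU tden hG
  rw [← TT_eq]
  have h6 : SS X y ^ (γ - (m : ℝ) / 2) = (SS X y ^ ((m : ℝ) / 2 - γ))⁻¹ := by
    rw [← Real.rpow_neg hy.le]
    congr 1
    ring
  rw [h6]
  field_simp

end

end MP4845
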