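import Mathlib
import Pool.Agent.Lib.MP_4845bf_pr.Q2Dens

/-!
Risk comparison for the generalized Bayes density (Q2).
-/

set_option linter.unusedSectionVars false
set_option linter.unnecessarySimpa false

namespace MP4845

open MeasureTheory Module Set Filter Topology WithLp
open scoped InnerProductSpace

section

variable {n k m : ℕ} (X : Matrix (Fin n) (Fin k) ℝ) (Xt : Matrix (Fin m) (Fin k) ℝ) (bp : ℝ)
  (hbp : 0 < bp) (hA : Function.Injective (AA X))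

/-- comparison of the risks for `|α| < 1` -/
lemma compare_pow2 (hkn : k < n) (hn : 0 < n) (hm : 0 < m) {α τ γ : ℝ} (hα : α ≠ -1)
    (hτ : τ = (1 + α) / 2) (hbτ : bp = 1 - τ) (hτ0 : 0 < τ) (hα2 : 0 < 1 - α ^ 2)
    (hγ : (m : ℝ) < 2 * γ) {q : (Fin n → ℝ) → (Fin m → ℝ) → ℝ} (hq0 : ∀ y x, 0 ≤ q y x)
    {Ψ : (Fin n → ℝ) × (Fin m → ℝ) → ℝ} (hΨm : Measurable Ψ) {cu : ℝ}
    (hΨu : ∀ᵐ z ∂((volume : Measure (Fin n → ℝ)).prod (volume : Measure (Fin m → ℝ))), Ψ z ≤ cu)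
    (hqΨ : ∀ z : (Fin n → ℝ) × (Fin m → ℝ), 0 < SS X z.1 →
      q z.1 z.2 = qU X Xt bp hbp hA γ z.1 z.2 * Real.exp (Ψ z))
    (β : Fin k → ℝ) {v : ℝ} (hv : 0 < v)
    (hint : Integrable (om X Xt bp hbp hA γ τ β v)
      ((volume : Measure (Fin n → ℝ)).prod volume))
    (hΨint : Integrable (fun z => om X Xt bp hbp hA γ τ β v z * Ψ z)
      ((volume : Measure (Fin n → ℝ)).prod volume))
    (hpos : 0 < ∫ z, om X Xt bp hbp hA γ τ β v z * Ψ z
        ∂((volume : Measure (Fin n → ℝ)).prod volume)) :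
    Integrable (hh X Xt α (qU X Xt bp hbp hA γ) β v)
      ((volume : Measure (Fin n → ℝ)).prod volume) ∧
    Integrable (hh X Xt α q β v) ((volume : Measure (Fin n → ℝ)).prod volume) ∧
    ∫ z, hh X Xt α q β v z ∂((volume : Measure (Fin n → ℝ)).prod volume) <
      ∫ z, hh X Xt α (qU X Xt bp hbp hA γ) β v z
        ∂((volume : Measure (Fin n → ℝ)).prod volume) := by
  set ρ := ((volume : Measure (Fin n → ℝ)).prod (volume : Measure (Fin m → ℝ))) with hρ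
  have hpp : Integrable (fun z : (Fin n → ℝ) × (Fin m → ℝ) =>
      normalPDF (X.mulVec β) v z.1 * normalPDF (Xt.mulVec β) v z.2) ρ :=
    (normalPDF_integrable hn _ hv).mul_prod (normalPDF_integrable hm _ hv)
  have hexpint : Integrable (fun z => om X Xt bp hbp hA γ τ β v z *
      Real.exp (τ * Ψ z)) ρ := by
    apply hint.mul_bdd (c := Real.exp (τ * cu)) ((hΨm.const_mul τ).exp).aestronglyMeasurable
    filter_upwards [hΨu] with z hz
    rw [Real.norm_of_nonneg (Real.exp_pos _).le]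
    apply Real.exp_le_exp.mpr
    exact mul_le_mul_of_nonneg_left hz hτ0.le
  have hU : ∀ z, hh X Xt α (qU X Xt bp hbp hA γ) β v z = 4 / (1 - α ^ 2) *
      (normalPDF (X.mulVec β) v z.1 * normalPDF (Xt.mulVec β) v z.2 -
        om X Xt bp hbp hA γ τ β v z) := by
    intro z
    rw [hh_eq_pow X Xt bp hα hτ hbτ (qU_nonneg X Xt bp hbp hA hγ) β hv z]
    rfl
  have hC : ∀ᵐ z ∂ρ, hh X Xt α q β v z = 4 / (1 - α ^ 2) *
      (normalPDF (X.mulVec β) v z.1 * normalPDF (Xt.mulVec β) v z.2 -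
        om X Xt bp hbp hA γ τ β v z * Real.exp (τ * Ψ z)) := by
    filter_upwards [ae_prod_SS_pos X (m := m) hA hkn] with z hz
    rw [hh_eq_pow X Xt bp hα hτ hbτ hq0 β hv z]
    have h1 : q z.1 z.2 ^ τ =
        tden X Xt bp hbp hA γ (SS X z.1) z.1 z.2 ^ τ * Real.exp (τ * Ψ z) := by
      rw [hqΨ z hz]
      unfold qU
      rw [Real.mul_rpow (tden_pos X Xt bp hbp hA hγ hz z.1 z.2).le (Real.exp_pos _).le,
        ← Real.exp_mul]
      congr 2
      ring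
    rw [h1]
    unfold om
    ring
  have hIU : Integrable (hh X Xt α (qU X Xt bp hbp hA γ) β v) ρ := by
    refine ((hpp.sub hint).const_mul (4 / (1 - α ^ 2))).congr ?_
    filter_upwards with z
    rw [hU z]
    rfl
  have hIC : Integrable (hh X Xt α q β v) ρ := by
    refine ((hpp.sub hexpint).const_mul (4 / (1 - α ^ 2))).congr ?_
    filter_upwards [hC] with z hz
    rw [hz]
    rfl
  refine ⟨hIU, hIC, ?_⟩
  rw [← sub_pos, ← integral_sub hIU hIC]
  have hle : ∫ z, 4 * τ / (1 - α ^ 2) * (om X Xt bp hbp hA γ τ β v z * Ψ z) ∂ρ ≤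
      ∫ z, (hh X Xt α (qU X Xt bp hbp hA γ) β v z - hh X Xt α q β v z) ∂ρ := by
    apply integral_mono_ae (hΨint.const_mul _) (hIU.sub hIC)
    filter_upwards [hC] with z hz
    rw [Pi.sub_apply, hU z, hz]
    have h1 := Real.add_one_le_exp (τ * Ψ z)
    have h2 := om_nonneg X Xt bp hbp hA (τ := τ) hγ β hv z
    have h3 : om X Xt bp hbp hA γ τ β v z * (τ * Ψ z) ≤
        om X Xt bp hbp hA γ τ β v z * (Real.exp (τ * Ψ z) - 1) :=
      mul_le_mul_of_nonneg_left (by linarith) h2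
    have h4 : (0:ℝ) ≤ 4 / (1 - α ^ 2) := by positivity
    have h5 := mul_le_mul_of_nonneg_left h3 h4
    calc 4 * τ / (1 - α ^ 2) * (om X Xt bp hbp hA γ τ β v z * Ψ z) =
        4 / (1 - α ^ 2) * (om X Xt bp hbp hA γ τ β v z * (τ * Ψ z)) := by ring
      _ ≤ _ := h5
      _ = _ := by ring
  refine lt_of_lt_of_le ?_ hle
  rw [integral_const_mul]
  exact mul_pos (by positivity) hpos

/-- comparison of the risks for `α = -1` -/
lemma compare_log2 (hk : 0 < k) (hkn : k < n) (hm : 0 < m) {γ : ℝ} (hb1 : bp = 1)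
    (hγ : (m : ℝ) < 2 * γ) {q : (Fin n → ℝ) → (Fin m → ℝ) → ℝ} (hq0 : ∀ y x, 0 < q y x)
    {Ψ : (Fin n → ℝ) × (Fin m → ℝ) → ℝ}
    (hqΨ : ∀ z : (Fin n → ℝ) × (Fin m → ℝ), 0 < SS X z.1 →
      q z.1 z.2 = qU X Xt bp hbp hA γ z.1 z.2 * Real.exp (Ψ z))
    (β : Fin k → ℝ) {v : ℝ} (hv : 0 < v)
    (hΨint : Integrable (fun z => om X Xt bp hbp hA γ 0 β v z * Ψ z)
      ((volume : Measure (Fin n → ℝ)).prod volume))
    (hpos : 0 < ∫ z, om X Xt bp hbp hA γ 0 β v z * Ψ z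
        ∂((volume : Measure (Fin n → ℝ)).prod volume)) :
    Integrable (hh X Xt (-1) (qU X Xt bp hbp hA γ) β v)
      ((volume : Measure (Fin n → ℝ)).prod volume) ∧
    Integrable (hh X Xt (-1) q β v) ((volume : Measure (Fin n → ℝ)).prod volume) ∧
    ∫ z, hh X Xt (-1) q β v z ∂((volume : Measure (Fin n → ℝ)).prod volume) <
      ∫ z, hh X Xt (-1) (qU X Xt bp hbp hA γ) β v z
        ∂((volume : Measure (Fin n → ℝ)).prod volume) := by
  set ρ := ((volume : Measure (Fin n → ℝ)).prod (volume : Measure (Fin m → ℝ))) with hρ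
  have hIU := log_integrable X Xt bp hbp hA hk hkn hm hb1 hγ β hv
  have hC : ∀ᵐ z ∂ρ, hh X Xt (-1) q β v z =
      hh X Xt (-1) (qU X Xt bp hbp hA γ) β v z - om X Xt bp hbp hA γ 0 β v z * Ψ z := by
    filter_upwards [ae_prod_SS_pos X (m := m) hA hkn] with z hz
    have hq : 0 < qU X Xt bp hbp hA γ z.1 z.2 := tden_pos X Xt bp hbp hA hγ hz z.1 z.2
    rw [hh_eq_log X Xt β hv z hq, hh_eq_log X Xt β hv z (hq0 _ _)]
    have h1 : Real.log (q z.1 z.2) =
        Real.log (qU X Xt bp hbp hA γ z.1 z.2) + Ψ z := by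
      rw [hqΨ z hz, Real.log_mul hq.ne' (Real.exp_pos _).ne', Real.log_exp]
    have h2 : normalPDF (Xt.mulVec β) v z.2 ^ bp = normalPDF (Xt.mulVec β) v z.2 := by
      rw [hb1, Real.rpow_one]
    rw [h1]
    unfold om
    rw [h2, Real.rpow_zero]
    ring
  have hIC : Integrable (hh X Xt (-1) q β v) ρ := by
    refine (hIU.sub hΨint).congr ?_
    filter_upwards [hC] with z hz
    rw [hz]
    rfl
  refine ⟨hIU, hIC, ?_⟩
  rw [integral_congr_ae hC, integral_sub hIU hΨint]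
  linarith

/-- positivity of the mean log ratio -/
theorem main_pos2 (hk : 0 < k) (hkn : k < n) (hm : 0 < m) (hB : BB Xt bp ≠ 0) {τ γ : ℝ}
    (hτ : 0 ≤ τ) (hτbp : bp = 1 - τ) (hγ : γ = ((n : ℝ) - k) / (2 * bp) + m / 2) :
    ∃ ε : ℝ, 0 < ε ∧ ε ≤ 1 / 2 ∧ ∃ μ0 : ℝ, 0 < μ0 ∧ ∀ μ' : ℝ, 0 < μ' → μ' ≤ μ0 →
      (∃ cu : ℝ, ∀ᵐ z ∂((volume : Measure (Fin n → ℝ)).prod (volume : Measure (Fin m → ℝ))),
        PsiG X Xt bp hbp hA γ ε μ' z ≤ cu) ∧
      ∀ (β : Fin k → ℝ) (v : ℝ), 0 < v →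
      Integrable (fun z => om X Xt bp hbp hA γ τ β v z * PsiG X Xt bp hbp hA γ ε μ' z)
        ((volume : Measure (Fin n → ℝ)).prod volume) ∧
      0 < ∫ z, om X Xt bp hbp hA γ τ β v z * PsiG X Xt bp hbp hA γ ε μ' z
        ∂((volume : Measure (Fin n → ℝ)).prod volume) := by
  have hnk : (0:ℝ) < (n : ℝ) - k := by
    have : (k : ℝ) < n := by exact_mod_cast hkn
    linarith
  have hm' : (0:ℝ) < m := by exact_mod_cast hm
  have hne : Nonempty (Fin k) := ⟨⟨0, hk⟩⟩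
  have hp0 : 0 < γ - m / 2 := by
    rw [hγ]
    have : 0 < ((n : ℝ) - k) / (2 * bp) := by positivity
    linarith
  have hγ0 : 0 < γ := by linarith
  have hγm : (m : ℝ) < 2 * γ := by linarith
  have hf1 : finrank ℝ (Fin k → ℝ) = k := by simp
  have hf2 : finrank ℝ (EuclideanSpace ℝ (Fin n)) = n := by simp
  have hf3 : finrank ℝ (EuclideanSpace ℝ (Fin m)) = m := by simp
  have hp : γ - m / 2 = τ * (γ - m / 2) + ((finrank ℝ (EuclideanSpace ℝ (Fin n)) : ℝ) -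
      finrank ℝ (Fin k → ℝ)) / 2 := by
    rw [hf1, hf2]
    have h1 : γ - m / 2 = ((n : ℝ) - k) / (2 * bp) := by rw [hγ]; ring
    have h2 : (γ - m / 2) * bp = ((n : ℝ) - k) / 2 := by
      rw [h1]
      field_simp
    have h3 : bp = 1 - τ := hτbp
    rw [h3] at h2
    linarith
  have hγ' : γ = (γ - m / 2) + (finrank ℝ (EuclideanSpace ℝ (Fin m)) : ℝ) / 2 := by
    rw [hf3]
    ring
  have hδ : τ * γ < γ := by
    have : τ < 1 := by linarith
    nlinarith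
  have hp1 : 0 ≤ τ * (γ - m / 2) := by positivity
  obtain ⟨ε, hε0, hε1, μ0, hμ0, hmain⟩ := geo_main2 (AA X) (BB Xt bp) (eY n) (eZ m hbp)
    (volume : Measure (Fin n → ℝ)) (volume : Measure (Fin m → ℝ)) (volume : Measure (Fin k → ℝ))
    hA hB (by rw [hf1, hf2]; exact hkn) (by rw [hf3]; exact hm) hp1 hp hγ' hδ
  refine ⟨ε, hε0, hε1, μ0, hμ0, ?_⟩
  intro μ' hμ' hμle
  obtain ⟨hcu, hmain2⟩ := hmain μ' hμ' hμle
  refine ⟨hcu, ?_⟩
  intro β v hv
  have hκ := kap_pos X Xt bp hbp hA hγm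
  have hcst : 0 < (2 * Real.pi * v) ^ (-((n : ℝ) + m * bp) / 2) *
    (kap X Xt bp hbp hA γ)⁻¹ ^ τ := by
    have := Real.pi_pos
    positivity
  refine hmain2 β v _ (om X Xt bp hbp hA γ τ β v) hv hcst ?_
  intro z
  rw [om_eq X Xt bp hbp hA hγm β hv z, SS_eq X Xt bp hbp hA z]
  rfl

end

end MP4845
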