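import Mathlib
import Pool.Agent.Lib.MP_4845bf_pr.Q2Dens

/-!
The posterior of the mixture prior is proper (Q2).
-/

set_option linter.unusedSectionVars false
set_option linter.unnecessarySimpa false

namespace MP4845

open MeasureTheory Module Set Filter Topology WithLp
open scoped InnerProductSpace

lemma invgamma_int {q T : ℝ} (hq : 0 < q) (hT : 0 < T) :
    IntegrableOn (fun v : ℝ => v ^ (-q - 1) * Real.exp (-(T / (2 * v)))) (Ioi 0) := by
  have h1 := integrableOn_invgamma hq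
  have h2 := integrableOn_Ioi_comp_mul_left_iff
    (fun v : ℝ => v ^ (-q - 1) * Real.exp (-(T / (2 * v)))) 0 hT
  rw [mul_zero] at h2
  rw [← h2]
  have h3 : IntegrableOn (fun u : ℝ => T ^ (-q - 1) *
      (u ^ (-q - 1) * Real.exp (-(1 / (2 * u))))) (Ioi 0) :=
    h1.const_mul (T ^ (-q - 1))
  refine h3.congr_fun ?_ measurableSet_Ioi
  intro x hx
  have hx0 : (0:ℝ) < x := hx
  simp only
  rw [Real.mul_rpow hT.le hx0.le]
  have : T / (2 * (T * x)) = 1 / (2 * x) := by field_simp
  rw [this]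
  ring

lemma gauss_prod_int {P F : Type*} [NormedAddCommGroup P] [NormedSpace ℝ P]
    [FiniteDimensional ℝ P] [MeasurableSpace P] [BorelSpace P] [Nontrivial P]
    [NormedAddCommGroup F] [NormedSpace ℝ F] (κP : Measure P) [κP.IsAddHaarMeasure]
    (J : P →ₗ[ℝ] F) (hJ : Function.Injective J) (hJc : Continuous J) (b : P) {q T d : ℝ}
    (hq : 0 < q) (hT : 0 < T) (hd : d = -q - 1 - (finrank ℝ P : ℝ) / 2) :
    Integrable (fun p : P × ℝ => p.2 ^ d * Real.exp (-(T / (2 * p.2))) *
      Real.exp (-‖J (b - p.1)‖ ^ 2 / (2 * p.2))) (κP.prod (volume.restrict (Ioi (0:ℝ)))) := by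
  have hm : Measurable (fun p : P × ℝ => p.2 ^ d * Real.exp (-(T / (2 * p.2))) *
      Real.exp (-‖J (b - p.1)‖ ^ 2 / (2 * p.2))) := by
    have m1 : Measurable (fun p : P × ℝ => p.2 ^ d) := measurable_snd.pow_const _
    have m2 : Measurable (fun p : P × ℝ => Real.exp (-(T / (2 * p.2)))) :=
      (measurable_const.div (measurable_const.mul measurable_snd)).neg.exp
    have m3 : Measurable (fun p : P × ℝ => ‖J (b - p.1)‖ ^ 2) :=
      ((hJc.comp (continuous_const.sub continuous_fst)).norm.pow 2).measurable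
    have m4 : Measurable (fun p : P × ℝ => Real.exp (-‖J (b - p.1)‖ ^ 2 / (2 * p.2))) :=
      (m3.neg.div (measurable_const.mul measurable_snd)).exp
    exact (m1.mul m2).mul m4
  rw [integrable_prod_iff' hm.aestronglyMeasurable]
  constructor
  · filter_upwards [ae_restrict_mem measurableSet_Ioi] with v hv
    have hv0 : (0:ℝ) < v := hv
    have hgauss : Integrable (fun β : P => Real.exp (-‖J (b - β)‖ ^ 2 / (2 * v))) κP := by
      have := integrable_gauss_inj κP J hJ b (c := 1 / (2 * v)) (by positivity)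
      refine this.congr ?_
      filter_upwards with β
      have h1 : ‖J (β - b)‖ = ‖J (b - β)‖ := by
        rw [← neg_sub b β, map_neg, norm_neg]
      rw [h1]
      congr 1
      ring
    exact hgauss.const_mul _
  · have h1 : IntegrableOn (fun v : ℝ => (∫ β, Real.exp (-‖J β‖ ^ 2 / 2) ∂κP) *
        (v ^ (-q - 1) * Real.exp (-(T / (2 * v))))) (Ioi 0) := (invgamma_int hq hT).const_mul _
    refine h1.congr_fun ?_ measurableSet_Ioi
    intro v hv
    have hv0 : (0:ℝ) < v := hv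
    simp only
    have h2 : ∀ β : P, ‖v ^ d * Real.exp (-(T / (2 * v))) *
        Real.exp (-‖J (b - β)‖ ^ 2 / (2 * v))‖ = v ^ d * Real.exp (-(T / (2 * v))) *
        Real.exp (-‖J (b - β)‖ ^ 2 / (2 * v)) := by
      intro β
      rw [Real.norm_of_nonneg (by positivity)]
    simp_rw [h2]
    rw [integral_const_mul, gauss_beta κP J b hv0]
    have h3 : v ^ (-q - 1) = v ^ d * v ^ ((finrank ℝ P : ℝ) / 2) := by
      rw [← Real.rpow_add hv0, hd]
      congr 1
      ring
    rw [h3]
    ring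

section

variable {n k m : ℕ} (X : Matrix (Fin n) (Fin k) ℝ) (Xt : Matrix (Fin m) (Fin k) ℝ) (bp : ℝ)
  (hbp : 0 < bp) (hA : Function.Injective (AA X))

/-- least squares decomposition -/
lemma ls_decomp (y : Fin n → ℝ) : ∃ b : Fin k → ℝ, ∀ β : Fin k → ℝ,
    ∑ i, (y i - X.mulVec β i) ^ 2 = SS X y + ‖AA X (b - β)‖ ^ 2 := by
  set w : EuclideanSpace ℝ (Fin n) := WithLp.toLp 2 y with hw
  set Pw := (LinearMap.range (AA X)).starProjection w with hPw
  have hmem : Pw ∈ LinearMap.range (AA X) := Submodule.starProjection_apply_mem _ _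
  obtain ⟨b, hb⟩ := hmem
  refine ⟨b, ?_⟩
  intro β
  have h1 : ∑ i, (y i - X.mulVec β i) ^ 2 = ‖w - AA X β‖ ^ 2 := by
    rw [EuclideanSpace.norm_sq_eq, AA_apply]
    simp [hw]
  have h2 : w - AA X β = (w - Pw) + AA X (b - β) := by
    rw [map_sub, hb]
    abel
  have h3 : ⟪w - Pw, AA X (b - β)⟫_ℝ = 0 := by
    have h4 : w - Pw ∈ (LinearMap.range (AA X))ᗮ := Submodule.sub_starProjection_mem_orthogonal _
    rw [real_inner_comm]
    exact (Submodule.mem_orthogonal _ _).mp h4 _ (LinearMap.mem_range_self _ _)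
  rw [h1, h2, norm_add_sq_real, h3]
  unfold SS
  ring

lemma measurable_mixPrior (hbp : 0 < bp) {α ε μ : ℝ} (hαbp : bp = (1 - α) / 2) :
    Measurable (fun p : (Fin k → ℝ) × ℝ => mixPrior X Xt α ε μ p.1 p.2) := by
  have e : (fun p : (Fin k → ℝ) × ℝ => mixPrior X Xt α ε μ p.1 p.2) =
      fun p => p.2 ^ (-1 - μ) * ∫ x in Ioi (0:ℝ),
      gmix k (((n : ℝ) + m * bp - k) / 2) ε μ x *
        Real.exp (-kmix ε x * ‖iota (AA X) (BB Xt bp) p.1‖ ^ 2 / (2 * p.2)) := by
    ext p
    exact mixPrior_eq X Xt bp hbp hαbp p.1 p.2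
  rw [e]
  have m1 : Measurable (fun p : (Fin k → ℝ) × ℝ => p.2 ^ (-1 - μ)) := measurable_snd.pow_const _
  have m2 : Measurable (fun z : ((Fin k → ℝ) × ℝ) × ℝ =>
      gmix k (((n : ℝ) + m * bp - k) / 2) ε μ z.2) := (measurable_gmix _ _ _ _).comp measurable_snd
  have m3 : Measurable (fun z : ((Fin k → ℝ) × ℝ) × ℝ => kmix ε z.2) :=
    (measurable_kmix ε).comp measurable_snd
  have m4 : Measurable (fun z : ((Fin k → ℝ) × ℝ) × ℝ =>
      ‖iota (AA X) (BB Xt bp) z.1.1‖ ^ 2) := by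
    have c1 : Continuous (fun z : ((Fin k → ℝ) × ℝ) × ℝ =>
      ‖iota (AA X) (BB Xt bp) z.1.1‖ ^ 2) :=
      ((iota_cont (AA X) (BB Xt bp)).comp (continuous_fst.comp continuous_fst)).norm.pow 2
    exact c1.measurable
  have m5 : Measurable (fun z : ((Fin k → ℝ) × ℝ) × ℝ => 2 * z.1.2) :=
    measurable_const.mul (measurable_snd.comp measurable_fst)
  have m6 : Measurable (fun z : ((Fin k → ℝ) × ℝ) × ℝ =>
      gmix k (((n : ℝ) + m * bp - k) / 2) ε μ z.2 *
        Real.exp (-kmix ε z.2 * ‖iota (AA X) (BB Xt bp) z.1.1‖ ^ 2 / (2 * z.1.2))) :=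
    m2.mul (((m3.neg.mul m4).div m5).exp)
  have h2 := StronglyMeasurable.integral_prod_right' (ν := (volume.restrict (Ioi (0:ℝ))))
    m6.stronglyMeasurable
  exact m1.mul h2.measurable

lemma mixPrior_bounds (hbp : 0 < bp) {α ε μ : ℝ} (hαbp : bp = (1 - α) / 2) (hε : 0 ≤ ε)
    (hε1 : ε < 1) (hμ : 0 < μ) (hq : 0 < ((n : ℝ) + m * bp - k) / 2) (β : Fin k → ℝ) {v : ℝ}
    (hv : 0 < v) : 0 < mixPrior X Xt α ε μ β v ∧
      mixPrior X Xt α ε μ β v ≤ v ^ (-1 - μ) *
        ∫ x in Ioi (0:ℝ), gmix k (((n : ℝ) + m * bp - k) / 2) ε μ x := by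
  rw [mixPrior_eq X Xt bp hbp hαbp β v]
  have hg := integrableOn_gmix k (a := ((n : ℝ) + m * bp - k) / 2) hε hε1 hμ hq
  set a := ((n : ℝ) + m * bp - k) / 2
  have hvp : 0 < v ^ (-1 - μ) := Real.rpow_pos_of_pos hv _
  have hle : ∀ x ∈ Ioi (0:ℝ), gmix k a ε μ x *
      Real.exp (-kmix ε x * ‖iota (AA X) (BB Xt bp) β‖ ^ 2 / (2 * v)) ≤ gmix k a ε μ x := by
    intro x hx
    have h1 := gmix_nonneg k (a := a) (μ := μ) hε1 hx
    have h2 := kmix_nonneg hε hε1 hx
    have h3 : Real.exp (-kmix ε x * ‖iota (AA X) (BB Xt bp) β‖ ^ 2 / (2 * v)) ≤ 1 := by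
      apply Real.exp_le_one_iff.mpr
      have h4 : 0 ≤ kmix ε x * ‖iota (AA X) (BB Xt bp) β‖ ^ 2 / (2 * v) := by positivity
      have e1 : -kmix ε x * ‖iota (AA X) (BB Xt bp) β‖ ^ 2 / (2 * v) =
        -(kmix ε x * ‖iota (AA X) (BB Xt bp) β‖ ^ 2 / (2 * v)) := by ring
      rw [e1]
      linarith
    nlinarith
  have hint : IntegrableOn (fun x => gmix k a ε μ x *
      Real.exp (-kmix ε x * ‖iota (AA X) (BB Xt bp) β‖ ^ 2 / (2 * v))) (Ioi 0) := by
    refine Integrable.mono' hg ?_ ?_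
    · apply Measurable.aestronglyMeasurable
      exact (measurable_gmix _ _ _ _).mul
        ((((measurable_kmix ε).neg.mul measurable_const).div measurable_const).exp)
    · filter_upwards [ae_restrict_mem measurableSet_Ioi] with x hx
      rw [Real.norm_of_nonneg (mul_nonneg (gmix_nonneg k hε1 hx) (Real.exp_pos _).le)]
      exact hle x hx
  constructor
  · apply mul_pos hvp
    rw [setIntegral_pos_iff_support_of_nonneg_ae _ hint]
    · have hs : (Ioi (0:ℝ)) ⊆ Function.support (fun x => gmix k a ε μ x *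
          Real.exp (-kmix ε x * ‖iota (AA X) (BB Xt bp) β‖ ^ 2 / (2 * v))) ∩ Ioi 0 := by
        intro u hu
        refine ⟨?_, hu⟩
        rw [Function.mem_support]
        exact (mul_pos (gmix_pos k hε1 hu) (Real.exp_pos _)).ne'
      refine lt_of_lt_of_le ?_ (measure_mono hs)
      simp
    · filter_upwards [ae_restrict_mem measurableSet_Ioi] with u hu
      exact mul_nonneg (gmix_nonneg k hε1 hu) (Real.exp_pos _).le
  · apply mul_le_mul_of_nonneg_left _ hvp.le
    exact setIntegral_mono_on hint hg measurableSet_Ioi hle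

include hA in
/-- the marginal of `y`, with an additional factor, is finite -/
lemma posterior_int (hk : 0 < k) (hkn : k < n) (hbp : 0 < bp) {α ε μ c : ℝ}
    (hαbp : bp = (1 - α) / 2)
    (hε : 0 ≤ ε) (hε1 : ε < 1) (hμ : 0 < μ) (hc : 0 ≤ c) {y : Fin n → ℝ} (hy : 0 < SS X y) :
    Integrable (fun p : (Fin k → ℝ) × ℝ => p.2 ^ (-c) *
      (normalPDF (X.mulVec p.1) p.2 y * mixPrior X Xt α ε μ p.1 p.2))
      ((volume : Measure (Fin k → ℝ)).prod (volume.restrict (Ioi (0:ℝ)))) := by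
  have hpi := Real.pi_pos
  have : Nonempty (Fin k) := ⟨⟨0, hk⟩⟩
  have hnt : Nontrivial (Fin k → ℝ) := inferInstance
  have hnk : (0:ℝ) < (n : ℝ) - k := by
    have : (k : ℝ) < n := by exact_mod_cast hkn
    linarith
  have hq : 0 < ((n : ℝ) + m * bp - k) / 2 := by
    have : 0 ≤ m * bp := by positivity
    linarith
  obtain ⟨b, hb⟩ := ls_decomp X y
  have hf : finrank ℝ (Fin k → ℝ) = k := by simp
  have hmain := gauss_prod_int (volume : Measure (Fin k → ℝ)) (AA X) hA
    (AA X).continuous_of_finiteDimensional b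
    (q := c + ((n : ℝ) - k) / 2 + μ) (T := SS X y) (d := -c + (-(n : ℝ) / 2) + (-1 - μ))
    (by positivity) hy (by rw [hf]; ring)
  set G0 := ∫ x in Ioi (0:ℝ), gmix k (((n : ℝ) + m * bp - k) / 2) ε μ x with hG0
  refine (hmain.const_mul ((2 * Real.pi) ^ (-(n : ℝ) / 2) * G0)).mono' ?_ ?_
  · apply Measurable.aestronglyMeasurable
    have m1 : Measurable (fun p : (Fin k → ℝ) × ℝ => p.2 ^ (-c)) := measurable_snd.pow_const _
    have m2 := measurable_mixPrior X Xt bp hbp (ε := ε) (μ := μ) hαbp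
    have m3 : Measurable (fun p : (Fin k → ℝ) × ℝ => normalPDF (X.mulVec p.1) p.2 y) := by
      unfold normalPDF
      have a1 : Measurable (fun p : (Fin k → ℝ) × ℝ =>
          (2 * Real.pi * p.2) ^ (-(n : ℝ) / 2)) :=
        (measurable_const.mul measurable_snd).pow_const _
      have a2 : Measurable (fun p : (Fin k → ℝ) × ℝ => ∑ i, (y i - X.mulVec p.1 i) ^ 2) := by
        have c1 : Continuous (fun p : (Fin k → ℝ) × ℝ => X.mulVec p.1) :=
          (X.mulVecLin.continuous_of_finiteDimensional).comp continuous_fst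
        have c2 : Continuous (fun p : (Fin k → ℝ) × ℝ => ∑ i, (y i - X.mulVec p.1 i) ^ 2) := by
          apply continuous_finsetSum
          intro i _
          exact (continuous_const.sub ((continuous_apply i).comp c1)).pow 2
        exact c2.measurable
      exact a1.mul ((a2.neg.div (measurable_const.mul measurable_snd)).exp)
    exact m1.mul (m3.mul m2)
  · have hmem : ∀ᵐ p : (Fin k → ℝ) × ℝ ∂((volume : Measure (Fin k → ℝ)).prod
        (volume.restrict (Ioi (0:ℝ)))), p.2 ∈ Ioi (0:ℝ) :=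
      Measure.quasiMeasurePreserving_snd.ae (ae_restrict_mem measurableSet_Ioi)
    filter_upwards [hmem] with p hp
    obtain ⟨β, v⟩ := p
    have hv : (0:ℝ) < v := hp
    simp only
    obtain ⟨h1, h2⟩ := mixPrior_bounds X Xt bp hbp hαbp hε hε1 hμ hq β hv
    have h3 := normalPDF_pos (X.mulVec β) hv y
    rw [Real.norm_of_nonneg (by positivity)]
    have h4 : normalPDF (X.mulVec β) v y = (2 * Real.pi) ^ (-(n : ℝ) / 2) *
        (v ^ (-(n : ℝ) / 2) * Real.exp (-(SS X y / (2 * v))) *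
          Real.exp (-‖AA X (b - β)‖ ^ 2 / (2 * v))) := by
      unfold normalPDF
      rw [hb β, Real.mul_rpow (by positivity) hv.le, mul_assoc (v ^ (-(n : ℝ) / 2)),
        ← Real.exp_add]
      have e1 : -(SS X y + ‖AA X (b - β)‖ ^ 2) / (2 * v) =
          -(SS X y / (2 * v)) + -‖AA X (b - β)‖ ^ 2 / (2 * v) := by
        field_simp
        ring
      rw [e1]
      ring
    have h5 : v ^ (-c + (-(n : ℝ) / 2) + (-1 - μ)) =
        v ^ (-c) * v ^ (-(n : ℝ) / 2) * v ^ (-1 - μ) := by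
      rw [Real.rpow_add hv, Real.rpow_add hv]
    calc v ^ (-c) * (normalPDF (X.mulVec β) v y * mixPrior X Xt α ε μ β v)
        ≤ v ^ (-c) * (normalPDF (X.mulVec β) v y * (v ^ (-1 - μ) * G0)) := by gcongr
      _ = _ := by
        rw [h4, h5]
        ring

include hA in
/-- the integrals defining the Bayes density converge -/
lemma kernel_int (hk : 0 < k) (hkn : k < n) (hbp : 0 < bp) {α ε μ : ℝ} (hαbp : bp = (1 - α) / 2)
    (hε : 0 ≤ ε) (hε1 : ε < 1) (hμ : 0 < μ) {y : Fin n → ℝ} (hy : 0 < SS X y)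
    (x : Fin m → ℝ) :
    Integrable (fun p : (Fin k → ℝ) × ℝ => normalPDF (Xt.mulVec p.1) p.2 x ^ ((1 - α) / 2) *
      (normalPDF (X.mulVec p.1) p.2 y * mixPrior X Xt α ε μ p.1 p.2))
      ((volume : Measure (Fin k → ℝ)).prod (volume.restrict (Ioi (0:ℝ)))) := by
  have hpi := Real.pi_pos
  have hnk : (0:ℝ) < (n : ℝ) - k := by
    have : (k : ℝ) < n := by exact_mod_cast hkn
    linarith
  have hq : 0 < ((n : ℝ) + m * bp - k) / 2 := by
    have : 0 ≤ m * bp := by positivity
    linarith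
  have hpost := posterior_int X Xt bp hA hk hkn hbp (c := (m : ℝ) / 2 * bp) hαbp hε hε1 hμ
    (by positivity) hy
  have hpost0 := posterior_int X Xt bp hA hk hkn hbp (c := 0) hαbp hε hε1 hμ le_rfl hy
  have hmeas0 : AEStronglyMeasurable (fun p : (Fin k → ℝ) × ℝ =>
      normalPDF (X.mulVec p.1) p.2 y * mixPrior X Xt α ε μ p.1 p.2)
      ((volume : Measure (Fin k → ℝ)).prod (volume.restrict (Ioi (0:ℝ)))) := by
    refine hpost0.aestronglyMeasurable.congr ?_
    filter_upwards with p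
    simp
  refine (hpost.const_mul ((2 * Real.pi) ^ (-(m : ℝ) / 2 * bp))).mono' ?_ ?_
  · refine AEStronglyMeasurable.mul ?_ hmeas0
    apply Measurable.aestronglyMeasurable
    apply Measurable.pow_const
    unfold normalPDF
    have a1 : Measurable (fun p : (Fin k → ℝ) × ℝ =>
        (2 * Real.pi * p.2) ^ (-(m : ℝ) / 2)) :=
      (measurable_const.mul measurable_snd).pow_const _
    have a2 : Measurable (fun p : (Fin k → ℝ) × ℝ => ∑ i, (x i - Xt.mulVec p.1 i) ^ 2) := by
      have c1 : Continuous (fun p : (Fin k → ℝ) × ℝ => Xt.mulVec p.1) :=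
        (Xt.mulVecLin.continuous_of_finiteDimensional).comp continuous_fst
      have c2 : Continuous (fun p : (Fin k → ℝ) × ℝ => ∑ i, (x i - Xt.mulVec p.1 i) ^ 2) := by
        apply continuous_finsetSum
        intro i _
        exact (continuous_const.sub ((continuous_apply i).comp c1)).pow 2
      exact c2.measurable
    exact a1.mul ((a2.neg.div (measurable_const.mul measurable_snd)).exp)
  · have hmem : ∀ᵐ p : (Fin k → ℝ) × ℝ ∂((volume : Measure (Fin k → ℝ)).prod
        (volume.restrict (Ioi (0:ℝ)))), p.2 ∈ Ioi (0:ℝ) :=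
      Measure.quasiMeasurePreserving_snd.ae (ae_restrict_mem measurableSet_Ioi)
    filter_upwards [hmem] with p hp
    obtain ⟨β, v⟩ := p
    have hv : (0:ℝ) < v := hp
    simp only
    obtain ⟨h1, h2⟩ := mixPrior_bounds X Xt bp hbp hαbp hε hε1 hμ hq β hv
    have h3 := normalPDF_pos (X.mulVec β) hv y
    have h3' := normalPDF_pos (Xt.mulVec β) hv x
    rw [Real.norm_of_nonneg (by positivity), ← hαbp]
    have h4 : normalPDF (Xt.mulVec β) v x ^ bp ≤
        (2 * Real.pi) ^ (-(m : ℝ) / 2 * bp) * v ^ (-((m : ℝ) / 2 * bp)) := by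
      have h5 : normalPDF (Xt.mulVec β) v x ≤ (2 * Real.pi * v) ^ (-(m : ℝ) / 2) := by
        unfold normalPDF
        apply mul_le_of_le_one_right (by positivity)
        apply Real.exp_le_one_iff.mpr
        have h6 : 0 ≤ ∑ i, (x i - Xt.mulVec β i) ^ 2 := Finset.sum_nonneg (fun i _ => sq_nonneg _)
        have h7 : 0 ≤ (∑ i, (x i - Xt.mulVec β i) ^ 2) / (2 * v) := by positivity
        rw [neg_div]
        linarith
      calc normalPDF (Xt.mulVec β) v x ^ bp ≤ ((2 * Real.pi * v) ^ (-(m : ℝ) / 2)) ^ bp :=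
            Real.rpow_le_rpow h3'.le h5 hbp.le
        _ = _ := by
          rw [← Real.rpow_mul (by positivity), Real.mul_rpow (by positivity) hv.le]
          congr 2
          ring
    calc normalPDF (Xt.mulVec β) v x ^ bp *
          (normalPDF (X.mulVec β) v y * mixPrior X Xt α ε μ β v)
        ≤ ((2 * Real.pi) ^ (-(m : ℝ) / 2 * bp) * v ^ (-((m : ℝ) / 2 * bp))) *
          (normalPDF (X.mulVec β) v y * mixPrior X Xt α ε μ β v) := by gcongr
      _ = _ := by ring

end

end MP4845
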