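import Mathlib
import Pool.Agent.Lib.MP_4845bf_pr.Q2Compare
import Pool.Agent.Lib.MP_4845bf_pr.Q2Proper

/-!
The generalized Bayes density dominates the best invariant one (Q2).
-/

set_option linter.unusedSectionVars false
set_option linter.unnecessarySimpa false

namespace MP4845

open MeasureTheory Module Set Filter Topology WithLp
open scoped InnerProductSpace

variable {n k m : ℕ} (X : Matrix (Fin n) (Fin k) ℝ) (Xt : Matrix (Fin m) (Fin k) ℝ)

lemma regular_mix (hk : 1 ≤ k) (hkn : k < n) (hX : X.rank = k) {α ε μ : ℝ}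
    (hα1 : α < 1) (hε : 0 ≤ ε) (hε1 : ε < 1) (hμ : 0 < μ) :
    RegularPrior X Xt α (mixPrior X Xt α ε μ) := by
  have hA := AA_injective X hX
  set bp : ℝ := (1 - α) / 2 with hbpd
  have hbp : 0 < bp := by rw [hbpd]; linarith
  have hnk : (0:ℝ) < (n : ℝ) - k := by
    have : (k : ℝ) < n := by exact_mod_cast hkn
    linarith
  have hq : 0 < ((n : ℝ) + m * bp - k) / 2 := by
    have : 0 ≤ m * bp := by positivity
    linarith
  refine ⟨measurable_mixPrior X Xt bp hbp hbpd, fun β v hv =>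
    (mixPrior_bounds X Xt bp hbp hbpd hε hε1 hμ hq β hv).1, ?_, ?_⟩
  · filter_upwards [ae_SS_pos X hA hkn] with y hy
    have h := posterior_int X Xt bp hA (by omega) hkn hbp (c := 0) hbpd hε hε1 hμ le_rfl hy
    refine h.congr ?_
    filter_upwards with p
    simp
  · filter_upwards [ae_SS_pos X hA hkn] with y hy
    intro x
    exact kernel_int X Xt bp hA (by omega) hkn hbp hbpd hε hε1 hμ hy x

theorem main_theorem2 (hk : 1 ≤ k) (hkn : k < n) (hm : 1 ≤ m) (hX : X.rank = k)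
    (hXt : Xt ≠ 0) {α : ℝ} (hα : -1 ≤ α) (hα1 : α < 1) :
    ∃ ε μ₀ : ℝ, 0 < ε ∧ ε < 1 ∧ 0 < μ₀ ∧ ∀ μ : ℝ, 0 < μ → μ ≤ μ₀ →
      RegularPrior X Xt α (mixPrior X Xt α ε μ) ∧
      ∃ q : (Fin n → ℝ) → (Fin m → ℝ) → ℝ, IsPredictiveDensity q ∧ (∀ y x, 0 < q y x) ∧
        (∀ᵐ y : Fin n → ℝ, ∀ x, q y x = genBayes X Xt α (mixPrior X Xt α ε μ) y x) ∧
        ∀ (β : Fin k → ℝ) (v : ℝ), 0 < v →
          FiniteRisk X Xt α q β v ∧ FiniteRisk X Xt α (bestInvariant X Xt α) β v ∧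
          risk X Xt α q β v < risk X Xt α (bestInvariant X Xt α) β v := by
  have hA := AA_injective X hX
  set bp : ℝ := (1 - α) / 2 with hbpd
  have hbp : 0 < bp := by rw [hbpd]; linarith
  have hB := BB_ne_zero Xt hbp hXt
  set τ : ℝ := (1 + α) / 2 with hτd
  have hτ0 : 0 ≤ τ := by rw [hτd]; linarith
  have hbτ : bp = 1 - τ := by rw [hbpd, hτd]; ring
  have hnk : (0:ℝ) < (n : ℝ) - k := by
    have : (k : ℝ) < n := by exact_mod_cast hkn
    linarith
  have hm' : (0:ℝ) < m := by exact_mod_cast (show 0 < m by omega)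
  set γ : ℝ := ((n : ℝ) - k) / (2 * bp) + m / 2 with hγd
  have hγm : (m : ℝ) < 2 * γ := by
    have : 0 < ((n : ℝ) - k) / (2 * bp) := by positivity
    rw [hγd]
    linarith
  have hq : 0 < ((n : ℝ) + m * bp - k) / 2 := by
    have : 0 < m * bp := by positivity
    linarith
  have hγ2 : γ = (((n : ℝ) + m * bp - k) / 2) / bp := by
    rw [hγd]
    field_simp
    ring
  have hbest : ∀ y : Fin n → ℝ, 0 < SS X y → ∀ x, bestInvariant X Xt α y x =
      qU X Xt bp hbp hA γ y x := by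
    intro y hy x
    exact bestInvariant_eq X Xt bp hbp hA (by omega) hbpd hγ2 hγm hq hy x
  obtain ⟨ε, hε0, hε1, μ0, hμ0, hmain2⟩ := main_pos2 X Xt bp hbp hA (by omega) hkn (by omega)
    hB hτ0 hbτ hγd
  obtain ⟨ε', _, _, hmain⟩ := main_pos X Xt bp hbp hA (by omega) hkn (by omega) hB hτ0 hbτ hγd
  refine ⟨ε, μ0 * bp, hε0, by linarith, by positivity, ?_⟩
  intro μ hμ hμle
  have hμ' : 0 < μ / bp := by positivity
  have hμ'le : μ / bp ≤ μ0 := by
    rw [div_le_iff₀ hbp]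
    exact hμle
  obtain ⟨⟨cu, hcu⟩, hpos2⟩ := hmain2 (μ / bp) hμ' hμ'le
  refine ⟨regular_mix X Xt hk hkn hX hα1 hε0.le (by linarith) hμ, qG X Xt bp hbp hA γ ε (μ / bp),
    qG_pred X Xt bp hbp hA hγm hε0.le hμ'.le, qG_pos X Xt bp hbp hA hγm hε0.le hμ'.le, ?_, ?_⟩
  · filter_upwards [ae_SS_pos X hA hkn] with y hy
    intro x
    exact (genBayes_mix_eq X Xt bp hbp hA (by omega) hbpd hε0.le (by linarith) hμ hq hγ2 hy x).symm
  · intro β v hv
    obtain ⟨hint, _⟩ := hmain β v hv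
    obtain ⟨hΨint, hpos⟩ := hpos2 β v hv
    have hqΨ : ∀ z : (Fin n → ℝ) × (Fin m → ℝ), 0 < SS X z.1 →
        qG X Xt bp hbp hA γ ε (μ / bp) z.1 z.2 = qU X Xt bp hbp hA γ z.1 z.2 *
          Real.exp (PsiG X Xt bp hbp hA γ ε (μ / bp) z) :=
      fun z hz => qG_qU X Xt bp hbp hA hγm hε0.le hμ'.le z hz
    have hcomp : Integrable (hh X Xt α (qU X Xt bp hbp hA γ) β v)
          ((volume : Measure (Fin n → ℝ)).prod volume) ∧
        Integrable (hh X Xt α (qG X Xt bp hbp hA γ ε (μ / bp)) β v)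
          ((volume : Measure (Fin n → ℝ)).prod volume) ∧
        ∫ z, hh X Xt α (qG X Xt bp hbp hA γ ε (μ / bp)) β v z
            ∂((volume : Measure (Fin n → ℝ)).prod volume) <
          ∫ z, hh X Xt α (qU X Xt bp hbp hA γ) β v z
            ∂((volume : Measure (Fin n → ℝ)).prod volume) := by
      rcases hα.eq_or_lt with h | h
      · have hb1 : bp = 1 := by rw [hbpd, ← h]; norm_num
        have hτ1 : τ = 0 := by rw [hτd, ← h]; norm_num
        rw [hτ1] at hΨint hpos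
        have h2 := compare_log2 X Xt bp hbp hA (by omega) hkn (by omega) hb1 hγm
          (qG_pos X Xt bp hbp hA hγm hε0.le hμ'.le) hqΨ β hv hΨint hpos
        rwa [h] at h2
      · have hα2 : 0 < 1 - α ^ 2 := by nlinarith
        exact compare_pow2 X Xt bp hbp hA hkn (by omega) (by omega) h.ne' hτd hbτ
          (by rw [hτd]; linarith) hα2 hγm
          (fun y x => (qG_pos X Xt bp hbp hA hγm hε0.le hμ'.le y x).le)
          (measurable_PsiG X Xt bp hbp hA γ ε (μ / bp)) hcu hqΨ β hv hint hΨint hpos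
    obtain ⟨hIU, hIC, hlt⟩ := hcomp
    have hae : hh X Xt α (bestInvariant X Xt α) β v =ᵐ[(volume : Measure (Fin n → ℝ)).prod volume]
        hh X Xt α (qU X Xt bp hbp hA γ) β v := by
      filter_upwards [ae_prod_SS_pos X (m := m) hA hkn] with z hz
      unfold hh
      rw [hbest z.1 hz z.2]
    have hIB := hIU.congr hae.symm
    obtain ⟨f1, r1⟩ := risk_of_int X Xt α hv hIC
    obtain ⟨f2, r2⟩ := risk_of_int X Xt α hv hIB
    refine ⟨f1, f2, ?_⟩
    rw [r1, r2, integral_congr_ae hae]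
    exact hlt

end MP4845
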